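import Pool.Agent.W_eea520_h69.CatA

/-! Category on vertical lines. -/

set_option autoImplicit false

namespace Pool.Agent.EEA520

open Filter Topology MeasureTheory

/-- Nonmeagre Borel sets meet their small translates in nonmeagre sets. -/
theorem catB_inter {T : Set ℝ} (hT : MeasurableSet T) (h : ¬ IsMeagre T) :
    ∀ᶠ α : ℝ in 𝓝 0, ¬ IsMeagre (T ∩ (fun t => t + α) ⁻¹' T) := by
  obtain ⟨u, hu, hTu⟩ := hT.residualEq_isOpen
  have hne : u.Nonempty := by
    rw [Set.nonempty_iff_ne_empty]
    rintro rfl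
    apply h
    have h1 : Tᶜ =ᶠ[residual ℝ] (∅ᶜ : Set ℝ) := hTu.compl
    rw [Set.compl_empty] at h1
    exact eventuallyEq_univ.1 h1
  obtain ⟨x0, hx0⟩ := hne
  have h0 : Tendsto (fun α : ℝ => x0 + α) (𝓝 0) (𝓝 x0) := by
    have : Continuous fun α : ℝ => x0 + α := by fun_prop
    simpa using this.tendsto 0
  filter_upwards [h0 (hu.mem_nhds hx0)] with α hα hm
  have hc : Continuous fun t : ℝ => t + α := by fun_prop
  have ht : Tendsto (fun t : ℝ => t + α) (residual ℝ) (residual ℝ) :=
    tendsto_residual_of_isOpenMap hc (Homeomorph.addRight α).isOpenMap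
  have h1 : ((fun t => t + α) ⁻¹' T : Set ℝ) =ᶠ[residual ℝ] ((fun t => t + α) ⁻¹' u : Set ℝ) :=
    hTu.comp_tendsto ht
  have h2 : (T ∩ (fun t => t + α) ⁻¹' T : Set ℝ) =ᶠ[residual ℝ]
      (u ∩ (fun t => t + α) ⁻¹' u : Set ℝ) := hTu.inter h1
  have h3 : IsMeagre (u ∩ (fun t => t + α) ⁻¹' u) := by
    have h4 := h2.compl
    have h5 : ((T ∩ (fun t => t + α) ⁻¹' T)ᶜ : Set ℝ) =ᶠ[residual ℝ] (Set.univ : Set ℝ) :=
      eventuallyEq_univ.2 hm
    exact eventuallyEq_univ.1 (h4.symm.trans h5)
  exact not_isMeagre_of_isOpen (hu.inter (hu.preimage hc)) ⟨x0, hx0, hα⟩ h3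

theorem catB_sum {ι : Type*} (s : Finset ι) (f : ι → Dat) (h : ∀ a ∈ s, Cont (f a)) :
    Cont (∑ a ∈ s, f a) := by
  classical
  induction s using Finset.induction_on with
  | empty => rw [Finset.sum_empty]; exact cont_zero
  | insert k s hk ih =>
    rw [Finset.sum_insert hk]
    exact (h k (Finset.mem_insert_self _ _)).add
      (ih fun a ha => h a (Finset.mem_insert_of_mem ha))

/-- Induction on the cardinality of `A` (for all `D`). If `A` has one element, use one `t`. Otherwise
let `k ∈ A` and `T` the set in the hypothesis. It is a Borel set (`measurable_twists`), so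
`T =ᵇ u`, `u` open (`MeasurableSet.residualEq_isOpen`), `u` nonempty. For small `α` the set
`T ∩ (T - α)` is `=ᵇ u ∩ (u - α)`, and this is open and nonempty, so `T ∩ (T - α)` is not meagre
(`ℝ` is a Baire space). By `cont_step` and the induction hypothesis,
`Cont ((tw (a α I) - tw (k α I)) * D a)` for all `a ∈ A.erase k`; multiply by `tw (-k α I)`:
`Cont ((tw ((a - k) α I) - 1) * D a)` for all small `α`. So `Cont (D a)` by `cont_of_nhds`. Finally
`Cont (D k)` by subtraction, for one `t ∈ T`. -/
theorem cont_of_not_meagre (A : Finset ℤ) (D : ℤ → Dat) (hD : ∀ a ∈ A, D a ∈ BB) (x : ℝ)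
    (h : ¬ IsMeagre {t : ℝ | Cont (∑ a ∈ A, tw ((a : ℂ) * (x + t * Complex.I)) * D a)}) :
    ∀ a ∈ A, Cont (D a) := by
  classical
  induction A using Finset.induction_on generalizing D with
  | empty => intro a ha; simp at ha
  | insert k s hk ih =>
    have hT := measurable_twists (insert k s) D hD x
    have h1 := catB_inter hT h
    have hDs : ∀ a ∈ s, D a ∈ BB := fun a ha => hD a (Finset.mem_insert_of_mem ha)
    have h2 : ∀ᶠ α : ℝ in 𝓝 0, ∀ a ∈ s,
        Cont ((tw ((a : ℂ) * (α * Complex.I)) - tw ((k : ℂ) * (α * Complex.I))) * D a) := by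
      filter_upwards [h1] with α hα
      refine ih (fun a => (tw ((a : ℂ) * (α * Complex.I)) - tw ((k : ℂ) * (α * Complex.I))) * D a)
        (fun a ha => BB.mul_mem (BB.sub_mem (tw_mem _) (tw_mem _)) (hDs a ha)) ?_
      intro hm
      apply hα
      refine hm.mono ?_
      rintro t ⟨ht, ht'⟩
      have h3 := cont_step (insert k s) D k x t α ht (by simpa using ht')
      rw [Finset.erase_insert hk] at h3
      exact h3
    have h4 : ∀ a ∈ s, Cont (D a) := by
      intro a ha
      have hak : ((a : ℝ) - k) ≠ 0 := by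
        intro h0
        have : (a : ℝ) = k := by linarith
        have h5 : a = k := by exact_mod_cast this
        exact hk (h5 ▸ ha)
      refine cont_of_nhds (hDs a ha) ?_
      have ht : Tendsto (fun β : ℝ => β / ((a : ℝ) - k)) (𝓝 0) (𝓝 0) := by
        have : Continuous fun β : ℝ => β / ((a : ℝ) - k) := by fun_prop
        simpa using this.tendsto 0
      filter_upwards [ht.eventually h2] with β hβ
      have h5 := (hβ a ha).tw (-((k : ℂ) * ((β / ((a : ℝ) - k) : ℝ) * Complex.I)))
      have h6 : tw (-((k : ℂ) * ((β / ((a : ℝ) - k) : ℝ) * Complex.I))) *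
          ((tw ((a : ℂ) * ((β / ((a : ℝ) - k) : ℝ) * Complex.I)) -
            tw ((k : ℂ) * ((β / ((a : ℝ) - k) : ℝ) * Complex.I))) * D a) =
          (tw (β * Complex.I) - 1) * D a := by
        rw [← mul_assoc, mul_sub, ← tw_add, ← tw_add, neg_add_cancel, tw_zero]
        congr 3
        have hak' : ((a : ℂ) - k) ≠ 0 := by
          intro h0
          apply hak
          exact_mod_cast h0
        push_cast
        field_simp
        ring
      rw [h6] at h5
      exact h5
    have hne : ∃ t : ℝ, Cont (∑ a ∈ insert k s, tw ((a : ℂ) * (x + t * Complex.I)) * D a) := by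
      by_contra hno
      apply h
      have : {t : ℝ | Cont (∑ a ∈ insert k s, tw ((a : ℂ) * (x + t * Complex.I)) * D a)} = ∅ := by
        apply Set.eq_empty_of_forall_notMem
        intro t ht
        exact hno ⟨t, ht⟩
      rw [this]
      exact IsMeagre.empty
    obtain ⟨t, ht⟩ := hne
    rw [Finset.sum_insert hk] at ht
    have h7 := catB_sum s (fun a => tw ((a : ℂ) * (x + t * Complex.I)) * D a)
      (fun a ha => (h4 a ha).tw _)
    have h8 := ht.sub h7
    rw [add_sub_cancel_right] at h8
    have h9 := h8.tw (-((k : ℂ) * (x + t * Complex.I)))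
    rw [tw_neg_mul] at h9
    intro a ha
    rcases Finset.mem_insert.1 ha with rfl | ha
    · exact h9
    · exact h4 a ha

end Pool.Agent.EEA520
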