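import Pool.Agent.W_eea520_h69.CatA

/-! Measure on vertical lines. -/

set_option autoImplicit false

namespace Pool.Agent.EEA520

open Filter Topology MeasureTheory

theorem CatC_tw_mul (z w : ℂ) : tw z * tw w = tw (z + w) := by
  funext p
  have hp : ((p : ℕ) : ℂ) ≠ 0 := Nat.cast_ne_zero.2 p.2.ne_zero
  have h : (tw z * tw w) p = el (ppow p z) * el (ppow p w) := rfl
  have h' : tw (z + w) p = el (ppow p (z + w)) := rfl
  rw [h, h']
  unfold el
  rw [← map_mul]
  congr 1
  apply Units.ext
  have h3 : ∀ w, ((ppow p w : ℂˣ) : ℂ) = ((p : ℕ) : ℂ) ^ w := fun w => rfl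
  rw [Units.val_mul, h3, h3, h3, ← Complex.cpow_add _ _ hp]

theorem CatC_untw {z : ℂ} {D : Dat} (h : Cont (tw z * D)) : Cont D := by
  have h1 := h.tw (-z)
  rwa [tw_neg_mul] at h1

theorem CatC_sum {A : Finset ℤ} {F : ℤ → Dat} (h : ∀ a ∈ A, Cont (F a)) :
    Cont (∑ a ∈ A, F a) := by
  classical
  induction A using Finset.induction_on with
  | empty => rw [Finset.sum_empty]; exact cont_zero
  | insert a s ha ih =>
    rw [Finset.sum_insert ha]
    exact (h a (Finset.mem_insert_self a s)).add
      (ih fun b hb => h b (Finset.mem_insert_of_mem hb))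

/-- The set of the translations `α` for which `T ∩ (T - α)` is not a null set has positive
measure. -/
theorem CatC_shift {T : Set ℝ} (hT : MeasurableSet T) (h : volume T ≠ 0) :
    ∃ S : Set ℝ, MeasurableSet S ∧ volume S ≠ 0 ∧
      ∀ α ∈ S, volume {t : ℝ | t ∈ T ∧ t + α ∈ T} ≠ 0 := by
  obtain ⟨U, hU⟩ : ∃ U : Set (ℝ × ℝ), U = {p | p.2 ∈ T ∧ p.2 + p.1 ∈ T} := ⟨_, rfl⟩
  have hUm : MeasurableSet U := by
    rw [hU]
    exact (measurable_snd hT).inter ((measurable_snd.add measurable_fst) hT)
  have hm : Measurable fun α : ℝ => volume (Prod.mk α ⁻¹' U) := measurable_measure_prodMk_left hUm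
  refine ⟨{α | volume (Prod.mk α ⁻¹' U) ≠ 0}, ?_, ?_, ?_⟩
  · exact hm (measurableSet_singleton (0 : ENNReal)).compl
  · intro h0
    have h1 : (volume.prod volume : Measure (ℝ × ℝ)) U = 0 := by
      rw [Measure.prod_apply hUm, lintegral_eq_zero_iff hm]
      exact h0
    have h2 : (volume.prod volume : Measure (ℝ × ℝ)) U = volume T * volume T := by
      rw [Measure.prod_apply_symm hUm]
      have h3 : ∀ t : ℝ, volume ((fun α : ℝ => (α, t)) ⁻¹' U) =
          T.indicator (fun _ => volume T) t := by
        intro t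
        by_cases ht : t ∈ T
        · rw [Set.indicator_of_mem ht]
          have h4 : (fun α : ℝ => (α, t)) ⁻¹' U = (fun α => t + α) ⁻¹' T := by
            ext α
            rw [hU]
            exact ⟨fun h => h.2, fun h => ⟨ht, h⟩⟩
          rw [h4, measure_preimage_add]
        · rw [Set.indicator_of_notMem ht]
          have h4 : (fun α : ℝ => (α, t)) ⁻¹' U = ∅ := by
            ext α
            rw [hU]
            exact ⟨fun h => ht h.1, fun h => h.elim⟩
          rw [h4, measure_empty]
      simp only [h3]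
      rw [lintegral_indicator hT, lintegral_const, Measure.restrict_apply_univ]
    rw [h2] at h1
    exact h (mul_self_eq_zero.1 h1)
  · intro α hα
    have h1 : Prod.mk α ⁻¹' U = {t : ℝ | t ∈ T ∧ t + α ∈ T} := by
      rw [hU]
      rfl
    rw [← h1]
    exact hα

/-- The same proof with measure instead of category: `T` is measurable with `volume T ≠ 0`; by
Tonelli `∫ volume (T ∩ (T - α)) dα = volume T ^ 2 ≠ 0` (replace `T` by `T ∩ [-N, N]` if you need
finite measure), so the measurable set `S` of all `α` with `volume (T ∩ (T - α)) ≠ 0` has positive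
measure, and so has `(a - k) • S`; use `cont_of_pos`. -/
theorem cont_of_not_null (A : Finset ℤ) (D : ℤ → Dat) (hD : ∀ a ∈ A, D a ∈ BB) (x : ℝ)
    (h : volume {t : ℝ | Cont (∑ a ∈ A, tw ((a : ℂ) * (x + t * Complex.I)) * D a)} ≠ 0) :
    ∀ a ∈ A, Cont (D a) := by
  classical
  induction hn : A.card generalizing A D with
  | zero =>
    intro a ha
    rw [Finset.card_eq_zero.1 hn] at ha
    exact absurd ha (Finset.notMem_empty a)
  | succ n ih =>
    obtain ⟨k, hk⟩ : A.Nonempty := by
      rw [← Finset.card_pos, hn]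
      exact Nat.succ_pos n
    obtain ⟨T, hT⟩ : ∃ T : Set ℝ, T =
      {t : ℝ | Cont (∑ a ∈ A, tw ((a : ℂ) * (x + t * Complex.I)) * D a)} := ⟨_, rfl⟩
    rw [← hT] at h
    have hTm : MeasurableSet T := by
      rw [hT]
      exact measurable_twists A D hD x
    obtain ⟨S, hSm, hS0, hS⟩ := CatC_shift hTm h
    -- the coefficients different from `k`
    have hrest : ∀ a ∈ A.erase k, Cont (D a) := by
      intro a ha
      have hak : a ≠ k := Finset.ne_of_mem_erase ha
      have hr : ((a : ℝ) - k) ≠ 0 := by
        intro h0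
        apply hak
        have h1 : (a : ℝ) = k := sub_eq_zero.1 h0
        exact_mod_cast h1
      refine cont_of_pos (S := (fun β : ℝ => ((a : ℝ) - k)⁻¹ * β) ⁻¹' S)
        (hD a (Finset.mem_of_mem_erase ha)) ?_ ?_ ?_
      · exact (measurable_const_mul _) hSm
      · rw [Real.volume_preimage_mul_left (inv_ne_zero hr)]
        refine mul_ne_zero ?_ hS0
        rw [Ne, ENNReal.ofReal_eq_zero, not_le]
        rw [inv_inv]
        exact abs_pos.2 hr
      · intro β hβ
        obtain ⟨α, hα⟩ : ∃ α, α = ((a : ℝ) - k)⁻¹ * β := ⟨_, rfl⟩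
        have hαS : α ∈ S := by
          rw [hα]
          exact hβ
        have hβα : β = ((a : ℝ) - k) * α := by
          rw [hα, mul_inv_cancel_left₀ hr]
        have h1 := hS α hαS
        have h2 : volume {t : ℝ | Cont (∑ a ∈ A.erase k, tw ((a : ℂ) * (x + t * Complex.I)) *
            ((tw ((a : ℂ) * (α * Complex.I)) - tw ((k : ℂ) * (α * Complex.I))) * D a))} ≠ 0 := by
          intro h0
          apply h1
          refine measure_mono_null ?_ h0
          rintro t ⟨ht1, ht2⟩
          rw [hT] at ht1 ht2
          exact cont_step A D k x t α ht1 ht2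
        have h3 := ih (A.erase k)
          (fun a => (tw ((a : ℂ) * (α * Complex.I)) - tw ((k : ℂ) * (α * Complex.I))) * D a)
          (fun b hb => BB.mul_mem (BB.sub_mem (tw_mem _) (tw_mem _))
            (hD b (Finset.mem_of_mem_erase hb))) h2
          (by rw [Finset.card_erase_of_mem hk, hn]; rfl) a ha
        have h4 := h3.tw (-((k : ℂ) * (α * Complex.I)))
        have h5 : tw (-((k : ℂ) * (α * Complex.I))) *
            ((tw ((a : ℂ) * (α * Complex.I)) - tw ((k : ℂ) * (α * Complex.I))) * D a) =
            (tw ((β : ℂ) * Complex.I) - 1) * D a := by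
          rw [← mul_assoc, mul_sub, CatC_tw_mul, CatC_tw_mul]
          have h6 : -((k : ℂ) * (α * Complex.I)) + (a : ℂ) * (α * Complex.I) =
              (β : ℂ) * Complex.I := by
            rw [hβα]
            push_cast
            ring
          have h7 : tw (-((k : ℂ) * (α * Complex.I)) + (k : ℂ) * (α * Complex.I)) = 1 := by
            rw [neg_add_cancel]
            have h8 := tw_neg_mul 0 1
            rw [neg_zero, mul_one] at h8
            have h9 := CatC_tw_mul 0 0
            rw [add_zero] at h9
            rw [← h9, h8]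
          rw [h6, h7]
        rw [h5] at h4
        exact h4
    intro a ha
    by_cases hak : a = k
    · subst hak
      obtain ⟨t, ht⟩ : T.Nonempty := nonempty_of_measure_ne_zero h
      rw [hT] at ht
      have h1 : Cont (∑ b ∈ A.erase a, tw ((b : ℂ) * (x + t * Complex.I)) * D b) :=
        CatC_sum fun b hb => (hrest b hb).tw _
      have h2 : Cont (∑ b ∈ A, tw ((b : ℂ) * (x + t * Complex.I)) * D b) := ht
      have h3 := h2.sub h1
      rw [← Finset.add_sum_erase A (fun b => tw ((b : ℂ) * (x + t * Complex.I)) * D b) ha,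
        add_sub_cancel_right] at h3
      exact CatC_untw h3
    · exact hrest a (Finset.mem_erase.2 ⟨hak, ha⟩)

end Pool.Agent.EEA520
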