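import Pool.Agent.W_eea520_h69.Op

/-! Finitely many twists with distinct real parts suffice. -/

set_option autoImplicit false

namespace Pool.Agent.EEA520

open Filter

/-- Rearrangement inequality (`Monovary.sum_mul_comp_perm_lt_sum_mul_iff` or similar): for strictly
increasing `a`, `x` and a permutation `τ ≠ 1`, `∑ a (τ j) x j < ∑ a j x j`. -/
theorem rearr {d : ℕ} {a x : Fin d → ℝ} (ha : StrictMono a) (hx : StrictMono x)
    (τ : Equiv.Perm (Fin d)) (hτ : τ ≠ 1) : ∑ j, a (τ j) * x j < ∑ j, a j * x j := by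
  have h1 : Monovary a x := ha.monotone.monovary hx.monotone
  rw [h1.sum_comp_perm_mul_lt_sum_mul_iff]
  intro h2
  apply hτ
  have h3 : StrictMono τ := by
    intro i j hij
    have h4 : a (τ i) ≤ a (τ j) := h2 (hx hij)
    exact lt_of_le_of_ne (ha.le_iff_le.1 h4) (fun h => hij.ne (τ.injective h))
  have h5 : (τ : Fin d → Fin d) = id := by
    apply (h3.range_inj strictMono_id).1
    rw [τ.surjective.range_eq, Set.range_id]
  ext i
  exact congrArg Fin.val (congrFun h5 i)

/-- `det (tw (a i * z j)) = ∑_τ sign τ • tw (∑_j a (τ j) z j)` (`Matrix.det_apply`, `tw_sum`); the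
identity gives the term `tw (∑_j a j z j)` with the largest real part. -/
theorem det_form {d : ℕ} {a : Fin d → ℤ} (ha : StrictMono a) {z : Fin d → ℂ}
    (hz : StrictMono fun j => (z j).re) :
    ∃ (s : Finset (Equiv.Perm (Fin d))) (w₀ : ℂ) (w : Equiv.Perm (Fin d) → ℂ)
      (e : Equiv.Perm (Fin d) → ℤ), (∀ τ ∈ s, (w τ).re < w₀.re) ∧
      Matrix.det (Matrix.of fun i j => tw ((a i : ℂ) * z j)) = tw w₀ + ∑ τ ∈ s, e τ • tw (w τ) := by
  refine ⟨Finset.univ.erase 1, ∑ j, (a j : ℂ) * z j, fun τ => ∑ j, (a (τ j) : ℂ) * z j,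
    fun τ => ((Equiv.Perm.sign τ : ℤˣ) : ℤ), ?_, ?_⟩
  · intro τ hτ
    have hτ1 : τ ≠ 1 := (Finset.mem_erase.1 hτ).1
    have h1 : StrictMono fun j => ((a j : ℤ) : ℝ) := fun i j hij => Int.cast_lt.2 (ha hij)
    have h2 := rearr h1 hz τ hτ1
    have h3 : ∀ σ : Fin d → ℤ, (∑ j, (σ j : ℂ) * z j).re = ∑ j, ((σ j : ℤ) : ℝ) * (z j).re := by
      intro σ
      rw [Complex.re_sum]
      refine Finset.sum_congr rfl fun j _ => ?_
      simp
    show (∑ j, (a (τ j) : ℂ) * z j).re < (∑ j, (a j : ℂ) * z j).re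
    rw [h3 (fun j => a (τ j)), h3 a]
    exact h2
  · rw [Matrix.det_apply]
    have h1 : ∀ τ : Equiv.Perm (Fin d), Equiv.Perm.sign τ •
        ∏ j, (Matrix.of fun i j => tw ((a i : ℂ) * z j)) (τ j) j =
        ((Equiv.Perm.sign τ : ℤˣ) : ℤ) • tw (∑ j, (a (τ j) : ℂ) * z j) := by
      intro τ
      rw [tw_sum, Units.smul_def]
      rfl
    rw [Finset.sum_congr rfl fun τ _ => h1 τ, ← Finset.add_sum_erase _ _ (Finset.mem_univ 1)]
    congr 1
    simp

theorem Vand_sum {ι : Type*} (s : Finset ι) (F : ι → Dat) (h : ∀ i ∈ s, Cont (F i)) :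
    Cont (∑ i ∈ s, F i) := by
  classical
  induction s using Finset.induction_on with
  | empty => rw [Finset.sum_empty]; exact cont_zero
  | insert i s hi ih =>
    rw [Finset.sum_insert hi]
    exact (h i (Finset.mem_insert_self _ _)).add (ih fun j hj => h j (Finset.mem_insert_of_mem hj))

/-- Proof. Let `M = (tw (a i * z j))_(j, i)` and `F j = ∑ i, tw (a i * z j) * D i`, so `M *ᵥ D = F`.
Multiply by the adjugate: `det M * D i = ∑ j, adjugate M i j * F j`, and the entries of the adjugate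
are in `TW` (they are determinants of matrices with entries in `TW`); so `Cont (det M * D i)` by
`Cont.mul_TW`. Use `det_form` and `cont_of_dominated`. -/
theorem finite_twists {d : ℕ} {a : Fin d → ℤ} (ha : StrictMono a) {z : Fin d → ℂ}
    (hz : StrictMono fun j => (z j).re) (D : Fin d → Dat) (hD : ∀ i, D i ∈ BB)
    (h : ∀ j, Cont (∑ i, tw ((a i : ℂ) * z j) * D i)) : ∀ i, Cont (D i) := by
  intro i
  set M : Matrix (Fin d) (Fin d) Dat := Matrix.of fun i j => tw ((a i : ℂ) * z j) with hM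
  let N : Matrix (Fin d) (Fin d) TW := Matrix.of fun j i => ⟨tw ((a i : ℂ) * z j), tw_mem_TW _⟩
  have hN : TW.subtype.mapMatrix N = M.transpose := rfl
  have hadj : ∀ i j, M.transpose.adjugate i j ∈ TW := by
    intro i j
    rw [← hN, ← RingHom.map_adjugate]
    exact (N.adjugate i j).2
  set F : Fin d → Dat := fun j => ∑ i, tw ((a i : ℂ) * z j) * D i with hF
  have hMD : M.transpose.mulVec D = F := by
    funext j
    rfl
  have h1 : M.transpose.adjugate.mulVec F = M.det • D := by
    rw [← hMD, Matrix.mulVec_mulVec, Matrix.adjugate_mul, Matrix.det_transpose,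
      Matrix.smul_mulVec, Matrix.one_mulVec]
  have h2 : M.det * D i = ∑ j, M.transpose.adjugate i j * F j := by
    have h3 := congrFun h1 i
    rw [Pi.smul_apply, smul_eq_mul] at h3
    rw [← h3]
    rfl
  have h4 : Cont (M.det * D i) := by
    rw [h2]
    exact Vand_sum _ _ fun j _ => (Cont.mul_TW (hadj i j) (h j))
  obtain ⟨s, w₀, w, e, hw, hdet⟩ := det_form ha hz
  rw [hM, hdet] at h4
  exact cont_of_dominated s w₀ w e hw (hD i) h4

/-- The version for a finite set of integers. Proof. Otherwise let `B` be the set of all `a ∈ A` such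
that `Cont (D a)` fails, and suppose that the real parts of the `z` with `Cont (F z)` are not
contained in a set with less than `B.card` elements; then there are `B.card` such `z` with distinct
real parts (take a subset of the set of real parts with `B.card` elements, ordered by
`Finset.orderEmbOfFin`, and choose `z` for each of them). For these `z` also
`∑ a ∈ B, tw (a z) * D a` satisfies `Cont` (subtract the terms with `a ∉ B`, `Cont.mul_TW`).
`finite_twists` gives `Cont (D a)` for `a ∈ B`, a contradiction. -/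
theorem lines (A : Finset ℤ) (D : ℤ → Dat) (hD : ∀ a ∈ A, D a ∈ BB)
    (hB : ∃ a ∈ A, ¬ Cont (D a)) : ∃ X : Finset ℝ,
      X.card < Set.ncard {a : ℤ | a ∈ A ∧ ¬ Cont (D a)} ∧
      ∀ z : ℂ, Cont (∑ a ∈ A, tw ((a : ℂ) * z) * D a) → z.re ∈ X := by
  classical
  set B : Finset ℤ := A.filter fun a => ¬ Cont (D a) with hBdef
  have hcard : Set.ncard {a : ℤ | a ∈ A ∧ ¬ Cont (D a)} = B.card := by
    rw [← Set.ncard_coe_finset]
    congr 1
    ext a
    simp [hBdef]
  have hB0 : 0 < B.card := by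
    obtain ⟨a, ha, ha'⟩ := hB
    exact Finset.card_pos.2 ⟨a, Finset.mem_filter.2 ⟨ha, ha'⟩⟩
  rw [hcard]
  by_contra hcon
  push Not at hcon
  -- there are `B.card` real parts
  have hT : ∃ T : Finset ℝ, T.card = B.card ∧
      ∀ x ∈ T, ∃ z : ℂ, Cont (∑ a ∈ A, tw ((a : ℂ) * z) * D a) ∧ z.re = x := by
    set R : Set ℝ := {x | ∃ z : ℂ, Cont (∑ a ∈ A, tw ((a : ℂ) * z) * D a) ∧ z.re = x} with hR
    by_cases hfin : R.Finite
    · have h1 : B.card ≤ hfin.toFinset.card := by
        by_contra h2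
        obtain ⟨z, hz, hz'⟩ := hcon hfin.toFinset (by omega)
        exact hz' (hfin.mem_toFinset.2 ⟨z, hz, rfl⟩)
      obtain ⟨T, hT, hT'⟩ := Finset.exists_subset_card_eq h1
      exact ⟨T, hT', fun x hx => hfin.mem_toFinset.1 (hT hx)⟩
    · obtain ⟨T, hT, hT'⟩ := Set.Infinite.exists_subset_card_eq hfin B.card
      exact ⟨T, hT', fun x hx => hT hx⟩
  obtain ⟨T, hTc, hT⟩ := hT
  choose! zz hzz hzz' using hT
  set a : Fin B.card → ℤ := fun i => B.orderEmbOfFin rfl i with ha
  set z : Fin B.card → ℂ := fun j => zz (T.orderEmbOfFin hTc j) with hz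
  have haB : ∀ i, a i ∈ B := fun i => Finset.orderEmbOfFin_mem B rfl i
  have h1 : ∀ i, Cont (D (a i)) := by
    apply finite_twists (a := a) (B.orderEmbOfFin rfl).strictMono (z := z)
    · intro i j hij
      show (zz _).re < (zz _).re
      rw [hzz' _ (Finset.orderEmbOfFin_mem T hTc i), hzz' _ (Finset.orderEmbOfFin_mem T hTc j)]
      exact (T.orderEmbOfFin hTc).strictMono hij
    · intro i
      exact hD _ (Finset.mem_filter.1 (haB i)).1
    · intro j
      have h2 : ∑ i, tw ((a i : ℂ) * z j) * D (a i) = ∑ b ∈ B, tw ((b : ℂ) * z j) * D b := by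
        conv_rhs => rw [← Finset.map_orderEmbOfFin_univ B rfl]
        rw [Finset.sum_map]
        rfl
      rw [h2]
      have h3 := Finset.sum_filter_add_sum_filter_not A (fun b => ¬ Cont (D b))
        (fun b => tw ((b : ℂ) * z j) * D b)
      have h4 : ∑ b ∈ B, tw ((b : ℂ) * z j) * D b = ∑ b ∈ A, tw ((b : ℂ) * z j) * D b -
          ∑ b ∈ A.filter (fun b => ¬ ¬ Cont (D b)), tw ((b : ℂ) * z j) * D b := by
        rw [← h3, hBdef]
        ring
      rw [h4]
      refine (hzz _ (Finset.orderEmbOfFin_mem T hTc j)).sub (Vand_sum _ _ fun b hb => ?_)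
      exact (not_not.1 (Finset.mem_filter.1 hb).2).tw _
  exact (Finset.mem_filter.1 (haB ⟨0, hB0⟩)).2 (h1 ⟨0, hB0⟩)

end Pool.Agent.EEA520
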