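import Pool.Agent.W_eea520_h69.FinalA
import Pool.Agent.W_eea520_h69.CatB
import Pool.Agent.W_eea520_h69.CatC
import Pool.Agent.W_eea520_h69.Vand

/-! The zero-one law for twists. -/

set_option autoImplicit false

namespace Pool.Agent.EEA520

open Filter Topology MeasureTheory

theorem Cont.sum {ι : Type*} (s : Finset ι) (D : ι → Dat) (h : ∀ i ∈ s, Cont (D i)) :
    Cont (∑ i ∈ s, D i) := by
  classical
  induction s using Finset.induction_on with
  | empty => rw [Finset.sum_empty]; exact cont_zero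
  | insert a s ha ih =>
    rw [Finset.sum_insert ha]
    exact (h a (Finset.mem_insert_self a s)).add
      (ih fun i hi => h i (Finset.mem_insert_of_mem hi))

theorem continues_iff' {n : ℕ} {π : GSys n} (hπ : Bdd π) (m : Wt n →₀ ℤ) :
    Continues π m ↔ Cont (Phi π (AddMonoidAlgebra.ofCoeff m)) :=
  continues_iff hπ (AddMonoidAlgebra.ofCoeff m)

theorem zero_one {n k : ℕ} (π : GSys n) (σ : GLSys k) (hπ : PolyBounded π)
    (hσ : PolyBoundedL σ) (m : Wt (n + k) →₀ ℤ) :
    ((∀ a : ℤ, Continues (induce π σ 0) (m.filter fun w => degL w = a)) →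
      ∀ z : ℂ, Continues (induce π σ z) m) ∧
    ((∃ a : ℤ, ¬ Continues (induce π σ 0) (m.filter fun w => degL w = a)) →
      (∃ X : Finset ℝ,
        X.card < Set.ncard {a : ℤ | ¬ Continues (induce π σ 0) (m.filter fun w => degL w = a)} ∧
        ∀ z : ℂ, Continues (induce π σ z) m → z.re ∈ X) ∧
      ∀ x : ℝ, IsMeagre {t : ℝ | Continues (induce π σ (x + t * Complex.I)) m} ∧
        volume {t : ℝ | Continues (induce π σ (x + t * Complex.I)) m} = 0) := by
  classical
  obtain ⟨A, hA⟩ : ∃ A : Finset ℤ, A = m.support.image degL := ⟨_, rfl⟩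
  obtain ⟨D, hDdef⟩ : ∃ D : ℤ → Dat, D = fun a =>
    Phi (induce π σ 0) (AddMonoidAlgebra.ofCoeff (part m a)) := ⟨_, rfl⟩
  have hbdd : ∀ z, Bdd (induce π σ z) := induce_bdd hπ hσ
  have hD : ∀ a ∈ A, D a ∈ BB := fun a _ => by
    rw [hDdef]
    exact Phi_mem (hbdd 0) _
  have hz : ∀ z : ℂ, Continues (induce π σ z) m ↔
      Cont (∑ a ∈ A, tw ((a : ℂ) * z) * D a) := by
    intro z
    rw [continues_iff' (hbdd z), Phi_induce, hA, hDdef]
  have ha : ∀ a : ℤ, Continues (induce π σ 0) (m.filter fun w => degL w = a) ↔ Cont (D a) := by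
    intro a
    rw [hDdef]
    exact continues_iff' (hbdd 0) (part m a)
  have hout : ∀ a : ℤ, a ∉ A → Cont (D a) := by
    intro a haA
    have h0 : part m a = 0 := by
      rw [part, Finsupp.filter_eq_zero_iff]
      intro w hw
      by_contra hne
      apply haA
      rw [hA, ← hw]
      exact Finset.mem_image_of_mem _ (Finsupp.mem_support_iff.2 hne)
    rw [hDdef]
    simp only [h0]
    have h1 : (AddMonoidAlgebra.ofCoeff (0 : Wt (n + k) →₀ ℤ) : R (n + k)) = 0 := rfl
    rw [h1, map_zero]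
    exact cont_zero
  constructor
  · intro h z
    rw [hz]
    exact Cont.sum A _ fun a _ => ((ha a).1 (h a)).tw _
  · rintro ⟨a₀, ha₀⟩
    rw [ha] at ha₀
    have haA : a₀ ∈ A := by
      by_contra h
      exact ha₀ (hout a₀ h)
    refine ⟨?_, fun x => ⟨?_, ?_⟩⟩
    · obtain ⟨X, hX, hX'⟩ := lines A D hD ⟨a₀, haA, ha₀⟩
      refine ⟨X, ?_, fun z h => hX' z ((hz z).1 h)⟩
      have hset : {a : ℤ | ¬ Continues (induce π σ 0) (m.filter fun w => degL w = a)} =
          {a : ℤ | a ∈ A ∧ ¬ Cont (D a)} := by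
        ext a
        simp only [Set.mem_ofPred_eq, ha]
        exact ⟨fun h => ⟨by by_contra h'; exact h (hout a h'), h⟩, fun h => h.2⟩
      rw [hset]
      exact hX
    · simp only [hz]
      by_contra h
      exact ha₀ (cont_of_not_meagre A D hD x h a₀ haA)
    · simp only [hz]
      by_contra h
      exact ha₀ (cont_of_not_null A D hD x h a₀ haA)

end Pool.Agent.EEA520
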