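import Pool.Agent.W_eea520_h69.ZDefs

/-! Families of twists by points of the torus, and abscissas of meromorphic continuation. -/

set_option autoImplicit false

namespace Pool.Agent.EEA520

/-- The family of twists of `π` by the points `(p ^ (l₀ · z); p ^ (l 1 · z), …, p ^ (l n · z))` of the
torus, `z ∈ ℂ ^ L`. For example, if `π` is induced from a maximal parabolic subgroup with Levi
subgroup `GL_k × GSp_{2(n-k)}`, and `l₀ = 0`, `l i = 0` for the first `n - k` values of `i` and
`l i = 1` for the others, then it is the family of the representations induced from the twists by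
`|det| ^ (-z)` of `GL_k` (`shift_induce`); for other parabolic subgroups take the unit vectors of
`ℤ ^ L` for the `L` blocks. -/
noncomputable def shift {n L : ℕ} (π : GSys n) (l₀ : Fin L → ℤ) (l : Fin n → Fin L → ℤ)
    (z : Fin L → ℂ) : GSys n :=
  fun p => ⟨(π p).c * ppow p (∑ j, l₀ j * z j), fun i => (π p).x i * ppow p (∑ j, l i j * z j)⟩

/-- The multidegree of a weight: `ev w` takes the value `p ^ (mdeg w · z)` at the point of `shift`. -/
def mdeg {n L : ℕ} (l₀ : Fin L → ℤ) (l : Fin n → Fin L → ℤ) (w : Wt n) : Fin L → ℤ :=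
  fun j => w.1 * l₀ j + ∑ i, w.2 i * l i j

/-- The infimum, in `[-∞, ∞]`, of all real numbers `r` such that the Euler product of `π` for `m`
extends to a meromorphic function on the half plane `Re s > r`. -/
noncomputable def absc {n : ℕ} (π : GSys n) (m : Wt n →₀ ℤ) : EReal :=
  sInf {c : EReal | ∃ r : ℝ, ContinuesTo r π m ∧ c = r}

/-- The number `σ_a + a · x`, where `σ_a` is the abscissa of `π` for the part of multidegree `a`
of `m`. -/
noncomputable def term {n L : ℕ} (π : GSys n) (l₀ : Fin L → ℤ) (l : Fin n → Fin L → ℤ)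
    (m : Wt n →₀ ℤ) (x : Fin L → ℝ) (a : Fin L → ℤ) : EReal :=
  absc π (m.filter fun w => mdeg l₀ l w = a) + ((∑ j, a j * x j : ℝ) : EReal)

/-- The maximum of the `σ_a + a · x`, `a ∈ ℤ ^ L`. -/
noncomputable def trop {n L : ℕ} (π : GSys n) (l₀ : Fin L → ℤ) (l : Fin n → Fin L → ℤ)
    (m : Wt n →₀ ℤ) (x : Fin L → ℝ) : EReal :=
  ⨆ a : Fin L → ℤ, term π l₀ l m x a

end Pool.Agent.EEA520
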