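import Pool.Agent.W_eea520_h69.HCatA
import Pool.Agent.W_eea520_h69.HDefs
import Pool.Agent.W_eea520_h69.Final

/-! Abscissas of meromorphic continuation. -/

set_option autoImplicit false

namespace Pool.Agent.EEA520

open Filter Topology MeasureTheory

/-- The abscissa of meromorphy of `EE D`. -/
noncomputable def ab (D : Dat) : EReal := sInf {c : EReal | ∃ r : ℝ, ContTo r D ∧ c = r}

theorem ab_le_of {D : Dat} {r : ℝ} (h : ContTo r D) : ab D ≤ r := sInf_le ⟨r, h, rfl⟩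

theorem ContTo.of_forall_gt {D : Dat} (hD : D ∈ BB) {r : ℝ} (h : ∀ r' : ℝ, r < r' → ContTo r' D) :
    ContTo r D := by
  obtain ⟨b, -, hb⟩ := LL_nice D hD
  have hF : DifferentiableOn ℂ (EE D) {s : ℂ | b < s.re} := hb.cexp
  obtain ⟨g, hg, hgF⟩ := ZT.glue_half (x₀ := r) hF (by
    intro x hx
    obtain ⟨-, c, g, hg, hc⟩ := h x hx
    exact ⟨c, g, hg, hc⟩)
  exact ⟨hD, max b r, g, hg, fun s hs => hgF s (lt_of_le_of_lt (le_max_left _ _) hs)
    (lt_of_le_of_lt (le_max_right _ _) hs)⟩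

theorem ab_le_iff {D : Dat} (hD : D ∈ BB) (r : ℝ) : ab D ≤ r ↔ ContTo r D := by
  refine ⟨fun h => ContTo.of_forall_gt hD fun r' hr' => ?_, ab_le_of⟩
  have h1 : ab D < (r' : EReal) := lt_of_le_of_lt h (EReal.coe_lt_coe_iff.2 hr')
  obtain ⟨c, ⟨r'', h2, rfl⟩, h3⟩ := sInf_lt_iff.1 h1
  exact h2.mono (EReal.coe_lt_coe_iff.1 h3).le

theorem ab_lt_top {D : Dat} (hD : D ∈ BB) : ab D < ⊤ := by
  obtain ⟨b, -, hb⟩ := LL_nice D hD
  have hF : DifferentiableOn ℂ (EE D) {s : ℂ | b < s.re} := hb.cexp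
  have hVo : IsOpen {s : ℂ | b < s.re} := isOpen_lt continuous_const Complex.continuous_re
  have h1 : ContTo b D := ⟨hD, b, EE D, fun s hs =>
    (hF.analyticAt (hVo.mem_nhds hs)).meromorphicAt, fun s _ => rfl⟩
  exact lt_of_le_of_lt (ab_le_of h1) (EReal.coe_lt_top b)

theorem cont_iff_ab {D : Dat} (hD : D ∈ BB) : Cont D ↔ ab D = ⊥ := by
  constructor
  · intro h
    rw [EReal.eq_bot_iff_forall_lt]
    intro y
    exact lt_of_le_of_lt (ab_le_of (h.contTo (y - 1))) (EReal.coe_lt_coe_iff.2 (by linarith))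
  · intro h
    obtain ⟨b, -, hb⟩ := LL_nice D hD
    have hF : DifferentiableOn ℂ (EE D) {s : ℂ | b < s.re} := hb.cexp
    obtain ⟨g, hg, hgF⟩ := ZT.glue_all hF (by
      intro x
      obtain ⟨-, c, g, hg, hc⟩ := (ab_le_iff hD x).1 (by rw [h]; exact bot_le)
      exact ⟨c, g, hg, hc⟩)
    exact ⟨hD, b, g, hg, hgF⟩

/-- As `continues_iff`. -/
theorem continuesTo_iff {c : ℝ} {n : ℕ} {π : GSys n} (hπ : Bdd π) (m : R n) :
    ContinuesTo c π m.coeff ↔ ContTo c (Phi π m) := by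
  refine ⟨contTo_of_continuesTo hπ m, ?_⟩
  rintro ⟨-, b, g, hg, h⟩
  obtain ⟨b₂, h₂⟩ := hasProd_factor hπ m ∅
  refine ⟨∅, max b b₂, g, hg, fun s hs => ?_⟩
  have hs0 : b < s.re := lt_of_le_of_lt (le_max_left _ _) hs
  have hs2 : b₂ < s.re := lt_of_le_of_lt (le_max_right _ _) hs
  have h3 := h₂ s hs2
  rw [Finset.prod_empty, div_one, h s hs0] at h3
  exact h3

theorem absc_eq {n : ℕ} {π : GSys n} (hπ : Bdd π) (m : Wt n →₀ ℤ) :
    absc π m = ab (Phi π (AddMonoidAlgebra.ofCoeff m)) := by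
  have h : ∀ r : ℝ, ContinuesTo r π m ↔ ContTo r (Phi π (AddMonoidAlgebra.ofCoeff m)) :=
    fun r => continuesTo_iff hπ (AddMonoidAlgebra.ofCoeff m)
  unfold absc ab
  simp only [h]

theorem add_coe_le_iff (u : EReal) (y r : ℝ) : u + (y : EReal) ≤ r ↔ u ≤ ((r - y : ℝ) : EReal) := by
  rw [EReal.coe_sub, EReal.le_sub_iff_add_le (Or.inl (EReal.coe_ne_bot y))
    (Or.inl (EReal.coe_ne_top y))]

theorem add_coe_le_iff' {D : Dat} (hD : D ∈ BB) (y r : ℝ) :
    ab D + (y : EReal) ≤ r ↔ ContTo (r - y) D := by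
  rw [add_coe_le_iff, ab_le_iff hD]

theorem le_of_real {u v : EReal} (h : ∀ r : ℝ, v ≤ r → u ≤ r) : u ≤ v := by
  rw [← EReal.le_of_forall_lt_iff_le]
  exact fun z hz => h z hz.le

/-- Convex piecewise linear functions have few break points: apart from fewer than `B.card` points the
maximum of the `s b + b x` is attained only once. Proof. At a break point `x` let `φ x` be the smallest
`b` which attains the maximum; `φ` is strictly increasing and not equal to the maximum of `B`. -/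
theorem breakpoints {ι : Type*} (B : Finset ι) (s v : ι → ℝ) (hv : Set.InjOn v B) :
    ∃ X : Finset ℝ, X.card ≤ B.card - 1 ∧
    ∀ x ∉ X, ∀ a ∈ B, (∀ b ∈ B, s b + v b * x ≤ s a + v a * x) →
      ∀ b ∈ B, b ≠ a → s b + v b * x < s a + v a * x := by
  classical
  rcases B.eq_empty_or_nonempty with rfl | hne
  · exact ⟨∅, by simp, fun x _ a ha => by simp at ha⟩
  obtain ⟨Y, hY⟩ : ∃ Y : Set ℝ, Y = {x : ℝ | ∃ a ∈ B, ∃ b ∈ B, v a < v b ∧
      (∀ c ∈ B, s c + v c * x ≤ s a + v a * x) ∧ (∀ c ∈ B, s c + v c * x ≤ s b + v b * x)} := ⟨_, rfl⟩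
  have hφ : ∀ x : ℝ, ∃ a : ι, x ∈ Y → (a ∈ B ∧ (∃ b ∈ B, v a < v b ∧
      ∀ c ∈ B, s c + v c * x ≤ s b + v b * x) ∧
      (∀ c ∈ B, s c + v c * x ≤ s a + v a * x) ∧
      ∀ c ∈ B, (∀ d ∈ B, s d + v d * x ≤ s c + v c * x) → v a ≤ v c) := by
    intro x
    by_cases hx : x ∈ Y
    · have hx' := hx
      rw [hY] at hx'
      obtain ⟨a, ha, b, hb, hab, ha1, hb1⟩ := hx'
      obtain ⟨c, hc, hcmin⟩ := Finset.exists_min_image
        (B.filter fun c => ∀ d ∈ B, s d + v d * x ≤ s c + v c * x) v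
        ⟨a, Finset.mem_filter.2 ⟨ha, ha1⟩⟩
      obtain ⟨hcB, hc1⟩ := Finset.mem_filter.1 hc
      refine ⟨c, fun _ => ⟨hcB, ⟨b, hb, ?_, hb1⟩, hc1, fun d hd hd1 =>
        hcmin d (Finset.mem_filter.2 ⟨hd, hd1⟩)⟩⟩
      exact lt_of_le_of_lt (hcmin a (Finset.mem_filter.2 ⟨ha, ha1⟩)) hab
    · exact ⟨hne.choose, fun h => absurd h hx⟩
  choose φ hφ using hφ
  have hmono : ∀ x ∈ Y, ∀ y ∈ Y, x < y → v (φ x) < v (φ y) := by
    intro x hx y hy hxy
    obtain ⟨h1, ⟨b, hb, hab, hb1⟩, h3, h4⟩ := hφ x hx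
    obtain ⟨h1', -, h3', -⟩ := hφ y hy
    by_contra hle
    push Not at hle
    have e1 := hb1 (φ y) h1'
    have e2 := h3' b hb
    have e3 : v (φ y) < v b := lt_of_le_of_lt hle hab
    nlinarith
  obtain ⟨M, hM, hMmax⟩ := Finset.exists_max_image B v hne
  have hmaps : Set.MapsTo φ Y (B.erase M : Finset ι) := by
    intro x hx
    obtain ⟨h1, ⟨b, hb, hab, -⟩, -⟩ := hφ x hx
    refine Finset.mem_coe.2 (Finset.mem_erase.2 ⟨?_, h1⟩)
    intro h
    exact (lt_of_lt_of_le hab (hMmax b hb)).ne (by rw [h])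
  have hinj : Set.InjOn φ Y := by
    intro x hx y hy hxy
    rcases lt_trichotomy x y with h | h | h
    · exact absurd (by rw [hxy]) (hmono x hx y hy h).ne
    · exact h
    · exact absurd (by rw [hxy]) (hmono y hy x hx h).ne
  have hfin : Y.Finite := Set.Finite.of_injOn hmaps hinj (Finset.finite_toSet _)
  refine ⟨hfin.toFinset, ?_, ?_⟩
  · rw [← Finset.card_erase_of_mem hM]
    refine Finset.card_le_card_of_injOn φ ?_ ?_
    · intro x hx
      exact hmaps (by simpa using hx)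
    · intro x hx y hy h
      exact hinj (by simpa using hx) (by simpa using hy) h
  · intro x hx a ha hamax b hb hba
    by_contra hcon
    push Not at hcon
    apply hx
    rw [Set.Finite.mem_toFinset, hY]
    have hbmax : ∀ c ∈ B, s c + v c * x ≤ s b + v b * x := fun c hc => (hamax c hc).trans hcon
    rcases lt_or_gt_of_ne (fun h => hba (hv hb ha h)) with h | h
    · exact ⟨b, hb, a, ha, h, hbmax, hamax⟩
    · exact ⟨a, ha, b, hb, h, hamax, hbmax⟩

end Pool.Agent.EEA520
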