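import Pool.Agent.W_eea520_h69.MBorel
import Pool.Agent.W_eea520_h69.CatB
import Pool.Agent.W_eea520_h69.CatC

/-! Category and measure in several parameters. -/

set_option autoImplicit false

namespace Pool.Agent.EEA520

open Filter Topology MeasureTheory

/-- Meagre and of measure zero. -/
def Small {L : ℕ} (T : Set (Fin L → ℝ)) : Prop := IsMeagre T ∧ volume T = 0

theorem Small.mono {L : ℕ} {T T' : Set (Fin L → ℝ)} (h : Small T) (h' : T' ⊆ T) : Small T' :=
  ⟨h.1.mono h', measure_mono_null h' h.2⟩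

theorem small_empty {L : ℕ} : Small (∅ : Set (Fin L → ℝ)) := ⟨IsMeagre.empty, measure_empty⟩

theorem not_small_univ {L : ℕ} : ¬ Small (Set.univ : Set (Fin L → ℝ)) := by
  rintro ⟨h, -⟩
  exact not_isMeagre_of_isOpen isOpen_univ ⟨0, trivial⟩ h

theorem mcat_inter {L : ℕ} {T : Set (Fin L → ℝ)} (hT : MeasurableSet T) (h : ¬ IsMeagre T) :
    ∀ᶠ α : Fin L → ℝ in 𝓝 0, ¬ IsMeagre {t | t ∈ T ∧ t + α ∈ T} := by
  obtain ⟨u, hu, hTu⟩ := hT.residualEq_isOpen
  have hne : u.Nonempty := by
    rw [Set.nonempty_iff_ne_empty]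
    rintro rfl
    apply h
    have h1 : Tᶜ =ᶠ[residual (Fin L → ℝ)] (∅ᶜ : Set (Fin L → ℝ)) := hTu.compl
    rw [Set.compl_empty] at h1
    exact eventuallyEq_univ.1 h1
  obtain ⟨x0, hx0⟩ := hne
  have h0 : Tendsto (fun α : Fin L → ℝ => x0 + α) (𝓝 0) (𝓝 x0) := by
    have : Continuous fun α : Fin L → ℝ => x0 + α := by fun_prop
    simpa using this.tendsto 0
  filter_upwards [h0 (hu.mem_nhds hx0)] with α hα hm
  have hc : Continuous fun t : Fin L → ℝ => t + α := by fun_prop
  have ht : Tendsto (fun t : Fin L → ℝ => t + α) (residual (Fin L → ℝ)) (residual (Fin L → ℝ)) :=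
    tendsto_residual_of_isOpenMap hc (Homeomorph.addRight α).isOpenMap
  have h1 : ((fun t => t + α) ⁻¹' T : Set (Fin L → ℝ)) =ᶠ[residual (Fin L → ℝ)]
      ((fun t => t + α) ⁻¹' u : Set (Fin L → ℝ)) := hTu.comp_tendsto ht
  have h2 : (T ∩ (fun t => t + α) ⁻¹' T : Set (Fin L → ℝ)) =ᶠ[residual (Fin L → ℝ)]
      (u ∩ (fun t => t + α) ⁻¹' u : Set (Fin L → ℝ)) := hTu.inter h1
  have h3 : IsMeagre (u ∩ (fun t => t + α) ⁻¹' u) := by
    have h4 := h2.compl
    have h5 : ((T ∩ (fun t => t + α) ⁻¹' T)ᶜ : Set (Fin L → ℝ)) =ᶠ[residual (Fin L → ℝ)]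
        (Set.univ : Set (Fin L → ℝ)) := eventuallyEq_univ.2 hm
    exact eventuallyEq_univ.1 (h4.symm.trans h5)
  exact not_isMeagre_of_isOpen (hu.inter (hu.preimage hc)) ⟨x0, hx0, hα⟩ h3

theorem mcat_shift {L : ℕ} {T : Set (Fin L → ℝ)} (hT : MeasurableSet T) (h : volume T ≠ 0) :
    ∃ S : Set (Fin L → ℝ), MeasurableSet S ∧ volume S ≠ 0 ∧
      ∀ α ∈ S, volume {t | t ∈ T ∧ t + α ∈ T} ≠ 0 := by
  obtain ⟨U, hU⟩ : ∃ U : Set ((Fin L → ℝ) × (Fin L → ℝ)), U = {p | p.2 ∈ T ∧ p.2 + p.1 ∈ T} :=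
    ⟨_, rfl⟩
  have hUm : MeasurableSet U := by
    rw [hU]
    exact (measurable_snd hT).inter ((measurable_snd.add measurable_fst) hT)
  have hm : Measurable fun α : Fin L → ℝ => volume (Prod.mk α ⁻¹' U) :=
    measurable_measure_prodMk_left hUm
  refine ⟨{α | volume (Prod.mk α ⁻¹' U) ≠ 0}, ?_, ?_, ?_⟩
  · exact hm (measurableSet_singleton (0 : ENNReal)).compl
  · intro h0
    have h1 : (volume.prod volume : Measure ((Fin L → ℝ) × (Fin L → ℝ))) U = 0 := by
      rw [Measure.prod_apply hUm, lintegral_eq_zero_iff hm]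
      exact h0
    have h2 : (volume.prod volume : Measure ((Fin L → ℝ) × (Fin L → ℝ))) U =
        volume T * volume T := by
      rw [Measure.prod_apply_symm hUm]
      have h3 : ∀ t : Fin L → ℝ, volume ((fun α : Fin L → ℝ => (α, t)) ⁻¹' U) =
          T.indicator (fun _ => volume T) t := by
        intro t
        by_cases ht : t ∈ T
        · rw [Set.indicator_of_mem ht]
          have h4 : (fun α : Fin L → ℝ => (α, t)) ⁻¹' U = (fun α => t + α) ⁻¹' T := by
            ext α
            rw [hU]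
            exact ⟨fun h => h.2, fun h => ⟨ht, h⟩⟩
          rw [h4, measure_preimage_add]
        · rw [Set.indicator_of_notMem ht]
          have h4 : (fun α : Fin L → ℝ => (α, t)) ⁻¹' U = ∅ := by
            ext α
            rw [hU]
            exact ⟨fun h => ht h.1, fun h => h.elim⟩
          rw [h4, measure_empty]
      simp only [h3]
      rw [lintegral_indicator hT, lintegral_const, Measure.restrict_apply_univ]
    rw [h2] at h1
    exact h (mul_self_eq_zero.1 h1)
  · intro α hα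
    have h1 : Prod.mk α ⁻¹' U = {t : Fin L → ℝ | t ∈ T ∧ t + α ∈ T} := by
      rw [hU]
      rfl
    rw [← h1]
    exact hα

open scoped Pointwise in
theorem small_shift {L : ℕ} {T : Set (Fin L → ℝ)} (hT : MeasurableSet T) (h : ¬ Small T) :
    ∃ S : Set (Fin L → ℝ), (∀ᶠ α in 𝓝 0, ∃ x ∈ S, ∃ y ∈ S, x - y = α) ∧
      ∀ α ∈ S, ¬ Small {t | t ∈ T ∧ t + α ∈ T} := by
  by_cases h1 : IsMeagre T
  · have h2 : volume T ≠ 0 := fun h2 => h ⟨h1, h2⟩
    obtain ⟨S, hSm, hS0, hS⟩ := mcat_shift hT h2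
    refine ⟨S, ?_, fun α hα h3 => hS α hα h3.2⟩
    have h3 : S - S ∈ 𝓝 (0 : Fin L → ℝ) :=
      MeasureTheory.Measure.sub_mem_nhds_zero_of_addHaar_pos volume S hSm (pos_iff_ne_zero.2 hS0)
    filter_upwards [h3] with α hα
    obtain ⟨x, hx, y, hy, h4⟩ := Set.mem_sub.1 hα
    exact ⟨x, hx, y, hy, h4⟩
  · have h2 := mcat_inter hT h1
    refine ⟨{α | ¬ IsMeagre {t | t ∈ T ∧ t + α ∈ T}}, ?_, fun α hα h3 => hα h3.1⟩
    filter_upwards [h2] with α hα
    exact ⟨α, hα, 0, h2.self_of_nhds, sub_zero α⟩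

/-- The pairing of exponents and parameters. -/
def pr {L : ℕ} (a : Fin L → ℤ) (t : Fin L → ℝ) : ℝ := ∑ j, (a j : ℝ) * t j

theorem pr_add {L : ℕ} (a : Fin L → ℤ) (t u : Fin L → ℝ) : pr a (t + u) = pr a t + pr a u := by
  unfold pr
  rw [← Finset.sum_add_distrib]
  exact Finset.sum_congr rfl fun j _ => by rw [Pi.add_apply, mul_add]

theorem pr_sub {L : ℕ} (a : Fin L → ℤ) (t u : Fin L → ℝ) : pr a (t - u) = pr a t - pr a u := by
  unfold pr
  rw [← Finset.sum_sub_distrib]
  exact Finset.sum_congr rfl fun j _ => by rw [Pi.sub_apply, mul_sub]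

theorem pr_single {L : ℕ} (a : Fin L → ℤ) (j : Fin L) (x : ℝ) : pr a (Pi.single j x) = a j * x := by
  unfold pr
  rw [Finset.sum_eq_single j]
  · rw [Pi.single_eq_same]
  · intro i _ hi
    rw [Pi.single_eq_of_ne hi, mul_zero]
  · intro h
    exact absurd (Finset.mem_univ j) h

theorem pr_continuous {L : ℕ} (a : Fin L → ℤ) : Continuous (pr a) := by
  unfold pr
  fun_prop

theorem mcont_step {L : ℕ} (A : Finset (Fin L → ℤ)) (D : (Fin L → ℤ) → Dat) (k : Fin L → ℤ)
    (t α : Fin L → ℝ)
    (h : Cont (∑ a ∈ A, tw (pr a t * Complex.I) * D a))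
    (h' : Cont (∑ a ∈ A, tw (pr a (t + α) * Complex.I) * D a)) :
    Cont (∑ a ∈ A.erase k, tw (pr a t * Complex.I) *
      ((tw (pr a α * Complex.I) - tw (pr k α * Complex.I)) * D a)) := by
  have h1 := h'.sub (h.tw (pr k α * Complex.I))
  have h2 : ∀ a : Fin L → ℤ, tw (pr a (t + α) * Complex.I) * D a -
      tw (pr k α * Complex.I) * (tw (pr a t * Complex.I) * D a) =
      tw (pr a t * Complex.I) * ((tw (pr a α * Complex.I) - tw (pr k α * Complex.I)) * D a) := by
    intro a
    have h3 : ((pr a (t + α) : ℝ) : ℂ) * Complex.I =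
        pr a t * Complex.I + pr a α * Complex.I := by
      rw [pr_add]
      push_cast
      ring
    rw [h3, tw_add]
    ring
  rw [Finset.mul_sum, ← Finset.sum_sub_distrib, Finset.sum_congr rfl fun a _ => h2 a] at h1
  rw [Finset.sum_erase]
  · exact h1
  · rw [sub_self, zero_mul, mul_zero]

theorem cont_of_not_small {L : ℕ} (A : Finset (Fin L → ℤ)) (D : (Fin L → ℤ) → Dat)
    (hD : ∀ a ∈ A, D a ∈ BB)
    (h : ¬ Small {t : Fin L → ℝ | Cont (∑ a ∈ A, tw (pr a t * Complex.I) * D a)}) :
    ∀ a ∈ A, Cont (D a) := by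
  classical
  induction A using Finset.induction_on generalizing D with
  | empty => intro a ha; simp at ha
  | insert k s hk ih =>
    have hT := measurable_twists' (insert k s) (fun (a : Fin L → ℤ) (t : Fin L → ℝ) => pr a t)
      (fun a _ => pr_continuous a) D hD
    obtain ⟨S, hS, hS'⟩ := small_shift hT h
    have hDs : ∀ a ∈ s, D a ∈ BB := fun a ha => hD a (Finset.mem_insert_of_mem ha)
    have h2 : ∀ α ∈ S, ∀ a ∈ s,
        Cont ((tw (pr a α * Complex.I) - tw (pr k α * Complex.I)) * D a) := by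
      intro α hα
      refine ih (fun a => (tw (pr a α * Complex.I) - tw (pr k α * Complex.I)) * D a)
        (fun a ha => BB.mul_mem (BB.sub_mem (tw_mem _) (tw_mem _)) (hDs a ha)) ?_
      intro hm
      refine hS' α hα (hm.mono ?_)
      rintro t ⟨ht, ht'⟩
      have h3 := mcont_step (insert k s) D k t α ht ht'
      rw [Finset.erase_insert hk] at h3
      exact h3
    have h4 : ∀ a ∈ s, Cont (D a) := by
      intro a ha
      have hak : a ≠ k := fun h0 => hk (h0 ▸ ha)
      obtain ⟨j, hj⟩ := Function.ne_iff.1 hak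
      have hj' : ((a j : ℝ) - k j) ≠ 0 := by
        intro h0
        have h1 : (a j : ℝ) = k j := sub_eq_zero.1 h0
        exact hj (by exact_mod_cast h1)
      obtain ⟨H, hH⟩ := exists_subgroup (hDs a ha)
      have h5 : ∀ α ∈ S, pr a α - pr k α ∈ H := by
        intro α hα
        rw [hH]
        have h6 := (h2 α hα a ha).tw (-(pr k α * Complex.I))
        have h7 : tw (-(pr k α * Complex.I)) *
            ((tw (pr a α * Complex.I) - tw (pr k α * Complex.I)) * D a) =
            (tw (((pr a α - pr k α : ℝ) : ℂ) * Complex.I) - 1) * D a := by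
          rw [← mul_assoc, mul_sub, ← tw_add, ← tw_add, neg_add_cancel, tw_zero]
          congr 3
          push_cast
          ring
        rw [h7] at h6
        exact h6
      refine cont_of_nhds (hDs a ha) ?_
      have ht : Tendsto (fun β : ℝ => (Pi.single j (β / ((a j : ℝ) - k j)) : Fin L → ℝ))
          (𝓝 0) (𝓝 0) := by
        have h6 : Continuous fun β : ℝ => (Pi.single j (β / ((a j : ℝ) - k j)) : Fin L → ℝ) :=
          (continuous_single j).comp (continuous_id.div_const _)
        simpa using h6.tendsto 0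
      filter_upwards [ht.eventually hS] with β hβ
      obtain ⟨x, hx, y, hy, hxy⟩ := hβ
      rw [← hH]
      have h6 := H.sub_mem (h5 x hx) (h5 y hy)
      have h7 : pr a x - pr k x - (pr a y - pr k y) = β := by
        have h8 : pr a (x - y) - pr k (x - y) = β := by
          rw [hxy, pr_single, pr_single, ← sub_mul, mul_div_cancel₀ _ hj']
        rw [pr_sub, pr_sub] at h8
        linarith
      rw [h7] at h6
      exact h6
    have hne : ∃ t : Fin L → ℝ, Cont (∑ a ∈ insert k s, tw (pr a t * Complex.I) * D a) := by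
      by_contra hno
      apply h
      have : {t : Fin L → ℝ | Cont (∑ a ∈ insert k s, tw (pr a t * Complex.I) * D a)} = ∅ := by
        apply Set.eq_empty_of_forall_notMem
        intro t ht
        exact hno ⟨t, ht⟩
      rw [this]
      exact small_empty
    obtain ⟨t, ht⟩ := hne
    rw [Finset.sum_insert hk] at ht
    have h7 : Cont (∑ a ∈ s, tw (pr a t * Complex.I) * D a) := by
      clear ht ih hT hS hS' h hD hDs h2
      induction s using Finset.induction_on with
      | empty => rw [Finset.sum_empty]; exact cont_zero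
      | insert b s hb ih =>
        rw [Finset.sum_insert hb]
        exact ((h4 b (Finset.mem_insert_self _ _)).tw _).add
          (ih (fun h => hk (Finset.mem_insert_of_mem h))
            (fun a ha => h4 a (Finset.mem_insert_of_mem ha)))
    have h8 := ht.sub h7
    rw [add_sub_cancel_right] at h8
    have h9 := h8.tw (-(pr k t * Complex.I))
    rw [tw_neg_mul] at h9
    intro a ha
    rcases Finset.mem_insert.1 ha with rfl | ha
    · exact h9
    · exact h4 a ha

end Pool.Agent.EEA520
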