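import Pool.Agent.W_eea520_h69.HCatA
import Pool.Agent.W_eea520_h69.MCat

/-! Half-plane versions in several parameters. -/

set_option autoImplicit false

namespace Pool.Agent.ZT

open Filter Topology Metric Set

/-- `measurable_meroH` for several parameters. -/
theorem measurable_meroHM {Y : Type*} [TopologicalSpace Y] [MeasurableSpace Y]
    [OpensMeasurableSpace Y] {F : Y → ℂ → ℂ} {b x₀ : ℝ} (hx₀ : x₀ ≤ b)
    (hc : ∀ s : ℂ, b < s.re → Continuous fun t => F t s)
    (hd : ∀ t, DifferentiableOn ℂ (F t) {s : ℂ | b < s.re}) :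
    MeasurableSet {t : Y | ∃ g : ℂ → ℂ, MeromorphicOn g {s : ℂ | x₀ < s.re} ∧
      ∀ s : ℂ, b < s.re → F t s = g s} := by
  have h1 : {t : Y | ∃ g : ℂ → ℂ, MeromorphicOn g {s : ℂ | x₀ < s.re} ∧
      ∀ s : ℂ, b < s.re → F t s = g s} =
      ⋂ n : ℕ, ⋃ d : ℕ, ⋃ N : ℕ,
        {t : Y | Adm (fun z => F t (HB_c b n + z)) d N (HB_R b x₀ n)} := by
    ext t
    simp only [mem_ofPred_eq, mem_iInter, mem_iUnion]
    exact exists_mero_iffH hx₀ (hd t)
  rw [h1]
  refine MeasurableSet.iInter fun n => MeasurableSet.iUnion fun d => MeasurableSet.iUnion fun N =>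
    (isClosed_adm' (h := fun t z => F t (HB_c b n + z)) (fun z hz => ?_) d N
      (HB_R_gt hx₀ n)).measurableSet
  exact hc _ (HB_ball_sub n hz)

end Pool.Agent.ZT

namespace Pool.Agent.EEA520

open Filter Topology MeasureTheory

/-- `measurable_twistsH` for several parameters. -/
theorem measurable_twistsHM {Y ι : Type*} [TopologicalSpace Y] [MeasurableSpace Y]
    [OpensMeasurableSpace Y] (A : Finset ι) (θ : ι → Y → ℝ)
    (hθ : ∀ a ∈ A, Continuous (θ a)) (D : ι → Dat) (hD : ∀ a ∈ A, D a ∈ BB) (c : ℝ) :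
    MeasurableSet {t : Y | ContTo c (∑ a ∈ A, tw (θ a t * Complex.I) * D a)} := by
  obtain ⟨b', hdiff', hcont', hsum'⟩ := LL_family' A θ hθ D hD
  obtain ⟨b, hb⟩ : ∃ b, b = max b' c := ⟨_, rfl⟩
  have hb' : b' ≤ b := by rw [hb]; exact le_max_left _ _
  have hcb : c ≤ b := by rw [hb]; exact le_max_right _ _
  have hBB : ∀ t : Y, (∑ a ∈ A, tw (θ a t * Complex.I) * D a) ∈ BB := fun t =>
    BB.sum_mem fun a ha => BB.mul_mem (tw_mem _) (hD a ha)
  have hEE : ∀ t : Y, DifferentiableOn ℂ
      (EE (∑ a ∈ A, tw (θ a t * Complex.I) * D a)) {s : ℂ | b < s.re} := by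
    intro t
    have h1 : DifferentiableOn ℂ
        (fun s => Complex.exp (∑ a ∈ A, LL (D a) (s - θ a t * Complex.I)))
        {s : ℂ | b < s.re} :=
      (DifferentiableOn.fun_sum fun a ha => (hdiff' a ha t).mono
        fun s hs => lt_of_le_of_lt hb' hs).cexp
    refine h1.congr fun s hs => ?_
    unfold EE
    rw [hsum' t s (lt_of_le_of_lt hb' hs)]
  have h1 : ∀ s : ℂ, b < s.re → Continuous fun t : Y =>
      EE (∑ a ∈ A, tw (θ a t * Complex.I) * D a) s := by
    intro s hs
    have h2 : (fun t : Y => EE (∑ a ∈ A, tw (θ a t * Complex.I) * D a) s) =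
        fun t : Y => Complex.exp (∑ a ∈ A, LL (D a) (s - θ a t * Complex.I)) := by
      funext t
      unfold EE
      rw [hsum' t _ (lt_of_le_of_lt hb' hs)]
    rw [h2]
    exact (continuous_finsetSum A fun a ha => hcont' a ha _ (lt_of_le_of_lt hb' hs)).cexp
  have h3 := ZT.measurable_meroHM (F := fun (t : Y) s =>
    EE (∑ a ∈ A, tw (θ a t * Complex.I) * D a) s) hcb h1 hEE
  have h4 : {t : Y | ContTo c (∑ a ∈ A, tw (θ a t * Complex.I) * D a)} =
      {t : Y | ∃ g : ℂ → ℂ, MeromorphicOn g {s : ℂ | c < s.re} ∧ ∀ s : ℂ, b < s.re →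
        EE (∑ a ∈ A, tw (θ a t * Complex.I) * D a) s = g s} := by
    ext t
    constructor
    · rintro ⟨-, b'', g, hg, hb''⟩
      exact ZT.mero_fix_halfH hcb hg (hEE t) hb''
    · rintro ⟨g, hg, h5⟩
      exact ⟨hBB t, b, g, hg, h5⟩
  rw [h4]
  exact h3

theorem HM_re (r : ℝ) : ((r : ℂ) * Complex.I).re = 0 := by simp

theorem mcont_stepH {L : ℕ} (A : Finset (Fin L → ℤ)) (D : (Fin L → ℤ) → Dat) (k : Fin L → ℤ)
    (t α : Fin L → ℝ) (c : ℝ)
    (h : ContTo c (∑ a ∈ A, tw (pr a t * Complex.I) * D a))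
    (h' : ContTo c (∑ a ∈ A, tw (pr a (t + α) * Complex.I) * D a)) :
    ContTo c (∑ a ∈ A.erase k, tw (pr a t * Complex.I) *
      ((tw (pr a α * Complex.I) - tw (pr k α * Complex.I)) * D a)) := by
  have h1 := h'.sub (h.tw' (w := pr k α * Complex.I) (c' := c) (by rw [HM_re]; ring))
  have h2 : ∀ a : Fin L → ℤ, tw (pr a (t + α) * Complex.I) * D a -
      tw (pr k α * Complex.I) * (tw (pr a t * Complex.I) * D a) =
      tw (pr a t * Complex.I) * ((tw (pr a α * Complex.I) - tw (pr k α * Complex.I)) * D a) := by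
    intro a
    have h3 : ((pr a (t + α) : ℝ) : ℂ) * Complex.I =
        pr a t * Complex.I + pr a α * Complex.I := by
      rw [pr_add]
      push_cast
      ring
    rw [h3, tw_add]
    ring
  rw [Finset.mul_sum, ← Finset.sum_sub_distrib, Finset.sum_congr rfl fun a _ => h2 a] at h1
  rw [Finset.sum_erase]
  · exact h1
  · rw [sub_self, zero_mul, mul_zero]

theorem contTo_sum' {c : ℝ} {ι : Type} (s : Finset ι) (D : ι → Dat)
    (h : ∀ i ∈ s, ContTo c (D i)) : ContTo c (∑ i ∈ s, D i) := ContTo.sum s D h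

theorem cont_of_not_smallH {L : ℕ} (A : Finset (Fin L → ℤ)) (D : (Fin L → ℤ) → Dat)
    (hD : ∀ a ∈ A, D a ∈ BB) (c : ℝ)
    (h : ¬ Small {t : Fin L → ℝ | ContTo c (∑ a ∈ A, tw (pr a t * Complex.I) * D a)}) :
    ∀ a ∈ A, ContTo c (D a) := by
  classical
  induction A using Finset.induction_on generalizing D with
  | empty => intro a ha; simp at ha
  | insert k s hk ih =>
    have hT := measurable_twistsHM (insert k s) (fun (a : Fin L → ℤ) (t : Fin L → ℝ) => pr a t)
      (fun a _ => pr_continuous a) D hD c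
    obtain ⟨S, hS, hS'⟩ := small_shift hT h
    have hDs : ∀ a ∈ s, D a ∈ BB := fun a ha => hD a (Finset.mem_insert_of_mem ha)
    have h2 : ∀ α ∈ S, ∀ a ∈ s,
        ContTo c ((tw (pr a α * Complex.I) - tw (pr k α * Complex.I)) * D a) := by
      intro α hα
      refine ih (fun a => (tw (pr a α * Complex.I) - tw (pr k α * Complex.I)) * D a)
        (fun a ha => BB.mul_mem (BB.sub_mem (tw_mem _) (tw_mem _)) (hDs a ha)) ?_
      intro hm
      refine hS' α hα (hm.mono ?_)
      rintro t ⟨ht, ht'⟩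
      have h3 := mcont_stepH (insert k s) D k t α c ht ht'
      rw [Finset.erase_insert hk] at h3
      exact h3
    have h4 : ∀ a ∈ s, ContTo c (D a) := by
      intro a ha
      have hak : a ≠ k := fun h0 => hk (h0 ▸ ha)
      obtain ⟨j, hj⟩ := Function.ne_iff.1 hak
      have hj' : ((a j : ℝ) - k j) ≠ 0 := by
        intro h0
        have h1 : (a j : ℝ) = k j := sub_eq_zero.1 h0
        exact hj (by exact_mod_cast h1)
      obtain ⟨H, hH⟩ := exists_subgroupH (D a) c
      have h5 : ∀ α ∈ S, pr a α - pr k α ∈ H := by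
        intro α hα
        rw [hH]
        have h6 := (h2 α hα a ha).tw' (w := -(pr k α * Complex.I)) (c' := c)
          (by rw [Complex.neg_re, HM_re]; ring)
        have h7 : tw (-(pr k α * Complex.I)) *
            ((tw (pr a α * Complex.I) - tw (pr k α * Complex.I)) * D a) =
            (tw (((pr a α - pr k α : ℝ) : ℂ) * Complex.I) - 1) * D a := by
          rw [← mul_assoc, mul_sub, ← tw_add, ← tw_add, neg_add_cancel, tw_zero]
          congr 3
          push_cast
          ring
        rw [h7] at h6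
        exact h6
      refine cont_of_nhdsH (hDs a ha) c ?_
      have ht : Tendsto (fun β : ℝ => (Pi.single j (β / ((a j : ℝ) - k j)) : Fin L → ℝ))
          (𝓝 0) (𝓝 0) := by
        have h6 : Continuous fun β : ℝ => (Pi.single j (β / ((a j : ℝ) - k j)) : Fin L → ℝ) :=
          (continuous_single j).comp (continuous_id.div_const _)
        simpa using h6.tendsto 0
      filter_upwards [ht.eventually hS] with β hβ
      obtain ⟨x, hx, y, hy, hxy⟩ := hβ
      rw [← hH]
      have h6 := H.sub_mem (h5 x hx) (h5 y hy)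
      have h7 : pr a x - pr k x - (pr a y - pr k y) = β := by
        have h8 : pr a (x - y) - pr k (x - y) = β := by
          rw [hxy, pr_single, pr_single, ← sub_mul, mul_div_cancel₀ _ hj']
        rw [pr_sub, pr_sub] at h8
        linarith
      rw [h7] at h6
      exact h6
    have hne : ∃ t : Fin L → ℝ, ContTo c (∑ a ∈ insert k s, tw (pr a t * Complex.I) * D a) := by
      by_contra hno
      apply h
      have : {t : Fin L → ℝ |
          ContTo c (∑ a ∈ insert k s, tw (pr a t * Complex.I) * D a)} = ∅ := by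
        apply Set.eq_empty_of_forall_notMem
        intro t ht
        exact hno ⟨t, ht⟩
      rw [this]
      exact small_empty
    obtain ⟨t, ht⟩ := hne
    rw [Finset.sum_insert hk] at ht
    have h7 : ContTo c (∑ a ∈ s, tw (pr a t * Complex.I) * D a) :=
      contTo_sum' s _ fun a ha => (h4 a ha).tw' (c' := c) (by rw [HM_re]; ring)
    have h8 := ht.sub h7
    rw [add_sub_cancel_right] at h8
    have h9 := h8.untw (c' := c) (by rw [HM_re]; ring)
    intro a ha
    rcases Finset.mem_insert.1 ha with rfl | ha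
    · exact h9
    · exact h4 a ha

end Pool.Agent.EEA520
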