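import Pool.Agent.W_eea520_h69.UDefs
import Pool.Agent.W_eea520_h69.MCat
import Pool.Agent.W_eea520_h69.Final
import Pool.Agent.W_eea520_h25.CuspA
import Pool.Agent.W_eea520_h25.Spin
import Pool.Agent.W_eea520_h25.Mem

/-! Unitary families: exponents, central characters, the zero-one law. -/

set_option autoImplicit false

namespace Pool.Agent.EEA520

open Filter

variable {S : (k : ℕ) → Set (GLSys k)} {P : (n : ℕ) → Set (GSys n)}

theorem UFam.eis {L n : ℕ} {F : (Fin L → ℝ) → GSys n} (h : UFam S P L n F) :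
    ∀ t, Eis S P n (F t) := by
  induction h with
  | base hπ => exact fun _ => Eis.base hπ
  | ind _ _ hσ ih => exact fun t => Eis.ind _ (ih _) hσ

theorem pr_snoc {L : ℕ} (a : Fin L → ℤ) (j : ℤ) (t : Fin (L + 1) → ℝ) :
    pr (Fin.snoc (α := fun _ => ℤ) a j) t = pr a (fun i => t i.castSucc) + j * t (Fin.last L) := by
  unfold pr
  rw [Fin.sum_univ_castSucc]
  simp only [Fin.snoc_castSucc, Fin.snoc_last]

/-- The value of a weight. -/
theorem ev_induce' {n k : ℕ} (π : GSys n) (σ : GLSys k) (z : ℂ) (w : Wt (n + k)) (p : Pr) :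
    (induce π σ z p).ev w = (π p).ev (w.1, fun i => w.2 (Fin.castAdd k i)) *
      (∏ i, σ p i ^ w.2 (Fin.natAdd n i)) * ppow p ((degL w : ℂ) * z) := by
  have h1 : ∏ i : Fin k, ppow p z ^ w.2 (Fin.natAdd n i) = ppow p ((degL w : ℂ) * z) := by
    rw [ppow_int_mul, degL]
    exact FinalA_prod_zpow _ _ _
  unfold Torus.ev
  simp only [induce, Fin.prod_univ_add, Fin.append_left, Fin.append_right]
  simp only [mul_zpow, Finset.prod_mul_distrib]
  rw [h1]
  simp only [mul_assoc]

/-- The exponents of a family. -/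
theorem UFam.ev {L n : ℕ} {F : (Fin L → ℝ) → GSys n} (h : UFam S P L n F) :
    ∃ d : Wt n → Fin L → ℤ, ∀ t p w,
      (F t p).ev w = ppow p (pr (d w) t * Complex.I) * (F 0 p).ev w := by
  induction h with
  | @base n π hπ =>
    refine ⟨fun _ => 0, fun t p w => ?_⟩
    have h1 : pr (0 : Fin 0 → ℤ) t = 0 := by
      unfold pr
      simp
    rw [h1, Complex.ofReal_zero, zero_mul, ppow_zero, one_mul]
  | @ind L n k F σ _ _ _ ih =>
    obtain ⟨d, hd⟩ := ih
    refine ⟨fun w => Fin.snoc (α := fun _ => ℤ) (d (w.1, fun i => w.2 (Fin.castAdd k i))) (degL w),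
      fun t p w => ?_⟩
    have h0 : (fun j : Fin L => (0 : Fin (L + 1) → ℝ) j.castSucc) = 0 := rfl
    rw [ev_induce', ev_induce', hd, pr_snoc, h0]
    simp only [Pi.zero_apply, Complex.ofReal_zero, zero_mul, mul_zero, ppow_zero, mul_one]
    rw [Complex.ofReal_add, Complex.ofReal_mul, add_mul, ppow_add]
    have h2 : ((degL w : ℝ) : ℂ) * (t (Fin.last L) : ℂ) * Complex.I =
        (degL w : ℂ) * ((t (Fin.last L) : ℂ) * Complex.I) := by
      push_cast
      ring
    rw [h2]
    simp only [mul_assoc, mul_comm, mul_left_comm]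

/-- Characters of the members of a family. -/
theorem UFam.Phi {L n : ℕ} {F : (Fin L → ℝ) → GSys n} (h : UFam S P L n F) (m : Wt n →₀ ℤ) :
    ∃ (A : Finset (Fin L → ℤ)) (M : (Fin L → ℤ) → Wt n →₀ ℤ), ∀ t,
      Phi (F t) (AddMonoidAlgebra.ofCoeff m) = ∑ a ∈ A, tw (pr a t * Complex.I) *
        EEA520.Phi (F 0) (AddMonoidAlgebra.ofCoeff (M a)) := by
  classical
  obtain ⟨d, hd⟩ := h.ev
  refine ⟨m.support.image d, fun a => m.filter fun w => d w = a, fun t => ?_⟩
  funext p
  rw [FinalA_Phi, Finset.sum_apply, Finsupp.sum]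
  have h1 : ∀ a : Fin L → ℤ, (tw (pr a t * Complex.I) *
      EEA520.Phi (F 0) (AddMonoidAlgebra.ofCoeff (m.filter fun w => d w = a))) p
      = ∑ w ∈ m.support with d w = a, m w • el ((F t p).ev w) := by
    intro a
    rw [Pi.mul_apply, FinalA_Phi, Finsupp.sum, Finsupp.support_filter, Finset.mul_sum]
    refine Finset.sum_congr rfl fun w hw => ?_
    have hw' : d w = a := (Finset.mem_filter.1 hw).2
    have h2 : (m.filter fun w => d w = a) w = m w := by
      rw [Finsupp.filter_apply, if_pos hw']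
    rw [h2, hd t p w, hw', mul_smul_comm]
    congr 1
    show el _ * el _ = el _
    unfold el
    rw [← map_mul]
  rw [Finset.sum_congr rfl fun a _ => h1 a]
  rw [Finset.sum_fiberwise_of_maps_to (t := m.support.image d)
    (fun w hw => Finset.mem_image_of_mem _ hw)]

/-- The zero-one law for unitary families. -/
theorem UFam.zero_one (hSP : IsCuspidal S P) {L n : ℕ} {F : (Fin L → ℝ) → GSys n}
    (h : UFam S P L n F) (m : Wt n →₀ ℤ) :
    (∀ t, Continues (F t) m) ∨ Small {t | Continues (F t) m} := by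
  obtain ⟨A, M, hM⟩ := h.Phi m
  have hbdd : ∀ t, Bdd (F t) := fun t => (h.eis t).bdd hSP
  have hz : ∀ t, Continues (F t) m ↔ Cont (∑ a ∈ A, tw (pr a t * Complex.I) *
      EEA520.Phi (F 0) (AddMonoidAlgebra.ofCoeff (M a))) := by
    intro t
    rw [continues_iff' (hbdd t), hM]
  by_cases hs : Small {t | Continues (F t) m}
  · exact Or.inr hs
  · left
    simp only [hz] at hs
    have h1 := cont_of_not_small A
      (fun a => EEA520.Phi (F 0) (AddMonoidAlgebra.ofCoeff (M a)))
      (fun a _ => Phi_mem (hbdd 0) _) hs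
    intro t
    rw [hz]
    exact Cont.sum A _ fun a ha => (h1 a ha).tw _

/-- The central characters of the members of a family. -/
theorem UFam.central (hSP : IsCuspidal S P) {L n : ℕ} {F : (Fin L → ℝ) → GSys n}
    (h : UFam S P L n F) : ∃ χ ∈ S 1, ∃ κ : Fin L → ℤ, ∀ᶠ p in cofinite, ∀ t,
      (F t p).nu = χ p 0 * ppow p (pr κ t * Complex.I) := by
  induction h with
  | @base n π hπ =>
    obtain ⟨χ, hχ, he⟩ := hSP.nu _ _ hπ
    refine ⟨χ, hχ, 0, ?_⟩
    filter_upwards [he] with p hp t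
    have h1 : pr (0 : Fin 0 → ℤ) t = 0 := by
      unfold pr
      simp
    rw [hp, h1, Complex.ofReal_zero, zero_mul, ppow_zero, mul_one]
  | @ind L n k F σ _ _ hσ ih =>
    obtain ⟨χ, hχ, κ, he⟩ := ih
    obtain ⟨χ', hχ', he'⟩ := hSP.det k σ hσ
    obtain ⟨χ'', hχ'', he''⟩ := hSP.mul χ hχ χ' hχ'
    refine ⟨χ'', hχ'', Fin.snoc (α := fun _ => ℤ) κ (k : ℤ), ?_⟩
    filter_upwards [he, he', he''] with p h1 h2 h3 t
    rw [nu_induce, h1, ← h2, h3, pr_snoc]
    have h4 : ((pr κ (fun i => t i.castSucc) + ((k : ℤ) : ℝ) * t (Fin.last L) : ℝ) : ℂ) * Complex.I =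
        (pr κ (fun i => t i.castSucc) : ℂ) * Complex.I + k * (t (Fin.last L) * Complex.I) := by
      push_cast
      ring
    rw [h4, ppow_add]
    simp only [mul_assoc, mul_comm, mul_left_comm]

end Pool.Agent.EEA520
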