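import Pool.Agent.W_eea520_h69.UFamA
import Pool.Agent.W_eea520_h25.Main

/-! Reduction to the continuous spectrum. -/

set_option autoImplicit false

namespace Pool.Agent.EEA520

open Filter

variable {S : (k : ℕ) → Set (GLSys k)} {P : (n : ℕ) → Set (GSys n)}

/-- `X` is, at almost all primes, a combination of the coefficients of the family. -/
def RepBy {L n : ℕ} (F : (Fin L → ℝ) → GSys n) (X : Dat) : Prop :=
  ∃ (A : Finset (Fin L → ℤ)) (D T : (Fin L → ℤ) → Dat), (∀ a ∈ A, D a ∈ BB) ∧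
    (∀ t, spinD (F t) = ∑ a ∈ A, tw (pr a t * Complex.I) * D a) ∧ (∀ a, T a ∈ TW) ∧
    ∀ᶠ p in cofinite, X p = (∑ a ∈ A, T a * D a) p

theorem RepBy.congr {L n : ℕ} {F : (Fin L → ℝ) → GSys n} {X Y : Dat} (h : RepBy F X)
    (hXY : ∀ᶠ p in cofinite, X p = Y p) : RepBy F Y := by
  obtain ⟨A, D, T, h1, h2, h3, h4⟩ := h
  refine ⟨A, D, T, h1, h2, h3, ?_⟩
  filter_upwards [h4, hXY] with p h5 h6
  rw [← h6, h5]

theorem RepBy.tw_mul {L n : ℕ} {F : (Fin L → ℝ) → GSys n} {X : Dat} (h : RepBy F X) (w : ℂ) :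
    RepBy F (tw w * X) := by
  obtain ⟨A, D, T, h1, h2, h3, h4⟩ := h
  refine ⟨A, D, fun a => tw w * T a, h1, h2, fun a => TW.mul_mem (tw_mem_TW w) (h3 a), ?_⟩
  filter_upwards [h4] with p h5
  rw [Pi.mul_apply, h5, Finset.sum_apply, Finset.sum_apply, Finset.mul_sum]
  exact Finset.sum_congr rfl fun a _ => by simp only [Pi.mul_apply, mul_assoc]

theorem spinD_induce {n k : ℕ} (π : GSys n) (σ : GLSys k) (z : ℂ) :
    spinD (induce π σ z) = ∑ j ∈ Finset.range (k + 1), tw z ^ j * (extD σ j * spinD π) := by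
  funext p
  rw [spin_ind π σ z (induce π σ z) p rfl, Finset.sum_apply]
  rfl

/-- The induced family. -/
noncomputable def indF {L n k : ℕ} (F : (Fin L → ℝ) → GSys n) (σ : GLSys k) : (Fin (L + 1) → ℝ) → GSys (n + k) :=
  fun t => induce (F fun j => t j.castSucc) σ (t (Fin.last L) * Complex.I)

theorem RepBy.ind {L n k : ℕ} {F : (Fin L → ℝ) → GSys n} {X : Dat} (h : RepBy F X) {σ : GLSys k}
    (hσ : BddL σ) {U : ℕ → Dat} (hU : ∀ j, U j ∈ TW) :
    RepBy (indF F σ) (∑ j ∈ Finset.range (k + 1), U j * (extD σ j * X)) := by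
  classical
  obtain ⟨A, D, T, h1, h2, h3, h4⟩ := h
  obtain ⟨e, he⟩ : ∃ e : ((Fin L → ℤ) × ℕ) ↪ (Fin (L + 1) → ℤ),
      ∀ x, e x = Fin.snoc (α := fun _ => ℤ) x.1 (x.2 : ℤ) := by
    refine ⟨⟨fun x => Fin.snoc (α := fun _ => ℤ) x.1 (x.2 : ℤ), ?_⟩, fun x => rfl⟩
    intro x y hxy
    have h5 := Fin.snoc_injective2 hxy
    exact Prod.ext h5.1 (by exact_mod_cast h5.2)
  have hl : ∀ x, e x (Fin.last L) = (x.2 : ℤ) := fun x => by rw [he, Fin.snoc_last]
  have hc : ∀ x, (fun i : Fin L => e x i.castSucc) = x.1 := fun x => by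
    funext i
    rw [he, Fin.snoc_castSucc]
  have hsum : ∀ f : (Fin (L + 1) → ℤ) → Dat,
      ∑ b ∈ (A ×ˢ Finset.range (k + 1)).map e, f b =
        ∑ j ∈ Finset.range (k + 1), ∑ a ∈ A, f (e (a, j)) := by
    intro f
    rw [Finset.sum_map, Finset.sum_product_right]
  refine ⟨(A ×ˢ Finset.range (k + 1)).map e,
    fun b => extD σ (b (Fin.last L)).toNat * D fun i => b i.castSucc,
    fun b => U (b (Fin.last L)).toNat * T fun i => b i.castSucc, ?_, ?_, ?_, ?_⟩
  · intro b hb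
    obtain ⟨x, hx, rfl⟩ := Finset.mem_map.1 hb
    beta_reduce
    rw [hc]
    exact BB.mul_mem (extD_mem hσ _) (h1 _ (Finset.mem_product.1 hx).1)
  · intro t
    rw [hsum, indF, spinD_induce, h2]
    refine Finset.sum_congr rfl fun j _ => ?_
    rw [Finset.mul_sum, Finset.mul_sum]
    refine Finset.sum_congr rfl fun a _ => ?_
    beta_reduce
    rw [hl, hc, Int.toNat_natCast, he, pr_snoc, tw_pow]
    have h5 : ((pr a (fun i => t i.castSucc) + ((j : ℤ) : ℝ) * t (Fin.last L) : ℝ) : ℂ) *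
        Complex.I = (pr a (fun i => t i.castSucc) : ℂ) * Complex.I +
          j * (t (Fin.last L) * Complex.I) := by
      push_cast
      ring
    rw [h5, tw_add]
    ring
  · intro b
    exact TW.mul_mem (hU _) (h3 _)
  · filter_upwards [h4] with p h5
    rw [hsum, Finset.sum_apply, Finset.sum_apply]
    refine Finset.sum_congr rfl fun j _ => ?_
    rw [Pi.mul_apply, Pi.mul_apply, h5, Finset.sum_apply, Finset.sum_apply, Finset.mul_sum,
      Finset.mul_sum]
    refine Finset.sum_congr rfl fun a _ => ?_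
    rw [hl, hc, Int.toNat_natCast]
    simp only [Pi.mul_apply]
    ring

theorem IsCuspidal.bddL (h : IsCuspidal S P) {k : ℕ} {σ : GLSys k} (hσ : σ ∈ S k) : BddL σ := by
  obtain ⟨B, hB⟩ := h.bddS k σ hσ
  exact ⟨B, hB.mono fun p hp i => (hp i).1⟩

theorem exists_family (h : IsCuspidal S P) {n : ℕ} {π : GSys n} (hπ : Eis S P n π) :
    ∃ (L : ℕ) (F : (Fin L → ℝ) → GSys n), UFam S P L n F ∧ RepBy F (spinD π) := by
  induction hπ with
  | @base n π hπ =>
    refine ⟨0, fun _ => π, UFam.base hπ, {0}, fun _ => spinD π, fun _ => 1, ?_, ?_, ?_, ?_⟩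
    · intro a _
      exact spinD_mem (h.bddP _ _ hπ)
    · intro t
      have h1 : pr (0 : Fin 0 → ℤ) t = 0 := by
        unfold pr
        simp
      rw [Finset.sum_singleton, h1, Complex.ofReal_zero, zero_mul, tw_zero, one_mul]
    · exact fun _ => TW.one_mem
    · refine Eventually.of_forall fun p => ?_
      rw [Finset.sum_singleton, one_mul]
  | @ind n k π σ z _ hσ ih =>
    obtain ⟨L, F, hF, hR⟩ := ih
    rcases Nat.eq_zero_or_pos k with rfl | hk
    · refine ⟨L, F, hF, ?_⟩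
      refine hR.congr (Eventually.of_forall fun p => ?_)
      rw [spinD_induce]
      simp [extD_zero]
    · refine ⟨L + 1, indF F σ, UFam.ind hk hF hσ, ?_⟩
      rw [spinD_induce]
      exact hR.ind (h.bddL hσ) fun j => TW.pow_mem (tw_mem_TW z) j
  | @tw n π w _ ih =>
    obtain ⟨L, F, hF, hR⟩ := ih
    refine ⟨L, F, hF, ?_⟩
    have h1 : spinD (twist π w) = EEA520.tw w * spinD π := by
      funext p
      simp only [spinD, twist, EEA520.tw, el, map_mul, Pi.mul_apply]
      ring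
    rw [h1]
    exact hR.tw_mul w
  | @congr n π π' _ he ih =>
    obtain ⟨L, F, hF, hR⟩ := ih
    refine ⟨L, F, hF, hR.congr ?_⟩
    filter_upwards [he] with p hp
    unfold spinD
    rw [hp]

theorem RepBy.pad {L n : ℕ} {F : (Fin L → ℝ) → GSys n} {X : Dat} (hR : RepBy F X) {χ : GLSys 1}
    (hχ : BddL χ) : RepBy (indF F χ) X := by
  have h1 := hR.ind hχ (U := fun j => if j = 0 then 1 else 0) (by
    intro j
    by_cases hj : j = 0
    · simp only [if_pos hj]
      exact TW.one_mem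
    · simp only [if_neg hj]
      exact TW.zero_mem)
  have h2 : (∑ j ∈ Finset.range (1 + 1), (if j = 0 then 1 else 0) * (extD χ j * X)) = X := by
    rw [Finset.sum_range_succ, Finset.sum_range_one, if_pos rfl, if_neg one_ne_zero, extD_zero,
      one_mul, one_mul, zero_mul, add_zero]
  rw [h2] at h1
  exact h1

theorem exists_pad_zero (h : IsCuspidal S P) {n : ℕ} {π : GSys n} (hπ : Eis S P n π) :
    ∃ (L : ℕ) (F : (Fin L → ℝ) → GSys (n + 1)), 0 < L ∧ UFam S P L (n + 1) F ∧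
      RepBy F (spinD π) ∧
      ∃ κ : Fin L → ℤ, ∀ᶠ p in cofinite, ∀ t, (F t p).nu = ppow p (pr κ t * Complex.I) := by
  obtain ⟨L, F, hF, hR⟩ := exists_family h hπ
  obtain ⟨χ, hχ, κ, hκ⟩ := hF.central h
  obtain ⟨χ', hχ', hinv⟩ := h.inv χ hχ
  refine ⟨L + 1, indF F χ', Nat.succ_pos L, UFam.ind Nat.one_pos hF hχ', hR.pad (h.bddL hχ'),
    Fin.snoc (α := fun _ => ℤ) κ 1, ?_⟩
  filter_upwards [hκ, hinv] with p h1 h2 t
  rw [indF, nu_induce, h1, Fin.prod_univ_one, h2, pr_snoc]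
  have h4 : ((pr κ (fun i => t i.castSucc) + ((1 : ℤ) : ℝ) * t (Fin.last L) : ℝ) : ℂ) *
      Complex.I = (pr κ (fun i => t i.castSucc) : ℂ) * Complex.I +
        (1 : ℕ) * (t (Fin.last L) * Complex.I) := by
    push_cast
    ring
  rw [h4, ppow_add, mul_right_comm (χ p 0), mul_inv_cancel, one_mul]

/-- A family with trivial central character at `t = 0` for every large level. -/
theorem exists_pad (h : IsCuspidal S P) {n : ℕ} {π : GSys n} (hπ : Eis S P n π) (d : ℕ) :
    ∃ (L : ℕ) (F : (Fin L → ℝ) → GSys (n + 1 + d)), 0 < L ∧ UFam S P L (n + 1 + d) F ∧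
      RepBy F (spinD π) ∧
      ∃ κ : Fin L → ℤ, ∀ᶠ p in cofinite, ∀ t, (F t p).nu = ppow p (pr κ t * Complex.I) := by
  induction d with
  | zero => exact exists_pad_zero h hπ
  | succ d ih =>
    obtain ⟨L, F, _, hF, hR, κ, hκ⟩ := ih
    obtain ⟨χ, hχ, h1⟩ := h.one
    refine ⟨L + 1, indF (n := n + 1 + d) (k := 1) F χ, Nat.succ_pos L,
      UFam.ind (n := n + 1 + d) (k := 1) Nat.one_pos hF hχ,
      RepBy.pad (n := n + 1 + d) hR (h.bddL hχ), Fin.snoc (α := fun _ => ℤ) κ 1, ?_⟩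
    filter_upwards [hκ, h1] with p h2 h3 t
    rw [indF, nu_induce, h2, Fin.prod_univ_one, h3, pr_snoc, mul_one]
    have h4 : ((pr κ (fun i => t i.castSucc) + ((1 : ℤ) : ℝ) * t (Fin.last L) : ℝ) : ℂ) *
        Complex.I = (pr κ (fun i => t i.castSucc) : ℂ) * Complex.I +
          (1 : ℕ) * (t (Fin.last L) * Complex.I) := by
      push_cast
      ring
    rw [h4, ppow_add]

theorem spinD_twist {n : ℕ} (π : GSys n) (w : ℂ) : spinD (twist π w) = tw w * spinD π := by
  funext p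
  simp only [spinD, twist, tw, el, map_mul, Pi.mul_apply]
  ring

theorem cont_tw_iff {D : Dat} (w : ℂ) : Cont (tw w * D) ↔ Cont D :=
  ⟨CatC_untw, fun h => h.tw w⟩

theorem cs_main (h : IsCuspidal S P) :
    (∀ N : ℕ, ∃ n ≥ N, ∀ (L : ℕ) (F : (Fin L → ℝ) → GSys n), 0 < L → UFam S P L n F →
      ∀ u : (Fin L → ℝ) → ℝ, (∀ t, TrivialCentral (twist (F t) (u t * Complex.I))) →
        ¬ Small {t | Continues (twist (F t) (u t * Complex.I)) (spin n)}) ↔
      ∀ n π, Eis S P n π → Continues π (spin n) := by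
  have hiff : ∀ n π, Eis S P n π → (Continues π (spin n) ↔ Cont (spinD π)) := by
    intro n π hπ
    rw [← spR_coeff, continues_iff (hπ.bdd h), Phi_spR]
  constructor
  · intro ha n π hπ
    obtain ⟨N, hN, hc⟩ := ha (n + 1)
    obtain ⟨d, rfl⟩ := Nat.exists_eq_add_of_le hN
    obtain ⟨L, F, hL, hF, ⟨A, D, T, h1, h2, h3, h4⟩, κ, hκ⟩ := exists_pad h hπ d
    have h5 := hc L F hL hF (fun t => -(pr κ t) / 2) (by
      intro t
      show ∀ᶠ p in cofinite, _
      filter_upwards [hκ] with p hp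
      rw [nu_twist, hp, ← ppow_add]
      have h6 : (pr κ t : ℂ) * Complex.I + 2 * (((-(pr κ t) / 2 : ℝ) : ℂ) * Complex.I) = 0 := by
        push_cast
        ring
      rw [h6, ppow_zero])
    have h6 : ∀ t, Continues (twist (F t) (((-(pr κ t) / 2 : ℝ) : ℂ) * Complex.I))
        (spin (n + 1 + d)) ↔ Cont (∑ a ∈ A, tw (pr a t * Complex.I) * D a) := by
      intro t
      rw [hiff _ _ (Eis.tw _ (hF.eis t)), spinD_twist, cont_tw_iff, h2]
    simp only [h6] at h5
    have h7 := cont_of_not_small A D h1 h5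
    rw [hiff n π hπ]
    refine cont_congr (spinD_mem (hπ.bdd h)) ?_
      (Cont.sum A (fun a => T a * D a) fun a ha => (h7 a ha).mul_TW (h3 a))
    filter_upwards [h4] with p hp
    exact hp.symm
  · intro hb N
    refine ⟨N, le_rfl, fun L F _ hF u _ => ?_⟩
    have h1 : {t | Continues (twist (F t) (u t * Complex.I)) (spin N)} = Set.univ := by
      apply Set.eq_univ_of_forall
      intro t
      exact hb N _ (Eis.tw _ (hF.eis t))
    rw [h1]
    exact not_small_univ

end Pool.Agent.EEA520
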