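import Pool.Agent.W_eea520_h69.EvD

/-! Even characters of `GSpin_{2n+1}`: the equivalence. -/

set_option autoImplicit false

namespace Pool.Agent.EEA520

open Filter Polynomial

variable {S : (k : ℕ) → Set (GLSys k)} {P : (n : ℕ) → Set (GSys n)}

/-! ### Transfers -/

theorem map_inv_tw (h : ClosedDual S) {k : ℕ} {σ : GLSys k} (hσ : σ ∈ S k) (z : ℂ) :
    ∃ σ' ∈ S k, ∀ᶠ p in cofinite, (Finset.univ.val.map fun i => (σ p i * ppow p z)⁻¹) =
      Finset.univ.val.map fun i => σ' p i * ppow p (-z) := by
  obtain ⟨σ', hσ', he⟩ := h k σ hσ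
  refine ⟨σ', hσ', ?_⟩
  filter_upwards [he] with p hp
  have h1 : (Finset.univ.val.map fun i => σ' p i * ppow p (-z)) =
      (Finset.univ.val.map (σ' p)).map fun u => u * ppow p (-z) := by
    rw [Multiset.map_map]
    rfl
  rw [h1, hp, Multiset.map_map]
  refine Multiset.map_congr rfl fun i _ => ?_
  simp only [Function.comp_apply]
  rw [mul_inv, ppow_neg]

theorem std_induce {n k : ℕ} (π : GSys n) (σ : GLSys k) (z : ℂ) (p : Pr) :
    (induce π σ z p).std = ((π p).std + Finset.univ.val.map fun i => σ p i * ppow p z) +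
      Finset.univ.val.map fun i => (σ p i * ppow p z)⁻¹ := by
  have h1 : (Finset.univ.val.map fun i => ((induce π σ z p).x i)⁻¹) =
      (Finset.univ.val.map (induce π σ z p).x).map fun u => u⁻¹ := by
    rw [Multiset.map_map]
    rfl
  unfold Torus.std
  rw [h1]
  have h2 : Finset.univ.val.map (induce π σ z p).x = Finset.univ.val.map (π p).x +
      Finset.univ.val.map fun i => σ p i * ppow p z :=
    EEA520.map_append (π p).x fun i => σ p i * ppow p z
  rw [h2, Multiset.map_add, Multiset.map_map, Multiset.map_map]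
  simp only [Multiset.cons_add]
  congr 1
  have h3 : ∀ a b c d : Multiset ℂˣ, a + b + (c + d) = a + c + b + d := by
    intro a b c d
    rw [add_add_add_comm, ← add_assoc]
  exact h3 _ _ _ _

theorem UFam.hasTransfer (h : IsCuspidal S P) (hd : ClosedDual S) {L n : ℕ}
    {F : (Fin L → ℝ) → GSys n} (hF : UFam S Triv L n F) : ∀ t, HasTransfer S (F t) := by
  induction hF with
  | @base n π hπ =>
    obtain ⟨rfl, -⟩ := hπ
    obtain ⟨χ, hχ, h1⟩ := h.one
    intro _
    show IsoM S fun p => (π p).std
    refine (IsoM.zero : IsoM S fun _ => 0).add hχ 0 ?_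
    filter_upwards [h1] with p hp
    rw [zero_add, ppow_zero]
    unfold Torus.std
    simp [hp]
  | @ind L n k F σ _ _ hσ ih =>
    intro t
    obtain ⟨σ', hσ', he⟩ := map_inv_tw hd hσ (t (Fin.last L) * Complex.I)
    show IsoM S fun p => (induce (F fun j => t j.castSucc) σ (t (Fin.last L) * Complex.I) p).std
    have h1 : IsoM S fun p => (F (fun j => t j.castSucc) p).std := ih _
    have h2 := h1.add (M' := fun p => (F (fun j => t j.castSucc) p).std +
      Finset.univ.val.map fun i => σ p i * ppow p (t (Fin.last L) * Complex.I)) hσ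
      (t (Fin.last L) * Complex.I) (Eventually.of_forall fun _ => rfl)
    refine h2.add hσ' (-(t (Fin.last L) * Complex.I)) ?_
    filter_upwards [he] with p hp
    rw [std_induce, hp]

/-! ### Parity -/

/-- The element `-1` of the centre. -/
noncomputable def theta (n : ℕ) : R n →+* R n :=
  (AddMonoidAlgebra.lift ℤ (R n) (Wt n)
    { toFun := fun w => ((Int.negOnePow (Multiplicative.toAdd w).1 : ℤˣ) : ℤ) •
        mon (Multiplicative.toAdd w)
      map_one' := by
        show ((Int.negOnePow (0 : ℤ) : ℤˣ) : ℤ) • mon (0 : Wt n) = 1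
        rw [Int.negOnePow_zero, Units.val_one, one_smul]
        rfl
      map_mul' := fun v w => by
        show ((Int.negOnePow ((Multiplicative.toAdd v).1 + (Multiplicative.toAdd w).1) : ℤˣ) : ℤ) •
          mon (Multiplicative.toAdd v + Multiplicative.toAdd w) = _
        rw [Int.negOnePow_add, Units.val_mul, smul_mul_smul_comm]
        congr 1
        unfold mon
        rw [AddMonoidAlgebra.single_mul_single, one_mul] }).toRingHom

theorem theta_mon {n : ℕ} (w : Wt n) :
    theta n (mon w) = ((Int.negOnePow w.1 : ℤˣ) : ℤ) • mon w := by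
  unfold theta mon
  simp [AddMonoidAlgebra.lift_single]

theorem theta_coeff {n : ℕ} (f : R n) (w : Wt n) :
    (theta n f).coeff w = ((Int.negOnePow w.1 : ℤˣ) : ℤ) * f.coeff w := by
  induction f using AddMonoidAlgebra.induction_on with
  | of v =>
    have h : (AddMonoidAlgebra.of ℤ (Wt n) (Multiplicative.ofAdd v) : R n) = mon v := rfl
    rw [h, theta_mon]
    by_cases hv : v = w
    · subst hv
      simp [mon]
    · simp [mon, hv]
  | add x y hx hy =>
    rw [map_add, AddMonoidAlgebra.coeff_add, AddMonoidAlgebra.coeff_add, Finsupp.add_apply,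
      Finsupp.add_apply, hx, hy]
    ring
  | smul r x hx =>
    rw [map_zsmul]
    have h1 : ∀ y : R n, (r • y).coeff w = r * y.coeff w := fun y => rfl
    rw [h1, h1, hx]
    ring

theorem even_of_theta {n : ℕ} {f : R n} (h : theta n f = f) : IsEven f.coeff := by
  intro w hw
  by_contra ho
  have h1 := theta_coeff f w
  rw [h, Int.negOnePow_odd _ (Int.not_even_iff_odd.1 ho)] at h1
  apply hw
  push_cast at h1
  omega

theorem odd_of_theta {n : ℕ} {f : R n} (h : theta n f = -f) {w : Wt n} (hw : Even w.1) :
    f.coeff w = 0 := by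
  have h1 := theta_coeff f w
  rw [h, Int.negOnePow_even _ hw] at h1
  have h2 : (-f).coeff w = -(f.coeff w) := rfl
  rw [h2] at h1
  push_cast at h1
  omega

theorem theta_ext (n a : ℕ) : theta n (extV n a) = extV n a := by
  unfold extV
  rw [← coeff_map, Polynomial.map_multiset_prod, Multiset.map_map]
  congr 2
  refine Multiset.map_congr rfl fun w hw => ?_
  have h1 : w.1 = 0 := by
    unfold stdW at hw
    rw [Multiset.mem_cons, Multiset.mem_add, Multiset.mem_map, Multiset.mem_map] at hw
    rcases hw with rfl | ⟨i, -, rfl⟩ | ⟨i, -, rfl⟩ <;> rfl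
  simp only [Function.comp_apply, Polynomial.map_add, Polynomial.map_one, Polynomial.map_mul,
    Polynomial.map_C, Polynomial.map_X]
  rw [theta_mon, h1, Int.negOnePow_zero, Units.val_one, one_smul]

theorem theta_nu (n : ℕ) (k : ℤ) : theta n (mon (k • nuW n)) = mon (k • nuW n) := by
  rw [theta_mon]
  have h1 : Even (k • nuW n).1 := ⟨k, by
    show k * 2 = k + k
    ring⟩
  rw [Int.negOnePow_even _ h1, Units.val_one, one_smul]

theorem theta_sp (n : ℕ) : theta n (spR n) = -spR n := by
  unfold spR
  rw [map_mul, map_prod, theta_mon]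
  have h1 : ∀ i : Fin n, theta n (1 + mon (0, Pi.single i 1)) = 1 + mon (0, Pi.single i 1) := by
    intro i
    rw [map_add, map_one, theta_mon, Int.negOnePow_zero, Units.val_one, one_smul]
  simp only [h1]
  rw [Int.negOnePow_one]
  simp

theorem theta_list (n : ℕ) (l : List ℕ) :
    theta n (l.map (extV n)).prod = (l.map (extV n)).prod := by
  induction l with
  | nil => simp
  | cons a l ih => rw [List.map_cons, List.prod_cons, map_mul, theta_ext, ih]

/-- The even part. -/
noncomputable def evenPart {n : ℕ} (f : R n) : R n :=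
  AddMonoidAlgebra.ofCoeff (f.coeff.filter fun w => Even w.1)

theorem evenPart_of_theta {n : ℕ} {f : R n} (h : theta n f = f) : evenPart f = f := by
  apply AddMonoidAlgebra.coeff_injective
  show f.coeff.filter _ = f.coeff
  exact Finsupp.filter_eq_self_iff _ _ |>.2 (even_of_theta h)

theorem evenPart_of_theta_neg {n : ℕ} {f : R n} (h : theta n f = -f) : evenPart f = 0 := by
  apply AddMonoidAlgebra.coeff_injective
  show f.coeff.filter _ = 0
  rw [Finsupp.filter_eq_zero_iff]
  exact fun w hw => odd_of_theta h hw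

theorem evenPart_add {n : ℕ} (f g : R n) : evenPart (f + g) = evenPart f + evenPart g := by
  apply AddMonoidAlgebra.coeff_injective
  show (f.coeff + g.coeff).filter _ = f.coeff.filter _ + g.coeff.filter _
  exact Finsupp.filter_add

theorem evenPart_neg {n : ℕ} (f : R n) : evenPart (-f) = -evenPart f := by
  apply AddMonoidAlgebra.coeff_injective
  show (-f.coeff).filter _ = -(f.coeff.filter _)
  exact Finsupp.filter_neg _ _

theorem evenPart_zero {n : ℕ} : evenPart (0 : R n) = 0 := by
  apply AddMonoidAlgebra.coeff_injective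
  show (0 : Wt n →₀ ℤ).filter _ = 0
  exact Finsupp.filter_zero _

/-- Even characters of systems with a transfer. -/
theorem even_of_MM (h : IsCuspidal S P) (hM : ∀ D ∈ MM (TwS S), Cont D) {n : ℕ} {π : GSys n}
    (hπ : Eis S P n π) (ht : HasTransfer S π) (m : Wt n →₀ ℤ) (hm : IsCharacter m)
    (he : IsEven m) : Continues π m := by
  have hb := hπ.bdd h
  have key : ∀ (k : ℤ) (l : List ℕ), Cont (Phi π (mon (k • nuW n) * (l.map (extV n)).prod)) := by
    intro k l
    obtain ⟨χ₀, hχ₀, t, hν⟩ := hπ.central h
    obtain ⟨χ, hχ, hpow⟩ := h.zpow hχ₀ k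
    obtain ⟨r, d, σ, z, hσ, hev⟩ := ht
    obtain ⟨D, hD, hDp⟩ := list_MM (T := TwS S) r d (fun j => twL (σ j) (z j))
      (fun j => ⟨σ j, hσ j, z j, rfl⟩) l
    have h1 : extD (twL χ (k * t)) 1 * D ∈ MM (TwS S) :=
      mul_mem (Subring.subset_closure ⟨1, _, 1, TwS_one hχ (k * t), rfl⟩) hD
    refine cont_congr (Phi_mem hb _) ?_ (hM _ h1)
    filter_upwards [hev, hν, hpow] with p h2 h3 h4
    rw [map_mul, Pi.mul_apply, Pi.mul_apply, extD_one, hDp, Phi_nu, map_list_prod, List.map_map,
      list_prod_at]
    congr 1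
    · congr 1
      show χ p 0 * ppow p (k * t) = _
      rw [h4, ppow_int_mul, ← mul_zpow, ← h3]
      rfl
    · congr 1
      refine List.map_congr_left fun a _ => ?_
      exact (Phi_ext π a p r d (fun j => twL (σ j) (z j)) h2).symm
  let U : AddSubgroup (R n) :=
    { carrier := {f | Cont (Phi π (evenPart f))}
      zero_mem' := by
        show Cont (Phi π (evenPart 0))
        rw [evenPart_zero, map_zero]
        exact cont_zero
      add_mem' := fun {a b} ha hb => by
        show Cont (Phi π (evenPart (a + b)))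
        rw [evenPart_add, map_add]
        exact Cont.add ha hb
      neg_mem' := fun {a} ha => by
        show Cont (Phi π (evenPart (-a)))
        rw [evenPart_neg, map_neg]
        exact Cont.neg ha }
  have h2 : (AddMonoidAlgebra.ofCoeff m : R n) ∈ U := by
    refine alg n U (fun k l e hle => ?_) _ hm
    rcases Nat.le_one_iff_eq_zero_or_eq_one.1 hle with rfl | rfl
    · show Cont (Phi π (evenPart _))
      rw [pow_zero, mul_one, evenPart_of_theta (by rw [map_mul, theta_nu, theta_list])]
      exact key k l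
    · show Cont (Phi π (evenPart _))
      rw [pow_one, evenPart_of_theta_neg (by
        rw [map_mul, map_mul, theta_nu, theta_list, theta_sp, mul_neg]), map_zero]
      exact cont_zero
  have h3 : evenPart (AddMonoidAlgebra.ofCoeff m : R n) = AddMonoidAlgebra.ofCoeff m := by
    apply AddMonoidAlgebra.coeff_injective
    show m.filter _ = m
    exact Finsupp.filter_eq_self_iff _ _ |>.2 he
  have h4 : Cont (Phi π (evenPart (AddMonoidAlgebra.ofCoeff m))) := h2
  rw [h3] at h4
  exact (continues_iff hb (AddMonoidAlgebra.ofCoeff m)).2 h4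

/-- The main theorem. -/
theorem even_main (h : IsCuspidal S P) (hd : ClosedDual S) : List.TFAE [
    ∀ N : ℕ, ∃ n j : ℕ, N ≤ j ∧ j + N ≤ n ∧ ∀ (L : ℕ) (F : (Fin L → ℝ) → GSys n),
      UFam S Triv L n F → ¬ Small {t | Continues (F t) (extV n j).coeff},
    ∀ n π, Eis S P n π → HasTransfer S π → ∀ m : Wt n →₀ ℤ, IsCharacter m → IsEven m →
      Continues π m,
    ∀ N (τ : GLSys N), IsIsobaric S τ → ∀ m : (Fin N → ℤ) →₀ ℤ, IsSymmetric m →
      GLContinues τ m] := by
  tfae_have 1 → 3 := fun ha N τ hτ m hm =>
    gl_of_MM h (fun D hD => cont_MM (mono_of_a h ha) hD) hτ m hm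
  tfae_have 3 → 2 := fun hc n π hπ ht m hm he => even_of_MM h (MM_of_gl h hc) hπ ht m hm he
  tfae_have 2 → 1 := fun hb N => by
    refine ⟨N + N, N, le_rfl, le_rfl, fun L F hF => ?_⟩
    have h1 : {t | Continues (F t) (extV (N + N) N).coeff} = Set.univ := by
      apply Set.eq_univ_of_forall
      intro t
      exact hb _ _ (hF.eis_triv h t) (hF.hasTransfer h hd t) _ (isCharacter_ext _ _)
        (even_of_theta (theta_ext _ _))
    rw [h1]
    exact not_small_univ
  tfae_finish

end Pool.Agent.EEA520
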