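import Pool.Agent.W_eea520_h69.IdentA

/-! Gluing meromorphic functions. -/

set_option autoImplicit false

namespace Pool.Agent.ZT

open Filter Topology Metric Set

/-- Gluing. Take `g s = toMeromorphicNFAt (f s) s s`; as in `glue` of `W_eea520_h25/Glue.lean`
(`toMeromorphicNFAt_eventuallyEq_nhds_congr`, `toMeromorphicNFAt_eq_self`). -/
theorem glueOn {U : Set ℂ} (hU : IsOpen U) (V : ℂ → Set ℂ) (f : ℂ → ℂ → ℂ)
    (hV : ∀ u ∈ U, IsOpen (V u) ∧ u ∈ V u) (hf : ∀ u ∈ U, MeromorphicOn (f u) (V u))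
    (hc : ∀ u ∈ U, ∀ v ∈ U, ∀ s ∈ V u ∩ V v, f u =ᶠ[𝓝[≠] s] f v) :
    ∃ g : ℂ → ℂ, MeromorphicOn g U ∧ ∀ u ∈ U, ∀ s ∈ V u, s ∈ U → g =ᶠ[𝓝[≠] s] f u := by
  have key : ∀ u ∈ U, ∀ s ∈ V u, s ∈ U →
      (fun s => toMeromorphicNFAt (f s) s s) =ᶠ[𝓝[≠] s] f u := by
    intro u hu s hs hsU
    have h1 : ∀ᶠ z in 𝓝[≠] s, z ∈ U :=
      Filter.Eventually.filter_mono nhdsWithin_le_nhds (hU.mem_nhds hsU)
    have h2 : ∀ᶠ z in 𝓝[≠] s, z ∈ V u :=
      Filter.Eventually.filter_mono nhdsWithin_le_nhds ((hV u hu).1.mem_nhds hs)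
    have h3 : ∀ᶠ z in 𝓝[≠] s, AnalyticAt ℂ (f u) z := (hf u hu s hs).eventually_analyticAt
    filter_upwards [h1, h2, h3] with z hz1 hz2 hz3
    have h4 : f z =ᶠ[𝓝[≠] z] f u := hc z hz1 u hu z ⟨(hV z hz1).2, hz2⟩
    have h5 : toMeromorphicNFAt (f z) z z = toMeromorphicNFAt (f u) z z :=
      (toMeromorphicNFAt_eventuallyEq_nhds_congr h4).eq_of_nhds
    rw [h5, toMeromorphicNFAt_eq_self.2 hz3.meromorphicNFAt]
  refine ⟨fun s => toMeromorphicNFAt (f s) s s, ?_, key⟩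
  intro s hs
  exact (hf s hs s (hV s hs).2).congr (key s hs s (hV s hs).2 hs).symm

theorem Ident_half {x c : ℝ} {g h : ℂ → ℂ} (hg : MeromorphicOn g {s : ℂ | x < s.re})
    (hh : MeromorphicOn h {s : ℂ | x < s.re}) (hgh : ∀ s : ℂ, c < s.re → g s = h s) :
    ∀ s : ℂ, x < s.re → g =ᶠ[𝓝[≠] s] h := by
  have hmem : (((max x c + 1 : ℝ) : ℂ)) ∈ {s : ℂ | x < s.re} := by
    show x < (((max x c + 1 : ℝ) : ℂ)).re
    rw [Complex.ofReal_re]
    have := le_max_left x c
    linarith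
  have hmem2 : (((max x c + 1 : ℝ) : ℂ)) ∈ {s : ℂ | c < s.re} := by
    show c < (((max x c + 1 : ℝ) : ℂ)).re
    rw [Complex.ofReal_re]
    have := le_max_right x c
    linarith
  have hopen : IsOpen {s : ℂ | c < s.re} := isOpen_lt continuous_const Complex.continuous_re
  have h1 : g =ᶠ[𝓝[≠] (((max x c + 1 : ℝ) : ℂ))] h := by
    apply Filter.Eventually.filter_mono nhdsWithin_le_nhds
    filter_upwards [hopen.mem_nhds hmem2] with z hz
    exact hgh z hz
  exact mero_identity (convex_halfSpace_re_gt x).isPreconnected hg hh hmem h1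

theorem Ident_gen {F : ℂ → ℂ} {b : ℝ} (hF : DifferentiableOn ℂ F {s : ℂ | b < s.re})
    {U : Set ℂ} (hU : IsOpen U) (hUc : Convex ℝ U) (x : ℂ → ℝ) (hx : ∀ u ∈ U, x u < u.re)
    (h : ∀ u ∈ U, ∃ (c : ℝ) (g : ℂ → ℂ), MeromorphicOn g {s : ℂ | x u < s.re} ∧
      ∀ s : ℂ, c < s.re → F s = g s) (hne : ∀ R : ℝ, ∃ s ∈ U, R < s.re) :
    ∃ g : ℂ → ℂ, MeromorphicOn g U ∧ ∀ s ∈ U, b < s.re → F s = g s := by
  choose! c G hG hc using h
  have hopen : ∀ y : ℝ, IsOpen {s : ℂ | y < s.re} := fun y =>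
    isOpen_lt continuous_const Complex.continuous_re
  obtain ⟨g, hg, hgf⟩ := glueOn hU (fun u => {s : ℂ | x u < s.re}) G
    (fun u hu => ⟨hopen _, hx u hu⟩) hG (by
      intro u hu v hv s hs
      have hs1 : x u < s.re := hs.1
      have hs2 : x v < s.re := hs.2
      refine Ident_half (x := max (x u) (x v)) (c := max (c u) (c v)) ?_ ?_ ?_ s (max_lt hs1 hs2)
      · intro z hz
        have hz' : max (x u) (x v) < z.re := hz
        exact hG u hu z (lt_of_le_of_lt (le_max_left _ _) hz')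
      · intro z hz
        have hz' : max (x u) (x v) < z.re := hz
        exact hG v hv z (lt_of_le_of_lt (le_max_right _ _) hz')
      · intro z hz
        rw [← hc u hu z (lt_of_le_of_lt (le_max_left _ _) hz),
          ← hc v hv z (lt_of_le_of_lt (le_max_right _ _) hz)])
  have hVU : U ∩ {s : ℂ | b < s.re} ⊆ U := Set.inter_subset_left
  have hVo : IsOpen (U ∩ {s : ℂ | b < s.re}) := hU.inter (hopen b)
  have hFV : DifferentiableOn ℂ F (U ∩ {s : ℂ | b < s.re}) := hF.mono Set.inter_subset_right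
  have hFm : MeromorphicOn F (U ∩ {s : ℂ | b < s.re}) := by
    intro s hs
    exact (hFV.analyticAt (hVo.mem_nhds hs)).meromorphicAt
  obtain ⟨u, hu, -⟩ := hne 0
  obtain ⟨s₀, hs₀, hR⟩ := hne (max b (max (x u) (c u)))
  have hb : b < s₀.re := lt_of_le_of_lt (le_max_left _ _) hR
  have hxu : x u < s₀.re := lt_of_le_of_lt ((le_max_left _ _).trans (le_max_right _ _)) hR
  have hcu : c u < s₀.re := lt_of_le_of_lt ((le_max_right _ _).trans (le_max_right _ _)) hR
  have h1 : g =ᶠ[𝓝[≠] s₀] F := by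
    have h2 : G u =ᶠ[𝓝[≠] s₀] F := by
      apply Filter.Eventually.filter_mono nhdsWithin_le_nhds
      filter_upwards [(hopen (c u)).mem_nhds hcu] with z hz
      exact (hc u hu z hz).symm
    exact (hgf u hu s₀ hxu hs₀).trans h2
  have h3 := mero_identity (hUc.inter (convex_halfSpace_re_gt b)).isPreconnected (hg.mono_set hVU)
    hFm ⟨hs₀, hb⟩ h1
  obtain ⟨g', hg', hgF, -⟩ := mero_fix hg hVo hVU hFV h3
  exact ⟨g', hg', fun s hs hsb => (hgF s ⟨hs, hsb⟩).symm⟩

/-- Gluing along decreasing half planes. Let `F` be differentiable on `b < re s`, and suppose that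
for every real number `x > x₀` there is a meromorphic function on `x < re s` which agrees with `F`
for large `re s`. Then there is one on `x₀ < re s`, equal to `F` on `max b x₀ < re s`.
(`glueOn`, `mero_identity`, `mero_fix`.) -/
theorem glue_half {F : ℂ → ℂ} {b x₀ : ℝ} (hF : DifferentiableOn ℂ F {s : ℂ | b < s.re})
    (h : ∀ x : ℝ, x₀ < x → ∃ (c : ℝ) (g : ℂ → ℂ), MeromorphicOn g {s : ℂ | x < s.re} ∧
      ∀ s : ℂ, c < s.re → F s = g s) :
    ∃ g : ℂ → ℂ, MeromorphicOn g {s : ℂ | x₀ < s.re} ∧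
      ∀ s : ℂ, b < s.re → x₀ < s.re → F s = g s := by
  obtain ⟨g, hg, hgF⟩ := Ident_gen hF (U := {s : ℂ | x₀ < s.re})
    (isOpen_lt continuous_const Complex.continuous_re) (convex_halfSpace_re_gt x₀)
    (fun u => (x₀ + u.re) / 2) (by
      intro u hu
      have hu' : x₀ < u.re := hu
      show (x₀ + u.re) / 2 < u.re
      linarith) (by
      intro u hu
      have hu' : x₀ < u.re := hu
      exact h _ (by linarith)) (by
      intro R
      refine ⟨((max x₀ R + 1 : ℝ) : ℂ), ?_, ?_⟩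
      · show x₀ < (((max x₀ R + 1 : ℝ) : ℂ)).re
        rw [Complex.ofReal_re]
        have := le_max_left x₀ R
        linarith
      · rw [Complex.ofReal_re]
        have := le_max_right x₀ R
        linarith)
  exact ⟨g, hg, fun s hsb hs => hgF s hs hsb⟩

/-- The same for all real numbers `x`. -/
theorem glue_all {F : ℂ → ℂ} {b : ℝ} (hF : DifferentiableOn ℂ F {s : ℂ | b < s.re})
    (h : ∀ x : ℝ, ∃ (c : ℝ) (g : ℂ → ℂ), MeromorphicOn g {s : ℂ | x < s.re} ∧
      ∀ s : ℂ, c < s.re → F s = g s) :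
    ∃ g : ℂ → ℂ, Meromorphic g ∧ ∀ s : ℂ, b < s.re → F s = g s := by
  obtain ⟨g, hg, hgF⟩ := Ident_gen hF (U := Set.univ) isOpen_univ convex_univ
    (fun u => u.re - 1) (by
      intro u _
      show u.re - 1 < u.re
      linarith) (fun u _ => h _) (by
      intro R
      refine ⟨((R + 1 : ℝ) : ℂ), Set.mem_univ _, ?_⟩
      rw [Complex.ofReal_re]
      linarith)
  exact ⟨g, fun s => hg s (Set.mem_univ s), fun s hsb => hgF s (Set.mem_univ s) hsb⟩

end Pool.Agent.ZT
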