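import Pool.Agent.W_eea520_h69.Comp
import Pool.Agent.W_eea520_h69.Ident

/-! Functions with finitely many poles in a disc. -/

set_option autoImplicit false

namespace Pool.Agent.ZT

open Filter Topology Metric Set

/-- `q h = u` on the unit disc. -/
def Rel (h : ℂ → ℂ) (q u : ℕ → ℂ) : Prop := ∀ z : ℂ, ‖z‖ < 1 → ev q z * h z = ev u z

/-- There is a polynomial `q` of degree `< d` such that the power series `q h` has coefficients
bounded by `N R⁻ⁿ`. -/
def Adm (h : ℂ → ℂ) (d N : ℕ) (R : ℝ) : Prop := ∃ q ∈ QQ d, ∃ u ∈ UU N R, Rel h q u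

theorem Adm.mono {h : ℂ → ℂ} {d N : ℕ} {R R' : ℝ} (hR' : 0 < R') (hR : R' ≤ R)
    (H : Adm h d N R) : Adm h d N R' := by
  obtain ⟨q, hq, u, hu, hr⟩ := H
  refine ⟨q, hq, u, fun n => (hu n).trans ?_, hr⟩
  have h1 : R⁻¹ ≤ R'⁻¹ := inv_anti₀ hR' hR
  have h2 : 0 ≤ R⁻¹ := inv_nonneg.2 (hR'.le.trans hR)
  exact mul_le_mul_of_nonneg_left (pow_le_pow_left₀ h2 h1 n) (Nat.cast_nonneg _)

/-- The set of all `(β, q, u)` with `q ∈ QQ d`, `u ∈ UU N R` and `q h_β = u` is closed in
`ℝ × (QQ d × UU N R)`, since for every `z` both sides of the equation are continuous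
(`continuousOn_ev_QQ`, `continuousOn_ev_UU`); the second factor is compact. -/
theorem isClosed_rel {h : ℝ → ℂ → ℂ} (hc : ∀ z, ‖z‖ < 1 → Continuous fun β => h β z)
    (d N : ℕ) {R : ℝ} (hR : 1 < R) :
    IsClosed {x : ℝ × (ℕ → ℂ) × (ℕ → ℂ) | x.2.1 ∈ QQ d ∧ x.2.2 ∈ UU N R ∧
      Rel (h x.1) x.2.1 x.2.2} := by
  have hC : IsClosed {x : ℝ × (ℕ → ℂ) × (ℕ → ℂ) | x.2.1 ∈ QQ d ∧ x.2.2 ∈ UU N R} :=
    ((isCompact_QQ d).isClosed.preimage (continuous_fst.comp continuous_snd)).inter
      ((isCompact_UU N R).isClosed.preimage (continuous_snd.comp continuous_snd))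
  have hz : ∀ z : ℂ, ‖z‖ < 1 → IsClosed ({x : ℝ × (ℕ → ℂ) × (ℕ → ℂ) | x.2.1 ∈ QQ d ∧
      x.2.2 ∈ UU N R} ∩ (fun x => ev x.2.1 z * h x.1 z - ev x.2.2 z) ⁻¹' {0}) := by
    intro z hz
    refine ContinuousOn.preimage_isClosed_of_isClosed ?_ hC isClosed_singleton
    refine ContinuousOn.sub (ContinuousOn.mul ?_ ?_) ?_
    · exact (continuousOn_ev_QQ d).comp
        (((continuous_fst.comp continuous_snd).prodMk continuous_const).continuousOn)
        (fun x hx => ⟨hx.1, mem_univ z⟩)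
    · exact ((hc z hz).comp continuous_fst).continuousOn
    · exact (continuousOn_ev_UU N zero_le_one hR).comp
        (((continuous_snd.comp continuous_snd).prodMk continuous_const).continuousOn)
        (fun x hx => ⟨hx.2, by simpa using hz.le⟩)
  have hall : IsClosed (⋂ z : ℂ, ⋂ _ : ‖z‖ < 1, ({x : ℝ × (ℕ → ℂ) × (ℕ → ℂ) | x.2.1 ∈ QQ d ∧
      x.2.2 ∈ UU N R} ∩ (fun x => ev x.2.1 z * h x.1 z - ev x.2.2 z) ⁻¹' {0})) :=
    isClosed_iInter fun z => isClosed_iInter fun hz1 => hz z hz1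
  convert hall using 1
  ext x
  simp only [mem_setOf_eq, mem_iInter, mem_inter_iff, mem_preimage, mem_singleton_iff]
  constructor
  · rintro ⟨h1, h2, h3⟩ z hz1
    exact ⟨⟨h1, h2⟩, sub_eq_zero.2 (h3 z hz1)⟩
  · intro h1
    obtain ⟨⟨h2, h3⟩, -⟩ := h1 0 (by simp)
    exact ⟨h2, h3, fun z hz1 => sub_eq_zero.1 (h1 z hz1).2⟩

/-- Projection along a compact factor. -/
theorem isClosed_adm {h : ℝ → ℂ → ℂ} (hc : ∀ z, ‖z‖ < 1 → Continuous fun β => h β z)
    (d N : ℕ) {R : ℝ} (hR : 1 < R) : IsClosed {β : ℝ | Adm (h β) d N R} := by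
  have : CompactSpace ↥(QQ d ×ˢ UU N R) :=
    isCompact_iff_compactSpace.1 ((isCompact_QQ d).prod (isCompact_UU N R))
  have h1 := (isClosed_rel hc d N hR).preimage
    (continuous_fst.prodMk (continuous_subtype_val.comp continuous_snd) :
      Continuous fun y : ℝ × ↥(QQ d ×ˢ UU N R) => (y.1, (y.2 : (ℕ → ℂ) × (ℕ → ℂ))))
  have h2 := isClosedMap_fst_of_compactSpace (X := ℝ) (Y := ↥(QQ d ×ˢ UU N R)) _ h1
  convert h2 using 1
  ext β
  simp only [mem_setOf_eq, mem_image, mem_preimage]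
  constructor
  · rintro ⟨q, hq, u, hu, hr⟩
    exact ⟨(β, ⟨(q, u), ⟨hq, hu⟩⟩), ⟨hq, hu, hr⟩, rfl⟩
  · rintro ⟨⟨b, ⟨⟨q, u⟩, hqu⟩⟩, ⟨hq, hu, hr⟩, rfl⟩
    exact ⟨q, hq, u, hu, hr⟩

/-- Proof. For every point `x` of the closed disc `B` of radius `R` and centre `c` there are `n` and
an open disc around `x` on which `(z - x) ^ n f z` is holomorphic (definition of `MeromorphicAt`).
Cover `B` by finitely many of these discs, with centres `x_i`, let `P = ∏ (X - (x_i - c)) ^ n_i`
and `U z = P(z) f (c + z)`; it is holomorphic at all points of the closed disc of radius `R` and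
centre `0`: near a point of the `i`-th disc it is the product of `(z - (x_i - c)) ^ n_i f (c + z)`
and a polynomial. Use `exists_QQ` and `exists_UU`. -/
theorem exists_adm {f h : ℂ → ℂ} (hf : Meromorphic f) {c : ℂ}
    (hh : ∀ z, ‖z‖ < 1 → h z = f (c + z)) {R : ℝ} (hR : 1 < R) :
    ∃ d N : ℕ, Adm h d N R := by
  choose n hn using fun x => hf x
  have hU : ∀ x ∈ closedBall c R, {z : ℂ | AnalyticAt ℂ (fun z => (z - x) ^ n x • f z) z} ∈ 𝓝 x :=
    fun x _ => (hn x).eventually_analyticAt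
  obtain ⟨t, ht, hcov⟩ := (isCompact_closedBall c R).elim_nhds_subcover _ hU
  obtain ⟨P, hPdef⟩ : ∃ P : Polynomial ℂ, P = ∏ x ∈ t, (Polynomial.X - Polynomial.C (x - c)) ^ n x :=
    ⟨_, rfl⟩
  have hP : P ≠ 0 := by
    rw [hPdef]
    exact Finset.prod_ne_zero_iff.2 fun x _ => pow_ne_zero _ (Polynomial.X_sub_C_ne_zero _)
  obtain ⟨c0, q, hc0, hq, hqe⟩ := exists_QQ P hP
  have hPe : ∀ z, P.eval z = ∏ x ∈ t, (z - (x - c)) ^ n x := by
    intro z
    rw [hPdef, Polynomial.eval_prod]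
    refine Finset.prod_congr rfl fun x _ => ?_
    rw [Polynomial.eval_pow, Polynomial.eval_sub, Polynomial.eval_X, Polynomial.eval_C]
  have hdiff : ∀ z ∈ closedBall (0 : ℂ) R,
      DifferentiableAt ℂ (fun z => ev q z * f (c + z)) z := by
    intro z hz
    have hcz : c + z ∈ closedBall c R := by
      rw [mem_closedBall, dist_eq_norm, add_sub_cancel_left]
      rwa [mem_closedBall, dist_zero_right] at hz
    obtain ⟨x, hxt, hx⟩ := mem_iUnion₂.1 (hcov hcz)
    have hx' : AnalyticAt ℂ (fun w => (w - x) ^ n x • f w) (c + z) := hx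
    have h1 : DifferentiableAt ℂ (fun y => (c + y - x) ^ n x • f (c + y)) z :=
      DifferentiableAt.comp z hx'.differentiableAt
        ((differentiableAt_const c).add differentiableAt_id)
    have h2 : (fun z => ev q z * f (c + z)) = fun y => (c0 * ∏ w ∈ t.erase x, (y - (w - c)) ^ n w) *
        ((c + y - x) ^ n x • f (c + y)) := by
      funext y
      rw [hqe, hPe, ← Finset.mul_prod_erase t _ hxt, smul_eq_mul]
      have h3 : y - (x - c) = c + y - x := by ring
      rw [h3]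
      ring
    rw [h2]
    refine DifferentiableAt.mul ?_ h1
    refine (differentiableAt_const c0).mul ?_
    refine DifferentiableAt.fun_finsetProd fun w _ => ?_
    exact (differentiableAt_id.sub (differentiableAt_const _)).pow _
  obtain ⟨N, u, hu, hue⟩ := exists_UU (by linarith) hdiff
  refine ⟨_, N, q, hq, u, hu, fun z hz => ?_⟩
  have hz' : z ∈ ball (0 : ℂ) R := by
    rw [mem_ball, dist_zero_right]
    linarith
  rw [hue z hz', hh z hz]

/-- Two pairs `(q, u)`, `(q', u')` for the same `h` satisfy `q u' = q' u` (identity theorem: both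
sides are holomorphic on the disc of radius `R` and equal to `q q' h` on the unit disc). -/
theorem rel_cross {h : ℂ → ℂ} {d d' N N' : ℕ} {R : ℝ} (hR : 1 < R) {q u q' u' : ℕ → ℂ}
    (hq : q ∈ QQ d) (hu : u ∈ UU N R) (hq' : q' ∈ QQ d') (hu' : u' ∈ UU N' R)
    (H : Rel h q u) (H' : Rel h q' u') : ∀ z ∈ ball (0 : ℂ) R, ev q z * ev u' z = ev q' z * ev u z := by
  have hR0 : 0 < R := by linarith
  have hL : AnalyticOnNhd ℂ (fun z => ev q z * ev u' z) (ball 0 R) :=
    ((differentiable_ev_QQ hq).differentiableOn.mul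
      (differentiableOn_ev hR0 hu')).analyticOnNhd isOpen_ball
  have hRt : AnalyticOnNhd ℂ (fun z => ev q' z * ev u z) (ball 0 R) :=
    ((differentiable_ev_QQ hq').differentiableOn.mul
      (differentiableOn_ev hR0 hu)).analyticOnNhd isOpen_ball
  have h0 : (0 : ℂ) ∈ ball (0 : ℂ) R := mem_ball_self hR0
  refine hL.eqOn_of_preconnected_of_eventuallyEq hRt (convex_ball _ _).isPreconnected h0 ?_
  filter_upwards [ball_mem_nhds (0 : ℂ) one_pos] with z hz
  rw [mem_ball, dist_zero_right] at hz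
  rw [← H z hz, ← H' z hz]
  ring

/-- A meromorphic function which satisfies the relation on the unit disc satisfies it on the whole
disc of radius `R` (`mero_identity` for the two sides, `ball c R` is convex). -/
theorem rel_mero {f h : ℂ → ℂ} {c : ℂ} {R : ℝ} (hR : 1 < R) (hf : MeromorphicOn f (ball c R))
    (hh : ∀ z, ‖z‖ < 1 → h z = f (c + z)) {d N : ℕ} {q u : ℕ → ℂ}
    (hq : q ∈ QQ d) (hu : u ∈ UU N R) (H : Rel h q u) :
    ∀ s ∈ ball c R, (fun s => ev q (s - c) * f s) =ᶠ[𝓝[≠] s] fun s => ev u (s - c) := by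
  have hR0 : 0 < R := by linarith
  have hshift : ∀ s ∈ ball c R, s - c ∈ ball (0 : ℂ) R := by
    intro s hs
    rwa [mem_ball, dist_zero_right, ← dist_eq_norm]
  have hsub : Differentiable ℂ (fun s : ℂ => s - c) := differentiable_id.sub_const c
  have h1 : MeromorphicOn (fun s => ev q (s - c)) (ball c R) := fun s _ =>
    (((differentiable_ev_QQ hq).comp hsub).analyticAt s).meromorphicAt
  have h2 : MeromorphicOn (fun s => ev u (s - c)) (ball c R) := by
    have h3 : DifferentiableOn ℂ (fun s => ev u (s - c)) (ball c R) :=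
      (differentiableOn_ev hR0 hu).comp hsub.differentiableOn hshift
    intro s hs
    exact (h3.analyticOnNhd isOpen_ball s hs).meromorphicAt
  refine mero_identity (convex_ball c R).isPreconnected (h1.mul hf) h2 (mem_ball_self hR0) ?_
  refine Filter.Eventually.filter_mono nhdsWithin_le_nhds ?_
  filter_upwards [ball_mem_nhds c one_pos] with s hs
  have hs1 : ‖s - c‖ < 1 := by rwa [mem_ball, dist_eq_norm] at hs
  have h4 := H (s - c) hs1
  rw [hh _ hs1, add_sub_cancel] at h4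
  exact h4

end Pool.Agent.ZT
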