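import Pool.Agent.W_eea520_h69.Adm

/-! Extendability is a Borel condition. -/

set_option autoImplicit false

namespace Pool.Agent.ZT

open Filter Topology Metric Set

theorem BorelA_ne {d : ℕ} {q : ℕ → ℂ} (hq : q ∈ QQ d) (c s : ℂ) :
    ∀ᶠ z in 𝓝[≠] s, ev q (z - c) ≠ 0 := by
  have h1 : {z : ℂ | ev q (z - c) = 0}.Finite := by
    have h2 : {z : ℂ | ev q (z - c) = 0} = (fun z => z - c) ⁻¹' {z : ℂ | ev q z = 0} := rfl
    rw [h2]
    exact (finite_zeros hq).preimage (fun a _ b _ hab => sub_left_injective hab)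
  have h3 : ∀ᶠ z in 𝓝[≠] s, z ∉ {z : ℂ | ev q (z - c) = 0} \ {s} := by
    refine Filter.Eventually.filter_mono nhdsWithin_le_nhds ?_
    have h4 : ({z : ℂ | ev q (z - c) = 0} \ {s}).Finite := h1.subset Set.sdiff_subset
    exact h4.isClosed.isOpen_compl.mem_nhds (by simp)
  filter_upwards [h3, self_mem_nhdsWithin] with z hz1 hz2 hz3
  exact hz1 ⟨hz3, hz2⟩

theorem BorelA_loc {h : ℂ → ℂ} {d : ℕ} {q u : ℕ → ℂ} (hq : q ∈ QQ d) (H : Rel h q u) (c s : ℂ)
    (hs : s ∈ ball c 1) :
    (fun z => ev u (z - c) / ev q (z - c)) =ᶠ[𝓝[≠] s] fun z => h (z - c) := by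
  have h1 : ∀ᶠ z in 𝓝[≠] s, z ∈ ball c 1 :=
    Filter.Eventually.filter_mono nhdsWithin_le_nhds (isOpen_ball.mem_nhds hs)
  filter_upwards [h1, BorelA_ne hq c s] with z hz1 hz2
  have hz3 : ‖z - c‖ < 1 := by rwa [mem_ball, dist_eq_norm] at hz1
  rw [← H (z - c) hz3, mul_div_cancel_left₀ _ hz2]

theorem BorelA_mero {d N : ℕ} {R : ℝ} (hR : 0 < R) {q u : ℕ → ℂ} (hq : q ∈ QQ d)
    (hu : u ∈ UU N R) (c : ℂ) :
    MeromorphicOn (fun z => ev u (z - c) / ev q (z - c)) (ball c R) := by
  have hshift : ∀ s ∈ ball c R, s - c ∈ ball (0 : ℂ) R := by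
    intro s hs
    rwa [mem_ball, dist_zero_right, ← dist_eq_norm]
  have hsub : Differentiable ℂ (fun s : ℂ => s - c) := differentiable_id.sub_const c
  have h1 : MeromorphicOn (fun s => ev q (s - c)) (ball c R) := fun s _ =>
    (((differentiable_ev_QQ hq).comp hsub).analyticAt s).meromorphicAt
  have h2 : MeromorphicOn (fun s => ev u (s - c)) (ball c R) := by
    have h3 : DifferentiableOn ℂ (fun s => ev u (s - c)) (ball c R) :=
      (differentiableOn_ev hR hu).comp hsub.differentiableOn hshift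
    intro s hs
    exact (h3.analyticOnNhd isOpen_ball s hs).meromorphicAt
  exact h2.div h1

/-- From left to right: `exists_adm`. From right to left: for every `n` take `q`, `u` with
`R = n + 2`; the function `f_n s = ev u (s - c) / ev q (s - c)` is meromorphic on `ball c (n + 2)`
and equal to `h (s - c)` on `ball c 1` away from the zeros of `q`. Glue them (`glueOn` with
`V s = ball c (n_s + 2)`, `mero_identity`), then `mero_fix` with `V = ball c 1`. -/
theorem exists_mero_iff {h : ℂ → ℂ} (hh : DifferentiableOn ℂ h (ball 0 1)) (c : ℂ) :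
    (∃ f : ℂ → ℂ, Meromorphic f ∧ ∀ z, ‖z‖ < 1 → h z = f (c + z)) ↔
      ∀ n : ℕ, ∃ d N : ℕ, Adm h d N ((n : ℝ) + 2) := by
  constructor
  · rintro ⟨f, hf, hfh⟩ n
    have : (0 : ℝ) ≤ n := Nat.cast_nonneg n
    exact exists_adm hf hfh (by linarith)
  · intro H
    choose d N q hq u hu hr using H
    obtain ⟨g, hg, hgf⟩ := glueOn (U := univ) isOpen_univ
      (fun s => ball c ((⌈‖s - c‖⌉₊ : ℝ) + 2))
      (fun s z => ev (u ⌈‖s - c‖⌉₊) (z - c) / ev (q ⌈‖s - c‖⌉₊) (z - c))
      (fun s _ => ⟨isOpen_ball, by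
        rw [mem_ball, dist_eq_norm]
        have := Nat.le_ceil ‖s - c‖
        linarith⟩)
      (fun s _ => BorelA_mero (by positivity) (hq _) (hu _) c)
      (by
        intro s _ t _ z hz
        have h0 : (0 : ℝ) < min ((⌈‖s - c‖⌉₊ : ℝ) + 2) ((⌈‖t - c‖⌉₊ : ℝ) + 2) :=
          lt_min (by positivity) (by positivity)
        refine mero_identity (U := ball c (min ((⌈‖s - c‖⌉₊ : ℝ) + 2) ((⌈‖t - c‖⌉₊ : ℝ) + 2)))
          (convex_ball _ _).isPreconnected
          ((BorelA_mero (by positivity) (hq _) (hu _) c).mono_set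
            (ball_subset_ball (min_le_left _ _)))
          ((BorelA_mero (by positivity) (hq _) (hu _) c).mono_set
            (ball_subset_ball (min_le_right _ _))) (mem_ball_self h0) ?_ z ?_
        · exact (BorelA_loc (hq _) (hr _) c c (mem_ball_self one_pos)).trans
            (BorelA_loc (hq _) (hr _) c c (mem_ball_self one_pos)).symm
        · rw [mem_ball]
          exact lt_min hz.1 hz.2)
    have hV : DifferentiableOn ℂ (fun z => h (z - c)) (ball c 1) := by
      refine hh.comp (differentiable_id.sub_const c).differentiableOn ?_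
      intro s hs
      rwa [mem_ball, dist_zero_right, ← dist_eq_norm]
    obtain ⟨g', hg', hgF, -⟩ := mero_fix hg isOpen_ball (subset_univ (ball c 1)) hV (by
      intro s hs
      refine (hgf s (mem_univ s) s ?_ (mem_univ s)).trans (BorelA_loc (hq _) (hr _) c s hs)
      rw [mem_ball, dist_eq_norm]
      have := Nat.le_ceil ‖s - c‖
      linarith)
    refine ⟨g', fun s => hg' s (mem_univ s), fun z hz => ?_⟩
    rw [hgF (c + z) (by rwa [mem_ball, dist_eq_norm, add_sub_cancel_left]), add_sub_cancel_left]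

/-- The set is a countable intersection of countable unions of closed sets (`isClosed_adm`). -/
theorem measurable_mero {h : ℝ → ℂ → ℂ} (hc : ∀ z, ‖z‖ < 1 → Continuous fun β => h β z)
    (hd : ∀ β, DifferentiableOn ℂ (h β) (ball 0 1)) (c : ℂ) :
    MeasurableSet {β : ℝ | ∃ f : ℂ → ℂ, Meromorphic f ∧ ∀ z, ‖z‖ < 1 → h β z = f (c + z)} := by
  have h1 : {β : ℝ | ∃ f : ℂ → ℂ, Meromorphic f ∧ ∀ z, ‖z‖ < 1 → h β z = f (c + z)} =
      ⋂ n : ℕ, ⋃ d : ℕ, ⋃ N : ℕ, {β : ℝ | Adm (h β) d N ((n : ℝ) + 2)} := by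
    ext β
    simp only [mem_setOf_eq, mem_iInter, mem_iUnion]
    exact exists_mero_iff (hd β) c
  rw [h1]
  refine MeasurableSet.iInter fun n => MeasurableSet.iUnion fun d => MeasurableSet.iUnion fun N =>
    (isClosed_adm hc d N ?_).measurableSet
  have : (0 : ℝ) ≤ n := Nat.cast_nonneg n
  linarith

end Pool.Agent.ZT
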