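import Pool.Agent.W_eea520_h25.ContA
import Pool.Agent.W_eea520_h69.Ident

/-! Operators: combinations of twists. -/

set_option autoImplicit false

namespace Pool.Agent.EEA520

open Filter

theorem tw_zero : tw 0 = 1 := by
  funext p
  have h : tw 0 p = el (ppow p 0) := rfl
  rw [h, Pi.one_apply]
  have h2 : ppow p 0 = 1 := by
    apply Units.ext
    have h3 : ((ppow p 0 : ℂˣ) : ℂ) = ((p : ℕ) : ℂ) ^ (0 : ℂ) := rfl
    rw [h3, Complex.cpow_zero, Units.val_one]
  rw [h2]
  unfold el
  rw [map_one]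

theorem tw_add (w w' : ℂ) : tw (w + w') = tw w * tw w' := by
  funext p
  have h : tw (w + w') p = el (ppow p (w + w')) := rfl
  have h' : (tw w * tw w') p = el (ppow p w) * el (ppow p w') := rfl
  rw [h, h']
  unfold el
  rw [← map_mul]
  congr 1
  apply Units.ext
  have hp : ((p : ℕ) : ℂ) ≠ 0 := Nat.cast_ne_zero.2 p.2.ne_zero
  have h3 : ∀ w, ((ppow p w : ℂˣ) : ℂ) = ((p : ℕ) : ℂ) ^ w := fun w => rfl
  rw [Units.val_mul, h3, h3, h3, ← Complex.cpow_add _ _ hp]

theorem tw_sum {ι : Type*} (s : Finset ι) (w : ι → ℂ) : tw (∑ i ∈ s, w i) = ∏ i ∈ s, tw (w i) := by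
  classical
  induction s using Finset.induction_on with
  | empty => rw [Finset.sum_empty, Finset.prod_empty, tw_zero]
  | insert i s his ih => rw [Finset.sum_insert his, Finset.prod_insert his, tw_add, ih]

/-- The ring generated by the twists. -/
noncomputable def TW : Subring Dat := Subring.closure (Set.range tw)

theorem tw_mem_TW (w : ℂ) : tw w ∈ TW := Subring.subset_closure ⟨w, rfl⟩

theorem TW_le : TW ≤ BB := by
  refine Subring.closure_le.2 ?_
  rintro _ ⟨w, rfl⟩
  exact tw_mem w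

/-- `Subring.closure_induction` with the property `∀ D, Cont D → Cont (T * D)`. -/
theorem Cont.mul_TW {T : Dat} (hT : T ∈ TW) : ∀ {D : Dat}, Cont D → Cont (T * D) := by
  refine Subring.closure_induction (p := fun T _ => ∀ {D : Dat}, Cont D → Cont (T * D))
    ?_ ?_ ?_ ?_ ?_ ?_ hT
  · rintro _ ⟨w, rfl⟩ D hD
    exact hD.tw w
  · intro D _
    rw [zero_mul]
    exact cont_zero
  · intro D hD
    rwa [one_mul]
  · intro x y _ _ hx hy D hD
    rw [add_mul]
    exact (hx hD).add (hy hD)
  · intro x _ hx D hD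
    rw [neg_mul]
    exact (hx hD).neg
  · intro x y _ _ hx hy D hD
    rw [mul_assoc]
    exact hx (hy hD)

theorem Op_LL_zsmul (e : ℤ) (D : Dat) (s : ℂ) : LL (e • D) s = e * LL D s := by
  unfold LL
  rw [← tsum_mul_left]
  refine tsum_congr fun p => ?_
  rw [Pi.smul_apply, map_zsmul, zsmul_eq_mul]

theorem Op_LL_sum {ι : Type*} (s : Finset ι) (w : ι → ℂ) (e : ι → ℤ) {D : Dat} (hD : D ∈ BB) :
    (∑ i ∈ s, e i • tw (w i)) * D ∈ BB ∧
    ∃ b : ℝ, ∀ z : ℂ, b < z.re →
      LL ((∑ i ∈ s, e i • tw (w i)) * D) z = ∑ i ∈ s, e i * LL D (z - w i) := by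
  classical
  induction s using Finset.induction_on with
  | empty =>
    refine ⟨?_, 0, fun z _ => ?_⟩
    · rw [Finset.sum_empty, zero_mul]
      exact BB.zero_mem
    · rw [Finset.sum_empty, Finset.sum_empty, zero_mul]
      unfold LL
      simp
  | insert i s his ih =>
    obtain ⟨hB, b, hb⟩ := ih
    have h1 : (∑ j ∈ insert i s, e j • tw (w j)) * D =
        e i • (tw (w i) * D) + (∑ j ∈ s, e j • tw (w j)) * D := by
      rw [Finset.sum_insert his, add_mul, smul_mul_assoc]
    have h2 : e i • (tw (w i) * D) ∈ BB := BB.zsmul_mem (BB.mul_mem (tw_mem (w i)) hD) (e i)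
    obtain ⟨b', hb'⟩ := LL_add h2 hB
    rw [h1]
    refine ⟨BB.add_mem h2 hB, max b b', fun z hz => ?_⟩
    rw [hb' z (lt_of_le_of_lt (le_max_right _ _) hz), hb z (lt_of_le_of_lt (le_max_left _ _) hz),
      Op_LL_zsmul, LL_tw, Finset.sum_insert his]

theorem Op_eta {ι : Type*} (s : Finset ι) (w₀ : ℝ) (w : ι → ℝ) (hw : ∀ i ∈ s, w i < w₀) :
    ∃ η : ℝ, 0 < η ∧ ∀ i ∈ s, w i + η ≤ w₀ := by
  classical
  induction s using Finset.induction_on with
  | empty => exact ⟨1, one_pos, fun i hi => absurd hi (Finset.notMem_empty i)⟩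
  | insert i s his ih =>
    obtain ⟨η, hη, h⟩ := ih fun j hj => hw j (Finset.mem_insert_of_mem hj)
    have hi := hw i (Finset.mem_insert_self i s)
    refine ⟨min η (w₀ - w i), lt_min hη (by linarith), fun j hj => ?_⟩
    rcases Finset.mem_insert.1 hj with rfl | hj
    · have := min_le_right η (w₀ - w j)
      linarith
    · have := min_le_left η (w₀ - w i)
      have := h j hj
      linarith

theorem Op_EE {ι : Type*} (s : Finset ι) (w₀ : ℂ) (w : ι → ℂ) (e : ι → ℤ) {D : Dat} (hD : D ∈ BB) :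
    ∃ b : ℝ, ∀ z : ℂ, b < z.re →
      EE ((tw w₀ + ∑ i ∈ s, e i • tw (w i)) * D) z =
        EE D (z - w₀) * ∏ i ∈ s, EE D (z - w i) ^ (e i) := by
  obtain ⟨hB, b, hb⟩ := Op_LL_sum s w e hD
  obtain ⟨b', hb'⟩ := LL_add (BB.mul_mem (tw_mem w₀) hD) hB
  refine ⟨max b b', fun z hz => ?_⟩
  unfold EE
  rw [add_mul, hb' z (lt_of_le_of_lt (le_max_right _ _) hz),
    hb z (lt_of_le_of_lt (le_max_left _ _) hz), LL_tw, Complex.exp_add, Complex.exp_sum]
  congr 1
  refine Finset.prod_congr rfl fun i _ => ?_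
  rw [Complex.exp_int_mul]

/-- Proof. Let `G = EE D`, analytic without zeros on `b < re s` (`LL_nice`), and let `h` be the
meromorphic continuation of `EE (T * D)`, `T = tw w₀ + ∑ e i • tw (w i)`. For large `re s`:
`h s = G (s - w₀) * ∏ G (s - w i) ^ e i` (`LL_add`, `LL_tw`), hence
`G s = h (s + w₀) * ∏ G (s + w₀ - w i) ^ (- e i)`. Let `η > 0` be the minimum of the
`re (w₀ - w i)`. If `G` has a meromorphic continuation to `x < re s` (agreeing with `G` for large
`re s`), then the right hand side gives one to `x - η < re s`. So there is one to `b - j η < re s`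
for all natural numbers `j`; use `ZT.glue_all`. -/
theorem cont_of_dominated {ι : Type*} (s : Finset ι) (w₀ : ℂ) (w : ι → ℂ) (e : ι → ℤ)
    (hw : ∀ i ∈ s, (w i).re < w₀.re) {D : Dat} (hD : D ∈ BB)
    (h : Cont ((tw w₀ + ∑ i ∈ s, e i • tw (w i)) * D)) : Cont D := by
  obtain ⟨-, b₁, H, hH, hHb⟩ := h
  obtain ⟨b₂, hb₂⟩ := Op_EE s w₀ w e hD
  obtain ⟨η, hη, hηw⟩ := Op_eta s w₀.re (fun i => (w i).re) hw
  obtain ⟨b, -, hdiff⟩ := LL_nice D hD
  have hF : DifferentiableOn ℂ (EE D) {z : ℂ | b < z.re} := hdiff.cexp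
  have hne : ∀ z, EE D z ≠ 0 := fun z => Complex.exp_ne_zero _
  have hopen : IsOpen {z : ℂ | b < z.re} := isOpen_lt continuous_const Complex.continuous_re
  -- the functional equation
  have key : ∀ z : ℂ, max b₁ b₂ < (z + w₀).re →
      EE D z = H (z + w₀) * ∏ i ∈ s, EE D (z + w₀ - w i) ^ (-e i) := by
    intro z hz
    have h1 := hb₂ (z + w₀) (lt_of_le_of_lt (le_max_right _ _) hz)
    rw [hHb (z + w₀) (lt_of_le_of_lt (le_max_left _ _) hz), add_sub_cancel_right] at h1
    rw [h1, mul_assoc, ← Finset.prod_mul_distrib]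
    have h2 : ∏ i ∈ s, EE D (z + w₀ - w i) ^ (e i) * EE D (z + w₀ - w i) ^ (-e i) = 1 := by
      refine Finset.prod_eq_one fun i _ => ?_
      rw [← zpow_add₀ (hne _), add_neg_cancel, zpow_zero]
    rw [h2, mul_one]
  have hstep : ∀ j : ℕ, ∃ (c : ℝ) (g : ℂ → ℂ), MeromorphicOn g {z : ℂ | b - j * η < z.re} ∧
      ∀ z : ℂ, c < z.re → EE D z = g z := by
    intro j
    induction j with
    | zero =>
      refine ⟨b, EE D, ?_, fun z _ => rfl⟩
      intro z hz
      have hz' : z ∈ {z : ℂ | b < z.re} := by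
        have h1 : b - ((0 : ℕ) : ℝ) * η < z.re := hz
        simpa using h1
      exact (hF.analyticAt (hopen.mem_nhds hz')).meromorphicAt
    | succ j ih =>
      obtain ⟨c, g, hg, hc⟩ := ih
      refine ⟨max (max b₁ b₂ - w₀.re) c, fun z => H (z + w₀) *
        ∏ i ∈ s, g (z + w₀ - w i) ^ (-e i), ?_, ?_⟩
      · intro z hz
        have hz' : b - ((j + 1 : ℕ) : ℝ) * η < z.re := hz
        have h1 : MeromorphicAt (fun z => H (z + w₀)) z :=
          (hH (z + w₀)).comp_analyticAt (g := fun z => z + w₀) (by fun_prop)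
        refine h1.mul ?_
        have h2 : (fun z => ∏ i ∈ s, g (z + w₀ - w i) ^ (-e i)) =
            ∏ i ∈ s, fun z => g (z + w₀ - w i) ^ (-e i) := by
          funext z
          rw [Finset.prod_apply]
        rw [h2]
        refine MeromorphicAt.prod fun i hi => ?_
        have h3 : MeromorphicAt g (z + w₀ - w i) := by
          apply hg
          show b - (j : ℝ) * η < (z + w₀ - w i).re
          rw [Complex.sub_re, Complex.add_re]
          have := hηw i hi
          push_cast at hz'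
          linarith
        exact (h3.comp_analyticAt (g := fun z => z + w₀ - w i) (by fun_prop)).zpow (-e i)
      · intro z hz
        have h1 : max b₁ b₂ < (z + w₀).re := by
          have := lt_of_le_of_lt (le_max_left _ _) hz
          rw [Complex.add_re]
          linarith
        rw [key z h1]
        congr 1
        refine Finset.prod_congr rfl fun i hi => ?_
        rw [hc]
        have h2 := lt_of_le_of_lt (le_max_right _ _) hz
        have h3 := hηw i hi
        rw [Complex.sub_re, Complex.add_re]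
        linarith
  obtain ⟨g, hg, hgF⟩ := ZT.glue_all hF (by
    intro x
    obtain ⟨j, hj⟩ := exists_nat_gt ((b - x) / η)
    obtain ⟨c, g, hg, hc⟩ := hstep j
    refine ⟨c, g, hg.mono_set ?_, hc⟩
    intro z hz
    have hz' : x < z.re := hz
    show b - (j : ℝ) * η < z.re
    rw [div_lt_iff₀ hη] at hj
    linarith)
  exact ⟨hD, b, g, hg, hgF⟩

end Pool.Agent.EEA520
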