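import Pool.Agent.W_eea520_h69.BorelA
import Pool.Agent.W_eea520_h69.Op

/-! The set of good twists on a vertical line is a Borel set. -/

set_option autoImplicit false

namespace Pool.Agent.EEA520

open Filter

/-- The sum of finitely many twists. -/
theorem BorelB_LL_sum (A : Finset ℤ) (E : ℤ → Dat) (s : ℂ)
    (h : ∀ a ∈ A, Summable fun p : Pr => Lam (((p : ℕ) : ℂ) ^ (-s)) (E a p)) :
    LL (∑ a ∈ A, E a) s = ∑ a ∈ A, LL (E a) s := by
  unfold LL
  rw [← Summable.tsum_finsetSum h]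
  refine tsum_congr fun p => ?_
  rw [Finset.sum_apply, map_sum]

/-- Twisting a summable series. -/
theorem BorelB_summable (z : ℂ) (D : Dat) (s : ℂ)
    (h : Summable fun p : Pr => Lam (((p : ℕ) : ℂ) ^ (-(s - z))) (D p)) :
    Summable fun p : Pr => Lam (((p : ℕ) : ℂ) ^ (-s)) ((tw z * D) p) := by
  refine h.congr fun p => ?_
  have hp : ((p : ℕ) : ℂ) ≠ 0 := Nat.cast_ne_zero.2 p.2.ne_zero
  have h1 : (tw z * D) p = el (ppow p z) * D p := rfl
  rw [h1, Lam_el_mul]
  have h2 : ((ppow p z : ℂˣ) : ℂ) * ((p : ℕ) : ℂ) ^ (-s) = ((p : ℕ) : ℂ) ^ (-(s - z)) := by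
    have h3 : ((ppow p z : ℂˣ) : ℂ) = ((p : ℕ) : ℂ) ^ z := rfl
    rw [h3, ← Complex.cpow_add _ _ hp]
    congr 1
    ring
  rw [h2]

/-- Proof. For `D ∈ BB` take `b` from `LL_nice`. For `re s > b + a x` the series of
`Lam (p ^ (-s)) ((tw (a (x + t I)) * D a) p) = Lam (p ^ (-(s - a (x + t I)))) (D a p)` converges
(`Lam_el_mul`, as in `LL_tw`), so for `re s` larger than some `b'`, which depends on `x` but not on
`t`, `LL (∑ a ∈ A, tw (a (x + t I)) * D a) s = ∑ a ∈ A, LL (D a) (s - a (x + t I))`. -/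
theorem LL_family (A : Finset ℤ) (D : ℤ → Dat) (hD : ∀ a ∈ A, D a ∈ BB) (x : ℝ) :
    ∃ b : ℝ, (∀ a ∈ A, ∀ t : ℝ, DifferentiableOn ℂ
        (fun s => LL (D a) (s - a * (x + t * Complex.I))) {s : ℂ | b < s.re}) ∧
      (∀ a ∈ A, ∀ s : ℂ, b < s.re →
        Continuous fun t : ℝ => LL (D a) (s - a * (x + t * Complex.I))) ∧
      ∀ (t : ℝ) (s : ℂ), b < s.re →
        LL (∑ a ∈ A, tw ((a : ℂ) * (x + t * Complex.I)) * D a) s =
          ∑ a ∈ A, LL (D a) (s - a * (x + t * Complex.I)) := by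
  have h0 : ∀ a : ℤ, ∃ b : ℝ, a ∈ A →
      (∀ s : ℂ, b < s.re → Summable fun p : Pr => Lam (((p : ℕ) : ℂ) ^ (-s)) (D a p)) ∧
      DifferentiableOn ℂ (LL (D a)) {s : ℂ | b < s.re} := by
    intro a
    by_cases ha : a ∈ A
    · obtain ⟨b, hb⟩ := LL_nice (D a) (hD a ha)
      exact ⟨b, fun _ => hb⟩
    · exact ⟨0, fun h => absurd h ha⟩
  choose β hβ using h0
  obtain ⟨b, hb⟩ := (A.image fun a : ℤ => β a + a * x).exists_le
  have hb' : ∀ a ∈ A, β a + a * x ≤ b := fun a ha => hb _ (Finset.mem_image_of_mem _ ha)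
  have hre : ∀ (a : ℤ) (t : ℝ) (s : ℂ),
      (s - (a : ℂ) * ((x : ℂ) + (t : ℂ) * Complex.I)).re = s.re - a * x := by
    intro a t s
    simp
  have hmem : ∀ a ∈ A, ∀ (t : ℝ) (s : ℂ), b < s.re →
      β a < (s - (a : ℂ) * ((x : ℂ) + (t : ℂ) * Complex.I)).re := by
    intro a ha t s hs
    rw [hre]
    have := hb' a ha
    linarith
  refine ⟨b, ?_, ?_, ?_⟩
  · intro a ha t
    have h1 := (hβ a ha).2
    refine h1.comp (t := {s : ℂ | β a < s.re}) ?_ ?_
    · fun_prop
    · intro s hs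
      exact hmem a ha t s hs
  · intro a ha s hs
    have h1 := (hβ a ha).2.continuousOn
    refine h1.comp_continuous ?_ ?_
    · fun_prop
    · intro t
      exact hmem a ha t s hs
  · intro t s hs
    rw [BorelB_LL_sum]
    · refine Finset.sum_congr rfl fun a ha => ?_
      rw [LL_tw]
    · intro a ha
      exact BorelB_summable _ _ _ ((hβ a ha).1 _ (hmem a ha t s hs))

/-- Take `b` from `LL_family`, `c = b + 2` and `h t z = EE (F t) (c + z)`. By the identity theorem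
(`ZT.mero_fix_half`, `ZT.mero_identity`) `Cont (F t)` is equivalent to the existence of a
meromorphic function `f` with `h t z = f (c + z)` for `‖z‖ < 1`. Use `ZT.measurable_mero`. -/
theorem measurable_twists (A : Finset ℤ) (D : ℤ → Dat) (hD : ∀ a ∈ A, D a ∈ BB) (x : ℝ) :
    MeasurableSet {t : ℝ | Cont (∑ a ∈ A, tw ((a : ℂ) * (x + t * Complex.I)) * D a)} := by
  obtain ⟨b, hdiff, hcont, hsum⟩ := LL_family A D hD x
  have hBB : ∀ t : ℝ, (∑ a ∈ A, tw ((a : ℂ) * (x + t * Complex.I)) * D a) ∈ BB := fun t =>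
    BB.sum_mem fun a ha => BB.mul_mem (tw_mem _) (hD a ha)
  have hVo : IsOpen {s : ℂ | b < s.re} := isOpen_lt continuous_const Complex.continuous_re
  have hU : IsPreconnected {s : ℂ | b < s.re} := (convex_halfSpace_re_gt b).isPreconnected
  have hEE : ∀ t : ℝ, DifferentiableOn ℂ
      (EE (∑ a ∈ A, tw ((a : ℂ) * (x + t * Complex.I)) * D a)) {s : ℂ | b < s.re} := by
    intro t
    have h1 : DifferentiableOn ℂ
        (fun s => Complex.exp (∑ a ∈ A, LL (D a) (s - a * (x + t * Complex.I))))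
        {s : ℂ | b < s.re} :=
      (DifferentiableOn.fun_sum fun a ha => hdiff a ha t).cexp
    refine h1.congr fun s hs => ?_
    unfold EE
    rw [hsum t s hs]
  set c : ℂ := ((b + 2 : ℝ) : ℂ) with hc
  have hcz : ∀ z : ℂ, ‖z‖ < 1 → b < (c + z).re := by
    intro z hz
    have h1 : |z.re| ≤ ‖z‖ := Complex.abs_re_le_norm z
    have h2 := abs_le.1 h1
    rw [Complex.add_re, hc, Complex.ofReal_re]
    linarith
  have hcV : c ∈ {s : ℂ | b < s.re} := by
    have := hcz 0 (by simp)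
    simpa using this
  have h1 : ∀ z, ‖z‖ < 1 → Continuous fun t : ℝ =>
      EE (∑ a ∈ A, tw ((a : ℂ) * (x + t * Complex.I)) * D a) (c + z) := by
    intro z hz
    have h2 : (fun t : ℝ => EE (∑ a ∈ A, tw ((a : ℂ) * (x + t * Complex.I)) * D a) (c + z)) =
        fun t : ℝ => Complex.exp (∑ a ∈ A, LL (D a) (c + z - a * (x + t * Complex.I))) := by
      funext t
      unfold EE
      rw [hsum t _ (hcz z hz)]
    rw [h2]
    exact (continuous_finsetSum A fun a ha => hcont a ha _ (hcz z hz)).cexp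
  have h2 : ∀ t : ℝ, DifferentiableOn ℂ
      (fun z => EE (∑ a ∈ A, tw ((a : ℂ) * (x + t * Complex.I)) * D a) (c + z))
      (Metric.ball 0 1) := by
    intro t
    have h6 : DifferentiableOn ℂ (fun z : ℂ => c + z) (Metric.ball 0 1) := by fun_prop
    have h7 : Set.MapsTo (fun z : ℂ => c + z) (Metric.ball 0 1) {s : ℂ | b < s.re} := by
      intro z hz
      exact hcz z (by simpa using hz)
    exact DifferentiableOn.comp
      (g := EE (∑ a ∈ A, tw ((a : ℂ) * (x + t * Complex.I)) * D a)) (hEE t) h6 h7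
  have h3 := ZT.measurable_mero (h := fun t z =>
    EE (∑ a ∈ A, tw ((a : ℂ) * (x + t * Complex.I)) * D a) (c + z)) h1 h2 c
  have h4 : {t : ℝ | Cont (∑ a ∈ A, tw ((a : ℂ) * (x + t * Complex.I)) * D a)} =
      {t : ℝ | ∃ f : ℂ → ℂ, Meromorphic f ∧ ∀ z, ‖z‖ < 1 →
        EE (∑ a ∈ A, tw ((a : ℂ) * (x + t * Complex.I)) * D a) (c + z) = f (c + z)} := by
    ext t
    constructor
    · rintro ⟨-, b', g, hg, hb'⟩
      obtain ⟨g', hg', h5⟩ := ZT.mero_fix_half hg (hEE t) hb'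
      exact ⟨g', hg', fun z hz => h5 _ (hcz z hz)⟩
    · rintro ⟨f, hf, h5⟩
      refine ⟨hBB t, b, ?_⟩
      have hFm : MeromorphicOn (EE (∑ a ∈ A, tw ((a : ℂ) * (x + t * Complex.I)) * D a))
          {s : ℂ | b < s.re} := fun s hs =>
        ((hEE t).analyticAt (hVo.mem_nhds hs)).meromorphicAt
      have hloc : f =ᶠ[nhdsWithin c {c}ᶜ]
          EE (∑ a ∈ A, tw ((a : ℂ) * (x + t * Complex.I)) * D a) := by
        apply Filter.Eventually.filter_mono nhdsWithin_le_nhds
        filter_upwards [Metric.ball_mem_nhds c one_pos] with z hz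
        have h6 := h5 (z - c) (by
          rw [Metric.mem_ball, dist_eq_norm] at hz
          exact hz)
        rw [add_sub_cancel] at h6
        exact h6.symm
      have hid := ZT.mero_identity hU (fun s _ => hf s) hFm hcV hloc
      obtain ⟨g', h7, h8, -⟩ := ZT.mero_fix (U := Set.univ) (fun s _ => hf s) hVo
        (Set.subset_univ _) (hEE t) hid
      exact ⟨g', fun s => h7 s (Set.mem_univ s), fun s hs => (h8 s hs).symm⟩
  rw [h4]
  exact h3

end Pool.Agent.EEA520
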