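import Pool.Agent.W_eea520_h69.CrossC
import Pool.Agent.W_eea520_h69.StepL

/-! The difference property. -/

set_option autoImplicit false

namespace Pool.Agent.ZT

open Filter Topology Metric Set Complex

/-- **Difference property.** If `G` is analytic without zeros on a right half plane and all quotients
`G (s + β I) / G s`, `β` real, extend to meromorphic functions on `ℂ`, then so does `G`.
Proof. Replace the `m` by normal forms (`mero_fix_half`), so that the equation holds for `b < re s`.
Let `X` be the set of all `x ≤ b` such that there is `g`, meromorphic on `x < re s`, with `g s = G s`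
for `b < re s`. If `X` is not bounded below, use `glue_all`. Otherwise let `x₀ = sInf X`; by
`glue_half` `x₀ ∈ X`, and `cross`, `step_left`, `mero_fix` give an element of `X` which is smaller
than `x₀`. -/
theorem difference_property {G : ℂ → ℂ} {b : ℝ} (hG : DifferentiableOn ℂ G {s : ℂ | b < s.re})
    (hG0 : ∀ s : ℂ, b < s.re → G s ≠ 0)
    (h : ∀ β : ℝ, ∃ (b' : ℝ) (m : ℂ → ℂ), Meromorphic m ∧
      ∀ s : ℂ, b' < s.re → G (s + β * I) = m s * G s) :
    ∃ g : ℂ → ℂ, Meromorphic g ∧ ∀ s : ℂ, b < s.re → G s = g s := by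
  have hVo : IsOpen {s : ℂ | b < s.re} := isOpen_lt continuous_const Complex.continuous_re
  have h' : ∀ β : ℝ, ∃ m : ℂ → ℂ, Meromorphic m ∧
      ∀ s : ℂ, b < s.re → G (s + β * I) = m s * G s := by
    intro β
    obtain ⟨b', m, hm, hms⟩ := h β
    have hsh : ∀ s : ℂ, (s + β * I).re = s.re := by
      intro s
      simp
    have hF : DifferentiableOn ℂ (fun s => G (s + β * I) / G s) {s : ℂ | b < s.re} := by
      refine DifferentiableOn.div ?_ hG (fun s hs => hG0 s hs)
      refine hG.comp (DifferentiableOn.add_const _ differentiableOn_id) ?_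
      intro s hs
      show b < (s + β * I).re
      rw [hsh]
      exact hs
    obtain ⟨m', h1, h2⟩ := mero_fix_half (b' := max b b') hm hF (by
      intro s hs
      have hb : b < s.re := lt_of_le_of_lt (le_max_left _ _) hs
      have hb' : b' < s.re := lt_of_le_of_lt (le_max_right _ _) hs
      show G (s + β * I) / G s = m s
      rw [hms s hb', mul_div_assoc, div_self (hG0 s hb), mul_one])
    refine ⟨m', h1, fun s hs => ?_⟩
    rw [← h2 s hs, div_mul_cancel₀ _ (hG0 s hs)]
  choose m hmm hm using h'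
  have hGm : MeromorphicOn G {s : ℂ | b < s.re} := fun s hs =>
    (hG.analyticAt (hVo.mem_nhds hs)).meromorphicAt
  obtain ⟨X, hX⟩ : ∃ X : Set ℝ, X = {x : ℝ | x ≤ b ∧ ∃ g : ℂ → ℂ,
      MeromorphicOn g {s : ℂ | x < s.re} ∧ ∀ s : ℂ, b < s.re → g s = G s} := ⟨_, rfl⟩
  have hbX : b ∈ X := by
    rw [hX]
    exact ⟨le_rfl, G, hGm, fun s _ => rfl⟩
  by_cases hbd : BddBelow X
  · exfalso
    obtain ⟨g, hg, hgG⟩ := glue_half (x₀ := sInf X) hG (by
      intro x hx
      obtain ⟨x', hx'X, hx'x⟩ := exists_lt_of_csInf_lt ⟨b, hbX⟩ hx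
      rw [hX] at hx'X
      obtain ⟨_, g, hg, hgG⟩ := hx'X
      exact ⟨b, g, fun s hs => hg s (lt_trans hx'x hs), fun s hs => (hgG s hs).symm⟩)
    have hx0b : sInf X ≤ b := csInf_le hbd hbX
    have hgG' : ∀ s : ℂ, b < s.re → g s = G s := fun s hs =>
      (hgG s hs (lt_of_le_of_lt hx0b hs)).symm
    obtain ⟨s₁, r, V, hs₁, hr, hV, hVG⟩ := cross hx0b hG hG0 hmm hm hg hgG'
    obtain ⟨x', hx', g', hg', hg'g⟩ := step_left hG0 hmm hm hg hgG' hs₁ hr hV hVG
    obtain ⟨g'', h1, h2, -⟩ := mero_fix (U := {s : ℂ | x' < s.re}) hg' hVo (by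
      intro s hs
      exact lt_of_lt_of_le hx' (le_trans hx0b (le_of_lt hs))) hG (by
      intro s hs
      have e1 := hg'g s (lt_of_le_of_lt hx0b hs)
      have e2 : g =ᶠ[𝓝[≠] s] G := by
        apply Filter.Eventually.filter_mono nhdsWithin_le_nhds
        filter_upwards [hVo.mem_nhds hs] with z hz
        exact hgG' z hz
      exact e1.trans e2)
    have hx'X : x' ∈ X := by
      rw [hX]
      exact ⟨le_trans hx'.le hx0b, g'', h1, fun s hs => h2 s hs⟩
    exact absurd (csInf_le hbd hx'X) (not_le.2 hx')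
  · refine glue_all hG ?_
    intro x
    rw [not_bddBelow_iff] at hbd
    obtain ⟨x', hx'X, hx'x⟩ := hbd x
    rw [hX] at hx'X
    obtain ⟨_, g, hg, hgG⟩ := hx'X
    exact ⟨b, g, fun s hs => hg s (lt_trans hx'x hs), fun s hs => (hgG s hs).symm⟩

end Pool.Agent.ZT
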