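import Pool.Agent.W_eea520_h69.BorelB
import Pool.Agent.W_eea520_h69.Diff

/-! Category and measure on vertical lines. -/

set_option autoImplicit false

namespace Pool.Agent.EEA520

open Filter Topology MeasureTheory

/-- `EE ((tw w - 1) * D) s = EE D (s - w) / EE D s` for large `re s`. -/
theorem CatA_EE {D : Dat} (hD : D ∈ BB) (w : ℂ) : ∃ b : ℝ, ∀ s : ℂ, b < s.re →
    EE D (s - w) = EE ((tw w - 1) * D) s * EE D s := by
  obtain ⟨b, hb⟩ := LL_add (BB.mul_mem (tw_mem w) hD) (BB.neg_mem hD)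
  refine ⟨b, fun s hs => ?_⟩
  have h1 := hb s hs
  have h2 : (tw w - 1) * D = tw w * D + -D := by
    rw [sub_mul, one_mul, sub_eq_add_neg]
  unfold EE
  rw [h2, h1, LL_tw, LL_neg, ← Complex.exp_add]
  congr 1
  ring

/-- `ZT.difference_property` for `G = EE D`:
`EE ((tw (-β I) - 1) * D) s = EE D (s + β I) / EE D s` for large `re s` (`LL_add`, `LL_neg`,
`LL_tw`). -/
theorem cont_of_all {D : Dat} (hD : D ∈ BB)
    (h : ∀ β : ℝ, Cont ((tw (β * Complex.I) - 1) * D)) : Cont D := by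
  obtain ⟨b, _, hb⟩ := LL_nice D hD
  have hG : DifferentiableOn ℂ (EE D) {s : ℂ | b < s.re} := hb.cexp
  have hG0 : ∀ s : ℂ, b < s.re → EE D s ≠ 0 := fun s _ => Complex.exp_ne_zero _
  obtain ⟨g, hg, hgb⟩ := ZT.difference_property hG hG0 (by
    intro β
    obtain ⟨_, b1, m, hm, hmb⟩ := h (-β)
    obtain ⟨b2, hb2⟩ := CatA_EE hD (((-β : ℝ) : ℂ) * Complex.I)
    refine ⟨max b1 b2, m, hm, fun s hs => ?_⟩
    rw [← hmb s (lt_of_le_of_lt (le_max_left _ _) hs),
      ← hb2 s (lt_of_le_of_lt (le_max_right _ _) hs)]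
    congr 1
    push_cast
    ring)
  exact ⟨hD, b, g, hg, hgb⟩

/-- The real numbers `β` with `Cont ((tw (β I) - 1) * D)` are a subgroup:
`tw (β + β') - 1 = tw β * (tw β' - 1) + (tw β - 1)`. -/
theorem exists_subgroup {D : Dat} (hD : D ∈ BB) : ∃ H : AddSubgroup ℝ, ∀ β : ℝ,
    β ∈ H ↔ Cont ((tw (β * Complex.I) - 1) * D) := by
  refine ⟨{ carrier := {β : ℝ | Cont ((tw (β * Complex.I) - 1) * D)}
            add_mem' := ?_
            zero_mem' := ?_
            neg_mem' := ?_ }, fun β => Iff.rfl⟩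
  · intro β β' hβ hβ'
    have h1 := (hβ'.tw ((β : ℂ) * Complex.I)).add hβ
    have h2 : (tw (((β + β' : ℝ) : ℂ) * Complex.I) - 1) * D =
        tw ((β : ℂ) * Complex.I) * ((tw ((β' : ℂ) * Complex.I) - 1) * D) +
          (tw ((β : ℂ) * Complex.I) - 1) * D := by
      have h3 : ((β + β' : ℝ) : ℂ) * Complex.I = (β : ℂ) * Complex.I + (β' : ℂ) * Complex.I := by
        push_cast
        ring
      rw [h3, tw_add]
      ring
    show Cont _
    rw [h2]
    exact h1
  · show Cont _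
    have h1 : ((0 : ℝ) : ℂ) * Complex.I = 0 := by simp
    rw [h1, tw_zero, sub_self, zero_mul]
    exact cont_zero
  · intro β hβ
    have h1 := (hβ.tw (-((β : ℂ) * Complex.I))).neg
    have h2 : (tw (((-β : ℝ) : ℂ) * Complex.I) - 1) * D =
        -(tw (-((β : ℂ) * Complex.I)) * ((tw ((β : ℂ) * Complex.I) - 1) * D)) := by
      have h3 : ((-β : ℝ) : ℂ) * Complex.I = -((β : ℂ) * Complex.I) := by
        push_cast
        ring
      have h4 := tw_neg_mul ((β : ℂ) * Complex.I) D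
      rw [h3, sub_mul, sub_mul, mul_sub, h4, one_mul]
      ring
    show Cont _
    rw [h2]
    exact h1

/-- A subgroup of `ℝ` which is a neighbourhood of zero is `ℝ`; `cont_of_all`. -/
theorem cont_of_nhds {D : Dat} (hD : D ∈ BB)
    (h : ∀ᶠ β : ℝ in 𝓝 0, Cont ((tw (β * Complex.I) - 1) * D)) : Cont D := by
  obtain ⟨H, hH⟩ := exists_subgroup hD
  refine cont_of_all hD fun β => (hH β).1 ?_
  obtain ⟨ε, hε, hball⟩ := Metric.eventually_nhds_iff.1 h
  obtain ⟨N, hN⟩ := exists_nat_gt (|β| / ε)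
  have hN0 : (0 : ℝ) < N := lt_of_le_of_lt (div_nonneg (abs_nonneg β) hε.le) hN
  have h1 : β / N ∈ H := by
    rw [hH]
    apply hball
    rw [Real.dist_eq, sub_zero, abs_div, abs_of_pos hN0, div_lt_iff₀ hN0, mul_comm]
    rwa [div_lt_iff₀ hε] at hN
  have h2 := H.nsmul_mem h1 N
  rw [nsmul_eq_mul, mul_div_cancel₀ _ hN0.ne'] at h2
  exact h2

open scoped Pointwise in
/-- A subgroup of `ℝ` which contains a measurable set of positive measure is a neighbourhood of zero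
(Steinhaus, `MeasureTheory.Measure.sub_mem_nhds_zero_of_addHaar_pos` or similar). -/
theorem cont_of_pos {D : Dat} (hD : D ∈ BB) {S : Set ℝ} (hS : MeasurableSet S)
    (hS' : volume S ≠ 0) (h : ∀ β ∈ S, Cont ((tw (β * Complex.I) - 1) * D)) : Cont D := by
  obtain ⟨H, hH⟩ := exists_subgroup hD
  have h1 : S - S ∈ 𝓝 (0 : ℝ) :=
    MeasureTheory.Measure.sub_mem_nhds_zero_of_addHaar_pos volume S hS (pos_iff_ne_zero.2 hS')
  apply cont_of_nhds hD
  filter_upwards [h1] with β hβ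
  obtain ⟨x, hx, y, hy, rfl⟩ := Set.mem_sub.1 hβ
  rw [← hH]
  exact H.sub_mem ((hH x).2 (h x hx)) ((hH y).2 (h y hy))

/-- The algebraic step: if `F (x + t I)` and `F (x + (t + α) I)` satisfy `Cont`, then so does
`F' (x + t I)`, where `F z = ∑ a ∈ A, tw (a z) * D a` and
`F' z = ∑ a ∈ A.erase k, tw (a z) * ((tw (a α I) - tw (k α I)) * D a)`:
`F' (x + t I) = F (x + (t + α) I) - tw (k α I) * F (x + t I)`. -/
theorem cont_step (A : Finset ℤ) (D : ℤ → Dat) (k : ℤ) (x t α : ℝ)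
    (h : Cont (∑ a ∈ A, tw ((a : ℂ) * (x + t * Complex.I)) * D a))
    (h' : Cont (∑ a ∈ A, tw ((a : ℂ) * (x + (t + α : ℝ) * Complex.I)) * D a)) :
    Cont (∑ a ∈ A.erase k, tw ((a : ℂ) * (x + t * Complex.I)) *
      ((tw ((a : ℂ) * (α * Complex.I)) - tw ((k : ℂ) * (α * Complex.I))) * D a)) := by
  have h1 := h'.sub (h.tw ((k : ℂ) * (α * Complex.I)))
  have h2 : ∀ a : ℤ, tw ((a : ℂ) * (x + (t + α : ℝ) * Complex.I)) * D a -
      tw ((k : ℂ) * (α * Complex.I)) * (tw ((a : ℂ) * (x + t * Complex.I)) * D a) =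
      tw ((a : ℂ) * (x + t * Complex.I)) *
        ((tw ((a : ℂ) * (α * Complex.I)) - tw ((k : ℂ) * (α * Complex.I))) * D a) := by
    intro a
    have h3 : (a : ℂ) * (x + (t + α : ℝ) * Complex.I) =
        (a : ℂ) * (x + t * Complex.I) + (a : ℂ) * (α * Complex.I) := by
      push_cast
      ring
    rw [h3, tw_add]
    ring
  rw [Finset.mul_sum, ← Finset.sum_sub_distrib, Finset.sum_congr rfl fun a _ => h2 a] at h1
  rw [Finset.sum_erase]
  · exact h1
  · rw [sub_self, zero_mul, mul_zero]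

end Pool.Agent.EEA520
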