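import Pool.Agent.W_eea520_h69.CompA

/-! Polynomials and power series, continued. -/

set_option autoImplicit false

namespace Pool.Agent.ZT

open Filter Topology Metric Set

/-- A power series is holomorphic in its disc of convergence. -/
theorem differentiableOn_ev {N : ℕ} {R : ℝ} (hR : 0 < R) {u : ℕ → ℂ} (hu : u ∈ UU N R) :
    DifferentiableOn ℂ (ev u) (ball 0 R) := by
  intro z hz
  rw [mem_ball_zero_iff] at hz
  obtain ⟨R', h1, h2⟩ := exists_between hz
  have hR' : 0 ≤ R' := le_trans (norm_nonneg _) h1.le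
  have hsum : Summable fun n : ℕ => (N : ℝ) * (R' / R) ^ n := by
    apply Summable.mul_left
    exact summable_geometric_of_lt_one (div_nonneg hR' hR.le) ((div_lt_one hR).mpr h2)
  have h3 : DifferentiableOn ℂ (fun w : ℂ => ∑' n : ℕ, u n * w ^ n) (ball 0 R') := by
    apply Complex.differentiableOn_tsum_of_summable_norm hsum
    · intro n
      exact ((differentiable_const _).mul (differentiable_id.pow n)).differentiableOn
    · exact isOpen_ball
    · intro n w hw
      rw [mem_ball_zero_iff] at hw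
      rw [norm_mul, norm_pow]
      calc ‖u n‖ * ‖w‖ ^ n ≤ (N * (R⁻¹) ^ n) * R' ^ n :=
            mul_le_mul (hu n) (pow_le_pow_left₀ (norm_nonneg _) hw.le n) (by positivity)
              (by positivity)
        _ = (N : ℝ) * (R' / R) ^ n := by
            rw [div_eq_mul_inv, mul_pow]
            ring
  exact (h3.differentiableAt (isOpen_ball.mem_nhds (mem_ball_zero_iff.mpr h1))).differentiableWithinAt

theorem differentiable_ev_QQ {d : ℕ} {q : ℕ → ℂ} (hq : q ∈ QQ d) : Differentiable ℂ (ev q) := by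
  have h1 : ev q = fun z => ∑ j ∈ Finset.range d, q j * z ^ j := by
    funext z
    exact ev_QQ hq.2.1 z
  rw [h1]
  apply Differentiable.fun_sum
  intro j _
  exact (differentiable_const _).mul (differentiable_id.pow j)

/-- The zeros of a nonzero polynomial. -/
theorem finite_zeros {d : ℕ} {q : ℕ → ℂ} (hq : q ∈ QQ d) : {z : ℂ | ev q z = 0}.Finite := by
  obtain ⟨_, h2, j, hj, hj1⟩ := hq
  set P : Polynomial ℂ := ∑ j ∈ Finset.range d, Polynomial.C (q j) * Polynomial.X ^ j with hP
  have hP0 : P ≠ 0 := by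
    intro h
    have h3 : P.coeff j = q j := by
      rw [hP, Polynomial.finsetSum_coeff]
      simp only [Polynomial.coeff_C_mul, Polynomial.coeff_X_pow, mul_ite, mul_one, mul_zero]
      rw [Finset.sum_ite_eq, if_pos (Finset.mem_range.mpr hj)]
    rw [h, Polynomial.coeff_zero] at h3
    rw [← h3, norm_zero] at hj1
    exact zero_ne_one hj1
  apply (P.roots.toFinset.finite_toSet).subset
  intro z hz
  have hz' : ev q z = 0 := hz
  rw [ev_QQ h2] at hz'
  rw [Finset.mem_coe, Multiset.mem_toFinset, Polynomial.mem_roots hP0, Polynomial.IsRoot.def, hP,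
    Polynomial.eval_finsetSum]
  simpa using hz'

/-- Normalisation of a nonzero polynomial: divide by the maximal modulus of the coefficients. -/
theorem exists_QQ (P : Polynomial ℂ) (hP : P ≠ 0) :
    ∃ (c : ℂ) (q : ℕ → ℂ), c ≠ 0 ∧ q ∈ QQ (P.natDegree + 1) ∧ ∀ z, ev q z = c * P.eval z := by
  obtain ⟨j0, hj0, hmax⟩ := Finset.exists_max_image (Finset.range (P.natDegree + 1))
    (fun j => ‖P.coeff j‖) ⟨0, Finset.mem_range.mpr (Nat.succ_pos _)⟩
  have hlead : P.coeff P.natDegree ≠ 0 := by
    rw [Polynomial.coeff_natDegree]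
    exact Polynomial.leadingCoeff_ne_zero.mpr hP
  have hM : 0 < ‖P.coeff j0‖ :=
    lt_of_lt_of_le (norm_pos_iff.mpr hlead)
      (hmax P.natDegree (Finset.mem_range.mpr (Nat.lt_succ_self _)))
  have hc : (((‖P.coeff j0‖)⁻¹ : ℝ) : ℂ) ≠ 0 := by
    rw [Complex.ofReal_ne_zero]
    exact inv_ne_zero hM.ne'
  have hcn : ‖(((‖P.coeff j0‖)⁻¹ : ℝ) : ℂ)‖ = (‖P.coeff j0‖)⁻¹ := by
    rw [Complex.norm_real, Real.norm_of_nonneg (by positivity)]
  have hz : ∀ j, P.natDegree + 1 ≤ j → (((‖P.coeff j0‖)⁻¹ : ℝ) : ℂ) * P.coeff j = 0 := by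
    intro j hj
    rw [Polynomial.coeff_eq_zero_of_natDegree_lt (n := j) (by omega), mul_zero]
  refine ⟨(((‖P.coeff j0‖)⁻¹ : ℝ) : ℂ), fun j => (((‖P.coeff j0‖)⁻¹ : ℝ) : ℂ) * P.coeff j, hc,
    ⟨?_, hz, j0, Finset.mem_range.mp hj0, ?_⟩, ?_⟩
  · intro j
    rw [norm_mul, hcn]
    by_cases hj : j < P.natDegree + 1
    · have := hmax j (Finset.mem_range.mpr hj)
      rw [inv_mul_le_iff₀ hM, mul_one]
      exact this
    · rw [Polynomial.coeff_eq_zero_of_natDegree_lt (n := j) (by omega), norm_zero, mul_zero]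
      exact zero_le_one
  · rw [norm_mul, hcn]
    exact inv_mul_cancel₀ hM.ne'
  · intro z
    rw [ev_QQ hz, Polynomial.eval_eq_sum_range, Finset.mul_sum]
    apply Finset.sum_congr rfl
    intro j _
    ring

/-- Cauchy estimates: a holomorphic function on a neighbourhood of the closed disc of radius `R` is
the sum of a power series with coefficients bounded by `N R⁻ⁿ`
(`Complex.hasSum_taylorSeries_on_ball` or `DifferentiableOn.hasFPowerSeriesOnBall`, and
`Complex.norm_iteratedDeriv_le_of_forall_mem_sphere_norm_le`). -/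
theorem exists_UU {U : ℂ → ℂ} {R : ℝ} (hR : 0 < R) (hU : ∀ z ∈ closedBall (0 : ℂ) R,
    DifferentiableAt ℂ U z) : ∃ N : ℕ, ∃ u ∈ UU N R, ∀ z ∈ ball (0 : ℂ) R, ev u z = U z := by
  have hcl : DifferentiableOn ℂ U (closedBall 0 R) := fun z hz => (hU z hz).differentiableWithinAt
  have hdc : DiffContOnCl ℂ U (ball 0 R) := hcl.diffContOnCl_ball subset_rfl
  have hball : DifferentiableOn ℂ U (ball 0 R) := hcl.mono ball_subset_closedBall
  obtain ⟨C, hC⟩ := (isCompact_sphere (0 : ℂ) R).exists_bound_of_continuousOn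
    (hcl.continuousOn.mono sphere_subset_closedBall)
  obtain ⟨N, hN⟩ := exists_nat_ge C
  refine ⟨N, fun n => (n.factorial : ℂ)⁻¹ * iteratedDeriv n U 0, ?_, ?_⟩
  · intro n
    have h1 := Complex.norm_iteratedDeriv_le_of_forall_mem_sphere_norm_le (c := 0) n hR hdc
      (C := (N : ℝ)) (fun z hz => le_trans (hC z hz) hN)
    rw [norm_mul, norm_inv, Complex.norm_natCast]
    have hf : (0 : ℝ) < n.factorial := by exact_mod_cast Nat.factorial_pos n
    rw [inv_mul_le_iff₀ hf]
    calc ‖iteratedDeriv n U 0‖ ≤ n.factorial * N / R ^ n := h1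
      _ = n.factorial * (N * (R⁻¹) ^ n) := by
          rw [inv_pow, div_eq_mul_inv]
          ring
  · intro z hz
    have h1 := Complex.taylorSeries_eq_on_ball' hz hball
    unfold ev
    rw [← h1]
    simp only [sub_zero]

end Pool.Agent.ZT
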