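import Mathlib

/-! Compact sets of polynomials and power series. -/

set_option autoImplicit false

namespace Pool.Agent.ZT

open Filter Topology Metric Set

/-- The coefficients of a polynomial of degree `< d` with coefficients of maximal modulus one. -/
def QQ (d : ℕ) : Set (ℕ → ℂ) :=
  {q | (∀ j, ‖q j‖ ≤ 1) ∧ (∀ j, d ≤ j → q j = 0) ∧ ∃ j < d, ‖q j‖ = 1}

/-- Power series with coefficients bounded by `N R⁻ⁿ`. -/
def UU (N : ℕ) (R : ℝ) : Set (ℕ → ℂ) := {u | ∀ n, ‖u n‖ ≤ N * (R⁻¹) ^ n}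

/-- The sum of a power series. -/
noncomputable def ev (u : ℕ → ℂ) (z : ℂ) : ℂ := ∑' n, u n * z ^ n

/-- `QQ d` is closed (the last condition is a finite union of closed conditions) and contained in
the compact set `∏ closedBall 0 1` (`isCompact_univ_pi`). -/
theorem isCompact_QQ (d : ℕ) : IsCompact (QQ d) := by
  have hK : IsCompact (Set.pi univ (fun _ : ℕ => closedBall (0 : ℂ) 1)) :=
    isCompact_univ_pi fun _ => isCompact_closedBall 0 1
  have hc : ∀ j : ℕ, Continuous (fun q : ℕ → ℂ => ‖q j‖) := fun j =>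
    (continuous_apply j).norm
  have h1 : IsClosed {q : ℕ → ℂ | ∀ j, ‖q j‖ ≤ 1} := by
    have : {q : ℕ → ℂ | ∀ j, ‖q j‖ ≤ 1} = ⋂ j, {q : ℕ → ℂ | ‖q j‖ ≤ 1} := by
      ext q
      simp
    rw [this]
    exact isClosed_iInter fun j => isClosed_le (hc j) continuous_const
  have h2 : IsClosed {q : ℕ → ℂ | ∀ j, d ≤ j → q j = 0} := by
    have : {q : ℕ → ℂ | ∀ j, d ≤ j → q j = 0} = ⋂ j, ⋂ _ : d ≤ j, {q : ℕ → ℂ | q j = 0} := by
      ext q
      simp
    rw [this]
    exact isClosed_iInter fun j => isClosed_iInter fun _ =>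
      isClosed_eq (continuous_apply j) continuous_const
  have h3 : IsClosed {q : ℕ → ℂ | ∃ j < d, ‖q j‖ = 1} := by
    have : {q : ℕ → ℂ | ∃ j < d, ‖q j‖ = 1} =
        ⋃ j ∈ Finset.range d, {q : ℕ → ℂ | ‖q j‖ = 1} := by
      ext q
      simp
    rw [this]
    exact isClosed_biUnion_finset fun j _ => isClosed_eq (hc j) continuous_const
  have hQ : QQ d = {q : ℕ → ℂ | ∀ j, ‖q j‖ ≤ 1} ∩ ({q : ℕ → ℂ | ∀ j, d ≤ j → q j = 0} ∩
      {q : ℕ → ℂ | ∃ j < d, ‖q j‖ = 1}) := rfl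
  refine hK.of_isClosed_subset (by rw [hQ]; exact h1.inter (h2.inter h3)) ?_
  intro q hq j _
  rw [mem_closedBall_zero_iff]
  exact hq.1 j

theorem isCompact_UU (N : ℕ) (R : ℝ) : IsCompact (UU N R) := by
  have h : UU N R = Set.pi univ (fun n : ℕ => closedBall (0 : ℂ) (N * (R⁻¹) ^ n)) := by
    ext u
    simp [UU]
  rw [h]
  exact isCompact_univ_pi fun _ => isCompact_closedBall 0 _

theorem ev_QQ {d : ℕ} {q : ℕ → ℂ} (hq : ∀ j, d ≤ j → q j = 0) (z : ℂ) :
    ev q z = ∑ j ∈ Finset.range d, q j * z ^ j := by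
  unfold ev
  refine tsum_eq_sum fun j hj => ?_
  rw [hq j (by simpa using hj), zero_mul]

theorem continuousOn_ev_QQ (d : ℕ) :
    ContinuousOn (fun x : (ℕ → ℂ) × ℂ => ev x.1 x.2) (QQ d ×ˢ univ) := by
  have h : Continuous (fun x : (ℕ → ℂ) × ℂ => ∑ j ∈ Finset.range d, x.1 j * x.2 ^ j) := by
    refine continuous_finsetSum _ fun j _ => ?_
    exact ((continuous_apply j).comp continuous_fst).mul (continuous_snd.pow j)
  refine h.continuousOn.congr ?_
  intro x hx
  exact ev_QQ hx.1.2.1 x.2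

/-- `continuousOn_tsum` with the bound `N (R' / R) ^ n`. -/
theorem continuousOn_ev_UU (N : ℕ) {R R' : ℝ} (h0 : 0 ≤ R') (hR : R' < R) :
    ContinuousOn (fun x : (ℕ → ℂ) × ℂ => ev x.1 x.2) (UU N R ×ˢ closedBall 0 R') := by
  have hR0 : 0 < R := lt_of_le_of_lt h0 hR
  unfold ev
  refine continuousOn_tsum (u := fun n => (N : ℝ) * (R' / R) ^ n) ?_ ?_ ?_
  · intro n
    exact (((continuous_apply n).comp continuous_fst).mul (continuous_snd.pow n)).continuousOn
  · refine Summable.mul_left _ (summable_geometric_of_lt_one (by positivity) ?_)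
    rw [div_lt_one hR0]
    exact hR
  · intro n x hx
    have h1 : ‖x.1 n‖ ≤ N * (R⁻¹) ^ n := hx.1 n
    have h2 : ‖x.2‖ ≤ R' := by
      rw [← mem_closedBall_zero_iff]
      exact hx.2
    rw [norm_mul, norm_pow]
    calc ‖x.1 n‖ * ‖x.2‖ ^ n ≤ (N * (R⁻¹) ^ n) * R' ^ n :=
          mul_le_mul h1 (pow_le_pow_left₀ (norm_nonneg _) h2 n) (by positivity) (by positivity)
      _ = (N : ℝ) * (R' / R) ^ n := by
          rw [div_eq_mul_inv, mul_pow]
          ring

end Pool.Agent.ZT
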