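import Mathlib

/-! Integrals and primitives of families of holomorphic functions. -/

set_option autoImplicit false

namespace Pool.Agent.ZT

open Filter Topology Metric Set Complex

/-- measurability of the derivative in the parameter -/
theorem Prim_meas {k : ℝ → ℂ → ℂ} {δ : ℝ} {s₁ : ℂ} {r : ℝ}
    (hk : ContinuousOn (fun x : ℝ × ℂ => k x.1 x.2) (Icc 0 δ ×ˢ closedBall s₁ r))
    (hd : ∀ γ ∈ Icc 0 δ, DifferentiableOn ℂ (k γ) (ball s₁ r)) {s₀ : ℂ} {ρ : ℝ} (hρ : 0 < ρ)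
    (hs₀ : closedBall s₀ ρ ⊆ ball s₁ r) :
    MeasureTheory.AEStronglyMeasurable (fun t => deriv (k t) s₀)
      (MeasureTheory.volume.restrict (Ioc 0 δ)) := by
  have hcont : ∀ s ∈ closedBall s₁ r, ContinuousOn (fun γ => k γ s) (Icc 0 δ) := by
    intro s hs
    refine hk.comp (f := fun γ : ℝ => (γ, s)) (by fun_prop) ?_
    intro γ hγ
    exact ⟨hγ, hs⟩
  have hmem : ∀ n : ℕ, s₀ + ((ρ / ((n : ℝ) + 1) : ℝ) : ℂ) ∈ closedBall s₀ ρ := by
    intro n
    have hn : (0 : ℝ) < (n : ℝ) + 1 := by positivity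
    rw [mem_closedBall, dist_eq_norm, add_sub_cancel_left, Complex.norm_real, Real.norm_eq_abs,
      abs_of_nonneg (by positivity), div_le_iff₀ hn]
    nlinarith [Nat.cast_nonneg (α := ℝ) n]
  have hm0 : s₀ ∈ closedBall s₀ ρ := mem_closedBall_self hρ.le
  have hsub : closedBall s₀ ρ ⊆ closedBall s₁ r := hs₀.trans ball_subset_closedBall
  refine aestronglyMeasurable_of_tendsto_ae atTop
    (f := fun (n : ℕ) (t : ℝ) => ((ρ / ((n : ℝ) + 1) : ℝ) : ℂ)⁻¹ •
      (k t (s₀ + ((ρ / ((n : ℝ) + 1) : ℝ) : ℂ)) - k t s₀)) ?_ ?_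
  · intro n
    have h1 : ContinuousOn (fun t : ℝ => ((ρ / ((n : ℝ) + 1) : ℝ) : ℂ)⁻¹ •
        (k t (s₀ + ((ρ / ((n : ℝ) + 1) : ℝ) : ℂ)) - k t s₀)) (Icc 0 δ) :=
      ((hcont _ (hsub (hmem n))).sub (hcont _ (hsub hm0))).const_smul
        (((ρ / ((n : ℝ) + 1) : ℝ) : ℂ)⁻¹)
    exact (h1.mono Ioc_subset_Icc_self).aestronglyMeasurable measurableSet_Ioc
  · refine (MeasureTheory.ae_restrict_iff' measurableSet_Ioc).2 (Filter.Eventually.of_forall ?_)
    intro t ht
    have h2 : HasDerivAt (k t) (deriv (k t) s₀) s₀ :=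
      ((hd t (Ioc_subset_Icc_self ht)).differentiableAt
        (isOpen_ball.mem_nhds (hs₀ hm0))).hasDerivAt
    refine h2.tendsto_slope_zero.comp ?_
    rw [tendsto_nhdsWithin_iff]
    constructor
    · have h3 : Tendsto (fun n : ℕ => ρ / ((n : ℝ) + 1)) atTop (𝓝 0) := by
        have h4 := (tendsto_one_div_add_atTop_nhds_zero_nat (𝕜 := ℝ)).const_mul ρ
        rw [mul_zero] at h4
        refine h4.congr fun n => ?_
        ring
      have h5 := (Complex.continuous_ofReal.tendsto 0).comp h3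
      rwa [Complex.ofReal_zero] at h5
    · refine Filter.Eventually.of_forall fun n => ?_
      rw [mem_compl_iff, mem_singleton_iff, Complex.ofReal_eq_zero]
      have hn : (0 : ℝ) < (n : ℝ) + 1 := by positivity
      exact (div_pos hρ hn).ne'

/-- The integral of a jointly continuous family of holomorphic functions is holomorphic
(`hasDerivAt_integral_of_dominated_loc_of_deriv_le` with the Cauchy estimate for the derivative on
smaller discs, or Morera's theorem `isConservativeOn_and_continuousOn_iff_isDifferentiableOn` and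
Fubini). -/
theorem differentiableOn_integral {k : ℝ → ℂ → ℂ} {δ : ℝ} (hδ : 0 ≤ δ) {s₁ : ℂ} {r : ℝ}
    (hk : ContinuousOn (fun x : ℝ × ℂ => k x.1 x.2) (Icc 0 δ ×ˢ closedBall s₁ r))
    (hd : ∀ γ ∈ Icc 0 δ, DifferentiableOn ℂ (k γ) (ball s₁ r)) :
    DifferentiableOn ℂ (fun s => ∫ γ in (0 : ℝ)..δ, k γ s) (ball s₁ r) := by
  intro s₀ hs₀
  have hcont : ∀ s ∈ closedBall s₁ r, ContinuousOn (fun γ => k γ s) (Icc 0 δ) := by
    intro s hs
    refine hk.comp (f := fun γ : ℝ => (γ, s)) (by fun_prop) ?_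
    intro γ hγ
    exact ⟨hγ, hs⟩
  have hlt : dist s₀ s₁ < r := mem_ball.1 hs₀
  obtain ⟨ρ, hρdef⟩ : ∃ ρ : ℝ, ρ = (r - dist s₀ s₁) / 3 := ⟨_, rfl⟩
  have hρ : 0 < ρ := by rw [hρdef]; linarith
  have hsub : ∀ s ∈ ball s₀ ρ, closedBall s ρ ⊆ ball s₁ r := by
    intro s hs z hz
    rw [mem_ball] at hs ⊢
    rw [mem_closedBall] at hz
    have h1 := dist_triangle z s s₁
    have h2 := dist_triangle s s₀ s₁
    rw [hρdef] at hs hz
    linarith
  obtain ⟨M, hM⟩ := (isCompact_Icc.prod (isCompact_closedBall s₁ r)).exists_bound_of_continuousOn hk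
  have key := intervalIntegral.hasDerivAt_integral_of_dominated_loc_of_deriv_le
    (μ := MeasureTheory.volume) (a := 0) (b := δ) (F := fun s t => k t s)
    (F' := fun s t => deriv (k t) s) (x₀ := s₀) (s := ball s₀ ρ) (bound := fun _ => M / ρ)
    (ball_mem_nhds s₀ hρ)
    (by
      rw [uIoc_of_le hδ]
      filter_upwards [isOpen_ball.mem_nhds hs₀] with s hs
      exact ((hcont s (ball_subset_closedBall hs)).mono Ioc_subset_Icc_self).aestronglyMeasurable
        measurableSet_Ioc)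
    ((hcont s₀ (ball_subset_closedBall hs₀)).intervalIntegrable_of_Icc hδ)
    (by
      rw [uIoc_of_le hδ]
      exact Prim_meas hk hd hρ (hsub s₀ (mem_ball_self hρ)))
    (by
      rw [uIoc_of_le hδ]
      refine Filter.Eventually.of_forall fun t ht s hs => ?_
      refine Complex.norm_deriv_le_of_forall_mem_sphere_norm_le hρ
        ((hd t (Ioc_subset_Icc_self ht)).diffContOnCl_ball (hsub s hs)) ?_
      intro z hz
      exact hM (t, z) ⟨Ioc_subset_Icc_self ht,
        ball_subset_closedBall (hsub s hs (sphere_subset_closedBall hz))⟩)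
    intervalIntegrable_const
    (by
      rw [uIoc_of_le hδ]
      refine Filter.Eventually.of_forall fun t ht s hs => ?_
      exact ((hd t (Ioc_subset_Icc_self ht)).differentiableAt (isOpen_ball.mem_nhds
        (hsub s hs (mem_closedBall_self hρ.le)))).hasDerivAt)
  exact key.2.differentiableAt.differentiableWithinAt

/-- Proof. Let `Φ s = ∫₀^δ k γ s dγ` (`differentiableOn_integral`) and let `E` be a primitive of
`s ↦ k δ s / I` on `ball s₁ r` (`DifferentiableOn.isExactOn_ball`). Let `H` be a primitive of `g₀` on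
`ball s₂ (2 r₂)`. For `s ∈ ball s₂ r₂` the fundamental theorem of calculus gives
`Φ s + δ g₀ s = ∫₀^δ g₀ (s + γ I) dγ = (H (s + δ I) - H s) / I`, whose derivative is
`(g₀ (s + δ I) - g₀ s) / I = k δ s / I`. So `Φ + δ g₀ - E` is constant on `ball s₂ r₂`, equal to `C`,
and `W = (E + C - Φ) / δ` is as wanted. -/
theorem extend_primitive {k : ℝ → ℂ → ℂ} {δ : ℝ} (hδ : 0 < δ) {s₁ : ℂ} {r : ℝ}
    (hk : ContinuousOn (fun x : ℝ × ℂ => k x.1 x.2) (Icc 0 δ ×ˢ closedBall s₁ r))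
    (hd : ∀ γ ∈ Icc 0 δ, DifferentiableOn ℂ (k γ) (ball s₁ r))
    {g₀ : ℂ → ℂ} {s₂ : ℂ} {r₂ : ℝ} (hδr : δ < r₂) (hsub : ball s₂ r₂ ⊆ ball s₁ r)
    (hg₀ : DifferentiableOn ℂ g₀ (ball s₂ (2 * r₂)))
    (hkg : ∀ γ ∈ Icc 0 δ, ∀ s ∈ ball s₂ r₂, k γ s = g₀ (s + γ * I) - g₀ s) :
    ∃ W : ℂ → ℂ, DifferentiableOn ℂ W (ball s₁ r) ∧ ∀ s ∈ ball s₂ r₂, W s = g₀ s := by
  have hr₂ : 0 < r₂ := hδ.trans hδr
  have hΦ := differentiableOn_integral hδ.le hk hd
  have hδm : δ ∈ Icc 0 δ := ⟨hδ.le, le_refl δ⟩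
  obtain ⟨E, hE⟩ := ((hd δ hδm).div_const I).isExactOn_ball
  obtain ⟨H, hH⟩ := hg₀.isExactOn_ball
  have hmem : ∀ s ∈ ball s₂ r₂, ∀ γ ∈ Icc (0 : ℝ) δ, s + γ * I ∈ ball s₂ (2 * r₂) := by
    intro s hs γ hγ
    rw [mem_ball, dist_eq_norm] at hs ⊢
    have h1 : s + γ * I - s₂ = (s - s₂) + γ * I := by ring
    rw [h1]
    have h2 : ‖(γ : ℂ) * I‖ = γ := by
      rw [norm_mul, Complex.norm_real, Complex.norm_I, mul_one, Real.norm_eq_abs,
        abs_of_nonneg hγ.1]
    have h3 := norm_add_le (s - s₂) ((γ : ℂ) * I)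
    rw [h2] at h3
    have h4 := hγ.2
    linarith
  have hmem0 : ∀ s ∈ ball s₂ r₂, s ∈ ball s₂ (2 * r₂) := fun s hs =>
    ball_subset_ball (by linarith) hs
  -- the fundamental theorem of calculus
  have hFTC : ∀ s ∈ ball s₂ r₂, (∫ γ in (0 : ℝ)..δ, k γ s) + δ * g₀ s =
      (H (s + δ * I) - H s) / I := by
    intro s hs
    have hder : ∀ γ ∈ uIcc 0 δ, HasDerivAt (fun γ : ℝ => H (s + γ * I) / I) (g₀ (s + γ * I)) γ := by
      intro γ hγ
      rw [uIcc_of_le hδ.le] at hγ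
      have h1 : HasDerivAt (fun γ : ℝ => s + (γ : ℂ) * I) I γ := by
        have h2 : HasDerivAt (fun γ : ℝ => (γ : ℂ)) 1 γ := Complex.ofRealCLM.hasDerivAt
        have h3 := (h2.mul_const I).const_add s
        rwa [one_mul] at h3
      have h4 := (HasDerivAt.comp γ (hH _ (hmem s hs γ hγ)) h1).div_const I
      have h5 : g₀ (s + γ * I) * I / I = g₀ (s + γ * I) := mul_div_cancel_right₀ _ I_ne_zero
      rw [h5] at h4
      exact h4
    have hcg : ContinuousOn (fun γ : ℝ => g₀ (s + γ * I)) (Icc 0 δ) := by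
      refine hg₀.continuousOn.comp (by fun_prop) ?_
      intro γ hγ
      exact hmem s hs γ hγ
    have hint : IntervalIntegrable (fun γ : ℝ => g₀ (s + γ * I)) MeasureTheory.volume 0 δ :=
      hcg.intervalIntegrable_of_Icc hδ.le
    have h6 := intervalIntegral.integral_eq_sub_of_hasDerivAt hder hint
    have h7 : ∫ γ in (0 : ℝ)..δ, k γ s = ∫ γ in (0 : ℝ)..δ, (g₀ (s + γ * I) - g₀ s) := by
      refine intervalIntegral.integral_congr ?_
      intro γ hγ
      rw [uIcc_of_le hδ.le] at hγ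
      exact hkg γ hγ s hs
    rw [h7, intervalIntegral.integral_sub hint intervalIntegrable_const, h6,
      intervalIntegral.integral_const, sub_zero, Complex.ofReal_zero, zero_mul, add_zero,
      Complex.real_smul]
    ring
  have hk0 : ∀ s ∈ ball s₂ r₂, HasDerivAt
      (fun s => (∫ γ in (0 : ℝ)..δ, k γ s) + δ * g₀ s - E s) 0 s := by
    intro s hs
    have h1 : HasDerivAt (fun s => (H (s + δ * I) - H s) / I) ((g₀ (s + δ * I) - g₀ s) / I) s := by
      have h2 : HasDerivAt (fun s : ℂ => s + (δ : ℂ) * I) 1 s := (hasDerivAt_id s).add_const _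
      have h3 := HasDerivAt.comp s (hH _ (hmem s hs δ hδm)) h2
      rw [mul_one] at h3
      exact (h3.sub (hH s (hmem0 s hs))).div_const I
    have h4 : HasDerivAt (fun s => (∫ γ in (0 : ℝ)..δ, k γ s) + δ * g₀ s)
        ((g₀ (s + δ * I) - g₀ s) / I) s := by
      refine h1.congr_of_eventuallyEq ?_
      filter_upwards [isOpen_ball.mem_nhds hs] with t ht
      exact hFTC t ht
    have h5 := h4.sub (hE s (hsub hs))
    rw [← hkg δ hδm s hs, sub_self] at h5
    exact h5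
  obtain ⟨c, hc⟩ := isOpen_ball.exists_is_const_of_deriv_eq_zero
    (convex_ball s₂ r₂).isPreconnected
    (fun s hs => (hk0 s hs).differentiableAt.differentiableWithinAt)
    (fun s hs => (hk0 s hs).deriv)
  refine ⟨fun s => (E s + c - ∫ γ in (0 : ℝ)..δ, k γ s) / δ, ?_, ?_⟩
  · have hEd : DifferentiableOn ℂ E (ball s₁ r) := fun s hs =>
      (hE s hs).differentiableAt.differentiableWithinAt
    exact ((hEd.add_const c).sub hΦ).div_const _
  · intro s hs
    have h1 := hc s hs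
    have h2 : (δ : ℂ) ≠ 0 := Complex.ofReal_ne_zero.2 hδ.ne'
    show (E s + c - ∫ γ in (0 : ℝ)..δ, k γ s) / δ = g₀ s
    rw [div_eq_iff h2, ← h1]
    ring

/-- `V = C exp(B)`, `B` a primitive of `W` on `ball s₁ r`; `V / G₀` has derivative zero on
`ball s₂ r₂`. -/
theorem extend_exp {W : ℂ → ℂ} {s₁ : ℂ} {r : ℝ} (hW : DifferentiableOn ℂ W (ball s₁ r))
    {G₀ : ℂ → ℂ} {s₂ : ℂ} {r₂ : ℝ} (hr₂ : 0 < r₂) (hsub : ball s₂ r₂ ⊆ ball s₁ r)
    (hG : DifferentiableOn ℂ G₀ (ball s₂ r₂)) (h0 : ∀ s ∈ ball s₂ r₂, G₀ s ≠ 0)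
    (hl : ∀ s ∈ ball s₂ r₂, deriv G₀ s / G₀ s = W s) :
    ∃ V : ℂ → ℂ, DifferentiableOn ℂ V (ball s₁ r) ∧ ∀ s ∈ ball s₂ r₂, V s = G₀ s := by
  obtain ⟨B, hB⟩ := hW.isExactOn_ball
  have hder : ∀ s ∈ ball s₂ r₂, HasDerivAt (fun s => G₀ s * Complex.exp (-B s)) 0 s := by
    intro s hs
    have h1 : HasDerivAt G₀ (deriv G₀ s) s :=
      (hG.differentiableAt (isOpen_ball.mem_nhds hs)).hasDerivAt
    have h2 : HasDerivAt (fun s => Complex.exp (-B s)) (Complex.exp (-B s) * (-W s)) s :=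
      ((hB s (hsub hs)).neg).cexp
    have h3 := h1.mul h2
    have h4 : deriv G₀ s = W s * G₀ s := by
      rw [← hl s hs, div_mul_cancel₀ _ (h0 s hs)]
    have h5 : deriv G₀ s * Complex.exp (-B s) + G₀ s * (Complex.exp (-B s) * (-W s)) = 0 := by
      rw [h4]
      ring
    rw [h5] at h3
    exact h3
  obtain ⟨c, hc⟩ := isOpen_ball.exists_is_const_of_deriv_eq_zero
    (convex_ball s₂ r₂).isPreconnected
    (fun s hs => (hder s hs).differentiableAt.differentiableWithinAt)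
    (fun s hs => (hder s hs).deriv)
  refine ⟨fun s => c * Complex.exp (B s), ?_, ?_⟩
  · intro s hs
    exact ((hB s hs).cexp.const_mul c).differentiableAt.differentiableWithinAt
  · intro s hs
    show c * Complex.exp (B s) = G₀ s
    rw [← hc s hs, mul_assoc, ← Complex.exp_add, neg_add_cancel, Complex.exp_zero, mul_one]

end Pool.Agent.ZT
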