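import Pool.Agent.W_eea520_h69.Fam
import Pool.Agent.W_eea520_h69.Prim

/-! Crossing the boundary line: preparations. -/

set_option autoImplicit false

namespace Pool.Agent.ZT

open Filter Topology Metric Set Complex

/-- The family of functions `z ↦ g (c + z + β I) - g (c + z)`, `g` the logarithmic derivative. -/
noncomputable def hh (G : ℂ → ℂ) (c : ℂ) (β : ℝ) (z : ℂ) : ℂ :=
  deriv G (c + z + β * I) / G (c + z + β * I) - deriv G (c + z) / G (c + z)

private theorem CrossA_open (b : ℝ) : IsOpen {s : ℂ | b < s.re} :=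
  isOpen_lt continuous_const Complex.continuous_re

private theorem CrossA_re (s : ℂ) (β : ℝ) : (s + β * I).re = s.re := by simp

private theorem CrossA_mem {b : ℝ} {c : ℂ} (hc : c.re = b + 2) {z : ℂ} (hz : ‖z‖ < 1) :
    b < (c + z).re := by
  rw [Complex.add_re, hc]
  have h1 := (abs_le.1 (Complex.abs_re_le_norm z)).1
  linarith

theorem hh_continuous {G : ℂ → ℂ} {b : ℝ} (hG : DifferentiableOn ℂ G {s : ℂ | b < s.re})
    (hG0 : ∀ s : ℂ, b < s.re → G s ≠ 0) {c : ℂ} (hc : c.re = b + 2) :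
    ∀ z : ℂ, ‖z‖ < 1 → Continuous fun β : ℝ => hh G c β z := by
  intro z hz
  have hd : DifferentiableOn ℂ (deriv G) {s : ℂ | b < s.re} := hG.deriv (CrossA_open b)
  have hq : ContinuousOn (fun s => deriv G s / G s) {s : ℂ | b < s.re} :=
    hd.continuousOn.div hG.continuousOn fun s hs => hG0 s hs
  have hl : Continuous fun β : ℝ => c + z + (β : ℂ) * I := by fun_prop
  have h1 : Continuous fun β : ℝ => deriv G (c + z + β * I) / G (c + z + β * I) :=
    hq.comp_continuous hl fun β => by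
      show b < (c + z + (β : ℂ) * I).re
      rw [CrossA_re]
      exact CrossA_mem hc hz
  exact h1.sub continuous_const

/-- On `b < re s` we have `m β = G (· + β I) / G`, so the logarithmic derivative of `m β` is
`g (s + β I) - g s`. -/
theorem hh_eq {G : ℂ → ℂ} {b : ℝ} (hG : DifferentiableOn ℂ G {s : ℂ | b < s.re})
    (hG0 : ∀ s : ℂ, b < s.re → G s ≠ 0) {c : ℂ} (hc : c.re = b + 2) {β : ℝ} {m : ℂ → ℂ}
    (hm : ∀ s : ℂ, b < s.re → G (s + β * I) = m s * G s) :
    ∀ z : ℂ, ‖z‖ < 1 → hh G c β z = deriv m (c + z) / m (c + z) := by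
  intro z hz
  unfold hh
  have hs : b < (c + z).re := CrossA_mem hc hz
  set s := c + z with hsdef
  have hs' : b < (s + (β : ℂ) * I).re := by
    rw [CrossA_re]
    exact hs
  have h1 : m =ᶠ[𝓝 s] fun w => G (w + β * I) / G w := by
    filter_upwards [(CrossA_open b).mem_nhds hs] with w hw
    rw [hm w hw, mul_div_cancel_right₀ _ (hG0 w hw)]
  have hdG : DifferentiableAt ℂ G s := hG.differentiableAt ((CrossA_open b).mem_nhds hs)
  have hdG' : DifferentiableAt ℂ G (s + β * I) :=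
    hG.differentiableAt ((CrossA_open b).mem_nhds hs')
  have hdc : HasDerivAt (fun w => G (w + β * I)) (deriv G (s + β * I)) s := by
    have := hdG'.hasDerivAt.comp_add_const s (β * I)
    exact this
  have h2 := hdc.div hdG.hasDerivAt (hG0 s hs)
  have h3 : deriv m s = (deriv G (s + β * I) * G s - G (s + β * I) * deriv G s) / G s ^ 2 := by
    rw [h1.deriv_eq]
    exact h2.deriv
  have h4 : m s = G (s + β * I) / G s := h1.eq_of_nhds
  rw [h3, h4]
  have h5 := hG0 s hs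
  have h6 := hG0 _ hs'
  field_simp

/-- `exists_adm` for the logarithmic derivative of `m`. -/
theorem hh_adm {G : ℂ → ℂ} {b : ℝ} (hG : DifferentiableOn ℂ G {s : ℂ | b < s.re})
    (hG0 : ∀ s : ℂ, b < s.re → G s ≠ 0) {c : ℂ} (hc : c.re = b + 2) {β : ℝ} {m : ℂ → ℂ}
    (hmm : Meromorphic m) (hm : ∀ s : ℂ, b < s.re → G (s + β * I) = m s * G s) {R : ℝ}
    (hR : 1 < R) : ∃ d N : ℕ, Adm (hh G c β) d N R := by
  refine exists_adm (f := fun s => deriv m s / m s) ?_ (c := c) ?_ hR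
  · intro s
    exact (hmm s).deriv.div (hmm s)
  · exact hh_eq hG hG0 hc hm

private theorem CrossA_shift {f : ℂ → ℂ} {s a : ℂ} (hf : MeromorphicAt f (s + a)) :
    MeromorphicAt (fun z => f (z + a)) s := by
  have h1 : AnalyticAt ℂ (fun z : ℂ => z + a) s := by fun_prop
  exact MeromorphicAt.comp_analyticAt (f := f) (g := fun z => z + a) hf h1

private theorem CrossA_pre (x : ℝ) : IsPreconnected {s : ℂ | x < s.re} :=
  (convex_halfSpace_re_gt x).isPreconnected

private theorem CrossA_base (b x : ℝ) : x < ((max b x + 1 : ℝ) : ℂ).re ∧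
    b < ((max b x + 1 : ℝ) : ℂ).re := by
  rw [Complex.ofReal_re]
  have h1 := le_max_left b x
  have h2 := le_max_right b x
  constructor <;> linarith

/-- The functional equation holds for the meromorphic extension of `G` to a larger half plane
(`mero_identity`). -/
theorem func_eq {G : ℂ → ℂ} {b x : ℝ} {β : ℝ} {m : ℂ → ℂ} (hmm : Meromorphic m)
    (hm : ∀ s : ℂ, b < s.re → G (s + β * I) = m s * G s) {Gx : ℂ → ℂ}
    (hGx : MeromorphicOn Gx {s : ℂ | x < s.re}) (hGxG : ∀ s : ℂ, b < s.re → Gx s = G s) :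
    ∀ s : ℂ, x < s.re → (fun s => Gx (s + β * I)) =ᶠ[𝓝[≠] s] fun s => m s * Gx s := by
  obtain ⟨h0x, h0b⟩ := CrossA_base b x
  have hl : MeromorphicOn (fun s => Gx (s + β * I)) {s : ℂ | x < s.re} := fun s hs =>
    CrossA_shift (hGx _ (by
      show x < (s + (β : ℂ) * I).re
      rw [CrossA_re]
      exact hs))
  have hr : MeromorphicOn (fun s => m s * Gx s) {s : ℂ | x < s.re} := fun s hs =>
    (hmm s).mul (hGx s hs)
  refine mero_identity (CrossA_pre x) hl hr (s₀ := ((max b x + 1 : ℝ) : ℂ)) h0x ?_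
  refine Filter.Eventually.filter_mono nhdsWithin_le_nhds ?_
  filter_upwards [(CrossA_open b).mem_nhds h0b] with w hw
  have hw' : b < w.re := hw
  rw [hGxG w hw', hGxG _ (by rw [CrossA_re]; exact hw'), hm w hw']

private theorem CrossA_nhds {p : ℂ → Prop} {s : ℂ} (h : ∀ᶠ z in 𝓝[≠] s, p z) :
    ∀ᶠ z in 𝓝[≠] s, ∀ᶠ y in 𝓝 z, p y := by
  have h1 := eventually_eventually_nhdsWithin.2 h
  filter_upwards [h1, self_mem_nhdsWithin] with z hz hzs
  have h3 : 𝓝[{s}ᶜ] z = 𝓝 z := isOpen_compl_singleton.nhdsWithin_eq hzs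
  rwa [h3] at hz

/-- `Gx` is not zero near any point -/
private theorem CrossA_ne {G : ℂ → ℂ} {b x : ℝ} (hG0 : ∀ s : ℂ, b < s.re → G s ≠ 0) {Gx : ℂ → ℂ}
    (hGx : MeromorphicOn Gx {s : ℂ | x < s.re}) (hGxG : ∀ s : ℂ, b < s.re → Gx s = G s) {s : ℂ}
    (hs : x < s.re) : ∀ᶠ z in 𝓝[≠] s, Gx z ≠ 0 := by
  rcases (hGx s hs).eventually_eq_zero_or_eventually_ne_zero with h | h
  · exfalso
    obtain ⟨h0x, h0b⟩ := CrossA_base b x
    have h1 : Gx =ᶠ[𝓝[≠] s] fun _ => (0 : ℂ) := h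
    have h2 := mero_identity (CrossA_pre x) hGx (g := fun _ => (0 : ℂ))
      (fun s _ => MeromorphicAt.const 0 s) hs h1 _ h0x
    have h3 : ∀ᶠ z in 𝓝[≠] ((max b x + 1 : ℝ) : ℂ), b < z.re :=
      Filter.Eventually.filter_mono nhdsWithin_le_nhds ((CrossA_open b).mem_nhds h0b)
    obtain ⟨z, hz1, hz2⟩ := (h2.and h3).exists
    rw [hGxG z hz2] at hz1
    exact hG0 z hz2 hz1
  · exact h

private theorem CrossA_tendsto (s a : ℂ) : Tendsto (fun z => z + a) (𝓝[≠] s) (𝓝[≠] (s + a)) := by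
  refine tendsto_nhdsWithin_iff.2 ⟨?_, ?_⟩
  · have h1 : Continuous fun z : ℂ => z + a := by fun_prop
    exact (h1.tendsto s).mono_left nhdsWithin_le_nhds
  · filter_upwards [self_mem_nhdsWithin] with z hz h
    exact hz (add_right_cancel h)

/-- The logarithmic derivative of `func_eq`. (Away from a discrete set all functions are analytic
and nonzero; `Gx` is not identically zero near any point, because `G` has no zeros.) -/
theorem log_eq {G : ℂ → ℂ} {b x : ℝ} (hG0 : ∀ s : ℂ, b < s.re → G s ≠ 0) {β : ℝ} {m : ℂ → ℂ}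
    (hmm : Meromorphic m) (hm : ∀ s : ℂ, b < s.re → G (s + β * I) = m s * G s) {Gx : ℂ → ℂ}
    (hGx : MeromorphicOn Gx {s : ℂ | x < s.re}) (hGxG : ∀ s : ℂ, b < s.re → Gx s = G s) :
    ∀ s : ℂ, x < s.re → (fun s => deriv m s / m s) =ᶠ[𝓝[≠] s]
      fun s => deriv Gx (s + β * I) / Gx (s + β * I) - deriv Gx s / Gx s := by
  intro s hs
  have hs' : x < (s + (β : ℂ) * I).re := by
    rw [CrossA_re]
    exact hs
  have h1 := CrossA_nhds (func_eq hmm hm hGx hGxG s hs)
  have h2 := CrossA_ne hG0 hGx hGxG hs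
  have h3 := (CrossA_tendsto s ((β : ℂ) * I)).eventually (CrossA_ne hG0 hGx hGxG hs')
  have h4 := (hGx s hs).eventually_analyticAt
  have h5 := (CrossA_tendsto s ((β : ℂ) * I)).eventually (hGx _ hs').eventually_analyticAt
  have h6 := (hmm s).eventually_analyticAt
  filter_upwards [h1, h2, h3, h4, h5, h6] with z z1 z2 z3 z4 z5 z6
  have e1 : (fun s => Gx (s + β * I)) =ᶠ[𝓝 z] fun s => m s * Gx s := z1
  have e2 : Gx (z + β * I) = m z * Gx z := e1.eq_of_nhds
  have e3 : HasDerivAt (fun s => Gx (s + β * I)) (deriv Gx (z + β * I)) z :=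
    z5.differentiableAt.hasDerivAt.comp_add_const z (β * I)
  have e4 : HasDerivAt (fun s => m s * Gx s) (deriv m z * Gx z + m z * deriv Gx z) z :=
    z6.differentiableAt.hasDerivAt.mul z4.differentiableAt.hasDerivAt
  have e5 : deriv Gx (z + β * I) = deriv m z * Gx z + m z * deriv Gx z :=
    (e3.deriv.symm.trans e1.deriv_eq).trans e4.deriv
  have e6 : m z ≠ 0 := by
    intro h
    apply z3
    rw [e2, h, zero_mul]
  rw [e5, e2]
  field_simp
  ring

/-- There is a small disc on which a meromorphic function, not identically zero near any point, is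
analytic and without zeros. -/
theorem exists_nice_disc {G₀ : ℂ → ℂ} {U : Set ℂ} (hU : IsOpen U) (hne : U.Nonempty)
    (hG : MeromorphicOn G₀ U) (h0 : ∀ s ∈ U, ∃ᶠ z in 𝓝[≠] s, G₀ z ≠ 0) :
    ∃ (s₂ : ℂ) (ρ : ℝ), 0 < ρ ∧ ball s₂ ρ ⊆ U ∧ (∀ s ∈ ball s₂ ρ, AnalyticAt ℂ G₀ s) ∧
      ∀ s ∈ ball s₂ ρ, G₀ s ≠ 0 := by
  obtain ⟨s₁, hs₁⟩ := hne
  have h1 : ∀ᶠ z in 𝓝[≠] s₁, G₀ z ≠ 0 := by
    rcases (hG s₁ hs₁).eventually_eq_zero_or_eventually_ne_zero with h | h
    · exact absurd (h.mono fun z hz => not_not.2 hz) (h0 s₁ hs₁)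
    · exact h
  have h2 := (hG s₁ hs₁).eventually_analyticAt
  have h3 : ∀ᶠ z in 𝓝[≠] s₁, z ∈ U :=
    Filter.Eventually.filter_mono nhdsWithin_le_nhds (hU.mem_nhds hs₁)
  obtain ⟨s₂, h4⟩ := (CrossA_nhds (h1.and (h2.and h3))).exists
  obtain ⟨ρ, hρ, h5⟩ := Metric.eventually_nhds_iff_ball.1 h4
  exact ⟨s₂, ρ, hρ, fun s hs => (h5 s hs).2.2, fun s hs => (h5 s hs).2.1,
    fun s hs => (h5 s hs).1⟩

end Pool.Agent.ZT
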