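import Pool.Agent.W_eea520_h69.CrossA

/-! Crossing the boundary line at one point. -/

set_option autoImplicit false

namespace Pool.Agent.ZT

open Filter Topology Metric Set Complex

/-- The situation at one disc. Let `ℓ β s = deriv (m β) s / m β s`. For `β` close to `β₀` the function
`H β (s - c)` is the value of `ℓ β` on `closedBall s₁ r`, `s₁ = c + w`. On the part of the disc to
the right of the line `re s = x` we have `ℓ β s = ĝ (s + β I) - ĝ s` by `log_eq`,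
`ĝ = deriv Gx / Gx`; so `k γ s = H (β₀ + γ) (s - c) - H β₀ (s - c)` equals
`g₀ (s + γ I) - g₀ s` there, `g₀ s = ĝ (s + β₀ I)`, at first away from a discrete set, then by
continuity on a disc `ball s₂ (2 r₂)` on which `Gx (s + β₀ I)` is analytic without zeros
(`exists_nice_disc`). Then `extend_primitive` and `extend_exp`, and `mero_identity` on
`ball s₁ r ∩ {x < re s}`. -/
theorem cross_disc {G : ℂ → ℂ} {b x : ℝ} (hG0 : ∀ s : ℂ, b < s.re → G s ≠ 0)
    {m : ℝ → ℂ → ℂ} (hmm : ∀ β, Meromorphic (m β))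
    (hm : ∀ (β : ℝ) (s : ℂ), b < s.re → G (s + β * I) = m β s * G s)
    {Gx : ℂ → ℂ} (hGx : MeromorphicOn Gx {s : ℂ | x < s.re})
    (hGxG : ∀ s : ℂ, b < s.re → Gx s = G s) {c : ℂ}
    (heq : ∀ (β : ℝ) (z : ℂ), ‖z‖ < 1 → hh G c β z = deriv (m β) (c + z) / m β (c + z))
    {R β₀ δ : ℝ} {d N : ℕ} (hR : 1 < R) (hδ : 0 < δ) {w : ℂ} {r : ℝ} (hr : 0 < r)
    (hw : (c + w).re = x) (hK : closedBall w r ⊆ ball 0 R) {H : ℝ → ℂ → ℂ}
    (hH : ContinuousOn (fun x : ℝ × ℂ => H x.1 x.2)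
      (Icc (β₀ - δ) (β₀ + δ) ×ˢ closedBall w r))
    (hrel : ∀ β ∈ Icc (β₀ - δ) (β₀ + δ), ∃ q ∈ QQ d, ∃ u ∈ UU N R, Rel (hh G c β) q u ∧
      ∀ z ∈ closedBall w r, ev q z ≠ 0 ∧ H β z = ev u z / ev q z) :
    ∃ V : ℂ → ℂ, DifferentiableOn ℂ V (ball (c + w) r) ∧
      ∀ s ∈ ball (c + w) r, x < s.re → V =ᶠ[𝓝[≠] s] fun s => Gx (s + β₀ * I) := by
  have hw' : ∀ s ∈ closedBall (c + w) r, s - c ∈ closedBall w r := by
    intro s hs
    rw [mem_closedBall, dist_eq_norm] at hs ⊢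
    rw [show s - c - w = s - (c + w) by ring]
    exact hs
  have hwc : ∀ s ∈ closedBall (c + w) r, s ∈ ball c R := by
    intro s hs
    have h := hK (hw' s hs)
    rw [mem_ball, dist_zero_right] at h
    rw [mem_ball, dist_eq_norm]
    exact h
  have step1 : ∀ β ∈ Icc (β₀ - δ) (β₀ + δ), ∀ s ∈ ball (c + w) r,
      (fun s => deriv (m β) s / m β s) =ᶠ[𝓝[≠] s] fun s => H β (s - c) := by
    intro β hβ s hs
    obtain ⟨q, hq, u, hu, hrel', hz⟩ := hrel β hβ
    have hmer : MeromorphicOn (fun s => deriv (m β) s / m β s) (ball c R) :=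
      fun z _ => ((hmm β).deriv z).div (hmm β z)
    have h := rel_mero hR hmer (heq β) hq hu hrel' s (hwc s (ball_subset_closedBall hs))
    have hnb : ∀ᶠ z in 𝓝[≠] s, z ∈ ball (c + w) r :=
      nhdsWithin_le_nhds (isOpen_ball.mem_nhds hs)
    filter_upwards [h, hnb] with z hz1 hz2
    obtain ⟨h1, h2⟩ := hz (z - c) (hw' z (ball_subset_closedBall hz2))
    rw [h2, eq_div_iff h1, mul_comm]
    exact hz1
  have step1' : ∀ β ∈ Icc (β₀ - δ) (β₀ + δ),
      DifferentiableOn ℂ (fun s => H β (s - c)) (ball (c + w) r) := by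
    intro β hβ
    obtain ⟨q, hq, u, hu, hrel', hz⟩ := hrel β hβ
    have h1 : DifferentiableOn ℂ (fun s => ev u (s - c) / ev q (s - c)) (ball (c + w) r) := by
      intro s hs
      have hsc := hw' s (ball_subset_closedBall hs)
      have hd1 : DifferentiableAt ℂ (ev u) (s - c) :=
        (differentiableOn_ev (by linarith) hu).differentiableAt (isOpen_ball.mem_nhds (hK hsc))
      have hd2 : DifferentiableAt ℂ (ev q) (s - c) := differentiable_ev_QQ hq _
      have hs' : DifferentiableAt ℂ (fun s : ℂ => s - c) s := by fun_prop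
      have h3 : DifferentiableAt ℂ (fun s => ev u (s - c)) s :=
        DifferentiableAt.comp (g := ev u) (f := fun s : ℂ => s - c) s hd1 hs'
      have h4 : DifferentiableAt ℂ (fun s => ev q (s - c)) s :=
        DifferentiableAt.comp (g := ev q) (f := fun s : ℂ => s - c) s hd2 hs'
      exact (h3.div h4 (hz _ hsc).1).differentiableWithinAt
    exact h1.congr fun s hs => (hz _ (hw' s (ball_subset_closedBall hs))).2
  obtain ⟨G₀, hG₀⟩ : ∃ G₀ : ℂ → ℂ, G₀ = fun s => Gx (s + β₀ * I) := ⟨_, rfl⟩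
  obtain ⟨U, hU⟩ : ∃ U : Set ℂ, U = ball (c + w) r ∩ {s : ℂ | x < s.re} := ⟨_, rfl⟩
  have hHo : ∀ y : ℝ, IsOpen {s : ℂ | y < s.re} := fun y =>
    isOpen_lt continuous_const Complex.continuous_re
  have hUo : IsOpen U := by
    rw [hU]
    exact isOpen_ball.inter (hHo x)
  have hUne : U.Nonempty := by
    rw [hU]
    refine ⟨c + w + ((r / 2 : ℝ) : ℂ), ?_, ?_⟩
    · rw [mem_ball, dist_eq_norm, add_sub_cancel_left, Complex.norm_real, Real.norm_eq_abs,
        abs_of_pos (by linarith)]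
      linarith
    · show x < (c + w + ((r / 2 : ℝ) : ℂ)).re
      rw [Complex.add_re, Complex.ofReal_re, hw]
      linarith
  have hUconv : Convex ℝ U := by
    rw [hU]
    exact (convex_ball (c + w) r).inter (convex_halfSpace_re_gt x)
  have hG₀mH : MeromorphicOn G₀ {s : ℂ | x < s.re} := by
    intro s hs
    rw [hG₀]
    have h1 : MeromorphicAt Gx (s + β₀ * I) := hGx _ (by
      show x < (s + β₀ * I).re
      have : (s + β₀ * I).re = s.re := by simp
      rw [this]; exact hs)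
    exact h1.comp_analyticAt (g := fun z : ℂ => z + β₀ * I) (by fun_prop)
  have hUH : U ⊆ {s : ℂ | x < s.re} := by
    rw [hU]
    exact inter_subset_right
  have hG₀m : MeromorphicOn G₀ U := fun s hs => hG₀mH s (hUH hs)
  have hG₀ne : ∀ s ∈ U, ∃ᶠ z in 𝓝[≠] s, G₀ z ≠ 0 := by
    intro s hs
    by_contra hcon
    rw [Filter.not_frequently] at hcon
    have hcon' : G₀ =ᶠ[𝓝[≠] s] fun _ => 0 := by
      filter_upwards [hcon] with z hz
      simpa using hz
    have hpre : IsPreconnected {s : ℂ | x < s.re} := (convex_halfSpace_re_gt x).isPreconnected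
    have h0m : MeromorphicOn (fun _ : ℂ => (0 : ℂ)) {s : ℂ | x < s.re} :=
      fun z _ => MeromorphicAt.const 0 z
    obtain ⟨s', hs'x, hs'b⟩ : ∃ s' : ℂ, x < s'.re ∧ b < s'.re := by
      refine ⟨((max b x + 1 : ℝ) : ℂ), ?_, ?_⟩
      · rw [Complex.ofReal_re]
        have := le_max_right b x
        linarith
      · rw [Complex.ofReal_re]
        have := le_max_left b x
        linarith
    have h := mero_identity hpre hG₀mH h0m (hUH hs) hcon' s' hs'x
    have hb : ∀ᶠ z in 𝓝[≠] s', b < z.re :=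
      nhdsWithin_le_nhds ((hHo b).mem_nhds hs'b)
    obtain ⟨z, hz1, hz2⟩ := (h.and hb).exists
    have hzb : b < (z + β₀ * I).re := by
      have : (z + β₀ * I).re = z.re := by simp
      rw [this]; exact hz2
    have h3 : Gx (z + β₀ * I) ≠ 0 := by
      rw [hGxG _ hzb]
      exact hG0 _ hzb
    apply h3
    rw [hG₀] at hz1
    exact hz1
  obtain ⟨s₂, ρ, hρ, hsub, han, hne0⟩ := exists_nice_disc hUo hUne hG₀m hG₀ne
  obtain ⟨r₂, hr₂⟩ : ∃ r₂ : ℝ, r₂ = ρ / 2 := ⟨_, rfl⟩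
  have hr₂0 : 0 < r₂ := by rw [hr₂]; linarith
  have hρ2 : 2 * r₂ = ρ := by rw [hr₂]; ring
  obtain ⟨δ', hδ'0, hδ'r, hδ'δ⟩ : ∃ δ' : ℝ, 0 < δ' ∧ δ' < r₂ ∧ δ' ≤ δ := by
    refine ⟨min δ (r₂ / 2), lt_min hδ (by linarith), ?_, min_le_left _ _⟩
    exact lt_of_le_of_lt (min_le_right _ _) (by linarith)
  have hsub2 : ball s₂ r₂ ⊆ ball s₂ ρ := ball_subset_ball (by linarith)
  have hsub1 : ball s₂ r₂ ⊆ ball (c + w) r := by
    intro s hs
    have h := hsub (hsub2 hs)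
    rw [hU] at h
    exact h.1
  have hderiv : ∀ s, deriv G₀ s = deriv Gx (s + β₀ * I) := by
    intro s
    rw [hG₀]
    exact deriv_comp_add_const _ _ _
  obtain ⟨g₀, hg₀⟩ : ∃ g₀ : ℂ → ℂ, g₀ = fun s => deriv G₀ s / G₀ s := ⟨_, rfl⟩
  have hg₀d : DifferentiableOn ℂ g₀ (ball s₂ (2 * r₂)) := by
    rw [hρ2]
    intro s hs
    rw [hg₀]
    exact ((han s hs).deriv.differentiableAt.div (han s hs).differentiableAt
      (hne0 s hs)).differentiableWithinAt
  have hβ₀ : β₀ ∈ Icc (β₀ - δ) (β₀ + δ) := ⟨by linarith, by linarith⟩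
  have hβγ : ∀ γ ∈ Icc (0 : ℝ) δ', β₀ + γ ∈ Icc (β₀ - δ) (β₀ + δ) := fun γ hγ =>
    ⟨by linarith [hγ.1], by linarith [hγ.2]⟩
  obtain ⟨k, hk0⟩ : ∃ k : ℝ → ℂ → ℂ, k = fun γ s => H (β₀ + γ) (s - c) - H β₀ (s - c) :=
    ⟨_, rfl⟩
  have hk : ContinuousOn (fun x : ℝ × ℂ => k x.1 x.2) (Icc 0 δ' ×ˢ closedBall (c + w) r) := by
    have hc1 : ContinuousOn (fun x : ℝ × ℂ => H (β₀ + x.1) (x.2 - c))
        (Icc 0 δ' ×ˢ closedBall (c + w) r) := by
      refine hH.comp (f := fun x : ℝ × ℂ => (β₀ + x.1, x.2 - c)) (by fun_prop) ?_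
      rintro ⟨γ, s⟩ ⟨h1, h2⟩
      exact ⟨hβγ γ h1, hw' s h2⟩
    have hc2 : ContinuousOn (fun x : ℝ × ℂ => H β₀ (x.2 - c))
        (Icc 0 δ' ×ˢ closedBall (c + w) r) := by
      refine hH.comp (f := fun x : ℝ × ℂ => (β₀, x.2 - c)) (by fun_prop) ?_
      rintro ⟨γ, s⟩ ⟨h1, h2⟩
      exact ⟨hβ₀, hw' s h2⟩
    rw [hk0]
    exact hc1.sub hc2
  have hd : ∀ γ ∈ Icc (0 : ℝ) δ', DifferentiableOn ℂ (k γ) (ball (c + w) r) := by
    intro γ hγ
    rw [hk0]
    exact (step1' _ (hβγ γ hγ)).sub (step1' _ hβ₀)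
  have hkg : ∀ γ ∈ Icc (0 : ℝ) δ', ∀ s ∈ ball s₂ r₂, k γ s = g₀ (s + γ * I) - g₀ s := by
    intro γ hγ s hs
    have hsU : s ∈ U := hsub (hsub2 hs)
    have e1 := step1 (β₀ + γ) (hβγ γ hγ) s (hsub1 hs)
    have e2 := step1 β₀ hβ₀ s (hsub1 hs)
    have e3 := log_eq hG0 (hmm (β₀ + γ)) (hm (β₀ + γ)) hGx hGxG s (hUH hsU)
    have e4 := log_eq hG0 (hmm β₀) (hm β₀) hGx hGxG s (hUH hsU)
    have e5 : (k γ) =ᶠ[𝓝[≠] s] fun s => g₀ (s + γ * I) - g₀ s := by
      filter_upwards [e1, e2, e3, e4] with z h1 h2 h3 h4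
      have h5 : k γ z = H (β₀ + γ) (z - c) - H β₀ (z - c) := by rw [hk0]
      rw [h5, ← h1, ← h2, h3, h4]
      have h6 : ∀ y, g₀ y = deriv Gx (y + β₀ * I) / Gx (y + β₀ * I) := by
        intro y
        rw [hg₀]
        simp only [hderiv]
        rw [hG₀]
      rw [h6, h6]
      rw [show z + ((β₀ + γ : ℝ) : ℂ) * I = z + γ * I + β₀ * I by push_cast; ring]
      ring
    have cL : ContinuousAt (k γ) s :=
      ((hd γ hγ).differentiableAt (isOpen_ball.mem_nhds (hsub1 hs))).continuousAt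
    have hsγ : s + γ * I ∈ ball s₂ (2 * r₂) := by
      rw [mem_ball, dist_eq_norm] at hs ⊢
      have h1 : s + γ * I - s₂ = (s - s₂) + γ * I := by ring
      have h2 : ‖(γ : ℂ) * I‖ = γ := by
        rw [norm_mul, Complex.norm_I, mul_one, Complex.norm_real, Real.norm_eq_abs,
          abs_of_nonneg hγ.1]
      rw [h1]
      have h3 := norm_add_le (s - s₂) ((γ : ℂ) * I)
      rw [h2] at h3
      linarith [hγ.2]
    have hs2 : s ∈ ball s₂ (2 * r₂) := by
      rw [hρ2]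
      exact hsub2 hs
    have cR1 : ContinuousAt g₀ (s + γ * I) :=
      (hg₀d.differentiableAt (isOpen_ball.mem_nhds hsγ)).continuousAt
    have cR2 : ContinuousAt g₀ s :=
      (hg₀d.differentiableAt (isOpen_ball.mem_nhds hs2)).continuousAt
    have cR3 : ContinuousAt (fun s : ℂ => g₀ (s + γ * I)) s :=
      ContinuousAt.comp (g := g₀) (f := fun s : ℂ => s + γ * I) cR1 (by fun_prop)
    have cR : ContinuousAt (fun s : ℂ => g₀ (s + γ * I) - g₀ s) s := cR3.sub cR2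
    exact ((cL.eventuallyEq_nhds_iff_eventuallyEq_nhdsNE cR).1 e5).eq_of_nhds
  obtain ⟨W, hWd, hWe⟩ := extend_primitive hδ'0 hk hd hδ'r hsub1 hg₀d hkg
  have hGd : DifferentiableOn ℂ G₀ (ball s₂ r₂) := fun s hs =>
    (han s (hsub2 hs)).differentiableAt.differentiableWithinAt
  obtain ⟨V, hVd, hVe⟩ := extend_exp hWd hr₂0 hsub1 hGd (fun s hs => hne0 s (hsub2 hs))
    (fun s hs => by rw [hWe s hs, hg₀])
  refine ⟨V, hVd, ?_⟩
  intro s hs hsx
  have hVm : MeromorphicOn V U := by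
    intro z hz
    rw [hU] at hz
    exact ((hVd.analyticOnNhd isOpen_ball) z hz.1).meromorphicAt
  have h₀ : V =ᶠ[𝓝[≠] s₂] G₀ := by
    apply nhdsWithin_le_nhds
    filter_upwards [ball_mem_nhds s₂ hr₂0] with z hz
    exact hVe z hz
  have hs₂U : s₂ ∈ U := hsub (mem_ball_self hρ)
  have hsU : s ∈ U := by
    rw [hU]
    exact ⟨hs, hsx⟩
  have hfin := mero_identity hUconv.isPreconnected hVm hG₀m hs₂U h₀ s hsU
  rw [hG₀] at hfin
  exact hfin

end Pool.Agent.ZT
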