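import Pool.Agent.W_eea520_h69.CrossB

/-! Crossing the boundary line. -/

set_option autoImplicit false

namespace Pool.Agent.ZT

open Filter Topology Metric Set Complex

/-- Take `c = b + 2`, and `R`, `β₀`, `P` from `exists_family` with `R₁ = c - x + 1`. The points
`w = x + y I - c`, `0 ≤ y ≤ 1/2`, are in `ball 0 R`; choose one outside the finite set `P` and then a
small `r`. Apply `cross_disc` and shift by `β₀ I`. -/
theorem cross {G : ℂ → ℂ} {b x : ℝ} (hxb : x ≤ b) (hG : DifferentiableOn ℂ G {s : ℂ | b < s.re})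
    (hG0 : ∀ s : ℂ, b < s.re → G s ≠ 0) {m : ℝ → ℂ → ℂ} (hmm : ∀ β, Meromorphic (m β))
    (hm : ∀ (β : ℝ) (s : ℂ), b < s.re → G (s + β * I) = m β s * G s)
    {Gx : ℂ → ℂ} (hGx : MeromorphicOn Gx {s : ℂ | x < s.re})
    (hGxG : ∀ s : ℂ, b < s.re → Gx s = G s) :
    ∃ (s₁ : ℂ) (r : ℝ) (V : ℂ → ℂ), s₁.re = x ∧ 0 < r ∧ MeromorphicOn V (ball s₁ r) ∧
      ∀ s ∈ ball s₁ r, x < s.re → V =ᶠ[𝓝[≠] s] Gx := by
  obtain ⟨c, hc⟩ : ∃ c : ℂ, c = ((b + 2 : ℝ) : ℂ) := ⟨_, rfl⟩
  have hcre : c.re = b + 2 := by rw [hc, Complex.ofReal_re]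
  have hcont := hh_continuous hG hG0 hcre
  have hA : ∀ (β R : ℝ), 1 < R → ∃ d N : ℕ, Adm (hh G c β) d N R := fun β R hR =>
    hh_adm hG hG0 hcre (hmm β) (hm β) hR
  have h1 : 1 < b + 3 - x := by linarith
  obtain ⟨R, β₀, P, d, N, hR₁, hP, hfam⟩ := exists_family hcont hA h1
  -- choice of the point
  obtain ⟨y, hy, hyP⟩ : ∃ y ∈ Icc (0 : ℝ) (1 / 2), ((x - (b + 2) : ℝ) : ℂ) + y * I ∉ P := by
    by_contra hcon
    push Not at hcon
    have hinf : (Icc (0 : ℝ) (1 / 2)).Infinite := Icc_infinite (by norm_num)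
    have hsub : (fun y : ℝ => ((x - (b + 2) : ℝ) : ℂ) + y * I) '' (Icc (0 : ℝ) (1 / 2)) ⊆ P := by
      rintro _ ⟨y, hy, rfl⟩
      exact hcon y hy
    refine (hinf.image ?_) (hP.subset hsub)
    intro y _ y' _ h
    have h2 := congrArg Complex.im h
    simpa using h2
  obtain ⟨w, hwdef⟩ : ∃ w : ℂ, w = ((x - (b + 2) : ℝ) : ℂ) + y * I := ⟨_, rfl⟩
  rw [← hwdef] at hyP
  have hwre : w.re = x - (b + 2) := by
    rw [hwdef]
    simp
  have hwnorm : ‖w‖ < R := by
    have h2 : ‖w‖ ≤ |x - (b + 2)| + |y| := by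
      rw [hwdef]
      refine (norm_add_le _ _).trans ?_
      rw [Complex.norm_real, norm_mul, Complex.norm_real, Complex.norm_I, mul_one,
        Real.norm_eq_abs, Real.norm_eq_abs]
    have h3 : |x - (b + 2)| = b + 2 - x := by
      rw [abs_sub_comm, abs_of_nonneg (by linarith)]
    have h4 : |y| ≤ 1 / 2 := by
      rw [abs_of_nonneg hy.1]
      exact hy.2
    linarith
  have hopen : IsOpen (ball (0 : ℂ) R ∩ Pᶜ) := isOpen_ball.inter hP.isClosed.isOpen_compl
  have hwmem : w ∈ ball (0 : ℂ) R ∩ Pᶜ := ⟨by rw [mem_ball_zero_iff]; exact hwnorm, hyP⟩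
  obtain ⟨r, hr, hrsub⟩ := Metric.nhds_basis_closedBall.mem_iff.1 (hopen.mem_nhds hwmem)
  have hKR : closedBall w r ⊆ ball 0 R := fun z hz => (hrsub hz).1
  have hKP : Disjoint (closedBall w r) P := by
    rw [Set.disjoint_left]
    intro z hz
    exact (hrsub hz).2
  obtain ⟨δ, H, hδ, hH, hrel⟩ := hfam (closedBall w r) (isCompact_closedBall w r) hKR hKP
  have hcw : (c + w).re = x := by
    rw [Complex.add_re, hcre, hwre]
    ring
  obtain ⟨V, hV, hVG⟩ := cross_disc hG0 hmm hm hGx hGxG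
    (fun β z hz => hh_eq hG hG0 hcre (hm β) z hz) (by linarith) hδ hr hcw hKR hH hrel
  -- the shift
  have hshift : ∀ s, s ∈ ball (c + w + β₀ * I) r → s - β₀ * I ∈ ball (c + w) r := by
    intro s hs
    rw [mem_ball, dist_eq_norm] at hs ⊢
    have h2 : s - β₀ * I - (c + w) = s - (c + w + β₀ * I) := by ring
    rw [h2]
    exact hs
  refine ⟨c + w + β₀ * I, r, fun s => V (s - β₀ * I), ?_, hr, ?_, ?_⟩
  · rw [Complex.add_re, hcw]
    simp
  · intro s hs
    have h2 : AnalyticAt ℂ V (s - β₀ * I) := hV.analyticAt (isOpen_ball.mem_nhds (hshift s hs))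
    have h3 : AnalyticAt ℂ (fun s : ℂ => s - β₀ * I) s := by fun_prop
    exact (AnalyticAt.fun_comp (f := fun s : ℂ => s - β₀ * I) h2 h3).meromorphicAt
  · intro s hs hsx
    have hre : x < (s - β₀ * I).re := by
      simpa using hsx
    have h2 := hVG _ (hshift s hs) hre
    have h3 : Tendsto (fun z : ℂ => z - β₀ * I) (𝓝[≠] s) (𝓝[≠] (s - β₀ * I)) := by
      refine tendsto_nhdsWithin_of_tendsto_nhds_of_eventually_within _ ?_ ?_
      · exact ((continuous_id.sub continuous_const).tendsto s).mono_left nhdsWithin_le_nhds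
      · filter_upwards [self_mem_nhdsWithin] with z hz heq
        exact hz (sub_left_injective heq)
    have h4 := h3.eventually h2
    filter_upwards [h4] with z hz
    rw [hz, sub_add_cancel]

end Pool.Agent.ZT
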