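import Pool.Agent.W_eea520_h69.EvDefs
import Pool.Agent.W_eea520_h69.UFamA
import Pool.Agent.W_eea520_h25.Spin
import Pool.Agent.W_eea520_h25.ContA
import Pool.Agent.W_eea520_h25.Euler

/-! The exterior powers of the standard representation of an induced system. -/

set_option autoImplicit false

namespace Pool.Agent.EEA520

open Filter Polynomial

/-- `∏ (1 + [w] X)` over the weights of the standard representation. -/
noncomputable def genV (n : ℕ) : (R n)[X] := ((stdW n).map fun w => (1 + C (mon w) * X : (R n)[X])).prod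

/-- The same for a system of parameters. -/
noncomputable def stdP {n : ℕ} (π : GSys n) : Dat[X] := (genV n).map (Phi π)

theorem stdP_coeff {n : ℕ} (π : GSys n) (j : ℕ) : (stdP π).coeff j = Phi π (extV n j) := by
  rw [stdP, coeff_map]
  rfl

/-- `∏ (1 + [σ_i] X)`. -/
noncomputable def EP {k : ℕ} (σ : GLSys k) : Dat[X] := ∏ i, (1 + C (fun p => el (σ p i) : Dat) * X : Dat[X])

theorem EP_coeff {k : ℕ} (σ : GLSys k) (a : ℕ) : (EP σ).coeff a = extD σ a := by
  funext p
  have h1 : (∏ i, (1 + C (el (σ p i)) * X : A[X])) = (EP σ).map (Pi.evalRingHom (fun _ : Pr => A) p) := by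
    rw [EP, Polynomial.map_prod]
    refine Finset.prod_congr rfl fun i _ => ?_
    simp
  simp only [extD]
  rw [h1, Polynomial.coeff_map]
  rfl

theorem EP_append {n k : ℕ} (x : GLSys n) (y : GLSys k) :
    EP (fun p => Fin.append (x p) (y p)) = EP x * EP y := by
  unfold EP
  rw [Fin.prod_univ_add]
  simp only [Fin.append_left, Fin.append_right]

theorem Phi_mon' {n : ℕ} (π : GSys n) (w : Wt n) : Phi π (mon w) = fun p => el ((π p).ev w) := by
  funext p
  exact evT_mon _ _

theorem EvA_single {n : ℕ} (t : Torus n) (i : Fin n) :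
    t.ev ((0 : ℤ), Pi.single i (1 : ℤ)) = t.x i := by
  simp only [Torus.ev, zpow_zero, one_mul]
  rw [Finset.prod_eq_single i]
  · simp
  · intro j _ hj
    simp [hj]
  · simp

theorem EvA_neg_single {n : ℕ} (t : Torus n) (i : Fin n) :
    t.ev ((0 : ℤ), -Pi.single i (1 : ℤ)) = (t.x i)⁻¹ := by
  simp only [Torus.ev, zpow_zero, one_mul]
  rw [Finset.prod_eq_single i]
  · simp
  · intro j _ hj
    simp [hj]
  · simp

theorem stdP_eq {n : ℕ} (π : GSys n) :
    stdP π = (1 + X) * (EP (fun p => (π p).x) * EP fun p i => ((π p).x i)⁻¹) := by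
  unfold stdP genV
  rw [Polynomial.map_multiset_prod, Multiset.map_map]
  unfold stdW
  rw [Multiset.map_cons, Multiset.prod_cons, Multiset.map_add, Multiset.prod_add, Multiset.map_map,
    Multiset.map_map]
  have h0 : ∀ w : Wt n, (1 + C (mon w) * X : (R n)[X]).map (Phi π) =
      1 + C (fun p => el ((π p).ev w) : Dat) * X := by
    intro w
    rw [Polynomial.map_add, Polynomial.map_one, Polynomial.map_mul, Polynomial.map_C,
      Polynomial.map_X, Phi_mon']
  have h1 : (fun p => el ((π p).ev (0 : Wt n)) : Dat) = 1 := by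
    funext p
    simp [Torus.ev, el, MonoidAlgebra.one_def]
  simp only [Function.comp_def, h0, h1, EvA_single, EvA_neg_single, map_one, one_mul]
  rfl

/-- The twist of a system for `GL_k`. -/
noncomputable def twL {k : ℕ} (σ : GLSys k) (z : ℂ) : GLSys k := fun p i => σ p i * ppow p z

/-- The inverse parameters. -/
noncomputable def invL {k : ℕ} (σ : GLSys k) : GLSys k := fun p i => (σ p i)⁻¹

theorem EP_tw {k : ℕ} (σ : GLSys k) (z : ℂ) : EP (twL σ z) = (EP σ).comp (C (tw z) * X) := by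
  unfold EP
  rw [Polynomial.prod_comp]
  refine Finset.prod_congr rfl fun i _ => ?_
  rw [add_comp, one_comp, mul_comp, C_comp, X_comp, ← mul_assoc, ← C_mul]
  congr 3
  funext p
  simp only [twL, el, tw, map_mul, Pi.mul_apply]

theorem extD_twL {k : ℕ} (σ : GLSys k) (z : ℂ) (a : ℕ) : extD (twL σ z) a = tw z ^ a * extD σ a := by
  rw [← EP_coeff, EP_tw, comp_C_mul_X_coeff, EP_coeff, mul_comm]

theorem invL_twL {k : ℕ} (σ : GLSys k) (z : ℂ) : invL (twL σ z) = twL (invL σ) (-z) := by
  funext p i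
  simp only [invL, twL, mul_inv]
  rw [show ppow p (-z) = (ppow p z)⁻¹ from ppow_neg p z]

theorem stdP_induce {n k : ℕ} (π : GSys n) (σ : GLSys k) (z : ℂ) :
    stdP (induce π σ z) = stdP π * (EP (twL σ z) * EP (twL (invL σ) (-z))) := by
  rw [stdP_eq, stdP_eq, ← invL_twL]
  have h1 : (fun p => (induce π σ z p).x : GLSys (n + k)) =
      fun p => Fin.append ((π p).x) (twL σ z p) := rfl
  have h2 : (fun p i => ((induce π σ z p).x i)⁻¹ : GLSys (n + k)) =
      fun p => Fin.append (fun i => ((π p).x i)⁻¹) (invL (twL σ z) p) := by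
    funext p i
    show (Fin.append ((π p).x) (twL σ z p) i)⁻¹ = _
    refine Fin.addCases (fun i => ?_) (fun i => ?_) i
    · rw [Fin.append_left, Fin.append_left]
    · rw [Fin.append_right, Fin.append_right]
      rfl
  rw [h1, h2, EP_append (fun p => (π p).x) (twL σ z),
    EP_append (fun p i => ((π p).x i)⁻¹) (invL (twL σ z))]
  ring

theorem EP_sum {k : ℕ} (σ : GLSys k) : EP σ = ∑ b ∈ Finset.range (k + 1), C (extD σ b) * X ^ b := by
  ext1 m
  rw [EP_coeff, finsetSum_coeff]
  simp only [coeff_C_mul_X_pow]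
  by_cases hm : m ∈ Finset.range (k + 1)
  · rw [Finset.sum_ite_eq, if_pos hm]
  · rw [Finset.sum_ite_eq, if_neg hm, extD_of_lt σ m (by simpa using hm)]

/-- The homogeneous part of degree `d` of `EP σ * EP (invL σ)`. -/
noncomputable def HH {k : ℕ} (σ : GLSys k) (d : ℤ) : Dat[X] :=
  ∑ x ∈ (Finset.range (k + 1) ×ˢ Finset.range (k + 1)) with (x.1 : ℤ) - x.2 = d,
    C (extD σ x.1 * extD (invL σ) x.2) * X ^ (x.1 + x.2)

theorem tw_intpow (z : ℂ) (b c : ℕ) : tw z ^ b * tw (-z) ^ c = tw (((b : ℤ) - (c : ℤ) : ℤ) * z) := by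
  rw [tw_pow, tw_pow]
  have h : (((b : ℤ) - (c : ℤ) : ℤ) : ℂ) * z = b * z + c * (-z) := by
    push_cast
    ring
  rw [h]
  funext p
  simp only [tw, Pi.mul_apply, el, ← map_mul]
  rw [ppow_add]

theorem EP_mul_inv {k : ℕ} (σ : GLSys k) (z : ℂ) :
    EP (twL σ z) * EP (twL (invL σ) (-z)) =
      ∑ d ∈ Finset.Icc (-(k : ℤ)) k, C (tw (d * z)) * HH σ d := by
  rw [EP_sum, EP_sum, Finset.sum_mul_sum, ← Finset.sum_product']
  have h1 : ∀ d : ℤ, C (tw (d * z)) * HH σ d =
      ∑ x ∈ (Finset.range (k + 1) ×ˢ Finset.range (k + 1)) with (x.1 : ℤ) - x.2 = d,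
        C (extD (twL σ z) x.1) * X ^ x.1 * (C (extD (twL (invL σ) (-z)) x.2) * X ^ x.2) := by
    intro d
    rw [HH, Finset.mul_sum]
    refine Finset.sum_congr rfl fun x hx => ?_
    rw [extD_twL, extD_twL, ← (Finset.mem_filter.1 hx).2, ← tw_intpow, C_mul, C_mul, C_mul, C_mul,
      pow_add]
    ring
  simp only [h1]
  rw [Finset.sum_fiberwise_of_maps_to]
  intro x hx
  rw [Finset.mem_product, Finset.mem_range, Finset.mem_range] at hx
  rw [Finset.mem_Icc]
  omega

theorem HH_coeff {k : ℕ} (σ : GLSys k) (d : ℤ) (m : ℕ) : (HH σ d).coeff m =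
    ∑ x ∈ (Finset.range (k + 1) ×ˢ Finset.range (k + 1)) with (x.1 : ℤ) - x.2 = d,
      if m = x.1 + x.2 then extD σ x.1 * extD (invL σ) x.2 else 0 := by
  rw [HH, finsetSum_coeff]
  simp only [coeff_C_mul_X_pow]

theorem HH_coeff_lt {k : ℕ} (σ : GLSys k) (a m : ℕ) (h : m < a) : (HH σ a).coeff m = 0 := by
  rw [HH_coeff]
  refine Finset.sum_eq_zero fun x hx => if_neg ?_
  have := (Finset.mem_filter.1 hx).2
  omega

theorem HH_coeff_eq {k : ℕ} (σ : GLSys k) (a : ℕ) (h : a ≤ k) : (HH σ a).coeff a = extD σ a := by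
  rw [HH_coeff, Finset.sum_eq_single (a, 0)]
  · rw [if_pos (by simp), extD_zero, mul_one]
  · intro x hx hne
    refine if_neg fun h1 => hne ?_
    have h2 := (Finset.mem_filter.1 hx).2
    refine Prod.ext ?_ ?_
    · show x.1 = a
      omega
    · show x.2 = 0
      omega
  · intro hn
    exfalso
    apply hn
    rw [Finset.mem_filter, Finset.mem_product, Finset.mem_range, Finset.mem_range]
    refine ⟨⟨by omega, by omega⟩, by simp⟩

end Pool.Agent.EEA520
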