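import Pool.Agent.W_eea520_h69.EvA

/-! Families and the lowest coefficients of their pieces. -/

set_option autoImplicit false

namespace Pool.Agent.EEA520

open Filter Polynomial

variable {S : (k : ℕ) → Set (GLSys k)} {P : (n : ℕ) → Set (GSys n)}

/-- One of the pieces of the family `stdP (F t)` is divisible by `X ^ J` and has the coefficient `Y`
at `X ^ J`. -/
def Low {L n : ℕ} (F : (Fin L → ℝ) → GSys n) (J : ℕ) (Y : Dat) : Prop :=
  ∃ (A : Finset (Fin L → ℤ)) (G : (Fin L → ℤ) → Dat[X]) (a₀ : Fin L → ℤ), a₀ ∈ A ∧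
    (∀ a ∈ A, ∀ j, (G a).coeff j ∈ BB) ∧
    (∀ t, stdP (F t) = ∑ a ∈ A, C (tw (pr a t * Complex.I)) * G a) ∧
    (∀ j < J, (G a₀).coeff j = 0) ∧ (G a₀).coeff J = Y

theorem extD_invL_mem {k : ℕ} {σ : GLSys k} (hσ : BddL (invL σ)) (a : ℕ) : extD (invL σ) a ∈ BB :=
  extD_mem hσ a

theorem HH_mem {k : ℕ} {σ : GLSys k} (h1 : BddL σ) (h2 : BddL (invL σ)) (d : ℤ) (j : ℕ) :
    (HH σ d).coeff j ∈ BB := by
  rw [HH_coeff]
  refine sum_mem fun x _ => ?_
  split_ifs
  · exact mul_mem (extD_mem h1 _) (extD_mem h2 _)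
  · exact zero_mem _

theorem Low.base (π : GSys 0) :
    Low (L := 0) (fun _ : Fin 0 → ℝ => π) 0 (1 : Dat) := by
  have h1 : stdP π = 1 + X := by
    rw [stdP_eq, EP, EP, Finset.univ_eq_empty, Finset.prod_empty, Finset.prod_empty, mul_one,
      mul_one]
  refine ⟨{0}, fun _ => 1 + X, 0, Finset.mem_singleton_self _, ?_, ?_, ?_, ?_⟩
  · intro a _ j
    rw [coeff_add, coeff_one, coeff_X]
    refine add_mem ?_ ?_ <;> split_ifs <;> first | exact one_mem _ | exact zero_mem _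
  · intro t
    have h2 : pr (0 : Fin 0 → ℤ) t = 0 := by
      unfold pr
      simp
    rw [Finset.sum_singleton, h2, Complex.ofReal_zero, zero_mul, tw_zero, map_one, one_mul, h1]
  · intro j hj
    omega
  · simp

theorem Low.ind {L n k : ℕ} {F : (Fin L → ℝ) → GSys n} {J : ℕ} {Y : Dat} (h : Low F J Y)
    {σ : GLSys k} (h1 : BddL σ) (h2 : BddL (invL σ)) {a : ℕ} (ha : a ≤ k) :
    Low (fun t : Fin (L + 1) → ℝ =>
      induce (F fun j => t j.castSucc) σ (t (Fin.last L) * Complex.I)) (J + a) (Y * extD σ a) := by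
  classical
  obtain ⟨A, G, a₀, ha₀, hB, hS, hlow, hY⟩ := h
  obtain ⟨e, he⟩ : ∃ e : ((Fin L → ℤ) × ℤ) ↪ (Fin (L + 1) → ℤ),
      ∀ x, e x = Fin.snoc (α := fun _ => ℤ) x.1 x.2 := by
    refine ⟨⟨fun x => Fin.snoc (α := fun _ => ℤ) x.1 x.2, ?_⟩, fun x => rfl⟩
    intro x y hxy
    have h5 := Fin.snoc_injective2 hxy
    exact Prod.ext h5.1 h5.2
  have hl : ∀ x, e x (Fin.last L) = x.2 := fun x => by rw [he, Fin.snoc_last]
  have hc : ∀ x, (fun i : Fin L => e x i.castSucc) = x.1 := fun x => by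
    funext i
    rw [he, Fin.snoc_castSucc]
  refine ⟨(A ×ˢ Finset.Icc (-(k : ℤ)) k).map e,
    fun b => (G fun i => b i.castSucc) * HH σ (b (Fin.last L)), e (a₀, (a : ℤ)), ?_, ?_, ?_, ?_, ?_⟩
  · refine Finset.mem_map_of_mem e (Finset.mem_product.2 ⟨ha₀, ?_⟩)
    rw [Finset.mem_Icc]
    omega
  · intro b hb j
    obtain ⟨x, hx, rfl⟩ := Finset.mem_map.1 hb
    beta_reduce
    rw [hc, coeff_mul]
    exact sum_mem fun y _ => mul_mem (hB _ (Finset.mem_product.1 hx).1 _) (HH_mem h1 h2 _ _)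
  · intro t
    rw [stdP_induce, hS, EP_mul_inv, Finset.sum_mul_sum, ← Finset.sum_product', Finset.sum_map]
    refine Finset.sum_congr rfl fun x _ => ?_
    beta_reduce
    rw [hl, hc, he, pr_snoc]
    have h5 : ((pr x.1 (fun i => t i.castSucc) + (x.2 : ℝ) * t (Fin.last L) : ℝ) : ℂ) *
        Complex.I = (pr x.1 (fun i => t i.castSucc) : ℂ) * Complex.I +
          x.2 * (t (Fin.last L) * Complex.I) := by
      push_cast
      ring
    rw [h5, tw_add, C_mul]
    ring
  · intro j hj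
    beta_reduce
    rw [hl, hc, coeff_mul]
    refine Finset.sum_eq_zero fun y hy => ?_
    have hy' := Finset.HasAntidiagonal.mem_antidiagonal.1 hy
    rcases lt_or_ge y.1 J with h6 | h6
    · rw [hlow _ h6, zero_mul]
    · rw [HH_coeff_lt σ a y.2 (by omega), mul_zero]
  · beta_reduce
    rw [hl, hc, coeff_mul, Finset.sum_eq_single (J, a)]
    · rw [hY, HH_coeff_eq σ a ha]
    · intro y hy hne
      have hy' := Finset.HasAntidiagonal.mem_antidiagonal.1 hy
      rcases lt_or_ge y.1 J with h6 | h6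
      · rw [hlow _ h6, zero_mul]
      · have h7 : y.2 < a := by
          rcases lt_or_eq_of_le h6 with h8 | h8
          · omega
          · exfalso
            apply hne
            refine Prod.ext h8.symm ?_
            show y.2 = a
            omega
        rw [HH_coeff_lt σ a y.2 h7, mul_zero]
    · intro hn
      exact absurd (by rw [Finset.HasAntidiagonal.mem_antidiagonal]) hn

/-- Families exist for every list. -/
theorem exists_low (h : IsCuspidal S P) :
    ∀ l : List (Σ k : ℕ, GLSys k × ℕ), (∀ x ∈ l, 0 < x.1 ∧ x.2.1 ∈ S x.1 ∧ x.2.2 ≤ x.1) →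
      ∃ (n L : ℕ) (F : (Fin L → ℝ) → GSys n), n = (l.map fun x => x.1).sum ∧
        UFam S Triv L n F ∧
        Low F (l.map fun x => x.2.2).sum (l.map fun x => extD x.2.1 x.2.2).prod := by
  intro l
  induction l with
  | nil =>
    intro _
    exact ⟨0, 0, fun _ => fun _ => ⟨1, Fin.elim0⟩, rfl, UFam.base ⟨rfl, fun _ => rfl⟩,
      Low.base _⟩
  | cons x l ih =>
    intro hl
    obtain ⟨n, L, F, hn, hF, hlow⟩ := ih fun y hy => hl y (List.mem_cons_of_mem _ hy)
    obtain ⟨k, σ, a⟩ := x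
    obtain ⟨hk, hσ, ha⟩ := hl ⟨k, σ, a⟩ (List.mem_cons_self)
    have hb1 : BddL σ := by
      obtain ⟨B, hB⟩ := h.bddS k σ hσ
      exact ⟨B, hB.mono fun p hp i => (hp i).1⟩
    have hb2 : BddL (invL σ) := by
      obtain ⟨B, hB⟩ := h.bddS k σ hσ
      exact ⟨B, hB.mono fun p hp i => (hp i).2⟩
    have h1 := hlow.ind hb1 hb2 ha
    have h2 := UFam.ind hk hF hσ
    refine ⟨n + k, L + 1, _, ?_, h2, ?_⟩
    · rw [List.map_cons, List.sum_cons, hn, add_comm]
    · simp only [List.map_cons, List.sum_cons, List.prod_cons]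
      rw [add_comm a, mul_comm (extD σ a)]
      exact h1

end Pool.Agent.EEA520
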