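import Pool.Agent.W_eea520_h69.EvB
import Pool.Agent.W_eea520_h25.Iso
import Pool.Agent.W_eea520_h25.AlgE
import Pool.Agent.W_eea520_h25.SymA

/-! Even characters of `GSpin_{2n+1}`, exterior powers and the general linear groups. -/

set_option autoImplicit false

namespace Pool.Agent.EEA520

open Filter Polynomial

variable {S : (k : ℕ) → Set (GLSys k)} {P : (n : ℕ) → Set (GSys n)}

/-- The twists of the members of `S k`. -/
def TwS (S : (k : ℕ) → Set (GLSys k)) (k : ℕ) : Set (GLSys k) :=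
  {τ | ∃ σ ∈ S k, ∃ z : ℂ, τ = twL σ z}

theorem TwS_one {χ : GLSys 1} (hχ : χ ∈ S 1) (t : ℂ) : twL χ t ∈ TwS S 1 := ⟨χ, hχ, t, rfl⟩

theorem TwS_bddL (h : IsCuspidal S P) {k : ℕ} {τ : GLSys k} (hτ : τ ∈ TwS S k) : BddL τ := by
  obtain ⟨σ, hσ, z, rfl⟩ := hτ
  obtain ⟨B, hB⟩ := h.bddS k σ hσ
  refine ⟨B + z.re, hB.mono fun p hp i => ?_⟩
  have hp0 : (0 : ℝ) < ((p : ℕ) : ℝ) := Nat.cast_pos.2 p.2.pos
  have h1 : ‖((ppow p z : ℂˣ) : ℂ)‖ = ((p : ℕ) : ℝ) ^ z.re := by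
    show ‖((p : ℕ) : ℂ) ^ z‖ = _
    rw [← Complex.ofReal_natCast, Complex.norm_cpow_eq_rpow_re_of_pos hp0]
  show ‖((σ p i * ppow p z : ℂˣ) : ℂ)‖ ≤ _
  rw [Units.val_mul, norm_mul, h1, Real.rpow_add hp0]
  exact mul_le_mul_of_nonneg_right (hp i).1 (Real.rpow_nonneg hp0.le _)

theorem MM_mem_BB (h : IsCuspidal S P) {D : Dat} (hD : D ∈ MM (TwS S)) : D ∈ BB := by
  have h1 : MM (TwS S) ≤ BB := by
    rw [MM, Subring.closure_le]
    rintro D ⟨k, σ, a, hσ, rfl⟩
    exact extD_mem (TwS_bddL h hσ) a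
  exact h1 hD

/-- The members of the families attached to the Siegel parabolic subgroup. -/
theorem UFam.eis_triv (h : IsCuspidal S P) {L n : ℕ} {F : (Fin L → ℝ) → GSys n}
    (hF : UFam S Triv L n F) : ∀ t, Eis S P n (F t) := by
  induction hF with
  | @base n π hπ =>
    obtain ⟨rfl, hc⟩ := hπ
    obtain ⟨π₀, hπ₀, h1⟩ := h.triv
    refine fun _ => Eis.congr (Eis.base hπ₀) ?_
    filter_upwards [h1] with p hp
    refine Torus.ext ?_ ?_
    · rw [hp, hc p]
    · funext i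
      exact i.elim0
  | ind _ _ hσ ih => exact fun t => Eis.ind _ (ih _) hσ

/-- From monomials in the exterior powers of the members of `S` to everything. -/
theorem cont_MM
    (hm : ∀ l : List (Σ k : ℕ, GLSys k × ℕ), (∀ x ∈ l, 0 < x.1 ∧ x.2.1 ∈ S x.1 ∧ x.2.2 ≤ x.1) →
      Cont (l.map fun x => extD x.2.1 x.2.2).prod) {D : Dat} (hD : D ∈ MM (TwS S)) : Cont D := by
  have hmon : ∀ D ∈ Submonoid.closure {D : Dat | ∃ (k : ℕ) (σ : GLSys k) (a : ℕ),
      σ ∈ TwS S k ∧ D = extD σ a}, Cont D := by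
    have key : ∀ D ∈ Submonoid.closure {D : Dat | ∃ (k : ℕ) (σ : GLSys k) (a : ℕ),
        σ ∈ TwS S k ∧ D = extD σ a}, D = 0 ∨ ∃ (w : ℂ) (l : List (Σ k : ℕ, GLSys k × ℕ)),
          (∀ x ∈ l, 0 < x.1 ∧ x.2.1 ∈ S x.1 ∧ x.2.2 ≤ x.1) ∧
          D = tw w * (l.map fun x => extD x.2.1 x.2.2).prod := by
      intro D hD
      induction hD using Submonoid.closure_induction_left with
      | one => exact Or.inr ⟨0, [], by simp, by simp [tw_zero]⟩
      | mul_left x hx y hy ih =>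
        obtain ⟨k, τ, a, ⟨σ, hσ, z, rfl⟩, rfl⟩ := hx
        rcases ih with rfl | ⟨w, l, hl, rfl⟩
        · exact Or.inl (mul_zero _)
        rcases Nat.eq_zero_or_pos k with rfl | hk
        · rcases Nat.eq_zero_or_pos a with rfl | ha
          · exact Or.inr ⟨w, l, hl, by rw [extD_zero, one_mul]⟩
          · left
            rw [extD_of_lt _ a ha, zero_mul]
        rcases le_or_gt a k with hak | hak
        · right
          refine ⟨a * z + w, ⟨k, σ, a⟩ :: l, ?_, ?_⟩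
          · intro x hx
            rcases List.mem_cons.1 hx with rfl | hx
            · exact ⟨hk, hσ, hak⟩
            · exact hl x hx
          · rw [List.map_cons, List.prod_cons, extD_twL, tw_pow, tw_add]
            ring
        · left
          rw [extD_of_lt _ a hak, zero_mul]
    intro D hD
    rcases key D hD with rfl | ⟨w, l, hl, rfl⟩
    · exact cont_zero
    · exact (hm l hl).tw w
  rw [MM, Subring.mem_closure_iff] at hD
  induction hD using AddSubgroup.closure_induction with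
  | mem x hx => exact hmon x hx
  | zero => exact cont_zero
  | add x y _ _ hx hy => exact hx.add hy
  | neg x _ hx => exact hx.neg

/-- (a) gives all monomials. -/
theorem mono_of_a (h : IsCuspidal S P)
    (ha : ∀ N : ℕ, ∃ n j : ℕ, N ≤ j ∧ j + N ≤ n ∧ ∀ (L : ℕ) (F : (Fin L → ℝ) → GSys n),
      UFam S Triv L n F → ¬ Small {t | Continues (F t) (extV n j).coeff})
    (l : List (Σ k : ℕ, GLSys k × ℕ)) (hl : ∀ x ∈ l, 0 < x.1 ∧ x.2.1 ∈ S x.1 ∧ x.2.2 ≤ x.1) :
    Cont (l.map fun x => extD x.2.1 x.2.2).prod := by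
  obtain ⟨χ, hχ, hχ1⟩ := h.one
  obtain ⟨D, hD⟩ : ∃ D, D = (l.map fun x => x.1).sum := ⟨_, rfl⟩
  obtain ⟨J, hJ⟩ : ∃ J, J = (l.map fun x => x.2.2).sum := ⟨_, rfl⟩
  have hJD : J ≤ D := by
    rw [hJ, hD]
    exact List.sum_le_sum fun x hx => (hl x hx).2.2
  obtain ⟨n, j, hNj, hjn, hc⟩ := ha D
  obtain ⟨u, hu⟩ : ∃ u, u = j - J := ⟨_, rfl⟩
  obtain ⟨v, hv⟩ : ∃ v, v = n - D - u := ⟨_, rfl⟩
  obtain ⟨n', L, F, hn', hF, A, G, a₀, ha₀, hB, hS, -, hY⟩ := exists_low h
    (List.replicate v ⟨1, χ, 0⟩ ++ (List.replicate u ⟨1, χ, 1⟩ ++ l)) (by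
      intro x hx
      rw [List.mem_append, List.mem_append] at hx
      rcases hx with hx | hx | hx
      · obtain rfl := List.eq_of_mem_replicate hx
        exact ⟨Nat.one_pos, hχ, Nat.zero_le _⟩
      · obtain rfl := List.eq_of_mem_replicate hx
        exact ⟨Nat.one_pos, hχ, le_rfl⟩
      · exact hl x hx)
  simp only [List.map_append, List.map_replicate, List.sum_append, List.sum_replicate,
    smul_eq_mul, mul_one, mul_zero, zero_add, List.prod_append, List.prod_replicate,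
    ← hD, ← hJ, extD_zero, one_pow, one_mul] at hn' hY
  have hnn : n' = n := by omega
  subst hnn
  have hjj : u + J = j := by omega
  rw [hjj] at hY
  have h5 := hc L F hF
  have h6 : ∀ t, Continues (F t) (extV n' j).coeff ↔
      Cont (∑ a ∈ A, tw (pr a t * Complex.I) * (G a).coeff j) := by
    intro t
    rw [continues_iff ((hF.eis_triv h t).bdd h), ← stdP_coeff, hS, finsetSum_coeff]
    simp only [coeff_C_mul]
  simp only [h6] at h5
  have h7 := cont_of_not_small A (fun a => (G a).coeff j) (fun a ha => hB a ha j) h5 a₀ ha₀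
  rw [hY] at h7
  refine cont_congr ?_ ?_ h7
  · refine list_prod_mem fun D hD => ?_
    obtain ⟨x, hx, rfl⟩ := List.mem_map.1 hD
    obtain ⟨B, hB⟩ := h.bddS _ _ (hl x hx).2.1
    exact extD_mem ⟨B, hB.mono fun p hp i => (hp i).1⟩ _
  · filter_upwards [hχ1] with p hp
    rw [Pi.mul_apply, Pi.pow_apply, extD_one, hp]
    have : el 1 = 1 := by
      unfold el
      exact map_one _
    rw [this, one_pow, one_mul]

theorem prod_EP {r : ℕ} {d : Fin r → ℕ} (σ : (j : Fin r) → GLSys (d j)) (a : ℕ) (p : Pr) :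
    (∏ j, ∏ i, (1 + C (el (σ j p i)) * X : A[X])).coeff a = (∏ j, EP (σ j)).coeff a p := by
  have h1 : (∏ j, ∏ i, (1 + C (el (σ j p i)) * X : A[X])) =
      (∏ j, EP (σ j)).map (Pi.evalRingHom (fun _ : Pr => A) p) := by
    rw [Polynomial.map_prod]
    refine Finset.prod_congr rfl fun j _ => ?_
    rw [EP, Polynomial.map_prod]
    refine Finset.prod_congr rfl fun i _ => ?_
    simp
  rw [h1, Polynomial.coeff_map]
  rfl

/-- The exterior powers of an isobaric sum. -/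
theorem extD_isobaric {N : ℕ} {τ : GLSys N} (a : ℕ) (p : Pr) (r : ℕ) (d : Fin r → ℕ)
    (σ : (j : Fin r) → GLSys (d j))
    (h : Finset.univ.val.map (τ p) = ∑ j, Finset.univ.val.map (σ j p)) :
    extD τ a p = (∏ j, ∏ i, (1 + C (el (σ j p i)) * X : A[X])).coeff a := by
  have h1 : (∏ i, (1 + C (el (τ p i)) * X : A[X])) =
      ((Finset.univ.val.map (τ p)).map fun u => (1 + C (el u) * X : A[X])).prod := by
    rw [Multiset.map_map]
    rfl
  have h4 : ∀ (s : Finset (Fin r)), ((∑ j ∈ s, Finset.univ.val.map (σ j p)).map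
      fun u => (1 + C (el u) * X : A[X])).prod =
      ∏ j ∈ s, ∏ i, (1 + C (el (σ j p i)) * X : A[X]) := by
    intro s
    induction s using Finset.induction_on with
    | empty => simp
    | insert b s hb ih =>
      rw [Finset.sum_insert hb, Finset.prod_insert hb, Multiset.map_add, Multiset.prod_add, ih,
        Multiset.map_map]
      rfl
  unfold extD
  rw [h1, h, h4]

theorem det_isobaric {N : ℕ} {τ : GLSys N} (p : Pr) (r : ℕ) (d : Fin r → ℕ)
    (σ : (j : Fin r) → GLSys (d j))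
    (h : Finset.univ.val.map (τ p) = ∑ j, Finset.univ.val.map (σ j p)) :
    ∏ i, τ p i = ∏ j, ∏ i, σ j p i := by
  have h1 : ∏ i, τ p i = (Finset.univ.val.map (τ p)).prod := rfl
  have h4 : ∀ (s : Finset (Fin r)), (∑ j ∈ s, Finset.univ.val.map (σ j p)).prod =
      ∏ j ∈ s, ∏ i, σ j p i := by
    intro s
    induction s using Finset.induction_on with
    | empty => simp
    | insert b s hb ih =>
      rw [Finset.sum_insert hb, Finset.prod_insert hb, Multiset.prod_add, ih]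
      rfl
  rw [h1, h, h4]

/-- The determinants of isobaric sums. -/
theorem det_char (h : IsCuspidal S P) (r : ℕ) (d : Fin r → ℕ) (σ : (j : Fin r) → GLSys (d j))
    (z : Fin r → ℂ) (hσ : ∀ j, σ j ∈ S (d j)) :
    ∃ χ ∈ S 1, ∃ t : ℂ, ∀ᶠ p in cofinite, ∏ j, ∏ i, σ j p i * ppow p (z j) =
      χ p 0 * ppow p t := by
  induction r with
  | zero =>
    obtain ⟨χ, hχ, h1⟩ := h.one
    refine ⟨χ, hχ, 0, ?_⟩
    filter_upwards [h1] with p hp
    rw [hp, ppow_zero, mul_one]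
    exact Fin.prod_univ_zero _
  | succ r ih =>
    obtain ⟨χ, hχ, t, h1⟩ := ih (fun j => d j.succ) (fun j => σ j.succ) (fun j => z j.succ)
      fun j => hσ j.succ
    obtain ⟨χ', hχ', h2⟩ := h.det _ _ (hσ 0)
    obtain ⟨χ'', hχ'', h3⟩ := h.mul χ' hχ' χ hχ
    refine ⟨χ'', hχ'', (d 0 : ℕ) * z 0 + t, ?_⟩
    filter_upwards [h1, h2, h3] with p h4 h5 h6
    rw [Fin.prod_univ_succ, h4, h6, Finset.prod_mul_distrib, ← h5, Finset.prod_const,
      Finset.card_univ, Fintype.card_fin, ppow_add, ppow_nat_mul]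
    simp only [mul_assoc, mul_left_comm]

theorem list_MM {T : (k : ℕ) → Set (GLSys k)} (r : ℕ) (d : Fin r → ℕ)
    (σ : (j : Fin r) → GLSys (d j)) (hσ : ∀ j, σ j ∈ T (d j)) (l : List ℕ) :
    ∃ D ∈ MM T, ∀ p, D p =
      (l.map fun a => (∏ j, ∏ i, (1 + C (el (σ j p i)) * X : A[X])).coeff a).prod := by
  induction l with
  | nil => exact ⟨1, one_mem _, fun p => by simp⟩
  | cons a l ih =>
    obtain ⟨D, hD, hl⟩ := ih
    obtain ⟨E, hE, hE'⟩ := exists_MM T r d σ hσ a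
    refine ⟨E * D, mul_mem hE hD, fun p => ?_⟩
    rw [List.map_cons, List.prod_cons, Pi.mul_apply, hl, hE']

theorem list_prod_at (l : List ℕ) (f : ℕ → Dat) (p : Pr) :
    (l.map f).prod p = (l.map fun a => f a p).prod := by
  induction l with
  | nil => rfl
  | cons a l ih => rw [List.map_cons, List.prod_cons, Pi.mul_apply, ih, List.map_cons, List.prod_cons]

theorem Phi_extG' {k : ℕ} (σ : GLSys k) (a : ℕ) (p : Pr) :
    Phi (fun p => (⟨1, σ p⟩ : Torus k)) (extG k a) p = extD σ a p := by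
  show evT _ ((∏ i : Fin k, (1 + C (mon (0, Pi.single i 1)) * X : (R k)[X])).coeff a) = _
  rw [← Polynomial.coeff_map, Polynomial.map_prod]
  unfold extD
  congr 2
  funext i
  rw [Polynomial.map_add, Polynomial.map_one, Polynomial.map_mul, Polynomial.map_C,
    Polynomial.map_X, evT_mon]
  congr 3
  exact congrArg el (EvA_single _ _)

theorem gl_factor' {k : ℕ} (t : Fin k → ℂˣ) (m : (Fin k → ℤ) →₀ ℤ) (q : ℂ) :
    (⟨1, t⟩ : Torus k).factor (m.mapDomain fun μ => ((0 : ℤ), μ)) q = glFactor t m q := by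
  unfold Torus.factor glFactor
  rw [Finsupp.prod_mapDomain_index_inj (fun a b hab => (Prod.mk.injEq _ _ _ _ ▸ hab).2)]
  refine Finset.prod_congr rfl fun μ _ => ?_
  simp only [Torus.ev, one_zpow, one_mul]

/-- Isobaric systems are bounded. -/
theorem bdd_isobaric (h : IsCuspidal S P) {N : ℕ} {τ : GLSys N} (hτ : IsIsobaric S τ) :
    Bdd (fun p => (⟨1, τ p⟩ : Torus N)) := by
  obtain ⟨r, d, σ, z, hσ, he⟩ := hτ
  have h1 : ∀ j, ∃ B : ℝ, ∀ᶠ p : Pr in cofinite, ∀ i,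
      ‖((σ j p i * ppow p (z j) : ℂˣ) : ℂ)‖ ≤ ((p : ℕ) : ℝ) ^ B ∧
      ‖(((σ j p i * ppow p (z j))⁻¹ : ℂˣ) : ℂ)‖ ≤ ((p : ℕ) : ℝ) ^ B := by
    intro j
    obtain ⟨B, hB⟩ := h.bddS _ _ (hσ j)
    refine ⟨B + |(z j).re|, hB.mono fun p hp i => ?_⟩
    have hp0 : (0 : ℝ) < ((p : ℕ) : ℝ) := Nat.cast_pos.2 p.2.pos
    have hp1 : (1 : ℝ) ≤ ((p : ℕ) : ℝ) := by exact_mod_cast p.2.one_lt.le
    have h2 : ∀ w : ℂ, ‖((ppow p w : ℂˣ) : ℂ)‖ = ((p : ℕ) : ℝ) ^ w.re := by
      intro w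
      show ‖((p : ℕ) : ℂ) ^ w‖ = _
      rw [← Complex.ofReal_natCast, Complex.norm_cpow_eq_rpow_re_of_pos hp0]
    constructor
    · rw [Units.val_mul, norm_mul, h2, Real.rpow_add hp0]
      exact mul_le_mul (hp i).1 (Real.rpow_le_rpow_of_exponent_le hp1 (le_abs_self _))
        (Real.rpow_nonneg hp0.le _) (Real.rpow_nonneg hp0.le _)
    · rw [mul_inv, ← ppow_neg, Units.val_mul, norm_mul, h2, Real.rpow_add hp0]
      exact mul_le_mul (hp i).2 (Real.rpow_le_rpow_of_exponent_le hp1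
        (by rw [Complex.neg_re]; exact neg_le_abs _))
        (Real.rpow_nonneg hp0.le _) (Real.rpow_nonneg hp0.le _)
  choose B hB using h1
  refine ⟨∑ j, |B j|, ?_⟩
  filter_upwards [he, eventually_all.2 hB] with p h2 h3
  have hp1 : (1 : ℝ) ≤ ((p : ℕ) : ℝ) := by exact_mod_cast p.2.one_lt.le
  have hB0 : 0 ≤ ∑ j, |B j| := Finset.sum_nonneg fun j _ => abs_nonneg _
  have h4 : (1 : ℝ) ≤ ((p : ℕ) : ℝ) ^ (∑ j, |B j|) := Real.one_le_rpow hp1 hB0
  refine ⟨⟨?_, ?_⟩, fun i => ?_⟩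
  · show ‖((1 : ℂˣ) : ℂ)‖ ≤ _
    simpa using h4
  · show ‖(((1 : ℂˣ)⁻¹ : ℂˣ) : ℂ)‖ ≤ _
    simpa using h4
  · have h5 : τ p i ∈ ∑ j, Finset.univ.val.map fun i => σ j p i * ppow p (z j) := by
      rw [← h2]
      exact Multiset.mem_map_of_mem _ (Finset.mem_univ i)
    obtain ⟨j, -, h6⟩ := Multiset.mem_sum.1 h5
    obtain ⟨i', -, h7⟩ := Multiset.mem_map.1 h6
    have h8 : ((p : ℕ) : ℝ) ^ B j ≤ ((p : ℕ) : ℝ) ^ (∑ j, |B j|) :=
      Real.rpow_le_rpow_of_exponent_le hp1 ((le_abs_self _).trans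
        (Finset.single_le_sum (f := fun j => |B j|) (fun j _ => abs_nonneg _) (Finset.mem_univ j)))
    show ‖((τ p i : ℂˣ) : ℂ)‖ ≤ _ ∧ ‖(((τ p i)⁻¹ : ℂˣ) : ℂ)‖ ≤ _
    rw [← h7]
    exact ⟨(h3 j i').1.trans h8, (h3 j i').2.trans h8⟩

/-- The general linear groups. -/
theorem gl_of_MM (h : IsCuspidal S P) (hM : ∀ D ∈ MM (TwS S), Cont D) {N : ℕ} {τ : GLSys N}
    (hτ : IsIsobaric S τ) (m : (Fin N → ℤ) →₀ ℤ) (hm : IsSymmetric m) : GLContinues τ m := by
  have hbdd := bdd_isobaric h hτ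
  obtain ⟨r, d, σ, z, hσ, he⟩ := hτ
  have key : ∀ (j : ℤ) (l : List ℕ), Cont (Phi (fun p => (⟨1, τ p⟩ : Torus N))
      (mon (0, fun _ => j) * (l.map (extG N)).prod)) := by
    intro j l
    obtain ⟨χ₀, hχ₀, t, hdet⟩ := det_char h r d σ z hσ
    obtain ⟨χ, hχ, hpow⟩ := h.zpow hχ₀ j
    obtain ⟨D, hD, hDp⟩ := list_MM (T := TwS S) r d (fun j => twL (σ j) (z j))
      (fun j => ⟨σ j, hσ j, z j, rfl⟩) l
    have h1 : extD (twL χ (j * t)) 1 * D ∈ MM (TwS S) :=
      mul_mem (Subring.subset_closure ⟨1, _, 1, TwS_one hχ (j * t), rfl⟩) hD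
    refine cont_congr (Phi_mem hbdd _) ?_ (hM _ h1)
    filter_upwards [he, hdet, hpow] with p h2 h3 h4
    have hmap : l.map (⇑(Phi (fun p => (⟨1, τ p⟩ : Torus N))) ∘ extG N) = l.map (extD τ) :=
      List.map_congr_left fun a _ => funext fun q => Phi_extG' τ a q
    rw [map_mul, Pi.mul_apply, Pi.mul_apply, extD_one, hDp, map_list_prod, List.map_map, hmap]
    congr 1
    · show _ = evT _ (mon _)
      rw [evT_mon]
      congr 1
      simp only [Torus.ev, one_zpow, one_mul]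
      rw [Finset.prod_zpow, det_isobaric p r d (fun j => twL (σ j) (z j)) h2]
      show χ p 0 * ppow p (j * t) = (∏ j, ∏ i, σ j p i * ppow p (z j)) ^ j
      rw [h3, h4, ppow_int_mul, mul_zpow]
    · rw [list_prod_at]
      congr 1
      refine List.map_congr_left fun a _ => ?_
      exact (extD_isobaric a p r d (fun j => twL (σ j) (z j)) h2).symm
  let U : AddSubgroup (R N) :=
    { carrier := {f | Cont (Phi (fun p => (⟨1, τ p⟩ : Torus N)) f)}
      zero_mem' := by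
        show Cont (Phi (fun p => (⟨1, τ p⟩ : Torus N)) 0)
        rw [map_zero]
        exact cont_zero
      add_mem' := fun {a b} ha hb => by
        show Cont (Phi (fun p => (⟨1, τ p⟩ : Torus N)) (a + b))
        rw [map_add]
        exact Cont.add ha hb
      neg_mem' := fun {a} ha => by
        show Cont (Phi (fun p => (⟨1, τ p⟩ : Torus N)) (-a))
        rw [map_neg]
        exact Cont.neg ha }
  have h2 := symm_alg N U key m hm
  have h3 := (continues_iff hbdd (AddMonoidAlgebra.ofCoeff (m.mapDomain fun μ => ((0 : ℤ), μ)))).2 h2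
  obtain ⟨S, b, g, hg, hp⟩ := h3
  refine ⟨S, b, g, hg, fun s hs => ?_⟩
  have h4 := hp s hs
  have h5 : (fun p : {p : Pr // p ∉ S} => (⟨1, τ p.1⟩ : Torus N).factor
      (m.mapDomain fun μ => ((0 : ℤ), μ)) (((p.1 : ℕ) : ℂ) ^ (-s))) =
      fun p : {p : Pr // p ∉ S} => glFactor (τ p.1) m (((p.1 : ℕ) : ℂ) ^ (-s)) := by
    funext p
    exact gl_factor' _ _ _
  rw [← h5]
  exact h4

end Pool.Agent.EEA520
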