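import Pool.Agent.W_eea520_h69.EvC

/-! Isobaric sums: closure properties; exterior powers of isobaric sums give all monomials. -/

set_option autoImplicit false

namespace Pool.Agent.EEA520

open Filter Polynomial

variable {S : (k : ℕ) → Set (GLSys k)} {P : (n : ℕ) → Set (GSys n)}

/-- Multisets of parameters which are isobaric sums. -/
def IsoM (S : (k : ℕ) → Set (GLSys k)) (M : Pr → Multiset ℂˣ) : Prop :=
  ∃ (r : ℕ) (d : Fin r → ℕ) (σ : (j : Fin r) → GLSys (d j)) (z : Fin r → ℂ),
    (∀ j, σ j ∈ S (d j)) ∧ ∀ᶠ p in cofinite,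
      M p = ∑ j, Finset.univ.val.map fun i => σ j p i * ppow p (z j)

theorem IsoM.zero : IsoM S fun _ => 0 :=
  ⟨0, Fin.elim0, fun j => j.elim0, Fin.elim0, fun j => j.elim0,
    Eventually.of_forall fun _ => by rw [Fin.sum_univ_zero]⟩

theorem IsoM.add {M M' : Pr → Multiset ℂˣ} (h : IsoM S M) {k : ℕ} {σ : GLSys k} (hσ : σ ∈ S k)
    (z : ℂ) (hM : ∀ᶠ p in cofinite, M' p = M p + Finset.univ.val.map fun i => σ p i * ppow p z) :
    IsoM S M' := by
  obtain ⟨r, d, τ, w, hτ, he⟩ := h
  refine ⟨r + 1, Fin.cons k d, Fin.cons (α := fun j => GLSys ((Fin.cons k d : Fin (r + 1) → ℕ) j)) σ τ,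
    Fin.cons z w, ?_, ?_⟩
  · intro j
    refine Fin.cases ?_ (fun j => ?_) j
    · exact hσ
    · exact hτ j
  · filter_upwards [he, hM] with p h1 h2
    rw [h2, h1, Fin.sum_univ_succ, add_comm]
    rfl

theorem map_append {n k : ℕ} (x : Fin n → ℂˣ) (y : Fin k → ℂˣ) :
    Finset.univ.val.map (Fin.append x y) = Finset.univ.val.map x + Finset.univ.val.map y := by
  rw [Fin.univ_val_map, Fin.univ_val_map, Fin.univ_val_map, List.ofFn_fin_append]
  rfl

/-- The isobaric sum. -/
noncomputable def boxL {n k : ℕ} (x : GLSys n) (y : GLSys k) : GLSys (n + k) :=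
  fun p => Fin.append (x p) (y p)

theorem isobaric_box {n k : ℕ} {x : GLSys n} (hx : IsIsobaric S x) {σ : GLSys k} (hσ : σ ∈ S k)
    (z : ℂ) : IsIsobaric S (boxL x (twL σ z)) :=
  IsoM.add (M := fun p => Finset.univ.val.map (x p)) hx hσ z
    (Eventually.of_forall fun _ => map_append _ _)

theorem isobaric_nil : IsIsobaric S (fun _ => Fin.elim0 : GLSys 0) :=
  IsoM.add_zero_aux
where IsoM.add_zero_aux := (IsoM.zero : IsoM S fun _ => 0)

/-- The exterior powers of `GL_N`. -/
noncomputable def extGL (N j : ℕ) : (Fin N → ℤ) →₀ ℤ :=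
  ∑ I ∈ (Finset.univ : Finset (Fin N)).powersetCard j, Finsupp.single (fun i => if i ∈ I then 1 else 0) 1

theorem extGL_symm (N j : ℕ) : IsSymmetric (extGL N j) := by
  intro τ μ
  unfold extGL
  rw [Finsupp.finsetSum_apply, Finsupp.finsetSum_apply]
  refine Finset.sum_bij (fun I _ => I.map τ.toEmbedding) ?_ ?_ ?_ ?_
  · intro I hI
    rw [Finset.mem_powersetCard] at hI ⊢
    exact ⟨Finset.subset_univ _, by rw [Finset.card_map]; exact hI.2⟩
  · intro I _ I' _ h
    exact Finset.map_injective _ h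
  · intro I hI
    refine ⟨I.map τ.symm.toEmbedding, ?_, ?_⟩
    · rw [Finset.mem_powersetCard] at hI ⊢
      exact ⟨Finset.subset_univ _, by rw [Finset.card_map]; exact hI.2⟩
    · rw [Finset.map_map]
      convert Finset.map_refl
      ext x
      simp
  · intro I _
    rw [Finsupp.single_apply, Finsupp.single_apply]
    have h1 : ((fun i => if i ∈ I then (1 : ℤ) else 0) = μ ∘ τ) ↔
        ((fun i => if i ∈ I.map τ.toEmbedding then (1 : ℤ) else 0) = μ) := by
      constructor
      · intro h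
        funext i
        have h2 := congrFun h (τ.symm i)
        simp only [Function.comp_apply, Equiv.apply_symm_apply] at h2
        rw [← h2]
        congr 1
        rw [Finset.mem_map]
        simp only [Equiv.coe_toEmbedding, eq_iff_iff]
        constructor
        · rintro ⟨a, ha, rfl⟩
          simpa using ha
        · intro ha
          exact ⟨_, ha, by simp⟩
      · intro h
        funext i
        rw [← h]
        simp only [Function.comp_apply]
        congr 1
        rw [Finset.mem_map]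
        simp
    simp only [h1]

theorem extD_eq_sum {k : ℕ} (σ : GLSys k) (j : ℕ) (p : Pr) :
    extD σ j p = ∑ I ∈ (Finset.univ : Finset (Fin k)).powersetCard j, el (∏ i ∈ I, σ p i) := by
  unfold extD
  have h0 : (∏ i, (1 + C (el (σ p i)) * X : A[X])) =
      ∑ I ∈ (Finset.univ : Finset (Fin k)).powerset, ∏ i ∈ I, (C (el (σ p i)) * X : A[X]) :=
    Finset.prod_one_add (f := fun i => (C (el (σ p i)) * X : A[X])) Finset.univ
  rw [h0, finsetSum_coeff]
  have h1 : ∀ I : Finset (Fin k), (∏ i ∈ I, (C (el (σ p i)) * X : A[X])).coeff j =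
      if I.card = j then el (∏ i ∈ I, σ p i) else 0 := by
    intro I
    rw [Finset.prod_mul_distrib, Finset.prod_const, ← map_prod, coeff_C_mul_X_pow]
    by_cases h : I.card = j
    · rw [if_pos h, if_pos h.symm]
      unfold el
      rw [← map_prod]
    · rw [if_neg h, if_neg fun h' => h h'.symm]
  simp only [h1]
  rw [← Finset.sum_filter, Finset.powersetCard_eq_filter]

theorem Phi_extGL {k : ℕ} (σ : GLSys k) (j : ℕ) : Phi (fun p => (⟨1, σ p⟩ : Torus k))
    (AddMonoidAlgebra.ofCoeff ((extGL k j).mapDomain fun μ => ((0 : ℤ), μ))) = extD σ j := by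
  funext p
  rw [extD_eq_sum]
  have h1 : (AddMonoidAlgebra.ofCoeff ((extGL k j).mapDomain fun μ => ((0 : ℤ), μ)) : R k) =
      ∑ I ∈ (Finset.univ : Finset (Fin k)).powersetCard j,
        mon (0, fun i => if i ∈ I then 1 else 0) := by
    unfold extGL
    rw [Finsupp.mapDomain_finsetSum]
    simp only [Finsupp.mapDomain_single]
    rw [AddMonoidAlgebra.ofCoeff_sum]
    rfl
  show evT _ _ = _
  rw [h1, map_sum]
  refine Finset.sum_congr rfl fun I _ => ?_
  rw [evT_mon]
  congr 1
  simp only [Torus.ev, one_zpow, one_mul]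
  rw [← Finset.prod_subset (Finset.subset_univ I)]
  · refine Finset.prod_congr rfl fun i hi => ?_
    rw [if_pos hi, zpow_one]
  · intro i _ hi
    rw [if_neg hi, zpow_zero]

theorem cont_ext_of_gl (h : IsCuspidal S P) {N : ℕ} {τ : GLSys N} (hτ : IsIsobaric S τ) {j : ℕ}
    (hg : GLContinues τ (extGL N j)) : Cont (extD τ j) := by
  have hbdd := bdd_isobaric h hτ
  rw [← Phi_extGL]
  refine (continues_iff hbdd _).1 ?_
  obtain ⟨S, b, g, hg, hp⟩ := hg
  refine ⟨S, b, g, hg, fun s hs => ?_⟩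
  have h4 := hp s hs
  have h5 : (fun p : {p : Pr // p ∉ S} => (⟨1, τ p.1⟩ : Torus N).factor
      (AddMonoidAlgebra.ofCoeff ((extGL N j).mapDomain fun μ => ((0 : ℤ), μ))).coeff
        (((p.1 : ℕ) : ℂ) ^ (-s))) =
      fun p : {p : Pr // p ∉ S} => glFactor (τ p.1) (extGL N j) (((p.1 : ℕ) : ℂ) ^ (-s)) := by
    funext p
    exact gl_factor' _ _ _
  rw [h5]
  exact h4

theorem BddL_of_isobaric (h : IsCuspidal S P) {N : ℕ} {τ : GLSys N} (hτ : IsIsobaric S τ) :
    BddL τ := by
  obtain ⟨B, hB⟩ := bdd_isobaric h hτ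
  exact ⟨B, hB.mono fun p hp i => (hp.2 i).1⟩

/-- Exterior powers of isobaric sums give all monomials. -/
theorem mono_of_gl (h : IsCuspidal S P)
    (hg : ∀ N (τ : GLSys N), IsIsobaric S τ → ∀ j, Cont (extD τ j)) :
    ∀ l : List (Σ k : ℕ, GLSys k × ℕ), (∀ x ∈ l, 0 < x.1 ∧ x.2.1 ∈ S x.1 ∧ x.2.2 ≤ x.1) →
      ∀ N (τ : GLSys N), IsIsobaric S τ → ∀ j,
        Cont ((l.map fun x => extD x.2.1 x.2.2).prod * extD τ j) := by
  intro l
  induction l with
  | nil =>
    intro _ N τ hτ j
    rw [List.map_nil, List.prod_nil, one_mul]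
    exact hg N τ hτ j
  | cons x l ih =>
    intro hl N τ hτ j
    have ih' := ih fun y hy => hl y (List.mem_cons_of_mem _ hy)
    obtain ⟨k, σ, a⟩ := x
    obtain ⟨-, hσ, -⟩ := hl ⟨k, σ, a⟩ (List.mem_cons_self)
    simp only [List.map_cons, List.prod_cons]
    obtain ⟨X, hX⟩ : ∃ X, X = (l.map fun x => extD x.2.1 x.2.2).prod := ⟨_, rfl⟩
    rw [← hX] at ih' ⊢
    have hσB : BddL σ := by
      obtain ⟨B, hB⟩ := h.bddS _ _ hσ
      exact ⟨B, hB.mono fun p hp i => (hp i).1⟩
    have hXB : X ∈ BB := by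
      rw [hX]
      refine list_prod_mem fun D hD => ?_
      obtain ⟨x, hx, rfl⟩ := List.mem_map.1 hD
      obtain ⟨B, hB⟩ := h.bddS _ _ (hl x (List.mem_cons_of_mem _ hx)).2.1
      exact extD_mem ⟨B, hB.mono fun p hp i => (hp i).1⟩ _
    have h1 := isolation (a + j) (fun b => X * extD σ b * extD τ (a + j - b))
      (fun b _ => mul_mem (mul_mem hXB (extD_mem hσB b)) (extD_mem (BddL_of_isobaric h hτ) _)) 0
      (fun z _ => by
        have h2 := ih' _ _ (isobaric_box hτ hσ z) (a + j)
        have h3 : extD (boxL τ (twL σ z)) (a + j) =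
            ∑ b ∈ Finset.range (a + j + 1), tw z ^ b * (extD σ b * extD τ (a + j - b)) := by
          rw [← EP_coeff, show EP (boxL τ (twL σ z)) = EP τ * EP (twL σ z) from EP_append _ _,
            show EP τ * EP (twL σ z) = EP (twL σ z) * EP τ from by ring, coeff_mul,
            Finset.Nat.sum_antidiagonal_eq_sum_range_succ_mk]
          refine Finset.sum_congr rfl fun b _ => ?_
          rw [EP_coeff, EP_coeff, extD_twL, mul_assoc]
        rw [h3, Finset.mul_sum] at h2
        refine cont_congr (sum_mem fun b _ => mul_mem (pow_mem (tw_mem z) b)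
          (mul_mem (mul_mem hXB (extD_mem hσB b)) (extD_mem (BddL_of_isobaric h hτ) _))) ?_ h2
        refine Eventually.of_forall fun p => congrFun ?_ p
        refine Finset.sum_congr rfl fun b _ => ?_
        ring) a (Nat.le_add_right a j)
    rw [Nat.add_sub_cancel_left] at h1
    have h4 : extD σ a * X * extD τ j = X * extD σ a * extD τ j := by ring
    rw [h4]
    exact h1

theorem MM_of_gl (h : IsCuspidal S P)
    (hc : ∀ N (τ : GLSys N), IsIsobaric S τ → ∀ m : (Fin N → ℤ) →₀ ℤ, IsSymmetric m →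
      GLContinues τ m) : ∀ D ∈ MM (TwS S), Cont D := by
  intro D hD
  refine cont_MM (fun l hl => ?_) hD
  have h1 := mono_of_gl h (fun N τ hτ j => cont_ext_of_gl h hτ (hc N τ hτ _ (extGL_symm N j))) l hl
    0 (fun _ => Fin.elim0) isobaric_nil 0
  rwa [extD_zero, mul_one] at h1

end Pool.Agent.EEA520
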