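import Pool.Agent.W_eea520_h69.UDefs
import Pool.Agent.W_eea520_h25.Core

/-! Isobaric systems, families attached to the Siegel parabolic subgroup, even characters. -/

set_option autoImplicit false

namespace Pool.Agent.EEA520

open Filter

/-- `τ` is the isobaric sum `σ_1 |det| ^ (-z_1) ⊞ … ⊞ σ_r |det| ^ (-z_r)` with `σ_j` in `S d_j`, at
almost all primes. -/
def IsIsobaric (S : (k : ℕ) → Set (GLSys k)) {N : ℕ} (τ : GLSys N) : Prop :=
  ∃ (r : ℕ) (d : Fin r → ℕ) (σ : (j : Fin r) → GLSys (d j)) (z : Fin r → ℂ),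
    (∀ j, σ j ∈ S (d j)) ∧ ∀ᶠ p in cofinite,
      Finset.univ.val.map (τ p) = ∑ j, Finset.univ.val.map fun i => σ j p i * ppow p (z j)

/-- The trivial representation of `GSp_0 = GL_1`. The families in `UFam S Triv L n` are induced from
the Levi subgroups `GL_{k_L} × … × GL_{k_1} × GSp_0` of the Siegel parabolic subgroup. -/
def Triv (n : ℕ) : Set (GSys n) := {π | n = 0 ∧ ∀ p, (π p).c = 1}

/-- `S` contains the contragredients of its members. -/
def ClosedDual (S : (k : ℕ) → Set (GLSys k)) : Prop :=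
  ∀ k, ∀ σ ∈ S k, ∃ σ' ∈ S k, ∀ᶠ p in cofinite,
    Finset.univ.val.map (σ' p) = Finset.univ.val.map fun i => (σ p i)⁻¹

/-- A character of `GSpin_{2n+1}` is even if all its weights contain an even power of `c`, that is, if
`-1`, the nontrivial element of the kernel of `Spin_{2n+1} → SO_{2n+1}`, acts trivially. -/
def IsEven {n : ℕ} (m : Wt n →₀ ℤ) : Prop := ∀ w, m w ≠ 0 → Even w.1

end Pool.Agent.EEA520
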