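import Pool.Agent.W_eea520_h69.Good

/-! Away from finitely many points the functions are jointly continuous near the good parameter. -/

set_option autoImplicit false

namespace Pool.Agent.ZT

open Filter Topology Metric Set

/-- The compact set of solutions over a compact set of parameters, times a compact set. -/
private theorem fam_isCompact {h : ℝ → ℂ → ℂ} (hc : ∀ z, ‖z‖ < 1 → Continuous fun β => h β z)
    {R : ℝ} (hR : 1 < R) (d N : ℕ) {I : Set ℝ} (hI : IsCompact I) {K : Set ℂ} (hK : IsCompact K) :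
    IsCompact ((I ×ˢ ((QQ d ×ˢ UU N R) ×ˢ K)) ∩
      {x : ℝ × ((ℕ → ℂ) × (ℕ → ℂ)) × ℂ | x.2.1.1 ∈ QQ d ∧ x.2.1.2 ∈ UU N R ∧
        Rel (h x.1) x.2.1.1 x.2.1.2}) := by
  have h1 : IsCompact (I ×ˢ ((QQ d ×ˢ UU N R) ×ˢ K)) :=
    hI.prod (((isCompact_QQ d).prod (isCompact_UU N R)).prod hK)
  have h2 : IsClosed {x : ℝ × ((ℕ → ℂ) × (ℕ → ℂ)) × ℂ | x.2.1.1 ∈ QQ d ∧ x.2.1.2 ∈ UU N R ∧
        Rel (h x.1) x.2.1.1 x.2.1.2} := by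
    have h3 := isClosed_rel hc d N hR
    have h4 : Continuous fun x : ℝ × ((ℕ → ℂ) × (ℕ → ℂ)) × ℂ =>
        ((x.1, x.2.1.1, x.2.1.2) : ℝ × (ℕ → ℂ) × (ℕ → ℂ)) := by fun_prop
    exact h3.preimage h4
  exact h1.inter_right h2

/-- Let `Γ` be the set of all `(β, q, u, z)` with `|β - β₀| ≤ δ₀`, `q ∈ QQ d`, `u ∈ UU N R`,
`q h_β = u`, `z ∈ K` and `ev q z = 0`. It is compact (`isClosed_rel`, `isCompact_QQ`,
`isCompact_UU`, `continuousOn_ev_QQ`), so its projection to `ℝ` is closed; this projection does not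
contain `β₀` by the hypothesis `h0`. -/
theorem exists_nonvanishing {h : ℝ → ℂ → ℂ} (hc : ∀ z, ‖z‖ < 1 → Continuous fun β => h β z)
    {R : ℝ} (hR : 1 < R) (d N : ℕ) (β₀ : ℝ) {K : Set ℂ} (hK : IsCompact K) (hKR : K ⊆ ball 0 R)
    (h0 : ∀ q ∈ QQ d, ∀ u ∈ UU N R, Rel (h β₀) q u → ∀ z ∈ K, ev q z ≠ 0) :
    ∃ δ : ℝ, 0 < δ ∧ ∀ β, |β - β₀| ≤ δ → ∀ q ∈ QQ d, ∀ u ∈ UU N R, Rel (h β) q u →
      ∀ z ∈ K, ev q z ≠ 0 := by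
  have _ := hKR
  set G := (Icc (β₀ - 1) (β₀ + 1) ×ˢ ((QQ d ×ˢ UU N R) ×ˢ K)) ∩
      {x : ℝ × ((ℕ → ℂ) × (ℕ → ℂ)) × ℂ | x.2.1.1 ∈ QQ d ∧ x.2.1.2 ∈ UU N R ∧
        Rel (h x.1) x.2.1.1 x.2.1.2} with hG
  have hGc : IsCompact G := fam_isCompact hc hR d N isCompact_Icc hK
  have hcont : ContinuousOn (fun x : ℝ × ((ℕ → ℂ) × (ℕ → ℂ)) × ℂ => ev x.2.1.1 x.2.2) G := by
    have h1 : ContinuousOn (fun x : ℝ × ((ℕ → ℂ) × (ℕ → ℂ)) × ℂ =>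
        ((x.2.1.1, x.2.2) : (ℕ → ℂ) × ℂ)) G := by fun_prop
    exact (continuousOn_ev_QQ d).comp h1 fun x hx => ⟨hx.2.1, mem_univ _⟩
  have hS : IsCompact (G ∩ (fun x : ℝ × ((ℕ → ℂ) × (ℕ → ℂ)) × ℂ => ev x.2.1.1 x.2.2) ⁻¹' {0}) :=
    hGc.of_isClosed_subset (hcont.preimage_isClosed_of_isClosed hGc.isClosed isClosed_singleton)
      inter_subset_left
  have hT := (hS.image (continuous_fst (X := ℝ) (Y := ((ℕ → ℂ) × (ℕ → ℂ)) × ℂ))).isClosed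
  have hn : β₀ ∉ Prod.fst '' (G ∩ (fun x : ℝ × ((ℕ → ℂ) × (ℕ → ℂ)) × ℂ => ev x.2.1.1 x.2.2) ⁻¹' {0}) := by
    rintro ⟨x, ⟨⟨hx1, hx2⟩, hx3⟩, hx4⟩
    rw [← hx4] at h0
    exact h0 _ hx2.1 _ hx2.2.1 hx2.2.2 _ hx1.2.2 hx3
  obtain ⟨ε, hε, hb⟩ := Metric.isOpen_iff.1 hT.isOpen_compl β₀ hn
  refine ⟨min (ε / 2) 1, by positivity, fun β hβ q hq u hu hr z hz h5 => ?_⟩
  have h6 : β ∈ ball β₀ ε := by
    rw [mem_ball, Real.dist_eq]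
    calc |β - β₀| ≤ min (ε / 2) 1 := hβ
      _ ≤ ε / 2 := min_le_left _ _
      _ < ε := by linarith
  refine hb h6 ⟨(β, (q, u), z), ⟨⟨⟨?_, ⟨hq, hu⟩, hz⟩, hq, hu, hr⟩, h5⟩, rfl⟩
  have h7 : |β - β₀| ≤ 1 := hβ.trans (min_le_right _ _)
  rw [abs_le] at h7
  exact ⟨by linarith [h7.1], by linarith [h7.2]⟩

/-- Let `I` be a compact set of parameters such that for `β ∈ I` the relation has solutions and all
solutions `q` are without zeros in `K`. Then `H β z = ev u z / ev q z`, `z ∈ K`, does not depend on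
the solution (`rel_cross`) and is jointly continuous: the set of all `(β, q, u, z)` is compact, its
image `{(β, z, ev u z / ev q z)}` is compact, and a function with values in a compact set whose
graph is closed is continuous. (Or: the map `(β, q, u, z) ↦ (β, z)` from this compact set onto
`I ×ˢ K` is closed, hence a quotient map.) -/
theorem exists_joint {h : ℝ → ℂ → ℂ} (hc : ∀ z, ‖z‖ < 1 → Continuous fun β => h β z)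
    {R : ℝ} (hR : 1 < R) (d N : ℕ) {I : Set ℝ} (hI : IsCompact I) {K : Set ℂ} (hK : IsCompact K)
    (hKR : K ⊆ ball 0 R) (hA : ∀ β ∈ I, Adm (h β) d N R)
    (h0 : ∀ β ∈ I, ∀ q ∈ QQ d, ∀ u ∈ UU N R, Rel (h β) q u → ∀ z ∈ K, ev q z ≠ 0) :
    ∃ H : ℝ → ℂ → ℂ, ContinuousOn (fun x : ℝ × ℂ => H x.1 x.2) (I ×ˢ K) ∧
      ∀ β ∈ I, ∀ q ∈ QQ d, ∀ u ∈ UU N R, Rel (h β) q u → ∀ z ∈ K, H β z = ev u z / ev q z := by
  classical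
  have hex : ∀ β : ℝ, ∃ x : (ℕ → ℂ) × (ℕ → ℂ), β ∈ I →
      x.1 ∈ QQ d ∧ x.2 ∈ UU N R ∧ Rel (h β) x.1 x.2 := by
    intro β
    by_cases hβ : β ∈ I
    · obtain ⟨q, hq, u, hu, hr⟩ := hA β hβ
      exact ⟨(q, u), fun _ => ⟨hq, hu, hr⟩⟩
    · exact ⟨(0, 0), fun h => absurd h hβ⟩
  choose c hcc using hex
  have hval : ∀ β ∈ I, ∀ q ∈ QQ d, ∀ u ∈ UU N R, Rel (h β) q u → ∀ z ∈ K,
      ev (c β).2 z / ev (c β).1 z = ev u z / ev q z := by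
    intro β hβ q hq u hu hr z hz
    obtain ⟨h1, h2, h3⟩ := hcc β hβ
    have h4 := rel_cross hR h1 h2 hq hu h3 hr z (hKR hz)
    have h5 := h0 β hβ _ h1 _ h2 h3 z hz
    have h6 := h0 β hβ _ hq _ hu hr z hz
    rw [div_eq_div_iff h5 h6, mul_comm (ev (c β).2 z), mul_comm (ev u z)]
    exact h4.symm
  refine ⟨fun β z => ev (c β).2 z / ev (c β).1 z, ?_, hval⟩
  set G := (I ×ˢ ((QQ d ×ˢ UU N R) ×ˢ K)) ∩
      {x : ℝ × ((ℕ → ℂ) × (ℕ → ℂ)) × ℂ | x.2.1.1 ∈ QQ d ∧ x.2.1.2 ∈ UU N R ∧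
        Rel (h x.1) x.2.1.1 x.2.1.2} with hG
  have hGc : IsCompact G := fam_isCompact hc hR d N hI hK
  obtain ⟨r, hr, hKr⟩ := exists_lt_subset_ball hK.isClosed hKR
  have hcont1 : ContinuousOn (fun x : ℝ × ((ℕ → ℂ) × (ℕ → ℂ)) × ℂ => ev x.2.1.1 x.2.2) G := by
    have h1 : ContinuousOn (fun x : ℝ × ((ℕ → ℂ) × (ℕ → ℂ)) × ℂ =>
        ((x.2.1.1, x.2.2) : (ℕ → ℂ) × ℂ)) G := by fun_prop
    exact (continuousOn_ev_QQ d).comp h1 fun x hx => ⟨hx.2.1, mem_univ _⟩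
  have hcont2 : ContinuousOn (fun x : ℝ × ((ℕ → ℂ) × (ℕ → ℂ)) × ℂ => ev x.2.1.2 x.2.2) G := by
    have h1 : ContinuousOn (fun x : ℝ × ((ℕ → ℂ) × (ℕ → ℂ)) × ℂ =>
        ((x.2.1.2, x.2.2) : (ℕ → ℂ) × ℂ)) G := by fun_prop
    have h2 : max r 0 < R := max_lt hr (by linarith)
    refine (continuousOn_ev_UU N (le_max_right r 0) h2).comp h1 fun x hx => ⟨hx.2.2.1, ?_⟩
    have h3 := hKr hx.1.2.2
    rw [mem_ball] at h3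
    rw [mem_closedBall]
    exact h3.le.trans (le_max_left _ _)
  have hcont : ContinuousOn (fun x : ℝ × ((ℕ → ℂ) × (ℕ → ℂ)) × ℂ =>
      ev x.2.1.2 x.2.2 / ev x.2.1.1 x.2.2) G :=
    hcont2.div hcont1 fun x hx => h0 x.1 hx.1.1 _ hx.2.1 _ hx.2.2.1 hx.2.2.2 _ hx.1.2.2
  rw [continuousOn_iff_isClosed]
  intro t ht
  have hS : IsCompact (G ∩ (fun x : ℝ × ((ℕ → ℂ) × (ℕ → ℂ)) × ℂ =>
      ev x.2.1.2 x.2.2 / ev x.2.1.1 x.2.2) ⁻¹' t) :=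
    hGc.of_isClosed_subset (hcont.preimage_isClosed_of_isClosed hGc.isClosed ht)
      inter_subset_left
  have hp : Continuous fun x : ℝ × ((ℕ → ℂ) × (ℕ → ℂ)) × ℂ => ((x.1, x.2.2) : ℝ × ℂ) := by
    fun_prop
  refine ⟨_, (hS.image hp).isClosed, ?_⟩
  ext ⟨β, z⟩
  constructor
  · rintro ⟨h1, h2, h3⟩
    refine ⟨?_, h2, h3⟩
    obtain ⟨q, hq, u, hu, hr⟩ := hA β h2
    refine ⟨(β, (q, u), z), ⟨⟨⟨h2, ⟨hq, hu⟩, h3⟩, hq, hu, hr⟩, ?_⟩, rfl⟩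
    have h4 := hval β h2 q hq u hu hr z h3
    simp only [mem_preimage] at h1 ⊢
    rwa [h4] at h1
  · rintro ⟨⟨x, ⟨h1, h2⟩, h3⟩, h4, h5⟩
    refine ⟨?_, h4, h5⟩
    obtain ⟨rfl, rfl⟩ := Prod.mk.inj h3
    have h6 := hval x.1 h1.1.1 _ h1.2.1 _ h1.2.2.1 h1.2.2.2 _ h1.1.2.2
    simp only [mem_preimage] at h2 ⊢
    rwa [h6]

/-- Take `R`, `d`, `N`, `β₀`, `δ₀` from `exists_good`, `q₀` a solution at `β₀` and `P` the set of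
zeros of `q₀` (`finite_zeros`). Use `exists_nonvanishing` and `exists_joint` with
`I = Icc (β₀ - δ) (β₀ + δ)`. -/
theorem exists_family {h : ℝ → ℂ → ℂ} (hc : ∀ z, ‖z‖ < 1 → Continuous fun β => h β z)
    (hA : ∀ (β R : ℝ), 1 < R → ∃ d N : ℕ, Adm (h β) d N R) {R₁ : ℝ} (h1 : 1 < R₁) :
    ∃ (R β₀ : ℝ) (P : Set ℂ) (d N : ℕ), R₁ < R ∧ P.Finite ∧
      ∀ K : Set ℂ, IsCompact K → K ⊆ ball 0 R → Disjoint K P →
        ∃ (δ : ℝ) (H : ℝ → ℂ → ℂ), 0 < δ ∧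
          ContinuousOn (fun x : ℝ × ℂ => H x.1 x.2) (Icc (β₀ - δ) (β₀ + δ) ×ˢ K) ∧
          ∀ β ∈ Icc (β₀ - δ) (β₀ + δ), ∃ q ∈ QQ d, ∃ u ∈ UU N R, Rel (h β) q u ∧
            ∀ z ∈ K, ev q z ≠ 0 ∧ H β z = ev u z / ev q z := by
  obtain ⟨R, d, N, β₀, δ₀, hR, hδ₀, hadm, huniq⟩ := exists_good hc hA h1
  have hR1 : 1 < R := h1.trans hR
  obtain ⟨q₀, hq₀, u₀, hu₀, hr₀⟩ := hadm β₀ (by simpa using hδ₀.le)
  refine ⟨R, β₀, {z | ev q₀ z = 0}, d, N, hR, finite_zeros hq₀, fun K hK hKR hd => ?_⟩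
  obtain ⟨δ₁, hδ₁, hnv⟩ := exists_nonvanishing hc hR1 d N β₀ hK hKR (by
    intro q hq u hu hr z hz
    obtain ⟨θ, hθ, h2⟩ := huniq q₀ hq₀ u₀ hu₀ q hq u hu hr₀ hr
    rw [h2 z]
    exact mul_ne_zero hθ fun h3 => Set.disjoint_left.1 hd hz h3)
  have hmem : ∀ β ∈ Icc (β₀ - min δ₀ δ₁) (β₀ + min δ₀ δ₁), |β - β₀| ≤ min δ₀ δ₁ := by
    intro β hβ
    rw [abs_le]
    exact ⟨by linarith [hβ.1], by linarith [hβ.2]⟩
  obtain ⟨H, hH1, hH2⟩ := exists_joint hc hR1 d N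
    (isCompact_Icc (a := β₀ - min δ₀ δ₁) (b := β₀ + min δ₀ δ₁)) hK hKR
    (fun β hβ => hadm β ((hmem β hβ).trans (min_le_left _ _)))
    (fun β hβ => hnv β ((hmem β hβ).trans (min_le_right _ _)))
  refine ⟨min δ₀ δ₁, H, lt_min hδ₀ hδ₁, hH1, fun β hβ => ?_⟩
  obtain ⟨q, hq, u, hu, hr⟩ := hadm β ((hmem β hβ).trans (min_le_left _ _))
  exact ⟨q, hq, u, hu, hr, fun z hz =>
    ⟨hnv β ((hmem β hβ).trans (min_le_right _ _)) q hq u hu hr z hz,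
      hH2 β hβ q hq u hu hr z hz⟩⟩

end Pool.Agent.ZT
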