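import Pool.Agent.W_eea520_h69.ZDefs
import Pool.Agent.W_eea520_h25.Euler

/-! Systems of parameters of induced representations, parts of a character. -/

set_option autoImplicit false

namespace Pool.Agent.EEA520

open Filter Topology MeasureTheory

theorem FinalA_norm_ppow (p : Pr) (z : ℂ) : ‖((ppow p z : ℂˣ) : ℂ)‖ = ((p : ℕ) : ℝ) ^ z.re := by
  show ‖((p : ℕ) : ℂ) ^ z‖ = _
  rw [Complex.norm_natCast_cpow_of_pos p.2.pos]

theorem FinalA_one_le (p : Pr) : (1 : ℝ) ≤ ((p : ℕ) : ℝ) := by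
  exact_mod_cast p.2.one_lt.le

theorem induce_bdd {n k : ℕ} {π : GSys n} {σ : GLSys k} (hπ : PolyBounded π)
    (hσ : PolyBoundedL σ) (z : ℂ) : Bdd (induce π σ z) := by
  obtain ⟨B, hB⟩ := hπ
  obtain ⟨B', hB'⟩ := hσ
  set C : ℝ := max B (|B'| + |z.re|) with hC
  have hBC : B ≤ C := le_max_left _ _
  have hBC' : |B'| + |z.re| ≤ C := le_max_right _ _
  refine ⟨C, ?_⟩
  filter_upwards [hB, hB'] with p h1 h2
  have hp := FinalA_one_le p
  have hp0 : (0 : ℝ) < ((p : ℕ) : ℝ) := lt_of_lt_of_le one_pos hp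
  have mono : ∀ {x : ℝ}, x ≤ ((p : ℕ) : ℝ) ^ B → x ≤ ((p : ℕ) : ℝ) ^ C := fun hx =>
    hx.trans (Real.rpow_le_rpow_of_exponent_le hp hBC)
  have mono' : ∀ {x y : ℝ}, 0 ≤ x → 0 ≤ y → x ≤ ((p : ℕ) : ℝ) ^ B' → y ≤ ((p : ℕ) : ℝ) ^ |z.re| →
      x * y ≤ ((p : ℕ) : ℝ) ^ C := by
    intro x y hx0 hy0 hx hy
    calc x * y ≤ ((p : ℕ) : ℝ) ^ |B'| * ((p : ℕ) : ℝ) ^ |z.re| := by
          refine mul_le_mul (hx.trans ?_) hy hy0 (Real.rpow_nonneg hp0.le _)
          exact Real.rpow_le_rpow_of_exponent_le hp (le_abs_self _)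
      _ = ((p : ℕ) : ℝ) ^ (|B'| + |z.re|) := (Real.rpow_add hp0 _ _).symm
      _ ≤ _ := Real.rpow_le_rpow_of_exponent_le hp hBC'
  refine ⟨⟨mono h1.1.1, mono h1.1.2⟩, fun i => ?_⟩
  refine Fin.addCases (fun i => ?_) (fun i => ?_) i
  · simp only [induce, Fin.append_left]
    exact ⟨mono (h1.2 i).1, mono (h1.2 i).2⟩
  · simp only [induce, Fin.append_right]
    refine ⟨?_, ?_⟩
    · rw [Units.val_mul, norm_mul]
      refine mono' (norm_nonneg _) (norm_nonneg _) (h2 i).1 ?_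
      rw [FinalA_norm_ppow]
      exact Real.rpow_le_rpow_of_exponent_le hp (le_abs_self _)
    · rw [mul_inv, Units.val_mul, norm_mul]
      refine mono' (norm_nonneg _) (norm_nonneg _) (h2 i).2 ?_
      rw [Units.val_inv_eq_inv_val, norm_inv, FinalA_norm_ppow, ← Real.rpow_neg hp0.le]
      exact Real.rpow_le_rpow_of_exponent_le hp (neg_le_abs _)

theorem FinalA_prod_zpow {ι : Type} (s : Finset ι) (g : ℂˣ) (f : ι → ℤ) :
    ∏ i ∈ s, g ^ f i = g ^ ∑ i ∈ s, f i := by
  classical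
  induction s using Finset.induction_on with
  | empty => simp
  | insert a s ha ih => rw [Finset.prod_insert ha, Finset.sum_insert ha, ih, zpow_add]

/-- The degree `a` part of `m`. -/
noncomputable def part {n k : ℕ} (m : Wt (n + k) →₀ ℤ) (a : ℤ) : Wt (n + k) →₀ ℤ :=
  m.filter fun w => degL w = a

theorem ev_induce {n k : ℕ} (π : GSys n) (σ : GLSys k) (z : ℂ) (w : Wt (n + k)) (p : Pr) :
    (induce π σ z p).ev w = ppow p ((degL w : ℂ) * z) * (induce π σ 0 p).ev w := by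
  have h0 : ppow p 0 = 1 := by
    apply Units.ext
    show ((p : ℕ) : ℂ) ^ (0 : ℂ) = 1
    rw [Complex.cpow_zero]
  have hz : ∀ j : ℤ, ppow p z ^ j = ppow p ((j : ℂ) * z) := by
    intro j
    apply Units.ext
    rw [Units.val_zpow_eq_zpow_val]
    show (((p : ℕ) : ℂ) ^ z) ^ j = ((p : ℕ) : ℂ) ^ ((j : ℂ) * z)
    rw [Complex.cpow_int_mul]
  unfold Torus.ev
  simp only [induce, Fin.prod_univ_add, Fin.append_left, Fin.append_right, h0, mul_one]
  simp only [mul_zpow, Finset.prod_mul_distrib]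
  have h1 : ∏ i : Fin k, ppow p z ^ w.2 (Fin.natAdd n i) = ppow p ((degL w : ℂ) * z) := by
    rw [← hz, degL]
    exact FinalA_prod_zpow _ _ _
  rw [h1]
  simp only [mul_comm, mul_left_comm]

theorem FinalA_Phi {n : ℕ} (π : GSys n) (m : Wt n →₀ ℤ) (p : Pr) :
    Phi π (AddMonoidAlgebra.ofCoeff m) p = m.sum fun w e => e • el ((π p).ev w) := by
  have h1 : (AddMonoidAlgebra.ofCoeff m : R n) = m.sum fun w e => e • mon w := by
    have h0 : (AddMonoidAlgebra.single : Wt n → ℤ → R n) = fun w e => e • mon w := by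
      funext w e
      simp [mon]
    have h2 := AddMonoidAlgebra.sum_coeff_single (AddMonoidAlgebra.ofCoeff m : R n)
    rw [h0] at h2
    exact h2.symm
  show evT (π p) _ = _
  rw [h1, Finsupp.sum, map_sum, Finsupp.sum]
  refine Finset.sum_congr rfl fun w _ => ?_
  rw [map_zsmul, evT_mon]

/-- `ev w (t_z) = ev w (t_0) * p ^ (degL w * z)`. -/
theorem Phi_induce {n k : ℕ} (π : GSys n) (σ : GLSys k) (z : ℂ) (m : Wt (n + k) →₀ ℤ) :
    Phi (induce π σ z) (AddMonoidAlgebra.ofCoeff m) =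
      ∑ a ∈ m.support.image degL, tw ((a : ℂ) * z) *
        Phi (induce π σ 0) (AddMonoidAlgebra.ofCoeff (part m a)) := by
  classical
  funext p
  rw [FinalA_Phi, Finset.sum_apply, Finsupp.sum]
  have h1 : ∀ a : ℤ, (tw ((a : ℂ) * z) * Phi (induce π σ 0) (AddMonoidAlgebra.ofCoeff (part m a))) p
      = ∑ w ∈ m.support with degL w = a, m w • el ((induce π σ z p).ev w) := by
    intro a
    rw [Pi.mul_apply, FinalA_Phi, Finsupp.sum, part, Finsupp.support_filter, Finset.mul_sum]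
    refine Finset.sum_congr rfl fun w hw => ?_
    have hw' : degL w = a := (Finset.mem_filter.1 hw).2
    have h2 : (m.filter fun w => degL w = a) w = m w := by
      rw [Finsupp.filter_apply, if_pos hw']
    rw [h2, ev_induce π σ z w p, hw', mul_smul_comm]
    congr 1
    show el _ * el _ = el _
    unfold el
    rw [← map_mul]
  rw [Finset.sum_congr rfl fun a _ => h1 a]
  rw [Finset.sum_fiberwise_of_maps_to (t := m.support.image degL)
    (fun w hw => Finset.mem_image_of_mem _ hw)]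

end Pool.Agent.EEA520
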