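import Pool.Agent.W_eea520_h69.Adm

/-! Baire category: a parameter at which the number of poles is locally constant. -/

set_option autoImplicit false

namespace Pool.Agent.ZT

open Filter Topology Metric Set

/-- Baire: the closed sets `{β | Adm (h β) d N R}` cover `ℝ`
(`nonempty_interior_of_iUnion_of_closed`). -/
theorem exists_interior {h : ℝ → ℂ → ℂ} (hc : ∀ z, ‖z‖ < 1 → Continuous fun β => h β z)
    {R : ℝ} (hR : 1 < R) (hA : ∀ β, ∃ d N : ℕ, Adm (h β) d N R) :
    ∃ d N : ℕ, (interior {β : ℝ | Adm (h β) d N R}).Nonempty := by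
  have h1 : ∀ i : ℕ × ℕ, IsClosed {β : ℝ | Adm (h β) i.1 i.2 R} :=
    fun i => isClosed_adm hc i.1 i.2 hR
  have h2 : (⋃ i : ℕ × ℕ, {β : ℝ | Adm (h β) i.1 i.2 R}) = univ := by
    apply eq_univ_of_forall
    intro β
    obtain ⟨d, N, hdN⟩ := hA β
    exact mem_iUnion.2 ⟨(d, N), hdN⟩
  obtain ⟨i, hi⟩ := nonempty_interior_of_iUnion_of_closed h1 h2
  exact ⟨i.1, i.2, hi⟩

/-- Summability of the power series in the closed unit disc. -/
theorem good_summable {N : ℕ} {R : ℝ} (hR : 1 < R) {u : ℕ → ℂ} (hu : u ∈ UU N R) {z : ℂ}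
    (hz : ‖z‖ < 1) : Summable fun n => u n * z ^ n := by
  have hR0 : 0 < R := by linarith
  have h1 : Summable fun n : ℕ => (N : ℝ) * (R⁻¹) ^ n := by
    apply Summable.mul_left
    exact summable_geometric_of_lt_one (by positivity) (inv_lt_one_of_one_lt₀ hR)
  refine Summable.of_norm_bounded h1 ?_
  intro n
  rw [norm_mul, norm_pow]
  have h2 : ‖z‖ ^ n ≤ 1 := pow_le_one₀ (norm_nonneg _) hz.le
  calc ‖u n‖ * ‖z‖ ^ n ≤ ‖u n‖ * 1 := by gcongr
    _ = ‖u n‖ := mul_one _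
    _ ≤ _ := hu n

/-- A nonzero relation of lower degree is admissible. -/
theorem good_normalise {h : ℂ → ℂ} {e : ℕ} {R C : ℝ} (hR : 1 < R) {q u : ℕ → ℂ}
    (hq : ∀ j, e ≤ j → q j = 0) (hq0 : ∃ j, q j ≠ 0) (hu : ∀ n, ‖u n‖ ≤ C * (R⁻¹) ^ n)
    (H : Rel h q u) : ∃ N' : ℕ, Adm h e N' R := by
  obtain ⟨j₀, hj₀⟩ := hq0
  have hj₀e : j₀ < e := by
    by_contra hcon
    exact hj₀ (hq j₀ (not_lt.1 hcon))
  obtain ⟨m, hm, hmax⟩ := Finset.exists_max_image (Finset.range e) (fun j => ‖q j‖)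
    ⟨j₀, Finset.mem_range.2 hj₀e⟩
  have hM : 0 < ‖q m‖ :=
    lt_of_lt_of_le (norm_pos_iff.2 hj₀) (hmax j₀ (Finset.mem_range.2 hj₀e))
  obtain ⟨N', hN'⟩ := exists_nat_ge (C / ‖q m‖)
  have hM0 : ((‖q m‖ : ℝ) : ℂ) ≠ 0 := by exact_mod_cast hM.ne'
  have hR0 : 0 < R := by linarith
  refine ⟨N', fun j => q j / (‖q m‖ : ℝ), ⟨?_, ?_, m, Finset.mem_range.1 hm, ?_⟩,
    fun n => u n / (‖q m‖ : ℝ), ?_, ?_⟩
  · intro j
    rw [norm_div, Complex.norm_real, norm_norm, div_le_one hM]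
    by_cases hj : j < e
    · exact hmax j (Finset.mem_range.2 hj)
    · rw [hq j (not_lt.1 hj), norm_zero]; exact hM.le
  · intro j hj
    simp only []
    rw [hq j hj, zero_div]
  · simp only []
    rw [norm_div, Complex.norm_real, norm_norm, div_self hM.ne']
  · intro n
    simp only []
    rw [norm_div, Complex.norm_real, norm_norm, div_le_iff₀ hM]
    have h1 : C ≤ N' * ‖q m‖ := (div_le_iff₀ hM).1 hN'
    have h2 : 0 ≤ (R⁻¹) ^ n := by positivity
    calc ‖u n‖ ≤ C * (R⁻¹) ^ n := hu n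
      _ ≤ (N' * ‖q m‖) * (R⁻¹) ^ n := by gcongr
      _ = _ := by ring
  · intro z hz
    have h1 := H z hz
    unfold ev at h1 ⊢
    have h2 : ∀ v : ℕ → ℂ, (∑' n, v n / ((‖q m‖ : ℝ) : ℂ) * z ^ n)
        = (∑' n, v n * z ^ n) / ((‖q m‖ : ℝ) : ℂ) := by
      intro v
      rw [← tsum_div_const]
      congr 1
      funext n
      ring
    rw [h2, h2, ← h1]
    ring

/-- The linear algebra step: if `h` does not satisfy `Adm h (d - 1) N' R''` for any `N'`, `R'' < R`,
then the polynomial `q` is unique up to a factor. Proof. Let `q'' = q' (d - 1) • q - q (d - 1) • q'`,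
`u'' = q' (d - 1) • u - q (d - 1) • u'`; then `q'' h = u''` and `q'' j = 0` for `j ≥ d - 1`. If
`q'' ≠ 0`, divide by the maximal modulus of its coefficients, to get `Adm h (d - 1) N' R''`. So
`q'' = 0`. If `q (d - 1) = 0`, then `q ∈ QQ (d - 1)` and we have `Adm h (d - 1) N R''`. So
`q (d - 1) ≠ 0`, `q' (d - 1) ≠ 0` and `θ = q' (d - 1) / q (d - 1)`. (If `d = 0`, `QQ d` is empty.) -/
theorem unique_of_not_adm {h : ℂ → ℂ} {d N : ℕ} {R R'' : ℝ} (h1 : 1 < R'') (hR : R'' < R)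
    (hn : ∀ N', ¬ Adm h (d - 1) N' R'') {q u q' u' : ℕ → ℂ} (hq : q ∈ QQ d) (hu : u ∈ UU N R)
    (hq' : q' ∈ QQ d) (hu' : u' ∈ UU N R) (H : Rel h q u) (H' : Rel h q' u') :
    ∃ θ : ℂ, θ ≠ 0 ∧ ∀ z, ev q' z = θ * ev q z := by
  have hR1 : 1 < R := lt_trans h1 hR
  have hR0 : 0 < R := by linarith
  obtain ⟨e, rfl⟩ : ∃ e, d = e + 1 := by
    obtain ⟨j, hj, -⟩ := hq.2.2
    exact ⟨d - 1, by omega⟩
  simp only [Nat.add_sub_cancel] at hn
  have key : ∀ {q u : ℕ → ℂ}, q ∈ QQ (e + 1) → u ∈ UU N R → Rel h q u → q e ≠ 0 := by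
    intro q u hq hu H h0
    apply hn N
    refine Adm.mono (R := R) (by linarith) hR.le ⟨q, ⟨hq.1, ?_, ?_⟩, u, hu, H⟩
    · intro j hj
      rcases Nat.eq_or_lt_of_le hj with h | h
      · rw [← h]; exact h0
      · exact hq.2.1 j h
    · obtain ⟨j, hj, hj1⟩ := hq.2.2
      refine ⟨j, ?_, hj1⟩
      rcases Nat.eq_or_lt_of_le (Nat.lt_succ_iff.1 hj) with h | h
      · rw [h, h0, norm_zero] at hj1
        exact absurd hj1 zero_ne_one
      · exact h
  have hqe := key hq hu H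
  have hqe' := key hq' hu' H'
  have hrel : Rel h (fun j => q' e * q j - q e * q' j) (fun n => q' e * u n - q e * u' n) := by
    intro z hz
    have e1 : ev (fun j => q' e * q j - q e * q' j) z = q' e * ev q z - q e * ev q' z := by
      rw [ev_QQ hq.2.1, ev_QQ hq'.2.1, ev_QQ (d := e + 1)]
      · rw [Finset.mul_sum, Finset.mul_sum, ← Finset.sum_sub_distrib]
        apply Finset.sum_congr rfl
        intro j _
        ring
      · intro j hj
        rw [hq.2.1 j hj, hq'.2.1 j hj]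
        ring
    have e2 : ev (fun n => q' e * u n - q e * u' n) z = q' e * ev u z - q e * ev u' z := by
      unfold ev
      rw [← tsum_mul_left, ← tsum_mul_left,
        ← ((good_summable hR1 hu hz).mul_left (q' e)).tsum_sub
          ((good_summable hR1 hu' hz).mul_left (q e))]
      congr 1
      funext n
      ring
    rw [e1, e2, ← H z hz, ← H' z hz]
    ring
  have hzero : ∀ j, q' e * q j - q e * q' j = 0 := by
    by_contra hcon
    push Not at hcon
    obtain ⟨N', hN'⟩ := good_normalise (C := 2 * N) (e := e) hR1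
      (q := fun j => q' e * q j - q e * q' j) (u := fun n => q' e * u n - q e * u' n) (h := h)
      (by
        intro j hj
        rcases Nat.eq_or_lt_of_le hj with h | h
        · rw [← h]; ring
        · rw [hq.2.1 j h, hq'.2.1 j h]; ring)
      hcon
      (by
        intro n
        have a1 : ‖q' e * u n‖ ≤ 1 * (N * (R⁻¹) ^ n) := by
          rw [norm_mul]
          exact mul_le_mul (hq'.1 e) (hu n) (norm_nonneg _) zero_le_one
        have a2 : ‖q e * u' n‖ ≤ 1 * (N * (R⁻¹) ^ n) := by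
          rw [norm_mul]
          exact mul_le_mul (hq.1 e) (hu' n) (norm_nonneg _) zero_le_one
        calc ‖q' e * u n - q e * u' n‖ ≤ ‖q' e * u n‖ + ‖q e * u' n‖ := norm_sub_le _ _
          _ ≤ 1 * (N * (R⁻¹) ^ n) + 1 * (N * (R⁻¹) ^ n) := add_le_add a1 a2
          _ = _ := by ring)
      hrel
    exact hn N' (Adm.mono (by linarith) hR.le hN')
  refine ⟨q' e / q e, div_ne_zero hqe' hqe, ?_⟩
  intro z
  rw [ev_QQ hq.2.1, ev_QQ hq'.2.1, Finset.mul_sum]
  apply Finset.sum_congr rfl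
  intro j _
  have h3 := hzero j
  field_simp
  linear_combination (- z ^ j) * h3

/-- Proof. Let `d` be the least natural number such that `{β | Adm (h β) d N R}` has nonempty
interior for some `N` and some `R > R₁` (`exists_interior`, `Nat.find`); then `d ≥ 1` as `QQ 0` is
empty. Fix such `N`, `R`, let `J` be the interior, and let `R'' = (R₁ + R) / 2`. By the choice of
`d` the closed sets `{β | Adm (h β) (d - 1) N' R''}` have empty interior, so their union over
`N' : ℕ` does not contain `J` (`dense_iInter_of_isOpen`). Take `β₀ ∈ J` outside this union and use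
`unique_of_not_adm`. -/
theorem exists_good {h : ℝ → ℂ → ℂ} (hc : ∀ z, ‖z‖ < 1 → Continuous fun β => h β z)
    (hA : ∀ (β R : ℝ), 1 < R → ∃ d N : ℕ, Adm (h β) d N R) {R₁ : ℝ} (h1 : 1 < R₁) :
    ∃ (R : ℝ) (d N : ℕ) (β₀ δ : ℝ), R₁ < R ∧ 0 < δ ∧
      (∀ β, |β - β₀| ≤ δ → Adm (h β) d N R) ∧
      ∀ q ∈ QQ d, ∀ u ∈ UU N R, ∀ q' ∈ QQ d, ∀ u' ∈ UU N R, Rel (h β₀) q u → Rel (h β₀) q' u' →
        ∃ θ : ℂ, θ ≠ 0 ∧ ∀ z, ev q' z = θ * ev q z := by
  classical
  have hP : ∃ d : ℕ, ∃ (N : ℕ) (R : ℝ), R₁ < R ∧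
      (interior {β : ℝ | Adm (h β) d N R}).Nonempty := by
    obtain ⟨d, N, hdN⟩ := exists_interior hc (R := R₁ + 1) (by linarith)
      (fun β => hA β (R₁ + 1) (by linarith))
    exact ⟨d, N, R₁ + 1, by linarith, hdN⟩
  obtain ⟨N, R, hR, hJ⟩ := Nat.find_spec hP
  have hmin := fun m => Nat.find_min (m := m) hP
  generalize Nat.find hP = d at hJ hmin
  have hd : 0 < d := by
    rcases Nat.eq_zero_or_pos d with h0 | h0
    · exfalso
      obtain ⟨β, hβ⟩ := hJ
      obtain ⟨q, hq, -⟩ := interior_subset hβ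
      obtain ⟨j, hj, -⟩ := hq.2.2
      omega
    · exact h0
  set R'' := (R₁ + R) / 2 with hR''
  have hR1'' : R₁ < R'' := by rw [hR'']; linarith
  have hR2'' : R'' < R := by rw [hR'']; linarith
  have hcl : ∀ N' : ℕ, IsClosed {β : ℝ | Adm (h β) (d - 1) N' R''} :=
    fun N' => isClosed_adm hc (d - 1) N' (by linarith)
  have hdense : Dense (⋂ N' : ℕ, {β : ℝ | Adm (h β) (d - 1) N' R''}ᶜ) := by
    apply dense_iInter_of_isOpen
    · exact fun N' => (hcl N').isOpen_compl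
    · intro N'
      rw [← interior_eq_empty_iff_dense_compl]
      by_contra hcon
      exact hmin (d - 1) (by omega) ⟨N', R'', hR1'', nonempty_iff_ne_empty.2 hcon⟩
  obtain ⟨β₀, hβJ, hβ⟩ := hdense.inter_open_nonempty _ isOpen_interior hJ
  obtain ⟨ε, hε, hball⟩ := Metric.isOpen_iff.1 isOpen_interior β₀ hβJ
  refine ⟨R, d, N, β₀, ε / 2, hR, by linarith, ?_, ?_⟩
  · intro β hβ'
    have h3 : β ∈ ball β₀ ε := by
      rw [mem_ball, Real.dist_eq]; linarith
    have h4 : β ∈ {β : ℝ | Adm (h β) d N R} := interior_subset (hball h3)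
    exact h4
  · intro q hq u hu q' hq' u' hu' H H'
    refine unique_of_not_adm (by linarith) hR2'' ?_ hq hu hq' hu' H H'
    intro N' hN'
    exact (mem_iInter.1 hβ N') hN'

end Pool.Agent.ZT
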