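import Pool.Agent.W_eea520_h69.HDiff
import Pool.Agent.W_eea520_h69.BorelA

/-! Extendability to a half plane is a Borel condition. -/

set_option autoImplicit false

namespace Pool.Agent.ZT

open Filter Topology Metric Set

/-- The centres. -/
noncomputable def HB_c (b : ℝ) (n : ℕ) : ℂ := ((b + 3 + n : ℝ) : ℂ)

/-- The radii. -/
noncomputable def HB_R (b x₀ : ℝ) (n : ℕ) : ℝ := b + 3 + n - x₀ - 1 / ((n : ℝ) + 1)

theorem HB_c_re (b : ℝ) (n : ℕ) : (HB_c b n).re = b + 3 + n := by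
  rw [HB_c, Complex.ofReal_re]

theorem HB_inv_le (n : ℕ) : 1 / ((n : ℝ) + 1) ≤ 1 := by
  rw [div_le_one (by positivity)]
  have : (0 : ℝ) ≤ n := Nat.cast_nonneg n
  linarith

theorem HB_R_gt {b x₀ : ℝ} (hx₀ : x₀ ≤ b) (n : ℕ) : 1 < HB_R b x₀ n := by
  have h1 := HB_inv_le n
  have : (0 : ℝ) ≤ n := Nat.cast_nonneg n
  rw [HB_R]
  linarith

theorem HB_R_lt {b x₀ : ℝ} (n : ℕ) : HB_R b x₀ n < (HB_c b n).re - x₀ := by
  rw [HB_R, HB_c_re]
  have : (0 : ℝ) < 1 / ((n : ℝ) + 1) := by positivity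
  linarith

theorem HB_ball_sub {b : ℝ} (n : ℕ) {z : ℂ} (hz : ‖z‖ < 1) : b < (HB_c b n + z).re := by
  have h1 := (abs_le.1 (Complex.abs_re_le_norm z)).1
  have : (0 : ℝ) ≤ n := Nat.cast_nonneg n
  rw [Complex.add_re, HB_c_re]
  linarith

/-- The discs cover the half plane. -/
theorem HB_cover {b x₀ : ℝ} (hx₀ : x₀ ≤ b) {u : ℂ} (hu : x₀ < u.re) :
    ∃ n : ℕ, u ∈ ball (HB_c b n) (HB_R b x₀ n) := by
  have hδ : 0 < u.re - x₀ := by linarith
  obtain ⟨n₁, hn₁⟩ := exists_nat_ge (2 / (u.re - x₀))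
  obtain ⟨n₂, hn₂⟩ := exists_nat_gt (|u.re - b| + u.im ^ 2 / (u.re - x₀))
  obtain ⟨n, hn⟩ : ∃ n, n = max n₁ n₂ := ⟨_, rfl⟩
  have h1 : 2 / (u.re - x₀) ≤ (n : ℝ) := hn₁.trans (by rw [hn]; exact_mod_cast le_max_left _ _)
  have h2 : |u.re - b| + u.im ^ 2 / (u.re - x₀) < (n : ℝ) :=
    hn₂.trans_le (by rw [hn]; exact_mod_cast le_max_right _ _)
  have hn0 : (0 : ℝ) ≤ n := Nat.cast_nonneg n
  have h3 : 1 / ((n : ℝ) + 1) ≤ (u.re - x₀) / 2 := by
    rw [div_le_iff₀ (by positivity)]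
    rw [div_le_iff₀ hδ] at h1
    nlinarith
  have h4 : u.im ^ 2 < (b + 3 + n - u.re) * (u.re - x₀) := by
    rw [← div_lt_iff₀ hδ]
    have := le_abs_self (u.re - b)
    linarith
  have h5 : 0 ≤ b + 3 + n - u.re := by
    have := le_abs_self (u.re - b)
    have h6 : 0 ≤ u.im ^ 2 / (u.re - x₀) := by positivity
    linarith
  refine ⟨n, ?_⟩
  rw [mem_ball, dist_eq_norm]
  have hR := HB_R_gt hx₀ n
  refine lt_of_pow_lt_pow_left₀ 2 (by linarith) ?_
  rw [Complex.sq_norm, Complex.normSq_apply, Complex.sub_re, Complex.sub_im, HB_c_re]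
  have h7 : (HB_c b n).im = 0 := by rw [HB_c, Complex.ofReal_im]
  rw [h7, sub_zero]
  have h8 : (b + 3 + n - u.re) + (u.re - x₀) / 2 ≤ HB_R b x₀ n := by
    rw [HB_R]
    linarith
  have h9 : ((b + 3 + n - u.re) + (u.re - x₀) / 2) ^ 2 ≤ HB_R b x₀ n ^ 2 :=
    pow_le_pow_left₀ (by positivity) h8 2
  nlinarith

theorem HB_mem {b x₀ : ℝ} (hx₀ : x₀ ≤ b) {n k : ℕ} (hk : k ≤ n) :
    HB_c b k ∈ ball (HB_c b n) (HB_R b x₀ n) := by
  rw [mem_ball, dist_eq_norm]
  have h1 : HB_c b k - HB_c b n = (((k : ℝ) - n : ℝ) : ℂ) := by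
    unfold HB_c
    push_cast
    ring
  have hk' : (k : ℝ) ≤ n := by exact_mod_cast hk
  have hk0 : (0 : ℝ) ≤ k := Nat.cast_nonneg k
  rw [h1, Complex.norm_real, Real.norm_eq_abs, abs_of_nonpos (by linarith)]
  have h2 := HB_inv_le n
  rw [HB_R]
  linarith

/-- Meromorphic continuation to a half plane, in terms of countably many discs. -/
theorem exists_mero_iffH {F : ℂ → ℂ} {b x₀ : ℝ} (hx₀ : x₀ ≤ b)
    (hF : DifferentiableOn ℂ F {s : ℂ | b < s.re}) :
    (∃ g : ℂ → ℂ, MeromorphicOn g {s : ℂ | x₀ < s.re} ∧ ∀ s : ℂ, b < s.re → F s = g s) ↔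
      ∀ n : ℕ, ∃ d N : ℕ, Adm (fun z => F (HB_c b n + z)) d N (HB_R b x₀ n) := by
  constructor
  · rintro ⟨g, hg, hgF⟩ n
    refine exists_admH (HB_R_gt hx₀ n) (hg.mono_set (HClosedBall_sub (HB_R_lt n))) ?_
    intro z hz
    exact hgF _ (HB_ball_sub n hz)
  · intro H
    choose d N q hq u hu hr using H
    have hRpos : ∀ n, 0 < HB_R b x₀ n := fun n => by linarith [HB_R_gt hx₀ n]
    obtain ⟨f, hf⟩ : ∃ f : ℕ → ℂ → ℂ, f = fun n z =>
        ev (u n) (z - HB_c b n) / ev (q n) (z - HB_c b n) := ⟨_, rfl⟩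
    have hfm : ∀ n, MeromorphicOn (f n) (ball (HB_c b n) (HB_R b x₀ n)) := fun n => by
      rw [hf]
      exact BorelA_mero (hRpos n) (hq n) (hu n) _
    have hVo : IsOpen {s : ℂ | b < s.re} := HHalf_open b
    have hFm : MeromorphicOn F {s : ℂ | b < s.re} := fun s hs =>
      (hF.analyticAt (hVo.mem_nhds hs)).meromorphicAt
    have hfF : ∀ n, ∀ s ∈ ball (HB_c b n) (HB_R b x₀ n), b < s.re → f n =ᶠ[𝓝[≠] s] F := by
      intro n s hs hsb
      refine mero_identity (U := ball (HB_c b n) (HB_R b x₀ n) ∩ {s : ℂ | b < s.re})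
        ((convex_ball _ _).inter (convex_halfSpace_re_gt b)).isPreconnected
        ((hfm n).mono_set inter_subset_left) (hFm.mono_set inter_subset_right)
        (s₀ := HB_c b n) ⟨mem_ball_self (hRpos n), ?_⟩ ?_ s ⟨hs, hsb⟩
      · have := HB_ball_sub (b := b) n (z := 0) (by simp)
        rwa [add_zero] at this
      · have h1 := BorelA_loc (hq n) (hr n) (HB_c b n) (HB_c b n) (mem_ball_self one_pos)
        rw [hf]
        simp only [add_sub_cancel] at h1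
        exact h1
    have hsel : ∀ s : ℂ, ∃ n : ℕ, x₀ < s.re → s ∈ ball (HB_c b n) (HB_R b x₀ n) := by
      intro s
      by_cases h : x₀ < s.re
      · obtain ⟨n, hn⟩ := HB_cover hx₀ h
        exact ⟨n, fun _ => hn⟩
      · exact ⟨0, fun h' => absurd h' h⟩
    choose ν hν using hsel
    obtain ⟨g, hg, hgf⟩ := glueOn (U := {s : ℂ | x₀ < s.re}) (HHalf_open x₀)
      (fun s => ball (HB_c b (ν s)) (HB_R b x₀ (ν s))) (fun s => f (ν s))
      (fun s hs => ⟨isOpen_ball, hν s hs⟩) (fun s _ => hfm _)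
      (by
        intro s _ t _ z hz
        have hmin1 := HB_mem (b := b) (x₀ := x₀) hx₀ (min_le_left (ν s) (ν t))
        have hmin2 := HB_mem (b := b) (x₀ := x₀) hx₀ (min_le_right (ν s) (ν t))
        have hb : b < (HB_c b (min (ν s) (ν t))).re := by
          have := HB_ball_sub (b := b) (min (ν s) (ν t)) (z := 0) (by simp)
          rwa [add_zero] at this
        refine mero_identity (U := ball (HB_c b (ν s)) (HB_R b x₀ (ν s)) ∩
          ball (HB_c b (ν t)) (HB_R b x₀ (ν t)))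
          ((convex_ball _ _).inter (convex_ball _ _)).isPreconnected
          ((hfm _).mono_set inter_subset_left) ((hfm _).mono_set inter_subset_right)
          ⟨hmin1, hmin2⟩ ?_ z hz
        exact (hfF _ _ hmin1 hb).trans (hfF _ _ hmin2 hb).symm)
    have hsub : {s : ℂ | b < s.re} ⊆ {s : ℂ | x₀ < s.re} := fun s hs => lt_of_le_of_lt hx₀ hs
    obtain ⟨g', hg', hgF, -⟩ := mero_fix hg hVo hsub hF (by
      intro s hs
      exact (hgf s (hsub hs) s (hν s (hsub hs)) (hsub hs)).trans (hfF _ _ (hν s (hsub hs)) hs))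
    exact ⟨g', hg', fun s hs => (hgF s hs).symm⟩

/-- The set is a countable intersection of countable unions of closed sets (`isClosed_adm`). -/
theorem measurable_meroH {F : ℝ → ℂ → ℂ} {b x₀ : ℝ} (hx₀ : x₀ ≤ b)
    (hc : ∀ s : ℂ, b < s.re → Continuous fun t => F t s)
    (hd : ∀ t, DifferentiableOn ℂ (F t) {s : ℂ | b < s.re}) :
    MeasurableSet {t : ℝ | ∃ g : ℂ → ℂ, MeromorphicOn g {s : ℂ | x₀ < s.re} ∧
      ∀ s : ℂ, b < s.re → F t s = g s} := by
  have h1 : {t : ℝ | ∃ g : ℂ → ℂ, MeromorphicOn g {s : ℂ | x₀ < s.re} ∧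
      ∀ s : ℂ, b < s.re → F t s = g s} =
      ⋂ n : ℕ, ⋃ d : ℕ, ⋃ N : ℕ,
        {t : ℝ | Adm (fun z => F t (HB_c b n + z)) d N (HB_R b x₀ n)} := by
    ext t
    simp only [mem_ofPred_eq, mem_iInter, mem_iUnion]
    exact exists_mero_iffH hx₀ (hd t)
  rw [h1]
  refine MeasurableSet.iInter fun n => MeasurableSet.iUnion fun d => MeasurableSet.iUnion fun N =>
    (isClosed_adm (h := fun t z => F t (HB_c b n + z)) (fun z hz => ?_) d N
      (HB_R_gt hx₀ n)).measurableSet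
  exact hc _ (HB_ball_sub n hz)

end Pool.Agent.ZT
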