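import Pool.Agent.W_eea520_h25.Half

/-! Continuations to half planes: sums, differences and twists (lemmas of helper66). -/

set_option autoImplicit false

namespace Pool.Agent.EEA520

open Filter

theorem Cont.contTo {D : Dat} (h : Cont D) (c : ℝ) : ContTo c D := by
  obtain ⟨hD, b, g, hg, hb⟩ := h
  exact ⟨hD, b, g, fun s _ => hg s, hb⟩

theorem ContTo.neg {c : ℝ} {D : Dat} (h : ContTo c D) : ContTo c (-D) := by
  obtain ⟨hD, b, g, hg, hb⟩ := h
  refine ⟨BB.neg_mem hD, b, g⁻¹, fun s hs => (hg s hs).inv, fun s hs => ?_⟩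
  have h1 := hb s hs
  unfold EE at h1 ⊢
  rw [LL_neg, Complex.exp_neg, h1, Pi.inv_apply]

theorem ContTo.add {c : ℝ} {D D' : Dat} (h : ContTo c D) (h' : ContTo c D') :
    ContTo c (D + D') := by
  obtain ⟨hD, b, g, hg, hb⟩ := h
  obtain ⟨hD', b', g', hg', hb'⟩ := h'
  obtain ⟨b0, hb0⟩ := LL_add hD hD'
  refine ⟨BB.add_mem hD hD', max b0 (max b b'), g * g', fun s hs => (hg s hs).mul (hg' s hs),
    fun s hs => ?_⟩
  have h0 := hb0 s (lt_of_le_of_lt (le_max_left _ _) hs)
  have h1 := hb s (lt_of_le_of_lt ((le_max_left _ _).trans (le_max_right _ _)) hs)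
  have h2 := hb' s (lt_of_le_of_lt ((le_max_right _ _).trans (le_max_right _ _)) hs)
  unfold EE at h1 h2 ⊢
  rw [h0, Complex.exp_add, h1, h2, Pi.mul_apply]

theorem ContTo.sub {c : ℝ} {D D' : Dat} (h : ContTo c D) (h' : ContTo c D') :
    ContTo c (D - D') := by
  rw [sub_eq_add_neg]
  exact h.add h'.neg

theorem ContTo.zero (c : ℝ) : ContTo c 0 := cont_zero.contTo c

theorem ContTo.intCast_mul {c : ℝ} {D : Dat} (h : ContTo c D) (n : ℤ) :
    ContTo c ((n : Dat) * D) := by
  have h1 : ∀ n : ℕ, ContTo c ((n : Dat) * D) := by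
    intro n
    induction n with
    | zero =>
      rw [Nat.cast_zero, zero_mul]
      exact ContTo.zero c
    | succ n ih =>
      rw [Nat.cast_succ, add_mul, one_mul]
      exact ih.add h
  obtain ⟨n, rfl | rfl⟩ := n.eq_nat_or_neg
  · rw [Int.cast_natCast]
    exact h1 n
  · rw [Int.cast_neg, Int.cast_natCast, neg_mul]
    exact (h1 n).neg

theorem ContTo.sum {c : ℝ} {ι : Type} (s : Finset ι) (D : ι → Dat)
    (h : ∀ i ∈ s, ContTo c (D i)) : ContTo c (∑ i ∈ s, D i) := by
  classical
  induction s using Finset.induction_on with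
  | empty => exact ContTo.zero c
  | insert i s hi ih =>
    rw [Finset.sum_insert hi]
    exact (h i (Finset.mem_insert_self i s)).add (ih fun j hj => h j (Finset.mem_insert_of_mem hj))

/-- `EE (tw w * D) s = EE D (s - w)`. -/
theorem ContTo.tw {c : ℝ} {D : Dat} (h : ContTo c D) (w : ℂ) :
    ContTo (c + w.re) (tw w * D) := by
  obtain ⟨hD, b, g, hg, hb⟩ := h
  refine ⟨BB.mul_mem (tw_mem _) hD, b + w.re, fun s => g (s - w), fun x hx => ?_,
    fun s hs => ?_⟩
  · have hx' : c + w.re < x.re := hx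
    have h1 : c < (x - w).re := by
      rw [Complex.sub_re]
      linarith
    exact (hg (x - w) h1).comp_analyticAt (g := fun s => s - w) (by fun_prop)
  · have h1 := hb (s - w) (by rw [Complex.sub_re]; linarith)
    unfold EE at h1 ⊢
    rw [LL_tw, h1]

end Pool.Agent.EEA520
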