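import Pool.Agent.W_eea520_h69.HBorelA
import Pool.Agent.W_eea520_h69.BorelB
import Pool.Agent.W_eea520_h69.CatC
import Pool.Agent.W_eea520_h69.CatB
import Pool.Agent.W_eea520_h69.HCT

/-! Half-plane versions: category and measure on vertical lines. -/

set_option autoImplicit false

namespace Pool.Agent.EEA520

open Filter Topology MeasureTheory

theorem ContTo.mono {c c' : ℝ} {D : Dat} (h : ContTo c D) (hc : c ≤ c') : ContTo c' D := by
  obtain ⟨hD, b, g, hg, hb⟩ := h
  exact ⟨hD, b, g, hg.mono_set fun s hs => lt_of_le_of_lt hc hs, hb⟩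

theorem ContTo.mem {c : ℝ} {D : Dat} (h : ContTo c D) : D ∈ BB := h.1

theorem ContTo.tw' {c c' : ℝ} {D : Dat} {w : ℂ} (h : ContTo c D) (hw : c' = c + w.re) :
    ContTo c' (EEA520.tw w * D) := by
  rw [hw]
  exact h.tw w

theorem ContTo.untw {c c' : ℝ} {D : Dat} {w : ℂ} (h : ContTo c (EEA520.tw w * D))
    (hw : c' = c - w.re) : ContTo c' D := by
  have h1 := h.tw' (w := -w) (c' := c') (by rw [hw, Complex.neg_re]; ring)
  rwa [tw_neg_mul] at h1

theorem HCat_re (r : ℝ) (β : ℝ) : ((r : ℂ) * ((β : ℂ) * Complex.I)).re = 0 := by simp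

/-- Take `b` from `LL_family`; by `ZT.mero_fix_halfH` `ContTo c (F t)` is equivalent to the existence
of an extension of `EE (F t)` from `max b c < re s`. Use `ZT.measurable_meroH`. -/
theorem measurable_twistsH (A : Finset ℤ) (D : ℤ → Dat) (hD : ∀ a ∈ A, D a ∈ BB) (x c : ℝ) :
    MeasurableSet {t : ℝ | ContTo c (∑ a ∈ A, tw ((a : ℂ) * (x + t * Complex.I)) * D a)} := by
  obtain ⟨b', hdiff', hcont', hsum'⟩ := LL_family A D hD x
  obtain ⟨b, hb⟩ : ∃ b, b = max b' c := ⟨_, rfl⟩
  have hb' : b' ≤ b := by rw [hb]; exact le_max_left _ _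
  have hcb : c ≤ b := by rw [hb]; exact le_max_right _ _
  have hBB : ∀ t : ℝ, (∑ a ∈ A, tw ((a : ℂ) * (x + t * Complex.I)) * D a) ∈ BB := fun t =>
    BB.sum_mem fun a ha => BB.mul_mem (tw_mem _) (hD a ha)
  have hEE : ∀ t : ℝ, DifferentiableOn ℂ
      (EE (∑ a ∈ A, tw ((a : ℂ) * (x + t * Complex.I)) * D a)) {s : ℂ | b < s.re} := by
    intro t
    have h1 : DifferentiableOn ℂ
        (fun s => Complex.exp (∑ a ∈ A, LL (D a) (s - a * (x + t * Complex.I))))
        {s : ℂ | b < s.re} :=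
      (DifferentiableOn.fun_sum fun a ha => (hdiff' a ha t).mono
        fun s hs => lt_of_le_of_lt hb' hs).cexp
    refine h1.congr fun s hs => ?_
    unfold EE
    rw [hsum' t s (lt_of_le_of_lt hb' hs)]
  have h1 : ∀ s : ℂ, b < s.re → Continuous fun t : ℝ =>
      EE (∑ a ∈ A, tw ((a : ℂ) * (x + t * Complex.I)) * D a) s := by
    intro s hs
    have h2 : (fun t : ℝ => EE (∑ a ∈ A, tw ((a : ℂ) * (x + t * Complex.I)) * D a) s) =
        fun t : ℝ => Complex.exp (∑ a ∈ A, LL (D a) (s - a * (x + t * Complex.I))) := by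
      funext t
      unfold EE
      rw [hsum' t _ (lt_of_le_of_lt hb' hs)]
    rw [h2]
    exact (continuous_finsetSum A fun a ha => hcont' a ha _ (lt_of_le_of_lt hb' hs)).cexp
  have h3 := ZT.measurable_meroH (F := fun t s =>
    EE (∑ a ∈ A, tw ((a : ℂ) * (x + t * Complex.I)) * D a) s) hcb h1 hEE
  have h4 : {t : ℝ | ContTo c (∑ a ∈ A, tw ((a : ℂ) * (x + t * Complex.I)) * D a)} =
      {t : ℝ | ∃ g : ℂ → ℂ, MeromorphicOn g {s : ℂ | c < s.re} ∧ ∀ s : ℂ, b < s.re →
        EE (∑ a ∈ A, tw ((a : ℂ) * (x + t * Complex.I)) * D a) s = g s} := by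
    ext t
    constructor
    · rintro ⟨-, b'', g, hg, hb''⟩
      exact ZT.mero_fix_halfH hcb hg (hEE t) hb''
    · rintro ⟨g, hg, h5⟩
      exact ⟨hBB t, b, g, hg, h5⟩
  rw [h4]
  exact h3

/-- `ZT.difference_propertyH` for `G = EE D`. -/
theorem cont_of_allH {D : Dat} (hD : D ∈ BB) (c : ℝ)
    (h : ∀ β : ℝ, ContTo c ((tw (β * Complex.I) - 1) * D)) : ContTo c D := by
  obtain ⟨b₀, _, hb₀⟩ := LL_nice D hD
  obtain ⟨b, hb⟩ : ∃ b, b = max b₀ c := ⟨_, rfl⟩
  have hb' : b₀ ≤ b := by rw [hb]; exact le_max_left _ _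
  have hcb : c ≤ b := by rw [hb]; exact le_max_right _ _
  have hG : DifferentiableOn ℂ (EE D) {s : ℂ | b < s.re} :=
    hb₀.cexp.mono fun s hs => lt_of_le_of_lt hb' hs
  have hG0 : ∀ s : ℂ, b < s.re → EE D s ≠ 0 := fun s _ => Complex.exp_ne_zero _
  obtain ⟨g, hg, hgb⟩ := ZT.difference_propertyH hcb hG hG0 (by
    intro β
    obtain ⟨_, b1, m, hm, hmb⟩ := h (-β)
    obtain ⟨b2, hb2⟩ := CatA_EE hD (((-β : ℝ) : ℂ) * Complex.I)
    refine ⟨max b1 b2, m, hm, fun s hs => ?_⟩
    rw [← hmb s (lt_of_le_of_lt (le_max_left _ _) hs),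
      ← hb2 s (lt_of_le_of_lt (le_max_right _ _) hs)]
    congr 1
    push_cast
    ring)
  exact ⟨hD, b, g, hg, hgb⟩

/-- The real numbers `β` with `ContTo c ((tw (β I) - 1) * D)` are a subgroup:
`tw (β + β') - 1 = tw β * (tw β' - 1) + (tw β - 1)`. -/
theorem exists_subgroupH (D : Dat) (c : ℝ) : ∃ H : AddSubgroup ℝ, ∀ β : ℝ,
    β ∈ H ↔ ContTo c ((tw (β * Complex.I) - 1) * D) := by
  refine ⟨{ carrier := {β : ℝ | ContTo c ((tw (β * Complex.I) - 1) * D)}
            add_mem' := ?_
            zero_mem' := ?_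
            neg_mem' := ?_ }, fun β => Iff.rfl⟩
  · intro β β' hβ hβ'
    have h1 := (hβ'.tw' (w := (β : ℂ) * Complex.I) (c' := c) (by simp)).add hβ
    have h2 : (tw (((β + β' : ℝ) : ℂ) * Complex.I) - 1) * D =
        tw ((β : ℂ) * Complex.I) * ((tw ((β' : ℂ) * Complex.I) - 1) * D) +
          (tw ((β : ℂ) * Complex.I) - 1) * D := by
      have h3 : ((β + β' : ℝ) : ℂ) * Complex.I = (β : ℂ) * Complex.I + (β' : ℂ) * Complex.I := by
        push_cast
        ring
      rw [h3, tw_add]
      ring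
    show ContTo c _
    rw [h2]
    exact h1
  · show ContTo c _
    have h1 : ((0 : ℝ) : ℂ) * Complex.I = 0 := by simp
    rw [h1, tw_zero, sub_self, zero_mul]
    exact ContTo.zero c
  · intro β hβ
    have h1 := (hβ.tw' (w := -((β : ℂ) * Complex.I)) (c' := c) (by simp)).neg
    have h2 : (tw (((-β : ℝ) : ℂ) * Complex.I) - 1) * D =
        -(tw (-((β : ℂ) * Complex.I)) * ((tw ((β : ℂ) * Complex.I) - 1) * D)) := by
      have h3 : ((-β : ℝ) : ℂ) * Complex.I = -((β : ℂ) * Complex.I) := by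
        push_cast
        ring
      have h4 := tw_neg_mul ((β : ℂ) * Complex.I) D
      rw [h3, sub_mul, sub_mul, mul_sub, h4, one_mul]
      ring
    show ContTo c _
    rw [h2]
    exact h1

/-- A subgroup of `ℝ` which is a neighbourhood of zero is `ℝ`; `cont_of_allH`. -/
theorem cont_of_nhdsH {D : Dat} (hD : D ∈ BB) (c : ℝ)
    (h : ∀ᶠ β : ℝ in 𝓝 0, ContTo c ((tw (β * Complex.I) - 1) * D)) : ContTo c D := by
  obtain ⟨H, hH⟩ := exists_subgroupH D c
  refine cont_of_allH hD c fun β => (hH β).1 ?_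
  obtain ⟨ε, hε, hball⟩ := Metric.eventually_nhds_iff.1 h
  obtain ⟨N, hN⟩ := exists_nat_gt (|β| / ε)
  have hN0 : (0 : ℝ) < N := lt_of_le_of_lt (div_nonneg (abs_nonneg β) hε.le) hN
  have h1 : β / N ∈ H := by
    rw [hH]
    apply hball
    rw [Real.dist_eq, sub_zero, abs_div, abs_of_pos hN0, div_lt_iff₀ hN0, mul_comm]
    rwa [div_lt_iff₀ hε] at hN
  have h2 := H.nsmul_mem h1 N
  rw [nsmul_eq_mul, mul_div_cancel₀ _ hN0.ne'] at h2
  exact h2

open scoped Pointwise in
/-- A subgroup of `ℝ` which contains a measurable set of positive measure is a neighbourhood of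
zero. -/
theorem cont_of_posH {D : Dat} (hD : D ∈ BB) (c : ℝ) {S : Set ℝ} (hS : MeasurableSet S)
    (hS' : volume S ≠ 0) (h : ∀ β ∈ S, ContTo c ((tw (β * Complex.I) - 1) * D)) :
    ContTo c D := by
  obtain ⟨H, hH⟩ := exists_subgroupH D c
  have h1 : S - S ∈ 𝓝 (0 : ℝ) :=
    MeasureTheory.Measure.sub_mem_nhds_zero_of_addHaar_pos volume S hS (pos_iff_ne_zero.2 hS')
  apply cont_of_nhdsH hD
  filter_upwards [h1] with β hβ
  obtain ⟨x, hx, y, hy, rfl⟩ := Set.mem_sub.1 hβ
  rw [← hH]
  exact H.sub_mem ((hH x).2 (h x hx)) ((hH y).2 (h y hy))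

/-- The algebraic step, as `cont_step`. -/
theorem cont_stepH (A : Finset ℤ) (D : ℤ → Dat) (k : ℤ) (x t α c : ℝ)
    (h : ContTo c (∑ a ∈ A, tw ((a : ℂ) * (x + t * Complex.I)) * D a))
    (h' : ContTo c (∑ a ∈ A, tw ((a : ℂ) * (x + (t + α : ℝ) * Complex.I)) * D a)) :
    ContTo c (∑ a ∈ A.erase k, tw ((a : ℂ) * (x + t * Complex.I)) *
      ((tw ((a : ℂ) * (α * Complex.I)) - tw ((k : ℂ) * (α * Complex.I))) * D a)) := by
  have h1 := h'.sub (h.tw' (w := (k : ℂ) * (α * Complex.I)) (c' := c) (by simp))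
  have h2 : ∀ a : ℤ, tw ((a : ℂ) * (x + (t + α : ℝ) * Complex.I)) * D a -
      tw ((k : ℂ) * (α * Complex.I)) * (tw ((a : ℂ) * (x + t * Complex.I)) * D a) =
      tw ((a : ℂ) * (x + t * Complex.I)) *
        ((tw ((a : ℂ) * (α * Complex.I)) - tw ((k : ℂ) * (α * Complex.I))) * D a) := by
    intro a
    have h3 : (a : ℂ) * (x + (t + α : ℝ) * Complex.I) =
        (a : ℂ) * (x + t * Complex.I) + (a : ℂ) * (α * Complex.I) := by
      push_cast
      ring
    rw [h3, tw_add]
    ring
  rw [Finset.mul_sum, ← Finset.sum_sub_distrib, Finset.sum_congr rfl fun a _ => h2 a] at h1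
  rw [Finset.sum_erase]
  · exact h1
  · rw [sub_self, zero_mul, mul_zero]

theorem HCat_re2 (a : ℤ) (x t : ℝ) : ((a : ℂ) * ((x : ℂ) + (t : ℂ) * Complex.I)).re = a * x := by
  simp

/-- The case of nonmeagre sets, as `cont_of_not_meagre`. -/
theorem cont_of_not_meagreH (A : Finset ℤ) (D : ℤ → Dat) (hD : ∀ a ∈ A, D a ∈ BB) (x c : ℝ)
    (h : ¬ IsMeagre {t : ℝ | ContTo c (∑ a ∈ A, tw ((a : ℂ) * (x + t * Complex.I)) * D a)}) :
    ∀ a ∈ A, ContTo (c - a * x) (D a) := by
  classical
  induction A using Finset.induction_on generalizing D with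
  | empty => intro a ha; simp at ha
  | insert k s hk ih =>
    have hT := measurable_twistsH (insert k s) D hD x c
    have h1 := catB_inter hT h
    have hDs : ∀ a ∈ s, D a ∈ BB := fun a ha => hD a (Finset.mem_insert_of_mem ha)
    have h2 : ∀ᶠ α : ℝ in 𝓝 0, ∀ a ∈ s, ContTo (c - a * x)
        ((tw ((a : ℂ) * (α * Complex.I)) - tw ((k : ℂ) * (α * Complex.I))) * D a) := by
      filter_upwards [h1] with α hα
      refine ih (fun a => (tw ((a : ℂ) * (α * Complex.I)) - tw ((k : ℂ) * (α * Complex.I))) * D a)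
        (fun a ha => BB.mul_mem (BB.sub_mem (tw_mem _) (tw_mem _)) (hDs a ha)) ?_
      intro hm
      apply hα
      refine hm.mono ?_
      rintro t ⟨ht, ht'⟩
      have h3 := cont_stepH (insert k s) D k x t α c ht (by simpa using ht')
      rw [Finset.erase_insert hk] at h3
      exact h3
    have h4 : ∀ a ∈ s, ContTo (c - a * x) (D a) := by
      intro a ha
      have hak : ((a : ℝ) - k) ≠ 0 := by
        intro h0
        have : (a : ℝ) = k := by linarith
        have h5 : a = k := by exact_mod_cast this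
        exact hk (h5 ▸ ha)
      refine cont_of_nhdsH (hDs a ha) _ ?_
      have ht : Tendsto (fun β : ℝ => β / ((a : ℝ) - k)) (𝓝 0) (𝓝 0) := by
        have : Continuous fun β : ℝ => β / ((a : ℝ) - k) := by fun_prop
        simpa using this.tendsto 0
      filter_upwards [ht.eventually h2] with β hβ
      have h5 := (hβ a ha).tw' (w := -((k : ℂ) * ((β / ((a : ℝ) - k) : ℝ) * Complex.I)))
        (c' := c - a * x) (by
          rw [Complex.neg_re]
          have := HCat_re (k : ℝ) (β / ((a : ℝ) - k))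
          rw [show ((k : ℂ)) = (((k : ℤ) : ℝ) : ℂ) by push_cast; rfl, this]
          ring)
      have h6 : tw (-((k : ℂ) * ((β / ((a : ℝ) - k) : ℝ) * Complex.I))) *
          ((tw ((a : ℂ) * ((β / ((a : ℝ) - k) : ℝ) * Complex.I)) -
            tw ((k : ℂ) * ((β / ((a : ℝ) - k) : ℝ) * Complex.I))) * D a) =
          (tw (β * Complex.I) - 1) * D a := by
        rw [← mul_assoc, mul_sub, ← tw_add, ← tw_add, neg_add_cancel, tw_zero]
        congr 3
        have hak' : ((a : ℂ) - k) ≠ 0 := by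
          intro h0
          apply hak
          exact_mod_cast h0
        push_cast
        field_simp
        ring
      rw [h6] at h5
      exact h5
    have hne : ∃ t : ℝ, ContTo c (∑ a ∈ insert k s, tw ((a : ℂ) * (x + t * Complex.I)) * D a) := by
      by_contra hno
      apply h
      have : {t : ℝ | ContTo c (∑ a ∈ insert k s, tw ((a : ℂ) * (x + t * Complex.I)) * D a)} = ∅ := by
        apply Set.eq_empty_of_forall_notMem
        intro t ht
        exact hno ⟨t, ht⟩
      rw [this]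
      exact IsMeagre.empty
    obtain ⟨t, ht⟩ := hne
    rw [Finset.sum_insert hk] at ht
    have h7 := ContTo.sum s (fun a => tw ((a : ℂ) * (x + t * Complex.I)) * D a)
      (fun a ha => (h4 a ha).tw' (c' := c) (by rw [HCat_re2]; ring))
    have h8 := ht.sub h7
    rw [add_sub_cancel_right] at h8
    have h9 := h8.untw (c' := c - k * x) (by rw [HCat_re2])
    intro a ha
    rcases Finset.mem_insert.1 ha with rfl | ha
    · exact h9
    · exact h4 a ha

/-- The case of sets of positive measure, as `cont_of_not_null`. -/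
theorem cont_of_not_nullH (A : Finset ℤ) (D : ℤ → Dat) (hD : ∀ a ∈ A, D a ∈ BB) (x c : ℝ)
    (h : volume {t : ℝ | ContTo c (∑ a ∈ A, tw ((a : ℂ) * (x + t * Complex.I)) * D a)} ≠ 0) :
    ∀ a ∈ A, ContTo (c - a * x) (D a) := by
  classical
  induction hn : A.card generalizing A D with
  | zero =>
    intro a ha
    rw [Finset.card_eq_zero.1 hn] at ha
    exact absurd ha (Finset.notMem_empty a)
  | succ n ih =>
    obtain ⟨k, hk⟩ : A.Nonempty := by
      rw [← Finset.card_pos, hn]
      exact Nat.succ_pos n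
    obtain ⟨T, hT⟩ : ∃ T : Set ℝ, T =
      {t : ℝ | ContTo c (∑ a ∈ A, tw ((a : ℂ) * (x + t * Complex.I)) * D a)} := ⟨_, rfl⟩
    rw [← hT] at h
    have hTm : MeasurableSet T := by
      rw [hT]
      exact measurable_twistsH A D hD x c
    obtain ⟨S, hSm, hS0, hS⟩ := CatC_shift hTm h
    have hrest : ∀ a ∈ A.erase k, ContTo (c - a * x) (D a) := by
      intro a ha
      have hak : a ≠ k := Finset.ne_of_mem_erase ha
      have hr : ((a : ℝ) - k) ≠ 0 := by
        intro h0
        have : (a : ℝ) = k := by linarith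
        exact hak (by exact_mod_cast this)
      refine cont_of_posH (hD a (Finset.mem_of_mem_erase ha)) _
        (S := (fun β : ℝ => ((a : ℝ) - k)⁻¹ * β) ⁻¹' S) ?_ ?_ ?_
      · exact (measurable_const_mul _) hSm
      · rw [Real.volume_preimage_mul_left (inv_ne_zero hr)]
        refine mul_ne_zero ?_ hS0
        rw [Ne, ENNReal.ofReal_eq_zero, not_le]
        rw [inv_inv]
        exact abs_pos.2 hr
      · intro β hβ
        obtain ⟨α, hα⟩ : ∃ α, α = ((a : ℝ) - k)⁻¹ * β := ⟨_, rfl⟩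
        have hαS : α ∈ S := by
          rw [hα]
          exact hβ
        have hβα : β = ((a : ℝ) - k) * α := by
          rw [hα, mul_inv_cancel_left₀ hr]
        have h1 := hS α hαS
        have h2 : volume {t : ℝ | ContTo c (∑ a ∈ A.erase k, tw ((a : ℂ) * (x + t * Complex.I)) *
            ((tw ((a : ℂ) * (α * Complex.I)) - tw ((k : ℂ) * (α * Complex.I))) * D a))} ≠ 0 := by
          intro h0
          apply h1
          refine measure_mono_null ?_ h0
          rintro t ⟨ht1, ht2⟩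
          rw [hT] at ht1 ht2
          exact cont_stepH A D k x t α c ht1 ht2
        have h3 := ih (A.erase k)
          (fun a => (tw ((a : ℂ) * (α * Complex.I)) - tw ((k : ℂ) * (α * Complex.I))) * D a)
          (fun b hb => BB.mul_mem (BB.sub_mem (tw_mem _) (tw_mem _))
            (hD b (Finset.mem_of_mem_erase hb))) h2
          (by rw [Finset.card_erase_of_mem hk, hn]; rfl) a ha
        have h4 := h3.tw' (w := -((k : ℂ) * (α * Complex.I))) (c' := c - a * x) (by
          rw [Complex.neg_re]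
          have := HCat_re (k : ℝ) α
          rw [show ((k : ℂ)) = (((k : ℤ) : ℝ) : ℂ) by push_cast; rfl, this]
          ring)
        have h5 : tw (-((k : ℂ) * (α * Complex.I))) *
            ((tw ((a : ℂ) * (α * Complex.I)) - tw ((k : ℂ) * (α * Complex.I))) * D a) =
            (tw ((β : ℂ) * Complex.I) - 1) * D a := by
          rw [← mul_assoc, mul_sub, ← tw_add, ← tw_add, neg_add_cancel, tw_zero]
          have h6 : -((k : ℂ) * (α * Complex.I)) + (a : ℂ) * (α * Complex.I) =
              (β : ℂ) * Complex.I := by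
            rw [hβα]
            push_cast
            ring
          rw [h6]
        rw [h5] at h4
        exact h4
    intro a ha
    by_cases hak : a = k
    · subst hak
      obtain ⟨t, ht⟩ : T.Nonempty := nonempty_of_measure_ne_zero h
      rw [hT] at ht
      have h1 : ContTo c (∑ b ∈ A.erase a, tw ((b : ℂ) * (x + t * Complex.I)) * D b) :=
        ContTo.sum _ _ fun b hb => (hrest b hb).tw' (c' := c) (by rw [HCat_re2]; ring)
      have h2 : ContTo c (∑ b ∈ A, tw ((b : ℂ) * (x + t * Complex.I)) * D b) := ht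
      have h3 := h2.sub h1
      rw [← Finset.add_sum_erase A (fun b => tw ((b : ℂ) * (x + t * Complex.I)) * D b) ha,
        add_sub_cancel_right] at h3
      exact h3.untw (c' := c - a * x) (by rw [HCat_re2])
    · exact hrest a (Finset.mem_erase.2 ⟨hak, ha⟩)

end Pool.Agent.EEA520
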