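import Pool.Agent.W_eea520_h69.HStepL
import Pool.Agent.W_eea520_h69.Diff

/-! The difference property for half planes. -/

set_option autoImplicit false

namespace Pool.Agent.ZT

open Filter Topology Metric Set Complex

/-- `mero_fix_half` for functions which are meromorphic on a half plane. -/
theorem mero_fix_halfH {g F : ℂ → ℂ} {b b' x₀ : ℝ} (hx₀ : x₀ ≤ b)
    (hg : MeromorphicOn g {s : ℂ | x₀ < s.re})
    (hF : DifferentiableOn ℂ F {s : ℂ | b < s.re}) (h : ∀ s : ℂ, b' < s.re → F s = g s) :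
    ∃ g' : ℂ → ℂ, MeromorphicOn g' {s : ℂ | x₀ < s.re} ∧ ∀ s : ℂ, b < s.re → F s = g' s := by
  have hVo : IsOpen {s : ℂ | b < s.re} := isOpen_lt continuous_const Complex.continuous_re
  have hVo' : IsOpen {s : ℂ | b' < s.re} := isOpen_lt continuous_const Complex.continuous_re
  have hU : IsPreconnected {s : ℂ | b < s.re} := (convex_halfSpace_re_gt b).isPreconnected
  have hFm : MeromorphicOn F {s : ℂ | b < s.re} := fun s hs =>
    (hF.analyticAt (hVo.mem_nhds hs)).meromorphicAt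
  have hsub : {s : ℂ | b < s.re} ⊆ {s : ℂ | x₀ < s.re} := fun s hs => lt_of_le_of_lt hx₀ hs
  have h₀ : (((max b b' + 1 : ℝ) : ℂ)) ∈ {s : ℂ | b < s.re} := by
    show b < (((max b b' + 1 : ℝ) : ℂ)).re
    rw [Complex.ofReal_re]
    have := le_max_left b b'
    linarith
  have h₀' : (((max b b' + 1 : ℝ) : ℂ)) ∈ {s : ℂ | b' < s.re} := by
    show b' < (((max b b' + 1 : ℝ) : ℂ)).re
    rw [Complex.ofReal_re]
    have := le_max_right b b'
    linarith
  have hloc : g =ᶠ[𝓝[≠] (((max b b' + 1 : ℝ) : ℂ))] F := by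
    apply Filter.Eventually.filter_mono nhdsWithin_le_nhds
    filter_upwards [hVo'.mem_nhds h₀'] with z hz
    exact (h z hz).symm
  have hid := mero_identity hU (hg.mono_set hsub) hFm h₀ hloc
  obtain ⟨g', h1, h2, -⟩ := mero_fix (U := {s : ℂ | x₀ < s.re}) hg hVo hsub hF hid
  exact ⟨g', h1, fun s hs => (h2 s hs).symm⟩

/-- **Difference property on half planes.** If `G` is analytic without zeros on a right half plane
and all quotients `G (s + β I) / G s`, `β` real, extend to meromorphic functions on `x₀ < re s`, then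
so does `G`. -/
theorem difference_propertyH {G : ℂ → ℂ} {b x₀ : ℝ} (hx₀ : x₀ ≤ b)
    (hG : DifferentiableOn ℂ G {s : ℂ | b < s.re})
    (hG0 : ∀ s : ℂ, b < s.re → G s ≠ 0)
    (h : ∀ β : ℝ, ∃ (b' : ℝ) (m : ℂ → ℂ), MeromorphicOn m {s : ℂ | x₀ < s.re} ∧
      ∀ s : ℂ, b' < s.re → G (s + β * I) = m s * G s) :
    ∃ g : ℂ → ℂ, MeromorphicOn g {s : ℂ | x₀ < s.re} ∧ ∀ s : ℂ, b < s.re → G s = g s := by
  have hVo : IsOpen {s : ℂ | b < s.re} := isOpen_lt continuous_const Complex.continuous_re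
  have h' : ∀ β : ℝ, ∃ m : ℂ → ℂ, MeromorphicOn m {s : ℂ | x₀ < s.re} ∧
      ∀ s : ℂ, b < s.re → G (s + β * I) = m s * G s := by
    intro β
    obtain ⟨b', m, hm, hms⟩ := h β
    have hsh : ∀ s : ℂ, (s + β * I).re = s.re := by
      intro s
      simp
    have hF : DifferentiableOn ℂ (fun s => G (s + β * I) / G s) {s : ℂ | b < s.re} := by
      refine DifferentiableOn.div ?_ hG (fun s hs => hG0 s hs)
      refine hG.comp (DifferentiableOn.add_const _ differentiableOn_id) ?_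
      intro s hs
      show b < (s + β * I).re
      rw [hsh]
      exact hs
    obtain ⟨m', h1, h2⟩ := mero_fix_halfH (b' := max b b') hx₀ hm hF (by
      intro s hs
      have hb : b < s.re := lt_of_le_of_lt (le_max_left _ _) hs
      have hb' : b' < s.re := lt_of_le_of_lt (le_max_right _ _) hs
      show G (s + β * I) / G s = m s
      rw [hms s hb', mul_div_assoc, div_self (hG0 s hb), mul_one])
    refine ⟨m', h1, fun s hs => ?_⟩
    rw [← h2 s hs, div_mul_cancel₀ _ (hG0 s hs)]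
  choose m hmm hm using h'
  have hGm : MeromorphicOn G {s : ℂ | b < s.re} := fun s hs =>
    (hG.analyticAt (hVo.mem_nhds hs)).meromorphicAt
  obtain ⟨X, hX⟩ : ∃ X : Set ℝ, X = {x : ℝ | x₀ ≤ x ∧ x ≤ b ∧ ∃ g : ℂ → ℂ,
      MeromorphicOn g {s : ℂ | x < s.re} ∧ ∀ s : ℂ, b < s.re → g s = G s} := ⟨_, rfl⟩
  have hbX : b ∈ X := by
    rw [hX]
    exact ⟨hx₀, le_rfl, G, hGm, fun s _ => rfl⟩
  have hbd : BddBelow X := ⟨x₀, fun x hx => by
    rw [hX] at hx
    exact hx.1⟩
  obtain ⟨g, hg, hgG⟩ := glue_half (x₀ := sInf X) hG (by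
    intro x hx
    obtain ⟨x', hx'X, hx'x⟩ := exists_lt_of_csInf_lt ⟨b, hbX⟩ hx
    rw [hX] at hx'X
    obtain ⟨_, _, g, hg, hgG⟩ := hx'X
    exact ⟨b, g, fun s hs => hg s (lt_trans hx'x hs), fun s hs => (hgG s hs).symm⟩)
  have hx0b : sInf X ≤ b := csInf_le hbd hbX
  have hx1 : x₀ ≤ sInf X := le_csInf ⟨b, hbX⟩ fun x hx => by
    rw [hX] at hx
    exact hx.1
  have hgG' : ∀ s : ℂ, b < s.re → g s = G s := fun s hs =>
    (hgG s hs (lt_of_le_of_lt hx0b hs)).symm
  rcases hx1.eq_or_lt with heq | hlt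
  · rw [← heq] at hg
    exact ⟨g, hg, fun s hs => (hgG' s hs).symm⟩
  · exfalso
    obtain ⟨s₁, r, V, hs₁, hr, hV, hVG⟩ := crossH hlt hx0b hG hG0 hmm hm hg hgG'
    obtain ⟨x', hx₀', hx', g', hg', hg'g⟩ := step_leftH hlt hG0 hmm hm hg hgG' hs₁ hr hV hVG
    obtain ⟨g'', h1, h2, -⟩ := mero_fix (U := {s : ℂ | x' < s.re}) hg' hVo (by
      intro s hs
      exact lt_of_lt_of_le hx' (le_trans hx0b (le_of_lt hs))) hG (by
      intro s hs
      have e1 := hg'g s (lt_of_le_of_lt hx0b hs)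
      have e2 : g =ᶠ[𝓝[≠] s] G := by
        apply Filter.Eventually.filter_mono nhdsWithin_le_nhds
        filter_upwards [hVo.mem_nhds hs] with z hz
        exact hgG' z hz
      exact e1.trans e2)
    have hx'X : x' ∈ X := by
      rw [hX]
      exact ⟨hx₀'.le, le_trans hx'.le hx0b, g'', h1, fun s hs => h2 s hs⟩
    exact absurd (csInf_le hbd hx'X) (not_le.2 hx')

end Pool.Agent.ZT
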