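import Pool.Agent.W_eea520_h69.Good
import Pool.Agent.W_eea520_h69.Fam

/-! Half-plane versions: Baire category with a bounded radius, admissibility of functions which are
meromorphic on a closed disc. -/

set_option autoImplicit false

namespace Pool.Agent.ZT

open Filter Topology Metric Set

/-- As `exists_good`, with radii less than `R₂`. -/
theorem exists_goodH {h : ℝ → ℂ → ℂ} (hc : ∀ z, ‖z‖ < 1 → Continuous fun β => h β z)
    {R₁ R₂ : ℝ} (h1 : 1 < R₁) (h12 : R₁ < R₂)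
    (hA : ∀ (β R : ℝ), 1 < R → R < R₂ → ∃ d N : ℕ, Adm (h β) d N R) :
    ∃ (R : ℝ) (d N : ℕ) (β₀ δ : ℝ), R₁ < R ∧ R < R₂ ∧ 0 < δ ∧
      (∀ β, |β - β₀| ≤ δ → Adm (h β) d N R) ∧
      ∀ q ∈ QQ d, ∀ u ∈ UU N R, ∀ q' ∈ QQ d, ∀ u' ∈ UU N R, Rel (h β₀) q u → Rel (h β₀) q' u' →
        ∃ θ : ℂ, θ ≠ 0 ∧ ∀ z, ev q' z = θ * ev q z := by
  classical
  have hP : ∃ d : ℕ, ∃ (N : ℕ) (R : ℝ), (R₁ < R ∧ R < R₂) ∧
      (interior {β : ℝ | Adm (h β) d N R}).Nonempty := by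
    obtain ⟨d, N, hdN⟩ := exists_interior hc (R := (R₁ + R₂) / 2) (by linarith)
      (fun β => hA β ((R₁ + R₂) / 2) (by linarith) (by linarith))
    exact ⟨d, N, (R₁ + R₂) / 2, ⟨by linarith, by linarith⟩, hdN⟩
  obtain ⟨N, R, ⟨hR, hR2⟩, hJ⟩ := Nat.find_spec hP
  have hmin := fun m => Nat.find_min (m := m) hP
  generalize Nat.find hP = d at hJ hmin
  have hd : 0 < d := by
    rcases Nat.eq_zero_or_pos d with h0 | h0
    · exfalso
      obtain ⟨β, hβ⟩ := hJ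
      obtain ⟨q, hq, -⟩ := interior_subset hβ
      obtain ⟨j, hj, -⟩ := hq.2.2
      omega
    · exact h0
  set R'' := (R₁ + R) / 2 with hR''
  have hR1'' : R₁ < R'' := by rw [hR'']; linarith
  have hR2'' : R'' < R := by rw [hR'']; linarith
  have hcl : ∀ N' : ℕ, IsClosed {β : ℝ | Adm (h β) (d - 1) N' R''} :=
    fun N' => isClosed_adm hc (d - 1) N' (by linarith)
  have hdense : Dense (⋂ N' : ℕ, {β : ℝ | Adm (h β) (d - 1) N' R''}ᶜ) := by
    apply dense_iInter_of_isOpen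
    · exact fun N' => (hcl N').isOpen_compl
    · intro N'
      rw [← interior_eq_empty_iff_dense_compl]
      by_contra hcon
      exact hmin (d - 1) (by omega) ⟨N', R'', ⟨hR1'', by linarith⟩, nonempty_iff_ne_empty.2 hcon⟩
  obtain ⟨β₀, hβJ, hβ⟩ := hdense.inter_open_nonempty _ isOpen_interior hJ
  obtain ⟨ε, hε, hball⟩ := Metric.isOpen_iff.1 isOpen_interior β₀ hβJ
  refine ⟨R, d, N, β₀, ε / 2, hR, hR2, by linarith, ?_, ?_⟩
  · intro β hβ'
    have h3 : β ∈ ball β₀ ε := by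
      rw [mem_ball, Real.dist_eq]; linarith
    have h4 : β ∈ {β : ℝ | Adm (h β) d N R} := interior_subset (hball h3)
    exact h4
  · intro q hq u hu q' hq' u' hu' H H'
    refine unique_of_not_adm (by linarith) hR2'' ?_ hq hu hq' hu' H H'
    intro N' hN'
    exact (mem_iInter.1 hβ N') hN'

/-- As `exists_family`, with radii less than `R₂`. -/
theorem exists_familyH {h : ℝ → ℂ → ℂ} (hc : ∀ z, ‖z‖ < 1 → Continuous fun β => h β z)
    {R₁ R₂ : ℝ} (h1 : 1 < R₁) (h12 : R₁ < R₂)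
    (hA : ∀ (β R : ℝ), 1 < R → R < R₂ → ∃ d N : ℕ, Adm (h β) d N R) :
    ∃ (R β₀ : ℝ) (P : Set ℂ) (d N : ℕ), R₁ < R ∧ R < R₂ ∧ P.Finite ∧
      ∀ K : Set ℂ, IsCompact K → K ⊆ ball 0 R → Disjoint K P →
        ∃ (δ : ℝ) (H : ℝ → ℂ → ℂ), 0 < δ ∧
          ContinuousOn (fun x : ℝ × ℂ => H x.1 x.2) (Icc (β₀ - δ) (β₀ + δ) ×ˢ K) ∧
          ∀ β ∈ Icc (β₀ - δ) (β₀ + δ), ∃ q ∈ QQ d, ∃ u ∈ UU N R, Rel (h β) q u ∧
            ∀ z ∈ K, ev q z ≠ 0 ∧ H β z = ev u z / ev q z := by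
  obtain ⟨R, d, N, β₀, δ₀, hR, hR2, hδ₀, hadm, huniq⟩ := exists_goodH hc h1 h12 hA
  have hR1 : 1 < R := h1.trans hR
  obtain ⟨q₀, hq₀, u₀, hu₀, hr₀⟩ := hadm β₀ (by simpa using hδ₀.le)
  refine ⟨R, β₀, {z | ev q₀ z = 0}, d, N, hR, hR2, finite_zeros hq₀, fun K hK hKR hd => ?_⟩
  obtain ⟨δ₁, hδ₁, hnv⟩ := exists_nonvanishing hc hR1 d N β₀ hK hKR (by
    intro q hq u hu hr z hz
    obtain ⟨θ, hθ, h2⟩ := huniq q₀ hq₀ u₀ hu₀ q hq u hu hr₀ hr
    rw [h2 z]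
    exact mul_ne_zero hθ fun h3 => Set.disjoint_left.1 hd hz h3)
  have hmem : ∀ β ∈ Icc (β₀ - min δ₀ δ₁) (β₀ + min δ₀ δ₁), |β - β₀| ≤ min δ₀ δ₁ := by
    intro β hβ
    rw [abs_le]
    exact ⟨by linarith [hβ.1], by linarith [hβ.2]⟩
  obtain ⟨H, hH1, hH2⟩ := exists_joint hc hR1 d N
    (isCompact_Icc (a := β₀ - min δ₀ δ₁) (b := β₀ + min δ₀ δ₁)) hK hKR
    (fun β hβ => hadm β ((hmem β hβ).trans (min_le_left _ _)))
    (fun β hβ => hnv β ((hmem β hβ).trans (min_le_right _ _)))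
  refine ⟨min δ₀ δ₁, H, lt_min hδ₀ hδ₁, hH1, fun β hβ => ?_⟩
  obtain ⟨q, hq, u, hu, hr⟩ := hadm β ((hmem β hβ).trans (min_le_left _ _))
  exact ⟨q, hq, u, hu, hr, fun z hz =>
    ⟨hnv β ((hmem β hβ).trans (min_le_right _ _)) q hq u hu hr z hz,
      hH2 β hβ q hq u hu hr z hz⟩⟩

/-- As `exists_adm`, for functions which are meromorphic on the closed disc. -/
theorem exists_admH {f h : ℂ → ℂ} {c : ℂ} {R : ℝ} (hR : 1 < R)
    (hf : MeromorphicOn f (closedBall c R)) (hh : ∀ z, ‖z‖ < 1 → h z = f (c + z)) :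
    ∃ d N : ℕ, Adm h d N R := by
  have hn' : ∀ x : ℂ, ∃ n : ℕ, x ∈ closedBall c R →
      AnalyticAt ℂ (fun z => (z - x) ^ n • f z) x := by
    intro x
    by_cases hx : x ∈ closedBall c R
    · obtain ⟨n, hn⟩ := hf x hx
      exact ⟨n, fun _ => hn⟩
    · exact ⟨0, fun h => absurd h hx⟩
  choose n hn using hn'
  have hU : ∀ x ∈ closedBall c R, {z : ℂ | AnalyticAt ℂ (fun z => (z - x) ^ n x • f z) z} ∈ 𝓝 x :=
    fun x hx => (hn x hx).eventually_analyticAt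
  obtain ⟨t, ht, hcov⟩ := (isCompact_closedBall c R).elim_nhds_subcover _ hU
  obtain ⟨P, hPdef⟩ : ∃ P : Polynomial ℂ, P = ∏ x ∈ t, (Polynomial.X - Polynomial.C (x - c)) ^ n x :=
    ⟨_, rfl⟩
  have hP : P ≠ 0 := by
    rw [hPdef]
    exact Finset.prod_ne_zero_iff.2 fun x _ => pow_ne_zero _ (Polynomial.X_sub_C_ne_zero _)
  obtain ⟨c0, q, hc0, hq, hqe⟩ := exists_QQ P hP
  have hPe : ∀ z, P.eval z = ∏ x ∈ t, (z - (x - c)) ^ n x := by
    intro z
    rw [hPdef, Polynomial.eval_prod]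
    refine Finset.prod_congr rfl fun x _ => ?_
    rw [Polynomial.eval_pow, Polynomial.eval_sub, Polynomial.eval_X, Polynomial.eval_C]
  have hdiff : ∀ z ∈ closedBall (0 : ℂ) R,
      DifferentiableAt ℂ (fun z => ev q z * f (c + z)) z := by
    intro z hz
    have hcz : c + z ∈ closedBall c R := by
      rw [mem_closedBall, dist_eq_norm, add_sub_cancel_left]
      rwa [mem_closedBall, dist_zero_right] at hz
    obtain ⟨x, hxt, hx⟩ := mem_iUnion₂.1 (hcov hcz)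
    have hx' : AnalyticAt ℂ (fun w => (w - x) ^ n x • f w) (c + z) := hx
    have h1 : DifferentiableAt ℂ (fun y => (c + y - x) ^ n x • f (c + y)) z :=
      DifferentiableAt.comp z hx'.differentiableAt
        ((differentiableAt_const c).add differentiableAt_id)
    have h2 : (fun z => ev q z * f (c + z)) = fun y => (c0 * ∏ w ∈ t.erase x, (y - (w - c)) ^ n w) *
        ((c + y - x) ^ n x • f (c + y)) := by
      funext y
      rw [hqe, hPe, ← Finset.mul_prod_erase t _ hxt, smul_eq_mul]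
      have h3 : y - (x - c) = c + y - x := by ring
      rw [h3]
      ring
    rw [h2]
    refine DifferentiableAt.mul ?_ h1
    refine (differentiableAt_const c0).mul ?_
    refine DifferentiableAt.fun_finsetProd fun w _ => ?_
    exact (differentiableAt_id.sub (differentiableAt_const _)).pow _
  obtain ⟨N, u, hu, hue⟩ := exists_UU (by linarith) hdiff
  refine ⟨_, N, q, hq, u, hu, fun z hz => ?_⟩
  have hz' : z ∈ ball (0 : ℂ) R := by
    rw [mem_ball, dist_zero_right]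
    linarith
  rw [hue z hz', hh z hz]

end Pool.Agent.ZT
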