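import Pool.Agent.W_eea520_h69.HDefs
import Pool.Agent.W_eea520_h69.FinalA
import Pool.Agent.W_eea520_h25.CuspA

/-! Families of twists by points of the torus. -/

set_option autoImplicit false

namespace Pool.Agent.EEA520

open Filter Topology MeasureTheory

/-- One block: the family of induced representations. -/
theorem shift_induce {n k : ℕ} (π : GSys n) (σ : GLSys k) (z : Fin 1 → ℂ) :
    shift (induce π σ 0) (fun _ => 0) (Fin.append (fun _ _ => 0) fun _ _ => 1) z =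
      induce π σ (z 0) := by
  funext p
  unfold shift induce
  ext i
  · simp [ppow_zero]
  · refine Fin.addCases (fun i => ?_) (fun i => ?_) i
    · simp [ppow_zero]
    · simp [ppow_zero]

/-- All blocks and the similitude twist are obtained step by step. -/
theorem shift_zero {n L : ℕ} (π : GSys n) (l₀ : Fin L → ℤ) (l : Fin n → Fin L → ℤ) :
    shift π l₀ l 0 = π := by
  funext p
  unfold shift
  ext i
  · simp [ppow_zero]
  · simp [ppow_zero]

theorem HShift_le {p : Pr} {x : ℝ} {B C : ℝ} {w : ℂ} {u : ℂˣ} (hx : ‖(u : ℂ)‖ ≤ ((p : ℕ) : ℝ) ^ B)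
    (hC : |B| + |w.re| ≤ C) (_ : x = 0) :
    ‖((u * ppow p w : ℂˣ) : ℂ)‖ ≤ ((p : ℕ) : ℝ) ^ C := by
  have hp := FinalA_one_le p
  have hp0 : (0 : ℝ) < ((p : ℕ) : ℝ) := lt_of_lt_of_le one_pos hp
  rw [Units.val_mul, norm_mul, FinalA_norm_ppow]
  calc ‖(u : ℂ)‖ * ((p : ℕ) : ℝ) ^ w.re ≤ ((p : ℕ) : ℝ) ^ |B| * ((p : ℕ) : ℝ) ^ |w.re| := by
        refine mul_le_mul (hx.trans ?_) ?_ (Real.rpow_nonneg hp0.le _) (Real.rpow_nonneg hp0.le _)
        · exact Real.rpow_le_rpow_of_exponent_le hp (le_abs_self _)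
        · exact Real.rpow_le_rpow_of_exponent_le hp (le_abs_self _)
    _ = ((p : ℕ) : ℝ) ^ (|B| + |w.re|) := (Real.rpow_add hp0 _ _).symm
    _ ≤ _ := Real.rpow_le_rpow_of_exponent_le hp hC

theorem shift_bdd {n L : ℕ} {π : GSys n} (hπ : PolyBounded π) (l₀ : Fin L → ℤ)
    (l : Fin n → Fin L → ℤ) (z : Fin L → ℂ) : Bdd (shift π l₀ l z) := by
  obtain ⟨B, hB⟩ := hπ
  obtain ⟨E, hE⟩ : ∃ E : ℝ, E = |(∑ j, (l₀ j : ℂ) * z j).re| +
      ∑ i, |(∑ j, (l i j : ℂ) * z j).re| := ⟨_, rfl⟩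
  have hsum : 0 ≤ ∑ i, |(∑ j, (l i j : ℂ) * z j).re| := Finset.sum_nonneg fun i _ => abs_nonneg _
  have h0 : |(∑ j, (l₀ j : ℂ) * z j).re| ≤ E := by
    rw [hE]
    linarith
  have hi : ∀ i, |(∑ j, (l i j : ℂ) * z j).re| ≤ E := by
    intro i
    have h1 := Finset.single_le_sum (f := fun i => |(∑ j, (l i j : ℂ) * z j).re|)
      (fun i _ => abs_nonneg _) (Finset.mem_univ i)
    have h2 := abs_nonneg (∑ j, (l₀ j : ℂ) * z j).re
    rw [hE]
    linarith
  refine ⟨|B| + E, ?_⟩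
  filter_upwards [hB] with p h
  have hinv : ∀ (u : ℂˣ) (w : ℂ), (u * ppow p w)⁻¹ = u⁻¹ * ppow p (-w) := by
    intro u w
    rw [mul_inv, ppow_neg]
  have hneg : ∀ w : ℂ, |(-w).re| = |w.re| := fun w => by rw [Complex.neg_re, abs_neg]
  refine ⟨⟨?_, ?_⟩, fun i => ⟨?_, ?_⟩⟩
  · exact HShift_le (x := 0) h.1.1 (by linarith) rfl
  · show ‖(((_ * ppow p _)⁻¹ : ℂˣ) : ℂ)‖ ≤ _
    rw [hinv]
    exact HShift_le (x := 0) h.1.2 (by rw [hneg]; linarith) rfl
  · exact HShift_le (x := 0) (h.2 i).1 (by linarith [hi i]) rfl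
  · show ‖(((_ * ppow p _)⁻¹ : ℂˣ) : ℂ)‖ ≤ _
    rw [hinv]
    exact HShift_le (x := 0) (h.2 i).2 (by rw [hneg]; linarith [hi i]) rfl

/-- The pairing of exponents and complex parameters. -/
def prC {L : ℕ} (a : Fin L → ℤ) (z : Fin L → ℂ) : ℂ := ∑ j, (a j : ℂ) * z j

theorem HShift_ppow_sum {ι : Type} (s : Finset ι) (p : Pr) (f : ι → ℂ) :
    ∏ i ∈ s, ppow p (f i) = ppow p (∑ i ∈ s, f i) := by
  classical
  induction s using Finset.induction_on with
  | empty => rw [Finset.prod_empty, Finset.sum_empty, ppow_zero]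
  | insert a s ha ih => rw [Finset.prod_insert ha, Finset.sum_insert ha, ppow_add, ih]

theorem ev_shift {n L : ℕ} (π : GSys n) (l₀ : Fin L → ℤ) (l : Fin n → Fin L → ℤ) (z : Fin L → ℂ)
    (w : Wt n) (p : Pr) :
    (shift π l₀ l z p).ev w = ppow p (prC (mdeg l₀ l w) z) * (π p).ev w := by
  unfold Torus.ev shift
  simp only [mul_zpow, Finset.prod_mul_distrib, ← ppow_int_mul, HShift_ppow_sum]
  have h1 : prC (mdeg l₀ l w) z = w.1 * ∑ j, (l₀ j : ℂ) * z j +
      ∑ i, (w.2 i : ℂ) * ∑ j, (l i j : ℂ) * z j := by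
    unfold prC mdeg
    simp only [Finset.mul_sum]
    rw [Finset.sum_comm (s := (Finset.univ : Finset (Fin n))), ← Finset.sum_add_distrib]
    refine Finset.sum_congr rfl fun j _ => ?_
    push_cast
    rw [add_mul, Finset.sum_mul]
    congr 1
    · ring
    · exact Finset.sum_congr rfl fun i _ => by ring
  rw [h1, ppow_add, mul_mul_mul_comm]
  exact mul_comm _ _

/-- The part of multidegree `a`. -/
noncomputable def mpart {n L : ℕ} (l₀ : Fin L → ℤ) (l : Fin n → Fin L → ℤ) (m : Wt n →₀ ℤ)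
    (a : Fin L → ℤ) : Wt n →₀ ℤ :=
  m.filter fun w => mdeg l₀ l w = a

theorem Phi_shift {n L : ℕ} (π : GSys n) (l₀ : Fin L → ℤ) (l : Fin n → Fin L → ℤ) (z : Fin L → ℂ)
    (m : Wt n →₀ ℤ) :
    Phi (shift π l₀ l z) (AddMonoidAlgebra.ofCoeff m) =
      ∑ a ∈ m.support.image (mdeg l₀ l), tw (prC a z) *
        Phi π (AddMonoidAlgebra.ofCoeff (mpart l₀ l m a)) := by
  classical
  funext p
  rw [FinalA_Phi, Finset.sum_apply, Finsupp.sum]
  have h1 : ∀ a : Fin L → ℤ,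
      (tw (prC a z) * Phi π (AddMonoidAlgebra.ofCoeff (mpart l₀ l m a))) p
      = ∑ w ∈ m.support with mdeg l₀ l w = a, m w • el ((shift π l₀ l z p).ev w) := by
    intro a
    rw [Pi.mul_apply, FinalA_Phi, Finsupp.sum, mpart, Finsupp.support_filter, Finset.mul_sum]
    refine Finset.sum_congr rfl fun w hw => ?_
    have hw' : mdeg l₀ l w = a := (Finset.mem_filter.1 hw).2
    have h2 : (m.filter fun w => mdeg l₀ l w = a) w = m w := by
      rw [Finsupp.filter_apply, if_pos hw']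
    rw [h2, ev_shift π l₀ l z w p, hw', mul_smul_comm]
    congr 1
    show el _ * el _ = el _
    unfold el
    rw [← map_mul]
  rw [Finset.sum_congr rfl fun a _ => h1 a]
  rw [Finset.sum_fiberwise_of_maps_to (t := m.support.image (mdeg l₀ l))
    (fun w hw => Finset.mem_image_of_mem _ hw)]

end Pool.Agent.EEA520
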