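import Pool.Agent.W_eea520_h69.HAbsc
import Pool.Agent.W_eea520_h69.HM
import Pool.Agent.W_eea520_h69.HShift

/-! No cancellation in families of twists. -/

set_option autoImplicit false

namespace Pool.Agent.EEA520

open Filter Topology MeasureTheory

variable {L : ℕ}

/-- The tropical polynomial. -/
noncomputable def tpm (A : Finset (Fin L → ℤ)) (D : (Fin L → ℤ) → Dat) (x : Fin L → ℝ) : EReal :=
  ⨆ a ∈ A, ab (D a) + ((pr a x : ℝ) : EReal)

theorem tpm_le_iff (A : Finset (Fin L → ℤ)) (D : (Fin L → ℤ) → Dat) (hD : ∀ a ∈ A, D a ∈ BB)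
    (x : Fin L → ℝ) (r : ℝ) : tpm A D x ≤ r ↔ ∀ a ∈ A, ContTo (r - pr a x) (D a) := by
  unfold tpm
  rw [iSup₂_le_iff]
  exact forall₂_congr fun a ha => add_coe_le_iff' (hD a ha) _ _

theorem prC_re (a : Fin L → ℤ) (z : Fin L → ℂ) : (prC a z).re = pr a fun j => (z j).re := by
  unfold prC pr
  rw [Complex.re_sum]
  exact Finset.sum_congr rfl fun j _ => by simp

theorem tw_sum_mem (A : Finset (Fin L → ℤ)) (D : (Fin L → ℤ) → Dat) (hD : ∀ a ∈ A, D a ∈ BB)
    (z : Fin L → ℂ) : (∑ a ∈ A, tw (prC a z) * D a) ∈ BB :=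
  BB.sum_mem fun a ha => BB.mul_mem (tw_mem _) (hD a ha)

/-- The easy inequality. -/
theorem ab_le_tpm (A : Finset (Fin L → ℤ)) (D : (Fin L → ℤ) → Dat) (hD : ∀ a ∈ A, D a ∈ BB)
    (z : Fin L → ℂ) : ab (∑ a ∈ A, tw (prC a z) * D a) ≤ tpm A D fun j => (z j).re := by
  refine le_of_real fun r hr => ?_
  rw [tpm_le_iff A D hD] at hr
  rw [ab_le_iff (tw_sum_mem A D hD z)]
  exact contTo_sum' _ _ fun a ha => (hr a ha).tw' (by rw [prC_re]; ring)

/-- Equality, if the maximum is attained only once. -/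
theorem ab_eq_of_unique (A : Finset (Fin L → ℤ)) (D : (Fin L → ℤ) → Dat) (hD : ∀ a ∈ A, D a ∈ BB)
    (z : Fin L → ℂ) {a₀ : Fin L → ℤ} (ha₀ : a₀ ∈ A)
    (h : ∀ b ∈ A, b ≠ a₀ → ab (D b) + ((pr b fun j => (z j).re : ℝ) : EReal) <
      ab (D a₀) + ((pr a₀ fun j => (z j).re : ℝ) : EReal)) :
    ab (∑ a ∈ A, tw (prC a z) * D a) = ab (D a₀) + ((pr a₀ fun j => (z j).re : ℝ) : EReal) := by
  classical
  refine le_antisymm ((ab_le_tpm A D hD z).trans (iSup₂_le fun b hb => ?_)) ?_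
  · by_cases hba : b = a₀
    · rw [hba]
    · exact (h b hb hba).le
  · refine le_of_real fun r hr => ?_
    by_contra hcon
    rw [not_le] at hcon
    rw [ab_le_iff (tw_sum_mem A D hD z)] at hr
    have h1 : ((A.erase a₀).sup fun b => ab (D b) + ((pr b fun j => (z j).re : ℝ) : EReal)) ⊔
        ((r : ℝ) : EReal) < ab (D a₀) + ((pr a₀ fun j => (z j).re : ℝ) : EReal) := by
      refine max_lt ?_ hcon
      rw [Finset.sup_lt_iff (lt_of_le_of_lt bot_le hcon)]
      intro b hb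
      obtain ⟨hne, hbA⟩ := Finset.mem_erase.1 hb
      exact h b hbA hne
    obtain ⟨r', hr'1, hr'2⟩ := EReal.lt_iff_exists_real_btwn.1 h1
    have hr' : r ≤ r' := EReal.coe_le_coe_iff.1 ((le_max_right _ _).trans hr'1.le)
    have h2 : ContTo r' (∑ a ∈ A.erase a₀, tw (prC a z) * D a) := by
      refine contTo_sum' _ _ fun b hb => ?_
      obtain ⟨hne, hbA⟩ := Finset.mem_erase.1 hb
      have h3 : ab (D b) + ((pr b fun j => (z j).re : ℝ) : EReal) ≤ r' :=
        ((Finset.le_sup (f := fun b => ab (D b) + ((pr b fun j => (z j).re : ℝ) : EReal)) hb).trans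
          (le_max_left _ _)).trans hr'1.le
      rw [add_coe_le_iff' (hD b hbA)] at h3
      exact h3.tw' (by rw [prC_re]; ring)
    have h3 := (hr.mono hr').sub h2
    rw [← Finset.add_sum_erase A (fun a => tw (prC a z) * D a) ha₀, add_sub_cancel_right] at h3
    have h4 := h3.untw (c' := r' - pr a₀ fun j => (z j).re) (by rw [prC_re])
    rw [← add_coe_le_iff' (hD a₀ ha₀)] at h4
    exact absurd h4 (not_le.2 hr'2)

/-- Equality for almost all points of a vertical subspace. -/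
theorem ab_eq_tpm_vertical (A : Finset (Fin L → ℤ)) (D : (Fin L → ℤ) → Dat)
    (hD : ∀ a ∈ A, D a ∈ BB) (x : Fin L → ℝ) :
    Small {t : Fin L → ℝ |
      ab (∑ a ∈ A, tw (prC a fun j => x j + t j * Complex.I) * D a) ≠ tpm A D x} := by
  have hre : (fun j => ((x j : ℂ) + (0 : ℂ)).re) = x := by
    funext j
    simp
  have hC : ∀ (a : Fin L → ℤ) (t : Fin L → ℝ),
      prC a (fun j => x j + t j * Complex.I) = pr a t * Complex.I + pr a x := by
    intro a t
    unfold prC pr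
    push_cast
    rw [Finset.sum_mul, ← Finset.sum_add_distrib]
    exact Finset.sum_congr rfl fun j _ => by ring
  have hsum : ∀ t : Fin L → ℝ, (∑ a ∈ A, tw (prC a fun j => x j + t j * Complex.I) * D a) =
      ∑ a ∈ A, tw (pr a t * Complex.I) * (tw ((pr a x : ℝ) : ℂ) * D a) := by
    intro t
    refine Finset.sum_congr rfl fun a _ => ?_
    rw [hC, tw_add, mul_assoc]
  have hsub : {t : Fin L → ℝ |
      ab (∑ a ∈ A, tw (prC a fun j => x j + t j * Complex.I) * D a) ≠ tpm A D x} ⊆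
      ⋃ q : {q : ℚ // ((q : ℝ) : EReal) < tpm A D x},
        {t : Fin L → ℝ | ContTo ((q.1 : ℚ) : ℝ)
          (∑ a ∈ A, tw (pr a t * Complex.I) * (tw ((pr a x : ℝ) : ℂ) * D a))} := by
    intro t ht
    have h1 : ab (∑ a ∈ A, tw (prC a fun j => x j + t j * Complex.I) * D a) < tpm A D x := by
      refine lt_of_le_of_ne ?_ ht
      have h2 := ab_le_tpm A D hD fun j => (x j : ℂ) + t j * Complex.I
      have h3 : (fun j => ((x j : ℂ) + t j * Complex.I).re) = x := by
        funext j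
        simp
      rwa [h3] at h2
    obtain ⟨q, hq1, hq2⟩ := EReal.lt_iff_exists_rat_btwn.1 h1
    have h4 := (ab_le_iff (tw_sum_mem A D hD _) _).1 hq1.le
    rw [hsum] at h4
    exact Set.mem_iUnion.2 ⟨⟨q, hq2⟩, h4⟩
  have hsmall : ∀ q : {q : ℚ // ((q : ℝ) : EReal) < tpm A D x},
      Small {t : Fin L → ℝ | ContTo ((q.1 : ℚ) : ℝ)
          (∑ a ∈ A, tw (pr a t * Complex.I) * (tw ((pr a x : ℝ) : ℂ) * D a))} := by
    intro q
    by_contra h
    have h1 := cont_of_not_smallH A (fun a => tw ((pr a x : ℝ) : ℂ) * D a)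
      (fun a ha => BB.mul_mem (tw_mem _) (hD a ha)) _ h
    refine absurd ((tpm_le_iff A D hD x _).2 fun a ha => ?_) (not_le.2 q.2)
    exact (h1 a ha).untw (by rw [Complex.ofReal_re])
  exact ⟨IsMeagre.mono hsub (isMeagre_iUnion fun q => (hsmall q).1),
    measure_mono_null hsub (measure_iUnion_null fun q => (hsmall q).2)⟩

/-- Equality outside fewer than `B.card` points of a line in general position. -/
theorem ab_eq_tpm_line (A : Finset (Fin L → ℤ)) (D : (Fin L → ℤ) → Dat) (hD : ∀ a ∈ A, D a ∈ BB)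
    (u v : Fin L → ℝ) (hv : Set.InjOn (fun a => pr a v) {a | a ∈ A ∧ ab (D a) ≠ ⊥}) :
    ∃ X : Finset ℝ, X.card ≤ Set.ncard {a | a ∈ A ∧ ab (D a) ≠ ⊥} - 1 ∧
      ∀ z : Fin L → ℂ, ∀ s ∉ X, (∀ j, (z j).re = u j + s * v j) →
        ab (∑ a ∈ A, tw (prC a z) * D a) = tpm A D fun j => (z j).re := by
  classical
  obtain ⟨B, hB⟩ : ∃ B : Finset (Fin L → ℤ), B = A.filter fun a => ab (D a) ≠ ⊥ := ⟨_, rfl⟩
  have hBs : {a | a ∈ A ∧ ab (D a) ≠ ⊥} = (B : Set (Fin L → ℤ)) := by
    ext a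
    simp [hB]
  rw [hBs] at hv ⊢
  rw [Set.ncard_coe_finset]
  have hs : ∀ a ∈ B, ((ab (D a)).toReal : EReal) = ab (D a) := by
    intro a ha
    rw [hB, Finset.mem_filter] at ha
    exact EReal.coe_toReal (ab_lt_top (hD a ha.1)).ne ha.2
  obtain ⟨X, hX, hX'⟩ := breakpoints B (fun a => (ab (D a)).toReal + pr a u) (fun a => pr a v) hv
  refine ⟨X, hX, fun z s hsX hz => ?_⟩
  have hpr : ∀ a : Fin L → ℤ, pr a (fun j => (z j).re) = pr a u + pr a v * s := by
    intro a
    unfold pr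
    rw [Finset.sum_mul, ← Finset.sum_add_distrib]
    exact Finset.sum_congr rfl fun j _ => by
      show (a j : ℝ) * (z j).re = _
      rw [hz j]
      ring
  have hout : ∀ a ∈ A, a ∉ B → ab (D a) = ⊥ := by
    intro a ha haB
    rw [hB, Finset.mem_filter, not_and, not_not] at haB
    exact haB ha
  rcases B.eq_empty_or_nonempty with hBe | hBne
  · have h1 : tpm A D (fun j => (z j).re) = ⊥ := by
      refine le_bot_iff.1 (iSup₂_le fun a ha => ?_)
      rw [hout a ha (by rw [hBe]; simp), EReal.bot_add]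
    rw [h1]
    have h2 := ab_le_tpm A D hD z
    rw [h1] at h2
    exact le_bot_iff.1 h2
  obtain ⟨a₀, ha₀, hmax⟩ := Finset.exists_max_image B
    (fun a => (ab (D a)).toReal + pr a u + pr a v * s) hBne
  have huniq := hX' s hsX a₀ ha₀ hmax
  have ha₀A : a₀ ∈ A := by
    rw [hB, Finset.mem_filter] at ha₀
    exact ha₀.1
  have hlt : ∀ b ∈ A, b ≠ a₀ → ab (D b) + ((pr b fun j => (z j).re : ℝ) : EReal) <
      ab (D a₀) + ((pr a₀ fun j => (z j).re : ℝ) : EReal) := by
    intro b hb hba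
    by_cases hbB : b ∈ B
    · have h1 := huniq b hbB hba
      rw [← hs b hbB, ← hs a₀ ha₀, ← EReal.coe_add, ← EReal.coe_add, EReal.coe_lt_coe_iff,
        hpr, hpr]
      linarith
    · rw [hout b hb hbB, EReal.bot_add, ← hs a₀ ha₀, ← EReal.coe_add]
      exact EReal.bot_lt_coe _
  have h1 := ab_eq_of_unique A D hD z ha₀A hlt
  refine le_antisymm (ab_le_tpm A D hD z) (iSup₂_le fun b hb => ?_)
  rw [h1]
  by_cases hba : b = a₀
  · rw [hba]
  · exact (hlt b hb hba).le

theorem no_cancellation {n : ℕ} (π : GSys n) (hπ : PolyBounded π) (l₀ : Fin L → ℤ)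
    (l : Fin n → Fin L → ℤ) (m : Wt n →₀ ℤ) :
    (∀ (z : Fin L → ℂ) (m' : Wt n →₀ ℤ),
      (Continues (shift π l₀ l z) m' ↔ absc (shift π l₀ l z) m' = ⊥) ∧
      ∀ c : ℝ, ContinuesTo c (shift π l₀ l z) m' ↔ absc (shift π l₀ l z) m' ≤ c) ∧
    (∀ z : Fin L → ℂ, absc (shift π l₀ l z) m ≤ trop π l₀ l m fun j => (z j).re) ∧
    (∀ (z : Fin L → ℂ) (a : Fin L → ℤ),
      (∀ b ≠ a, term π l₀ l m (fun j => (z j).re) b < term π l₀ l m (fun j => (z j).re) a) →
        absc (shift π l₀ l z) m = term π l₀ l m (fun j => (z j).re) a) ∧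
    (∀ u v : Fin L → ℝ,
      Set.InjOn (fun a : Fin L → ℤ => ∑ j, a j * v j)
        {a | absc π (m.filter fun w => mdeg l₀ l w = a) ≠ ⊥} →
      ∃ X : Finset ℝ,
        X.card ≤ Set.ncard {a | absc π (m.filter fun w => mdeg l₀ l w = a) ≠ ⊥} - 1 ∧
        ∀ z : Fin L → ℂ, ∀ s ∉ X, (∀ j, (z j).re = u j + s * v j) →
          absc (shift π l₀ l z) m = trop π l₀ l m fun j => (z j).re) ∧
    ∀ x : Fin L → ℝ,
      IsMeagre {t : Fin L → ℝ |
        absc (shift π l₀ l fun j => x j + t j * Complex.I) m ≠ trop π l₀ l m x} ∧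
      volume {t : Fin L → ℝ |
        absc (shift π l₀ l fun j => x j + t j * Complex.I) m ≠ trop π l₀ l m x} = 0 := by
  classical
  obtain ⟨A, hA⟩ : ∃ A : Finset (Fin L → ℤ), A = m.support.image (mdeg l₀ l) := ⟨_, rfl⟩
  obtain ⟨D, hDdef⟩ : ∃ D : (Fin L → ℤ) → Dat, D = fun a =>
    Phi π (AddMonoidAlgebra.ofCoeff (mpart l₀ l m a)) := ⟨_, rfl⟩
  have hbdd : ∀ z, Bdd (shift π l₀ l z) := shift_bdd hπ l₀ l
  have hbdd0 : Bdd π := hπ
  have hD : ∀ a, D a ∈ BB := fun a => by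
    rw [hDdef]
    exact Phi_mem hbdd0 _
  have hz : ∀ z : Fin L → ℂ, absc (shift π l₀ l z) m = ab (∑ a ∈ A, tw (prC a z) * D a) := by
    intro z
    rw [absc_eq (hbdd z), Phi_shift, hA, hDdef]
  have ha : ∀ a : Fin L → ℤ, absc π (m.filter fun w => mdeg l₀ l w = a) = ab (D a) := by
    intro a
    rw [hDdef]
    exact absc_eq hbdd0 (mpart l₀ l m a)
  have hout : ∀ a : Fin L → ℤ, a ∉ A → ab (D a) = ⊥ := by
    intro a haA
    have h0 : mpart l₀ l m a = 0 := by
      rw [mpart, Finsupp.filter_eq_zero_iff]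
      intro w hw
      by_contra hne
      apply haA
      rw [hA, ← hw]
      exact Finset.mem_image_of_mem _ (Finsupp.mem_support_iff.2 hne)
    have h2 : D a = 0 := by
      rw [hDdef]
      simp only [h0]
      have h1 : (AddMonoidAlgebra.ofCoeff (0 : Wt n →₀ ℤ) : R n) = 0 := rfl
      rw [h1, map_zero]
    rw [h2, ← cont_iff_ab BB.zero_mem]
    exact cont_zero
  have hterm : ∀ (x : Fin L → ℝ) (a : Fin L → ℤ),
      term π l₀ l m x a = ab (D a) + ((pr a x : ℝ) : EReal) := by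
    intro x a
    unfold term
    rw [ha]
    rfl
  have htp : ∀ x : Fin L → ℝ, trop π l₀ l m x = tpm A D x := by
    intro x
    unfold trop tpm
    simp only [hterm]
    refine le_antisymm (iSup_le fun a => ?_) (iSup₂_le fun a _ => le_iSup
      (fun a : Fin L → ℤ => ab (D a) + ((pr a x : ℝ) : EReal)) a)
    by_cases haA : a ∈ A
    · exact le_iSup₂ (f := fun (a : Fin L → ℤ) (_ : a ∈ A) =>
        ab (D a) + ((pr a x : ℝ) : EReal)) a haA
    · rw [hout a haA, EReal.bot_add]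
      exact bot_le
  have hset : {a | absc π (m.filter fun w => mdeg l₀ l w = a) ≠ ⊥} =
      {a | a ∈ A ∧ ab (D a) ≠ ⊥} := by
    ext a
    simp only [Set.mem_ofPred_eq, ha]
    exact ⟨fun h => ⟨by by_contra h'; exact h (hout a h'), h⟩, fun h => h.2⟩
  refine ⟨fun z m' => ?_, fun z => ?_, fun z a h => ?_, fun u v huv => ?_, fun x => ?_⟩
  · have hmem := Phi_mem (hbdd z) (AddMonoidAlgebra.ofCoeff m')
    rw [absc_eq (hbdd z)]
    refine ⟨?_, fun c => ?_⟩
    · rw [continues_iff' (hbdd z), cont_iff_ab hmem]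
    · rw [ab_le_iff hmem]
      exact continuesTo_iff (hbdd z) (AddMonoidAlgebra.ofCoeff m')
  · rw [hz, htp]
    exact ab_le_tpm A D (fun a _ => hD a) z
  · simp only [hterm] at h ⊢
    rw [hz]
    by_cases haA : a ∈ A
    · exact ab_eq_of_unique A D (fun a _ => hD a) z haA fun b _ hb => h b hb
    · -- then there is no other index
      have hAe : A = ∅ := by
        refine Finset.eq_empty_of_forall_notMem fun b hb => ?_
        have hba : b ≠ a := fun h0 => haA (h0 ▸ hb)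
        have h2 := h b hba
        rw [hout a haA, EReal.bot_add] at h2
        exact not_lt_bot h2
      rw [hAe, Finset.sum_empty, hout a haA, EReal.bot_add, ← cont_iff_ab BB.zero_mem]
      exact cont_zero
  · rw [hset] at huv ⊢
    obtain ⟨X, hX, hX'⟩ := ab_eq_tpm_line A D (fun a _ => hD a) u v huv
    refine ⟨X, hX, fun z s hs h => ?_⟩
    rw [hz, htp]
    exact hX' z s hs h
  · simp only [hz, htp]
    exact ab_eq_tpm_vertical A D (fun a _ => hD a) x

end Pool.Agent.EEA520
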