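import Pool.Agent.W_eea520_h69.HCrossC

/-! Half-plane version: extension to a larger half plane by vertical translation. -/

set_option autoImplicit false

namespace Pool.Agent.ZT

open Filter Topology Metric Set Complex

theorem HStepL_ne {G : ℂ → ℂ} {b β x₀ : ℝ} (hG0 : ∀ s : ℂ, b < s.re → G s ≠ 0) {m : ℂ → ℂ}
    (hmm : MeromorphicOn m {s : ℂ | x₀ < s.re})
    (hm : ∀ s : ℂ, b < s.re → G (s + β * I) = m s * G s) :
    ∀ s : ℂ, x₀ < s.re → ∀ᶠ z in 𝓝[≠] s, m z ≠ 0 := by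
  intro s hs
  rcases (hmm s hs).eventually_eq_zero_or_eventually_ne_zero with h | h
  · exfalso
    have h0 : MeromorphicOn (fun _ : ℂ => (0 : ℂ)) {s : ℂ | x₀ < s.re} :=
      fun z _ => MeromorphicAt.const 0 z
    have hx : x₀ < (((max b x₀ + 1 : ℝ) : ℂ)).re := by
      rw [Complex.ofReal_re]
      have := le_max_right b x₀
      linarith
    have h1 := mero_identity (convex_halfSpace_re_gt x₀).isPreconnected hmm h0 hs h
      (((max b x₀ + 1 : ℝ) : ℂ)) hx
    have hmem : (((max b x₀ + 1 : ℝ) : ℂ)) ∈ {s : ℂ | b < s.re} := by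
      show b < (((max b x₀ + 1 : ℝ) : ℂ)).re
      rw [Complex.ofReal_re]
      have := le_max_left b x₀
      linarith
    have h2 : ∀ᶠ z in 𝓝[≠] (((max b x₀ + 1 : ℝ) : ℂ)), b < z.re :=
      Filter.Eventually.filter_mono nhdsWithin_le_nhds ((HHalf_open b).mem_nhds hmem)
    obtain ⟨z, hz1, hz2⟩ := (h1.and h2).exists
    have h3 := hm z hz2
    rw [hz1, zero_mul] at h3
    refine hG0 _ ?_ h3
    rw [HHalf_re]
    exact hz2
  · exact h

/-- Proof. Let `s₁ = x + y₁ I`. For every real `y`, with `β = y₁ - y`, the function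
`V_y s = V (s + β I) / m β s` is meromorphic on `ball (x + y I) r` and agrees with `Gx` on the part
`x < re s` (`func_eq`). Glue (`glueOn`): `U = {x - r / 2 < re s}`; for `u ∈ U` with `x < re u` take
`({x < re s}, Gx)`, for the other `u` take `(ball (x + (im u) I) r, V_(im u))`. Two of the discs
which meet have convex intersection, symmetric with respect to the line `re s = x`, so it contains
points with `x < re s`: use `mero_identity`. -/
theorem step_leftH {G : ℂ → ℂ} {b x x₀ : ℝ} (hx₀ : x₀ < x) (hG0 : ∀ s : ℂ, b < s.re → G s ≠ 0) {m : ℝ → ℂ → ℂ}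
    (hmm : ∀ β, MeromorphicOn (m β) {s : ℂ | x₀ < s.re})
    (hm : ∀ (β : ℝ) (s : ℂ), b < s.re → G (s + β * I) = m β s * G s)
    {Gx : ℂ → ℂ} (hGx : MeromorphicOn Gx {s : ℂ | x < s.re})
    (hGxG : ∀ s : ℂ, b < s.re → Gx s = G s) {s₁ : ℂ} {r : ℝ} {V : ℂ → ℂ} (hs₁ : s₁.re = x)
    (hr : 0 < r) (hV : MeromorphicOn V (ball s₁ r))
    (hVG : ∀ s ∈ ball s₁ r, x < s.re → V =ᶠ[𝓝[≠] s] Gx) :
    ∃ x' : ℝ, x₀ < x' ∧ x' < x ∧ ∃ g : ℂ → ℂ, MeromorphicOn g {s : ℂ | x' < s.re} ∧
      ∀ s : ℂ, x < s.re → g =ᶠ[𝓝[≠] s] Gx := by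
  -- shrink the radius
  obtain ⟨r', hr', hr'r, hr'x⟩ : ∃ r' : ℝ, 0 < r' ∧ r' ≤ r ∧ r' ≤ x - x₀ :=
    ⟨min r (x - x₀), lt_min hr (by linarith), min_le_left _ _, min_le_right _ _⟩
  replace hV : MeromorphicOn V (ball s₁ r') := hV.mono_set (ball_subset_ball hr'r)
  replace hVG : ∀ s ∈ ball s₁ r', x < s.re → V =ᶠ[𝓝[≠] s] Gx := fun s hs =>
    hVG s (ball_subset_ball hr'r hs)
  clear hr hr'r
  obtain ⟨r, rfl⟩ : ∃ r, r = r' := ⟨_, rfl⟩
  have hr := hr'
  have hopen : IsOpen {s : ℂ | x < s.re} := isOpen_lt continuous_const Complex.continuous_re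
  have hmmx : ∀ β, MeromorphicOn (m β) {s : ℂ | x < s.re} := fun β s hs =>
    hmm β s (lt_trans hx₀ hs)
  have hballx : ∀ (y : ℝ) (s : ℂ), s ∈ ball ((x : ℂ) + (y : ℂ) * I) r → x₀ < s.re := by
    intro y s hs
    refine HBall_sub (c := (x : ℂ) + (y : ℂ) * I) ?_ hs
    have h1 : ((x : ℂ) + (y : ℂ) * I).re = x := by simp
    rw [h1]
    exact hr'x
  -- the translated functions
  obtain ⟨W, hW⟩ : ∃ W : ℝ → ℂ → ℂ, W = fun y s =>
      V (s + ((s₁.im - y : ℝ) : ℂ) * I) / m (s₁.im - y) s := ⟨_, rfl⟩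
  have hmemB : ∀ (y : ℝ) (s : ℂ), s ∈ ball ((x : ℂ) + (y : ℂ) * I) r →
      s + ((s₁.im - y : ℝ) : ℂ) * I ∈ ball s₁ r := by
    intro y s hs
    rw [mem_ball, dist_eq_norm] at hs ⊢
    have h1 : s + ((s₁.im - y : ℝ) : ℂ) * I - s₁ = s - ((x : ℂ) + (y : ℂ) * I) := by
      apply Complex.ext
      · simp [hs₁]
      · simp
        ring
    rw [h1]
    exact hs
  have hWm : ∀ (y : ℝ) (s : ℂ), s ∈ ball ((x : ℂ) + (y : ℂ) * I) r → MeromorphicAt (W y) s := by
    intro y s hs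
    rw [hW]
    exact (StepL_shift (hV _ (hmemB y s hs))).div (hmm _ s (hballx y s hs))
  have hWG : ∀ (y : ℝ) (s : ℂ), s ∈ ball ((x : ℂ) + (y : ℂ) * I) r → x < s.re →
      W y =ᶠ[𝓝[≠] s] Gx := by
    intro y s hs hx
    have hre : (s + ((s₁.im - y : ℝ) : ℂ) * I).re = s.re := by
      simp
    have h1 := StepL_ev (hVG _ (hmemB y s hs) (by rw [hre]; exact hx))
    have h2 := func_eqH (hmmx (s₁.im - y)) (hm (s₁.im - y)) hGx hGxG s hx
    have h3 := HStepL_ne hG0 (hmm (s₁.im - y)) (hm (s₁.im - y)) s (hballx y s hs)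
    filter_upwards [h1, h2, h3] with z hz1 hz2 hz3
    rw [hW]
    show V (z + ((s₁.im - y : ℝ) : ℂ) * I) / m (s₁.im - y) z = Gx z
    rw [hz1, hz2]
    field_simp
  -- two discs
  have hWW : ∀ (y y' : ℝ) (s : ℂ), s ∈ ball ((x : ℂ) + (y : ℂ) * I) r →
      s ∈ ball ((x : ℂ) + (y' : ℂ) * I) r → W y =ᶠ[𝓝[≠] s] W y' := by
    intro y y' s hs hs'
    have hcen : ∀ (t : ℝ), s ∈ ball ((x : ℂ) + (t : ℂ) * I) r →
        ((x : ℂ) + (s.im : ℂ) * I) ∈ ball ((x : ℂ) + (t : ℂ) * I) r := by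
      intro t ht
      rw [mem_ball, dist_eq_norm] at ht ⊢
      have h1 : ((x : ℂ) + (s.im : ℂ) * I) - ((x : ℂ) + (t : ℂ) * I) =
          ((s.im - t : ℝ) : ℂ) * I := by
        push_cast
        ring
      rw [h1, norm_mul, norm_I, mul_one, Complex.norm_real, Real.norm_eq_abs]
      have h2 : (s - ((x : ℂ) + (t : ℂ) * I)).im = s.im - t := by
        simp
      rw [← h2]
      exact lt_of_le_of_lt (Complex.abs_im_le_norm _) ht
    have hO : IsOpen (ball ((x : ℂ) + (y : ℂ) * I) r ∩ ball ((x : ℂ) + (y' : ℂ) * I) r) :=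
      isOpen_ball.inter isOpen_ball
    have hC : Convex ℝ (ball ((x : ℂ) + (y : ℂ) * I) r ∩ ball ((x : ℂ) + (y' : ℂ) * I) r) :=
      (convex_ball _ _).inter (convex_ball _ _)
    obtain ⟨ε, hε, hball⟩ := Metric.isOpen_iff.1 hO ((x : ℂ) + (s.im : ℂ) * I)
      ⟨hcen y hs, hcen y' hs'⟩
    have hp : ((x : ℂ) + (s.im : ℂ) * I) + ((ε / 2 : ℝ) : ℂ) ∈
        ball ((x : ℂ) + (s.im : ℂ) * I) ε := by
      rw [mem_ball, dist_eq_norm, add_sub_cancel_left, Complex.norm_real, Real.norm_eq_abs,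
        abs_of_pos (by linarith)]
      linarith
    have hp2 := hball hp
    have hpre : x < (((x : ℂ) + (s.im : ℂ) * I) + ((ε / 2 : ℝ) : ℂ)).re := by
      simp only [add_re, ofReal_re, mul_re, I_re, mul_zero, ofReal_im, I_im, mul_one, sub_self,
        add_zero]
      linarith
    have h1 := (hWG y _ hp2.1 hpre).trans (hWG y' _ hp2.2 hpre).symm
    exact mero_identity hC.isPreconnected (fun z hz => hWm y z hz.1) (fun z hz => hWm y' z hz.2)
      hp2 h1 s ⟨hs, hs'⟩
  classical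
  obtain ⟨g, hg, hgf⟩ := glueOn (U := {s : ℂ | x - r / 2 < s.re})
    (isOpen_lt continuous_const Complex.continuous_re)
    (fun u => if x < u.re then {s : ℂ | x < s.re} else ball ((x : ℂ) + (u.im : ℂ) * I) r)
    (fun u => if x < u.re then Gx else W u.im) (by
      intro u hu
      have hu' : x - r / 2 < u.re := hu
      by_cases h : x < u.re
      · simp only [if_pos h]
        exact ⟨hopen, h⟩
      · simp only [if_neg h]
        refine ⟨isOpen_ball, ?_⟩
        rw [mem_ball, dist_eq_norm]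
        have h1 : u - ((x : ℂ) + (u.im : ℂ) * I) = ((u.re - x : ℝ) : ℂ) := by
          apply Complex.ext <;> simp
        rw [h1, Complex.norm_real, Real.norm_eq_abs, abs_lt]
        push Not at h
        constructor <;> linarith) (by
      intro u _
      by_cases h : x < u.re
      · simp only [if_pos h]
        exact hGx
      · simp only [if_neg h]
        exact fun s hs => hWm _ s hs) (by
      intro u _ v _ s hs
      obtain ⟨hsu, hsv⟩ := hs
      by_cases h : x < u.re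
      · by_cases h' : x < v.re
        · simp only [if_pos h, if_pos h']
          exact Filter.EventuallyEq.rfl
        · simp only [if_pos h, if_neg h'] at hsu hsv ⊢
          exact (hWG _ s hsv hsu).symm
      · by_cases h' : x < v.re
        · simp only [if_neg h, if_pos h'] at hsu hsv ⊢
          exact hWG _ s hsu hsv
        · simp only [if_neg h, if_neg h'] at hsu hsv ⊢
          exact hWW _ _ s hsu hsv)
  refine ⟨x - r / 2, by linarith, by linarith, g, hg, ?_⟩
  intro s hs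
  have hsU : s ∈ {s : ℂ | x - r / 2 < s.re} := by
    show x - r / 2 < s.re
    linarith
  have h1 := hgf s hsU s (by simp only [if_pos hs]; exact hs) hsU
  simp only [if_pos hs] at h1
  exact h1

end Pool.Agent.ZT
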