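import Mathlib

/-! Identity theorem and normal forms for meromorphic functions. -/

set_option autoImplicit false

namespace Pool.Agent.ZT

open Filter Topology Metric Set

/-- Identity theorem (`MeromorphicOn.meromorphicOrderAt_ne_top_of_isPreconnected` for the
difference `f - g`). See `glue_identity` in `W_eea520_h25/Glue.lean` for the case of a half plane. -/
theorem mero_identity {U : Set ℂ} (hU : IsPreconnected U) {f g : ℂ → ℂ} (hf : MeromorphicOn f U)
    (hg : MeromorphicOn g U) {s₀ : ℂ} (h₀ : s₀ ∈ U) (h : f =ᶠ[𝓝[≠] s₀] g) :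
    ∀ s ∈ U, f =ᶠ[𝓝[≠] s] g := by
  intro s hs
  have hd : MeromorphicOn (f - g) U := hf.sub hg
  have htop : meromorphicOrderAt (f - g) s = ⊤ := by
    by_contra hne
    have h1 := hd.meromorphicOrderAt_ne_top_of_isPreconnected hU hs h₀ hne
    apply h1
    rw [meromorphicOrderAt_eq_top_iff]
    filter_upwards [h] with z hz
    simp [hz]
  rw [meromorphicOrderAt_eq_top_iff] at htop
  filter_upwards [htop] with z hz
  simpa [sub_eq_zero] using hz

/-- Replace `g` by its normal form `toMeromorphicNFOn g univ`. -/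
theorem mero_fix {g F : ℂ → ℂ} {U V : Set ℂ} (hg : MeromorphicOn g U) (hV : IsOpen V)
    (hVU : V ⊆ U) (hF : DifferentiableOn ℂ F V) (h : ∀ s ∈ V, g =ᶠ[𝓝[≠] s] F) :
    ∃ g' : ℂ → ℂ, MeromorphicOn g' U ∧ (∀ s ∈ V, g' s = F s) ∧ ∀ s ∈ U, g' =ᶠ[𝓝[≠] s] g := by
  classical
  have hev : ∀ s ∈ U, (fun z => if z ∈ V then F z else g z) =ᶠ[𝓝[≠] s] g := by
    intro s hs
    filter_upwards [(hg s hs).eventually_analyticAt] with z hz
    by_cases hzV : z ∈ V
    · rw [if_pos hzV]
      have hFan : AnalyticAt ℂ F z := hF.analyticAt (hV.mem_nhds hzV)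
      have h1 : g =ᶠ[𝓝 z] F :=
        (hz.continuousAt.eventuallyEq_nhds_iff_eventuallyEq_nhdsNE hFan.continuousAt).1 (h z hzV)
      exact h1.eq_of_nhds.symm
    · rw [if_neg hzV]
  refine ⟨fun z => if z ∈ V then F z else g z, ?_, ?_, hev⟩
  · intro s hs
    exact (hg s hs).congr (hev s hs).symm
  · intro s hs
    exact if_pos hs

/-- `mero_identity` on the half plane `b < re s` (convex) and `mero_fix`. -/
theorem mero_fix_half {g F : ℂ → ℂ} {b b' : ℝ} (hg : Meromorphic g)
    (hF : DifferentiableOn ℂ F {s : ℂ | b < s.re}) (h : ∀ s : ℂ, b' < s.re → F s = g s) :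
    ∃ g' : ℂ → ℂ, Meromorphic g' ∧ ∀ s : ℂ, b < s.re → F s = g' s := by
  have hVo : IsOpen {s : ℂ | b < s.re} := isOpen_lt continuous_const Complex.continuous_re
  have hVo' : IsOpen {s : ℂ | b' < s.re} := isOpen_lt continuous_const Complex.continuous_re
  have hU : IsPreconnected {s : ℂ | b < s.re} := (convex_halfSpace_re_gt b).isPreconnected
  have hFm : MeromorphicOn F {s : ℂ | b < s.re} := fun s hs =>
    (hF.analyticAt (hVo.mem_nhds hs)).meromorphicAt
  have h₀ : (((max b b' + 1 : ℝ) : ℂ)) ∈ {s : ℂ | b < s.re} := by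
    show b < (((max b b' + 1 : ℝ) : ℂ)).re
    rw [Complex.ofReal_re]
    have := le_max_left b b'
    linarith
  have h₀' : (((max b b' + 1 : ℝ) : ℂ)) ∈ {s : ℂ | b' < s.re} := by
    show b' < (((max b b' + 1 : ℝ) : ℂ)).re
    rw [Complex.ofReal_re]
    have := le_max_right b b'
    linarith
  have hloc : g =ᶠ[𝓝[≠] (((max b b' + 1 : ℝ) : ℂ))] F := by
    apply Filter.Eventually.filter_mono nhdsWithin_le_nhds
    filter_upwards [hVo'.mem_nhds h₀'] with z hz
    exact (h z hz).symm
  have hid := mero_identity hU (fun s _ => hg s) hFm h₀ hloc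
  obtain ⟨g', h1, h2, -⟩ := mero_fix (U := univ) (fun s _ => hg s) hVo (subset_univ _) hF hid
  exact ⟨g', fun s => h1 s (mem_univ s), fun s hs => (h2 s hs).symm⟩

end Pool.Agent.ZT
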