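import Pool.Agent.W_eea520_h69.BorelA

/-! Extendability is a Borel condition: several parameters. -/

set_option autoImplicit false

namespace Pool.Agent.ZT

open Filter Topology Metric Set

/-- The set of all `(β, q, u)` with `q ∈ QQ d`, `u ∈ UU N R` and `q h_β = u` is closed in
`Y × (QQ d × UU N R)`, since for every `z` both sides of the equation are continuous
(`continuousOn_ev_QQ`, `continuousOn_ev_UU`); the second factor is compact. -/
theorem isClosed_rel' {Y : Type*} [TopologicalSpace Y] {h : Y → ℂ → ℂ} (hc : ∀ z, ‖z‖ < 1 → Continuous fun β => h β z)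
    (d N : ℕ) {R : ℝ} (hR : 1 < R) :
    IsClosed {x : Y × (ℕ → ℂ) × (ℕ → ℂ) | x.2.1 ∈ QQ d ∧ x.2.2 ∈ UU N R ∧
      Rel (h x.1) x.2.1 x.2.2} := by
  have hC : IsClosed {x : Y × (ℕ → ℂ) × (ℕ → ℂ) | x.2.1 ∈ QQ d ∧ x.2.2 ∈ UU N R} :=
    ((isCompact_QQ d).isClosed.preimage (continuous_fst.comp continuous_snd)).inter
      ((isCompact_UU N R).isClosed.preimage (continuous_snd.comp continuous_snd))
  have hz : ∀ z : ℂ, ‖z‖ < 1 → IsClosed ({x : Y × (ℕ → ℂ) × (ℕ → ℂ) | x.2.1 ∈ QQ d ∧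
      x.2.2 ∈ UU N R} ∩ (fun x => ev x.2.1 z * h x.1 z - ev x.2.2 z) ⁻¹' {0}) := by
    intro z hz
    refine ContinuousOn.preimage_isClosed_of_isClosed ?_ hC isClosed_singleton
    refine ContinuousOn.sub (ContinuousOn.mul ?_ ?_) ?_
    · exact (continuousOn_ev_QQ d).comp
        (((continuous_fst.comp continuous_snd).prodMk continuous_const).continuousOn)
        (fun x hx => ⟨hx.1, mem_univ z⟩)
    · exact ((hc z hz).comp continuous_fst).continuousOn
    · exact (continuousOn_ev_UU N zero_le_one hR).comp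
        (((continuous_snd.comp continuous_snd).prodMk continuous_const).continuousOn)
        (fun x hx => ⟨hx.2, by simpa using hz.le⟩)
  have hall : IsClosed (⋂ z : ℂ, ⋂ _ : ‖z‖ < 1, ({x : Y × (ℕ → ℂ) × (ℕ → ℂ) | x.2.1 ∈ QQ d ∧
      x.2.2 ∈ UU N R} ∩ (fun x => ev x.2.1 z * h x.1 z - ev x.2.2 z) ⁻¹' {0})) :=
    isClosed_iInter fun z => isClosed_iInter fun hz1 => hz z hz1
  convert hall using 1
  ext x
  simp only [mem_setOf_eq, mem_iInter, mem_inter_iff, mem_preimage, mem_singleton_iff]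
  constructor
  · rintro ⟨h1, h2, h3⟩ z hz1
    exact ⟨⟨h1, h2⟩, sub_eq_zero.2 (h3 z hz1)⟩
  · intro h1
    obtain ⟨⟨h2, h3⟩, -⟩ := h1 0 (by simp)
    exact ⟨h2, h3, fun z hz1 => sub_eq_zero.1 (h1 z hz1).2⟩

/-- Projection along a compact factor. -/
theorem isClosed_adm' {Y : Type*} [TopologicalSpace Y] {h : Y → ℂ → ℂ} (hc : ∀ z, ‖z‖ < 1 → Continuous fun β => h β z)
    (d N : ℕ) {R : ℝ} (hR : 1 < R) : IsClosed {β : Y | Adm (h β) d N R} := by
  have : CompactSpace ↥(QQ d ×ˢ UU N R) :=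
    isCompact_iff_compactSpace.1 ((isCompact_QQ d).prod (isCompact_UU N R))
  have h1 := (isClosed_rel' hc d N hR).preimage
    (continuous_fst.prodMk (continuous_subtype_val.comp continuous_snd) :
      Continuous fun y : Y × ↥(QQ d ×ˢ UU N R) => (y.1, (y.2 : (ℕ → ℂ) × (ℕ → ℂ))))
  have h2 := isClosedMap_fst_of_compactSpace (X := Y) (Y := ↥(QQ d ×ˢ UU N R)) _ h1
  convert h2 using 1
  ext β
  simp only [mem_setOf_eq, mem_image, mem_preimage]
  constructor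
  · rintro ⟨q, hq, u, hu, hr⟩
    exact ⟨(β, ⟨(q, u), ⟨hq, hu⟩⟩), ⟨hq, hu, hr⟩, rfl⟩
  · rintro ⟨⟨b, ⟨⟨q, u⟩, hqu⟩⟩, ⟨hq, hu, hr⟩, rfl⟩
    exact ⟨q, hq, u, hu, hr⟩

/-- The set is a countable intersection of countable unions of closed sets (`isClosed_adm`). -/
theorem measurable_mero' {Y : Type*} [TopologicalSpace Y] [MeasurableSpace Y] [OpensMeasurableSpace Y]
    {h : Y → ℂ → ℂ} (hc : ∀ z, ‖z‖ < 1 → Continuous fun β => h β z)
    (hd : ∀ β, DifferentiableOn ℂ (h β) (ball 0 1)) (c : ℂ) :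
    MeasurableSet {β : Y | ∃ f : ℂ → ℂ, Meromorphic f ∧ ∀ z, ‖z‖ < 1 → h β z = f (c + z)} := by
  have h1 : {β : Y | ∃ f : ℂ → ℂ, Meromorphic f ∧ ∀ z, ‖z‖ < 1 → h β z = f (c + z)} =
      ⋂ n : ℕ, ⋃ d : ℕ, ⋃ N : ℕ, {β : Y | Adm (h β) d N ((n : ℝ) + 2)} := by
    ext β
    simp only [mem_setOf_eq, mem_iInter, mem_iUnion]
    exact exists_mero_iff (hd β) c
  rw [h1]
  refine MeasurableSet.iInter fun n => MeasurableSet.iUnion fun d => MeasurableSet.iUnion fun N =>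
    (isClosed_adm' hc d N ?_).measurableSet
  have : (0 : ℝ) ≤ n := Nat.cast_nonneg n
  linarith

end Pool.Agent.ZT
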