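import Pool.Agent.W_eea520_h66.MainCS

/-!
# Analytic continuation of the L-functions of `GSp(2n)`: reduction to the continuous spectrum

`S k` and `P n` are arbitrary sets of systems of parameters for `GL_k` and `GSp_{2n}` with the properties
`IsCuspidal`, for example the systems of Satake parameters of the unitary representations in the
cuspidal, or in the discrete, automorphic spectra. `Eis S P n` consists of all systems for `GSp_{2n}`
obtained from them by parabolic induction with arbitrary complex twists, and `UFam S P L n` of the
unitary families `F t = σ_L |det| ^ (-i t_L) × … × σ_1 |det| ^ (-i t_1) ⊗ π`, `t ∈ ℝ ^ L`. For the discrete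
spectra and `L ≥ 1` the twists of the `F t` by `|ν| ^ (-i u t)` with trivial central character are the
components of the continuous spectrum of `PGSp_{2n}`.

`IsIrr k μ m` says that `m` is the character of the irreducible representation of `GSpin` with the
highest weight `(k, μ)` (Weyl's character formula). It is nontrivial on the element `-1` of the spin
group if and only if `k` is odd; the coordinates of its highest weight in the usual sense are the
`μ_i - k / 2 ≥ 0`. `OneV` and `Tower` are explained in the file `OneRepresentation.lean`.
-/

namespace Pool.Agent.Results.MP_eea520_nt.ContinuousSpectrum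

open Pool.Agent.EEA520 MeasureTheory

/-- (1) Let `Z` be sets of complex numbers whose real parts are not bounded below. The following are
equivalent:

(a) for every `r` there are a rank `N` and an irreducible representation of `GSpin_{2N+1}`, nontrivial
on `-1`, with at least `r` equal coordinates of its highest weight (for example, the spin
representation, if `r ≤ N`), such that for every unitary family `F` in `UFam S P L N` with `L ≥ 1`
parameters, every function `u` such that the twists of `F t` by the power `-i u t` of the absolute
value of the similitude factor have trivial central character, and every real number `C` the set of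
all `t` for which the Euler product of this twist for this representation extends meromorphically to
`Re s > C` is not meagre or does not have measure zero;

(b) for all `n` and all `π` in `Eis S P n` with trivial central character there are an odd number `l` and
one irreducible representation of some `GSpin_{2N+3}`, nontrivial on `-1`, such that apart from the
first one at least `2n` of the coordinates of its highest weight are equal to `l / 2`, and such that
for all `π'` in `Tower Z π N` and all `R` there is a `z` with `Re z < -R` for which the Euler product of
`klingen π' z` extends meromorphically to the half strip `Re s > (μ_0 - k / 2) |Re z| - R`,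
`|Im (s + (μ_0 - k / 2) z)| < R` (see `OneV` and `ContinuesBeyond`);

(c) for all `n` and all `π` in `Eis S P n` the Euler product of `π` for the spin representation extends
meromorphically to `ℂ`.

(2) They imply: for all `n`, all `π` in `Eis S P n` with the property `HasTransfer` and all virtual
characters `m` of `GSpin_{2n+1}` the Euler product of `π` for `m` extends meromorphically to `ℂ`; and for
all `k`, all `σ` in `S k` and all virtual characters `m` of `GL_k` the Euler product of `σ` for `m`
extends meromorphically to `ℂ`. -/
theorem result (S : (k : ℕ) → Set (GLSys k)) (P : (n : ℕ) → Set (GSys n)) (h : IsCuspidal S P) :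
    (∀ Z : (n : ℕ) → GSys n → Set ℂ, (∀ (n : ℕ) (π : GSys n) (B : ℝ), ∃ z ∈ Z n π, z.re < B) →
      List.TFAE [
        ∀ r : ℕ, ∃ (N : ℕ) (k : ℤ) (μ : Fin N → ℤ) (m : Wt N →₀ ℤ) (v : ℤ), Odd k ∧
          IsIrr k μ m ∧ r ≤ (Finset.univ.filter fun i => μ i = v).card ∧
          ∀ (L : ℕ) (F : (Fin L → ℝ) → GSys N), 0 < L → UFam S P L N F →
            ∀ u : (Fin L → ℝ) → ℝ, (∀ t, TrivialCentral (twist (F t) (u t * Complex.I))) →
              ∀ C : ℝ, ¬ (IsMeagre {t | ContinuesTo C (twist (F t) (u t * Complex.I)) m} ∧
                volume {t | ContinuesTo C (twist (F t) (u t * Complex.I)) m} = 0),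
        ∀ (n : ℕ) (π : GSys n), Eis S P n π → TrivialCentral π →
          ∃ (k : ℤ) (l : ℕ), Odd k ∧ Odd l ∧ OneV Z k l π,
        ∀ n π, Eis S P n π → Continues π (spin n)]) ∧
    ((∀ n π, Eis S P n π → Continues π (spin n)) →
      (∀ n π, Eis S P n π → HasTransfer S π →
        ∀ m : Wt n →₀ ℤ, IsCharacter m → Continues π m) ∧
      ∀ k, ∀ σ ∈ S k, ∀ m : (Fin k → ℤ) →₀ ℤ, IsSymmetric m → GLContinues σ m) :=
  ⟨fun _ hZ => mainCS h hZ, (main h fun _ _ _ _ => 0).2⟩

end Pool.Agent.Results.MP_eea520_nt.ContinuousSpectrum
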