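import Pool.Agent.W_eea520_h69.HMain

/-!
# No cancellation in the Eisenstein families of L-functions of `GSp(2n)`

`π` is a system of Satake parameters for `GSp_{2n}`, and `π_z = shift π l₀ l z`, `z ∈ ℂ ^ L`, is a
family of its twists by points of the torus; for example, all families of induced representations are
of this form (`shift_induce` for maximal parabolic subgroups). `m` is a finitely supported function on
the weights of `GSpin_{2n+1}`, for example the character of a representation `ρ`, and
`m.filter fun w => mdeg l₀ l w = a` is its part of multidegree `a ∈ ℤ ^ L`. The abscissa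
`absc π m` is the infimum of all real numbers `c` such that the Euler product of `π` for `m` extends
to a meromorphic function on `Re s > c`.
-/

namespace Pool.Agent.W_eea520_h69.OldNoCancellation

open Pool.Agent.EEA520 MeasureTheory

/-- Let `σ_a`, `a ∈ ℤ ^ L`, be the abscissa of `π` for the part of multidegree `a` of `m`, and
`f x = max_a (σ_a + a · x)`, `x ∈ ℝ ^ L`.

(0) For all `z` and all `m'`: the Euler product of `π_z` for `m'` extends meromorphically to `ℂ` if and
only if the abscissa is `-∞`, and to `Re s > c` if and only if the abscissa is at most `c`.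

(1) The abscissa of `π_z` for `m` is at most `f (Re z)`.

(2) It is equal to `f (Re z)`, if the maximum is attained only once.

(3) Let `B` be the set of the `a` with `σ_a ≠ -∞`. If `v ∈ ℝ ^ L` is such that the numbers `a · v`,
`a ∈ B`, are distinct (for example, `L = 1` and `v = 1`), and `u ∈ ℝ ^ L`, then the abscissa of `π_z` is
equal to `f (Re z)` for all `z` with `Re z = u + s v` and all real `s` except at most
`|B| - 1` (`0`, if `B` is empty).

(4) For every `x ∈ ℝ ^ L`, the abscissa of `π_(x + i t)` is equal to `f x` for all `t ∈ ℝ ^ L` outside a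
meagre set of measure zero. -/
theorem result {n L : ℕ} (π : GSys n) (hπ : PolyBounded π) (l₀ : Fin L → ℤ)
    (l : Fin n → Fin L → ℤ) (m : Wt n →₀ ℤ) :
    (∀ (z : Fin L → ℂ) (m' : Wt n →₀ ℤ),
      (Continues (shift π l₀ l z) m' ↔ absc (shift π l₀ l z) m' = ⊥) ∧
      ∀ c : ℝ, ContinuesTo c (shift π l₀ l z) m' ↔ absc (shift π l₀ l z) m' ≤ c) ∧
    (∀ z : Fin L → ℂ, absc (shift π l₀ l z) m ≤ trop π l₀ l m fun j => (z j).re) ∧
    (∀ (z : Fin L → ℂ) (a : Fin L → ℤ),
      (∀ b ≠ a, term π l₀ l m (fun j => (z j).re) b < term π l₀ l m (fun j => (z j).re) a) →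
        absc (shift π l₀ l z) m = term π l₀ l m (fun j => (z j).re) a) ∧
    (∀ u v : Fin L → ℝ,
      Set.InjOn (fun a : Fin L → ℤ => ∑ j, a j * v j)
        {a | absc π (m.filter fun w => mdeg l₀ l w = a) ≠ ⊥} →
      ∃ X : Finset ℝ,
        X.card ≤ Set.ncard {a | absc π (m.filter fun w => mdeg l₀ l w = a) ≠ ⊥} - 1 ∧
        ∀ z : Fin L → ℂ, ∀ s ∉ X, (∀ j, (z j).re = u j + s * v j) →
          absc (shift π l₀ l z) m = trop π l₀ l m fun j => (z j).re) ∧
    ∀ x : Fin L → ℝ,
      IsMeagre {t : Fin L → ℝ |
        absc (shift π l₀ l fun j => x j + t j * Complex.I) m ≠ trop π l₀ l m x} ∧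
      volume {t : Fin L → ℝ |
        absc (shift π l₀ l fun j => x j + t j * Complex.I) m ≠ trop π l₀ l m x} = 0 :=
  no_cancellation π hπ l₀ l m

end Pool.Agent.W_eea520_h69.OldNoCancellation
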