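import Pool.Agent.W_eea520_h25.Cusp

/-! Degrees of weights, bounded systems of parameters. -/

set_option autoImplicit false

namespace Pool.Agent.EEA520

open Filter

/-- The degree of a weight of `GSpin_{2(n+k)+1}` in the last `k` coordinates. -/
def degL {n k : ℕ} (w : Wt (n + k)) : ℤ := ∑ i : Fin k, w.2 (Fin.natAdd n i)

/-- All parameters of the system and their inverses are bounded by a power of `p`, for almost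
all `p`. -/
def PolyBounded {n : ℕ} (π : GSys n) : Prop := ∃ B : ℝ, ∀ᶠ p : Pr in cofinite,
  (‖((π p).c : ℂ)‖ ≤ ((p : ℕ) : ℝ) ^ B ∧ ‖(((π p).c⁻¹ : ℂˣ) : ℂ)‖ ≤ ((p : ℕ) : ℝ) ^ B) ∧
  ∀ i, ‖((π p).x i : ℂ)‖ ≤ ((p : ℕ) : ℝ) ^ B ∧ ‖((((π p).x i)⁻¹ : ℂˣ) : ℂ)‖ ≤ ((p : ℕ) : ℝ) ^ B

/-- All parameters of the system and their inverses are bounded by a power of `p`, for almost
all `p`. -/
def PolyBoundedL {k : ℕ} (σ : GLSys k) : Prop := ∃ B : ℝ, ∀ᶠ p : Pr in cofinite,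
  ∀ i, ‖(σ p i : ℂ)‖ ≤ ((p : ℕ) : ℝ) ^ B ∧ ‖(((σ p i)⁻¹ : ℂˣ) : ℂ)‖ ≤ ((p : ℕ) : ℝ) ^ B

end Pool.Agent.EEA520
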