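import Pool.Agent.W_eea520_h66.OneRep
import Pool.Agent.W_eea520_h69.ZDefs

/-!
# Analytic continuation of the L-functions of `GSp(2n)`: one irreducible representation

A system of parameters `π` for `GSp_{2n}` (for every prime `p` an element `(c; x_1, …, x_n)` of the
maximal torus of the dual group `GSpin_{2n+1}(ℂ)`) need not be automorphic. `klingen π z` is the system
`(c p ^ (-z/2); x, p ^ z)` of the representation of `GSp_{2n+2}` induced from `|·| ^ (-z) ⊗ π`, with `π` on
the factor `GSp_{2n}` of the Levi subgroup `GL_1 × GSp_{2n}`, twisted such that the central character
does not change, `Tower Z π N` is the set of the systems for `GSp_{2N}` obtained from `π` by repeating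
this `N - n` times with `z` in the sets `Z`, and `borel π q z` is the system `(c; x, p ^ z_1, …, p ^ z_q)`
of the representation of `GSp_{2(n+q)}` induced from `|·| ^ (-z_q) ⊗ … ⊗ |·| ^ (-z_1) ⊗ π`. For automorphic
`π` all of them are automorphic, by the theory of Eisenstein series, and for suitable sets `Z`, for
example the negative integers below a bound, they are the systems of Satake parameters of
absolutely convergent Eisenstein series.

`IsIrr k μ m` says that `m` is the character of the irreducible representation of `GSpin` with the
highest weight `(k, μ)` (Weyl's character formula). It is nontrivial on the element `-1` of the spin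
group if and only if `k` is odd; the coordinates of its highest weight in the usual sense are the
`μ_i - k / 2 ≥ 0`. The Euler product of `klingen π' z` for `m` converges absolutely for
`Re s > (μ_0 - k / 2) |Re z| + C`, where `C` does not depend on `z`; `ContinuesBeyond (μ_0 - k / 2) π' m`
says that for every `R` it extends for some `z` with `Re z < -R` to the half strip
`Re s > (μ_0 - k / 2) |Re z| - R`, `|Im (s + (μ_0 - k / 2) z)| < R`.
-/

namespace Pool.Agent.Results.MP_eea520_nt.OneRepresentation

open Pool.Agent.EEA520 MeasureTheory

/-- Let `π` be a system of parameters for `GSp_{2n}`, bounded by powers of `p`, and let `Z` be sets of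
complex numbers whose real parts are not bounded below.

(1) Let `k` and `l ≥ 0` be integers such that `k + l` is even. The following are equivalent:

(a) for all irreducible representations of `GSpin_{2n+1}` with a highest weight `(k, ν)` such that
`ν_i - k / 2 ≤ l / 2` for all `i` the Euler product of `π` extends meromorphically to `ℂ`;

(b) for one irreducible representation of some `GSpin_{2N+3}` with a highest weight `(k, μ)` such that at
least `2n` of the coordinates `μ_i - k / 2`, apart from the first one, are equal to `l / 2`, the Euler
products for all `π'` in `Tower Z π N` satisfy `ContinuesBeyond`;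

(c) there are a `q` and one irreducible representation of `GSpin_{2(n+q)+1}` with a highest weight `(k, μ)`
such that at least `2n` of the coordinates `μ_i - k / 2` are equal to `l / 2` and such that for every real
number `C` the set of all `t ∈ ℝ ^ q` for which the Euler product of `borel π q (i t)` for this
representation extends meromorphically to `Re s > C` is not meagre or does not have measure zero.

(2) The Euler products of `π` for all virtual characters of `GSpin_{2n+1}` extend meromorphically to `ℂ`
if and only if for every `k` there are arbitrarily large `l` with `k + l` even which have the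
property (b). -/
theorem result (Z : (n : ℕ) → GSys n → Set ℂ)
    (hZ : ∀ (n : ℕ) (π : GSys n) (B : ℝ), ∃ z ∈ Z n π, z.re < B)
    (n : ℕ) (π : GSys n) (hπ : PolyBounded π) :
    (∀ (k : ℤ) (l : ℕ), Even (k + l) → List.TFAE [
      ∀ (ν : Fin n → ℤ) (m : Wt n →₀ ℤ), IsIrr k ν m → (∀ i, 2 * ν i ≤ k + l) → Continues π m,
      OneV Z k l π,
      ∃ (q : ℕ) (μ : Fin (n + q) → ℤ) (m : Wt (n + q) →₀ ℤ), IsIrr k μ m ∧
        2 * n ≤ (Finset.univ.filter fun i => 2 * μ i = k + l).card ∧
        ∀ C : ℝ, ¬ (IsMeagre {t : Fin q → ℝ |
            ContinuesTo C (borel π q fun j => t j * Complex.I) m} ∧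
          volume {t : Fin q → ℝ | ContinuesTo C (borel π q fun j => t j * Complex.I) m} = 0)]) ∧
    ((∀ m : Wt n →₀ ℤ, IsCharacter m → Continues π m) ↔
      ∀ (k : ℤ) (L : ℕ), ∃ l : ℕ, L ≤ l ∧ Even (k + l) ∧ OneV Z k l π) :=
  ⟨fun k l hkl => one_rep hZ hπ k l hkl, all_rep hZ hπ⟩

end Pool.Agent.Results.MP_eea520_nt.OneRepresentation
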