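import Pool.Agent.W_eea520_h25.Cusp

/-! Unitary families of induced representations. -/

set_option autoImplicit false

namespace Pool.Agent.EEA520

open Filter

/-- The families `t ↦ σ_L |det| ^ (-i t_L) × … × σ_1 |det| ^ (-i t_1) ⊗ π`, `t ∈ ℝ ^ L`, of systems of
parameters for `GSp_{2n}`, unitarily induced from `GL_{k_L} × … × GL_{k_1} × GSp_{2n'}`, with `σ_j` in
`S k_j`, `k_j ≥ 1`, and `π` in `P n'`. -/
inductive UFam (S : (k : ℕ) → Set (GLSys k)) (P : (n : ℕ) → Set (GSys n)) :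
    (L n : ℕ) → ((Fin L → ℝ) → GSys n) → Prop
  | base {n : ℕ} {π : GSys n} : π ∈ P n → UFam S P 0 n fun _ => π
  | ind {L n k : ℕ} {F : (Fin L → ℝ) → GSys n} {σ : GLSys k} : 0 < k → UFam S P L n F → σ ∈ S k →
      UFam S P (L + 1) (n + k) fun t =>
        induce (F fun j => t j.castSucc) σ (t (Fin.last L) * Complex.I)

end Pool.Agent.EEA520
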